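import Pool.Agent.W_04c03c_h58k.TDef

/-!
# The Hilbert space of a positive semidefinite form with a group action
-/

namespace Kaz

universe u

open UniformSpace in
theorem AA_gen {𝕜 : Type} [RCLike 𝕜] {K : Type*} [Group K] {W : Type u}
    [SeminormedAddCommGroup W] [InnerProductSpace 𝕜 W] (ρ : K →* (W →ₗ[𝕜] W))
    (hρ : ∀ k x y, inner 𝕜 (ρ k x) (ρ k y) = inner 𝕜 x y) :
    ∃ (π : K →* (Completion W ≃ₗᵢ[𝕜] Completion W)),
      ∀ k (x : W), π k (x : Completion W) = ((ρ k x : W) : Completion W) := by
  have hn : ∀ k x, ‖ρ k x‖ = ‖x‖ := fun k x => by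
    rw [norm_eq_sqrt_re_inner (𝕜 := 𝕜), hρ, ← norm_eq_sqrt_re_inner]
  let r : K → (W →ₗᵢ[𝕜] W) := fun k => ⟨ρ k, hn k⟩
  let T : K → (Completion W →L[𝕜] Completion W) := fun k =>
    (r k).toContinuousLinearMap.completion
  have hT : ∀ k (x : W), T k (x : Completion W) = ((ρ k x : W) : Completion W) := fun k x =>
    Completion.map_coe (r k).toContinuousLinearMap.uniformContinuous x
  have hTn : ∀ k z, ‖T k z‖ = ‖z‖ := fun k z =>
    Completion.induction_on z
      (isClosed_eq ((T k).continuous.norm) continuous_norm) fun x => by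
        rw [hT, Completion.norm_coe, Completion.norm_coe, hn]
  have h1 : ∀ z, T 1 z = z := fun z =>
    Completion.induction_on z
      (isClosed_eq (T 1).continuous continuous_id) fun x => by
        rw [hT, map_one]; rfl
  have hm : ∀ k l z, T (k * l) z = T k (T l z) := fun k l z =>
    Completion.induction_on z
      (isClosed_eq (T (k * l)).continuous ((T k).continuous.comp (T l).continuous)) fun x => by
        rw [hT, hT, hT, map_mul]; rfl
  refine ⟨{
    toFun := fun k =>
      { toLinearEquiv := LinearEquiv.ofLinearMap (T k : Completion W →ₗ[𝕜] Completion W)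
          (T k⁻¹ : Completion W →ₗ[𝕜] Completion W)
          (LinearMap.ext fun z => by
            change T k (T k⁻¹ z) = z
            rw [← hm, mul_inv_cancel, h1])
          (LinearMap.ext fun z => by
            change T k⁻¹ (T k z) = z
            rw [← hm, inv_mul_cancel, h1])
        norm_map' := fun z => hTn k z }
    map_one' := LinearIsometryEquiv.ext fun z => h1 z
    map_mul' := fun k l => LinearIsometryEquiv.ext fun z => hm k l z }, fun k x => hT k x⟩

/-- The Hilbert space of a positive semidefinite form which is invariant under a group.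

Proof. `W` becomes a `SeminormedAddCommGroup` with the (semi) inner product `c`
(`PreInnerProductSpace.Core`: `InnerProductSpace.Core.toSeminormedAddCommGroup`,
`InnerProductSpace.ofCoreSeminormed` or similar names; it helps to work with a type synonym of `W`,
or with local instances `letI`). `E` is the completion of (the separation quotient of) `W`:
`UniformSpace.Completion W` has the instances `NormedAddCommGroup`, `InnerProductSpace 𝕜`,
`CompleteSpace` for a seminormed `W` (in Mathlib: `UniformSpace.Completion.toInnerProductSpace`,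
stated for `SeminormedAddCommGroup`), `ι` is the canonical map
(`UniformSpace.Completion.toComplₗᵢ` or `toComplL`), with dense range. Each `ρ k` is a linear isometry
of `W` (norms are given by `c`), it extends to the completion (`LinearMap.extend`,
`ContinuousLinearMap.completion`, or `UniformSpace.Completion.map`), and the extension is an
isometry with inverse the extension of `ρ k⁻¹`; multiplicativity by density
(`UniformSpace.Completion.induction_on` / `DenseRange.equalizer`). To build the homomorphism to
`E ≃ₗᵢ[𝕜] E` use `LinearIsometryEquiv` with the underlying `LinearEquiv.ofLinear`, or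
`MonoidHom.mk'`. -/
theorem exists_hilb {𝕜 : Type} [RCLike 𝕜] {K : Type*} [Group K] {W : Type u} [AddCommGroup W]
    [Module 𝕜 W] (c : PreInnerProductSpace.Core 𝕜 W) (ρ : K →* (W →ₗ[𝕜] W))
    (hρ : ∀ k x y, c.inner (ρ k x) (ρ k y) = c.inner x y) :
    ∃ (E : Type u) (_ : NormedAddCommGroup E) (_ : InnerProductSpace 𝕜 E) (_ : CompleteSpace E)
      (π : K →* (E ≃ₗᵢ[𝕜] E)) (ι : W →ₗ[𝕜] E), DenseRange ι ∧
      (∀ x y, inner 𝕜 (ι x) (ι y) = c.inner x y) ∧ ∀ k x, π k (ι x) = ι (ρ k x) := by
  letI i1 : SeminormedAddCommGroup W := @InnerProductSpace.Core.toSeminormedAddCommGroup 𝕜 W _ _ _ c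
  letI i2 : InnerProductSpace 𝕜 W := InnerProductSpace.ofCore c
  obtain ⟨π, hπ⟩ := AA_gen (𝕜 := 𝕜) (W := W) ρ (fun k x y => hρ k x y)
  refine ⟨UniformSpace.Completion W, inferInstance, inferInstance, inferInstance, π,
    (UniformSpace.Completion.toComplₗᵢ (𝕜 := 𝕜) (E := W)).toLinearMap, ?_, ?_, ?_⟩
  · exact UniformSpace.Completion.denseRange_coe
  · intro x y
    exact UniformSpace.Completion.inner_coe x y
  · intro k x
    exact hπ k x

end Kaz
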