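import Pool.Agent.W_04c03c_h58k.AA

/-!
# The ultrapower of an orthogonal representation
-/

namespace Kaz

universe u

open Filter

/-- bounded sequences -/
def Bd (V : Type*) [NormedAddCommGroup V] [InnerProductSpace ℝ V] : Submodule ℝ (ℕ → V) where
  carrier := {x | ∃ C : ℝ, ∀ n, ‖x n‖ ≤ C}
  add_mem' := by
    rintro x y ⟨C, hC⟩ ⟨D, hD⟩
    exact ⟨C + D, fun n => (norm_add_le _ _).trans (add_le_add (hC n) (hD n))⟩
  zero_mem' := ⟨0, fun n => by simp⟩
  smul_mem' := by
    rintro c x ⟨C, hC⟩
    refine ⟨|c| * C, fun n => ?_⟩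
    rw [Pi.smul_apply, norm_smul, Real.norm_eq_abs]
    exact mul_le_mul_of_nonneg_left (hC n) (abs_nonneg c)

/-- limit along the ultrafilter, existence -/
theorem AB_tendsto {f : ℕ → ℝ} (h : ∃ C, ∀ n, |f n| ≤ C) :
    Tendsto f (hyperfilter ℕ : Filter ℕ) (nhds (limUnder (hyperfilter ℕ : Filter ℕ) f)) := by
  obtain ⟨C, hC⟩ := h
  have hc : IsCompact (Set.Icc (-C) C) := isCompact_Icc
  have h1 : (((hyperfilter ℕ).map f : Ultrafilter ℝ) : Filter ℝ) ≤ principal (Set.Icc (-C) C) := by
    rw [le_principal_iff, Ultrafilter.coe_map, mem_map]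
    refine univ_mem' fun n => ?_
    exact abs_le.mp (hC n)
  obtain ⟨a, -, ha⟩ := hc.ultrafilter_le_nhds ((hyperfilter ℕ).map f) h1
  exact tendsto_nhds_limUnder ⟨a, by simpa [Tendsto] using ha⟩

theorem AB_inner_bd {V : Type*} [NormedAddCommGroup V] [InnerProductSpace ℝ V] (x y : Bd V) :
    ∃ C, ∀ n, |inner ℝ (x.1 n) (y.1 n)| ≤ C := by
  obtain ⟨C, hC⟩ := x.2
  obtain ⟨D, hD⟩ := y.2
  refine ⟨C * D, fun n => ?_⟩
  refine (abs_real_inner_le_norm _ _).trans ?_
  exact mul_le_mul (hC n) (hD n) (norm_nonneg _) ((norm_nonneg _).trans (hC n))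

/-- the semi-inner product `lim_U <x_n, y_n>` -/
@[reducible] noncomputable def AB_core (V : Type*) [NormedAddCommGroup V] [InnerProductSpace ℝ V] :
    PreInnerProductSpace.Core ℝ (Bd V) where
  inner x y := limUnder (hyperfilter ℕ : Filter ℕ) (fun n => inner ℝ (x.1 n) (y.1 n))
  conj_inner_symm x y := by
    simp only [conj_trivial]
    congr 1
    funext n
    exact real_inner_comm _ _
  re_inner_nonneg x := by
    simp only [RCLike.re_to_real]
    exact ge_of_tendsto (AB_tendsto (AB_inner_bd x x))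
      (Eventually.of_forall fun n => real_inner_self_nonneg)
  add_left x y z := by
    refine Tendsto.limUnder_eq ?_
    have h1 := (AB_tendsto (AB_inner_bd x z)).add (AB_tendsto (AB_inner_bd y z))
    refine h1.congr fun n => ?_
    rw [← inner_add_left]
    rfl
  smul_left x y c := by
    refine Tendsto.limUnder_eq ?_
    have h1 := (AB_tendsto (AB_inner_bd x y)).const_mul c
    refine h1.congr fun n => ?_
    rw [← real_inner_smul_left]
    rfl

/-- the action on bounded sequences -/
noncomputable def AB_act {K : Type*} [Group K] {V : Type*} [NormedAddCommGroup V]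
    [InnerProductSpace ℝ V] (π : K →* (V ≃ₗᵢ[ℝ] V)) : K →* (Bd V →ₗ[ℝ] Bd V) where
  toFun k :=
    { toFun := fun x => ⟨fun n => π k (x.1 n), by
        obtain ⟨C, hC⟩ := x.2
        exact ⟨C, fun n => by
          have : ‖π k (x.1 n)‖ = ‖x.1 n‖ := LinearIsometryEquiv.norm_map _ _
          rw [this]; exact hC n⟩⟩
      map_add' := fun x y => by
        apply Subtype.ext
        funext n
        exact map_add (π k) (x.1 n) (y.1 n)
      map_smul' := fun c x => by
        apply Subtype.ext
        funext n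
        exact map_smul (π k) c (x.1 n) }
  map_one' := by
    apply LinearMap.ext
    intro x
    apply Subtype.ext
    funext n
    change π 1 (x.1 n) = x.1 n
    rw [map_one]
    rfl
  map_mul' k l := by
    apply LinearMap.ext
    intro x
    apply Subtype.ext
    funext n
    change π (k * l) (x.1 n) = π k (π l (x.1 n))
    rw [map_mul]
    rfl

theorem AB_act_apply {K : Type*} [Group K] {V : Type*} [NormedAddCommGroup V]
    [InnerProductSpace ℝ V] (π : K →* (V ≃ₗᵢ[ℝ] V)) (k : K) (x : Bd V) (n : ℕ) :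
    (AB_act π k x).1 n = π k (x.1 n) := rfl

/-- evaluation at `n` -/
noncomputable def AB_ev (V : Type*) [NormedAddCommGroup V] [InnerProductSpace ℝ V] (n : ℕ) :
    Bd V →ₗ[ℝ] V where
  toFun x := x.1 n
  map_add' _ _ := rfl
  map_smul' _ _ := rfl

/-- The ultrapower of a tempered representation.

Proof. For bounded sequences `x, y` the real numbers `⟪x n, y n⟫` are bounded (Cauchy-Schwarz), so
they converge along the ultrafilter `hyperfilter ℕ` (a bounded closed interval is compact:
`isCompact_Icc.ultrafilter_le_nhds` for the ultrafilter `(hyperfilter ℕ).map _`); let `B x y` be the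
limit. By uniqueness of limits `B` is bilinear, symmetric and `B x x ≥ 0`, i.e. a
`PreInnerProductSpace.Core ℝ (Bd V)`. `K` acts on `Bd V` by `(k x) n = π k (x n)` and preserves `B`.
Apply `exists_hilb`. Then `‖ι x‖ ^ 2 = B x x` is the limit of `‖x n‖ ^ 2`, which gives the two
estimates. Tempered: let `a, C` be as in the definition. For `x : Bd V` and `y n = ∑ a_k π k (x n)`
we have `∑ a_k ρ k (ι x) = ι y` and `‖y n‖ ≤ C * ‖x n‖` for all `n` (`hπ`), so `‖ι y‖ ≤ C * ‖ι x‖`
(limits of the squares). By density of the range of `ι` and continuity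
of both sides the inequality holds for all vectors (`DenseRange.induction_on`, `isClosed_le`). -/
theorem exists_ultra {K : Type*} [Group K] {V : Type u} [NormedAddCommGroup V]
    [InnerProductSpace ℝ V] (π : K →* (V ≃ₗᵢ[ℝ] V)) (hπ : Tempered π) :
    ∃ (E : Type u) (_ : NormedAddCommGroup E) (_ : InnerProductSpace ℝ E) (_ : CompleteSpace E)
      (ρ : K →* (E ≃ₗᵢ[ℝ] E)) (ι : Bd V →ₗ[ℝ] E), Tempered ρ ∧ DenseRange ι ∧
      (∀ (x : Bd V) (c : ℝ), (∀ᶠ n in (hyperfilter ℕ : Filter ℕ), ‖x.1 n‖ ≤ c) → ‖ι x‖ ≤ c) ∧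
      (∀ (x : Bd V) (c : ℝ), (∀ᶠ n in (hyperfilter ℕ : Filter ℕ), c ≤ ‖x.1 n‖) → c ≤ ‖ι x‖) ∧
      ∀ (k : K) (x y : Bd V), (∀ n, y.1 n = π k (x.1 n)) → ρ k (ι x) = ι y := by
  obtain ⟨E, i1, i2, i3, ρ, ι, hd, hin, hρ⟩ := exists_hilb (𝕜 := ℝ) (AB_core V) (AB_act π)
    (fun k x y => by
      change limUnder (hyperfilter ℕ : Filter ℕ) (fun n => inner ℝ (π k (x.1 n)) (π k (y.1 n))) =
        limUnder (hyperfilter ℕ : Filter ℕ) (fun n => inner ℝ (x.1 n) (y.1 n))
      congr 1
      funext n
      exact LinearIsometryEquiv.inner_map_map _ _ _)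
  have hlim : ∀ x : Bd V,
      Tendsto (fun n => ‖x.1 n‖) (hyperfilter ℕ : Filter ℕ) (nhds ‖ι x‖) := by
    intro x
    have h1 := AB_tendsto (AB_inner_bd x x)
    have h0 : limUnder (hyperfilter ℕ : Filter ℕ) (fun n => inner ℝ (x.1 n) (x.1 n)) =
        inner ℝ (ι x) (ι x) := (hin x x).symm
    rw [h0, real_inner_self_eq_norm_sq] at h1
    have h2 := h1.sqrt
    rw [Real.sqrt_sq (norm_nonneg _)] at h2
    refine h2.congr fun n => ?_
    rw [real_inner_self_eq_norm_sq, Real.sqrt_sq (norm_nonneg _)]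
  refine ⟨E, i1, i2, i3, ρ, ι, ?_, hd, ?_, ?_, ?_⟩
  · intro a C hC hf v
    have hv := hπ a C hC hf
    refine hd.induction_on (p := fun v => ‖a.sum fun k r => r • ρ k v‖ ≤ C * ‖v‖) v ?_ ?_
    · refine isClosed_le ?_ (continuous_const.mul continuous_norm)
      refine Continuous.norm ?_
      simp only [Finsupp.sum]
      exact continuous_finsetSum _ fun k _ => ((ρ k).continuous).const_smul (a k)
    · intro x
      have hy : (a.sum fun k r => r • ρ k (ι x)) = ι (a.sum fun k r => r • AB_act π k x) := by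
        simp only [Finsupp.sum]
        rw [map_sum]
        refine Finset.sum_congr rfl fun k _ => ?_
        rw [map_smul, hρ]
      have he : ∀ n, (a.sum fun k r => r • AB_act π k x : Bd V).1 n =
          a.sum fun k r => r • π k (x.1 n) := by
        intro n
        change AB_ev V n (a.sum fun k r => r • AB_act π k x) = _
        simp only [Finsupp.sum]
        rw [map_sum]
        rfl
      rw [hy]
      refine le_of_tendsto_of_tendsto (hlim _) ((hlim x).const_mul C)
        (Eventually.of_forall fun n => ?_)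
      change ‖(a.sum fun k r => r • AB_act π k x : Bd V).1 n‖ ≤ C * ‖x.1 n‖
      rw [he n]
      exact hv (x.1 n)
  · intro x c h
    exact le_of_tendsto (hlim x) h
  · intro x c h
    exact ge_of_tendsto (hlim x) h
  · intro k x y h
    rw [hρ]
    congr 1
    apply Subtype.ext
    funext n
    rw [h n]
    rfl

end Kaz
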