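import Pool.Agent.W_04c03c_h58k.TDef

/-!
# Almost cocycles
-/

namespace Kaz

open Filter Topology

/-- the defect of `b` from being a cocycle, at the pair `p` -/
def dft {K : Type*} [Group K] {V : Type*} [NormedAddCommGroup V] [InnerProductSpace ℝ V]
    (π : K →* (V ≃ₗᵢ[ℝ] V)) (b : K → V) (p : K × K) : V :=
  b p.1 + π p.1 (b p.2) - b (p.1 * p.2)

theorem AC1_countable {K : Type*} [Group K] (hfg : Group.FG K) : Countable K := by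
  classical
  obtain ⟨S, hS⟩ := hfg.out
  have h1 : Function.Surjective (FreeGroup.lift (fun s : S => (s : K))) := by
    rw [← MonoidHom.range_eq_top, eq_top_iff, ← hS, Subgroup.closure_le]
    intro x hx
    exact ⟨FreeGroup.of (⟨x, hx⟩ : S), by simp⟩
  have h2 : Countable (FreeGroup S) := by
    have h3 : Countable (List (S × Bool)) := inferInstance
    exact (Quot.mk_surjective : Function.Surjective
      (Quot.mk _ : List (S × Bool) → FreeGroup S)).countable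
  exact h1.countable

section AC1sec

variable {K : Type*} [Group K] {V : Type*} [NormedAddCommGroup V] [InnerProductSpace ℝ V]
  (π : K →* (V ≃ₗᵢ[ℝ] V))

theorem AC1_mul (x y : K) (v : V) : π (x * y) v = π x (π y v) := by
  rw [map_mul]; rfl

theorem AC1_one (v : V) : π 1 v = v := by
  rw [map_one]; rfl

/-- subtracting a coboundary -/
def AC1sub (b : K → V) (v : V) : K → V := fun x => b x - (π x v - v)

theorem AC1_dft_sub (b : K → V) (v : V) (p : K × K) :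
    dft π (AC1sub π b v) p = dft π b p := by
  simp only [dft, AC1sub, map_sub, AC1_mul]
  abel

theorem AC1_dft_smul (b : K → V) (r : ℝ) (p : K × K) :
    dft π (fun x => r • b x) p = r • dft π b p := by
  simp only [dft, map_smul, smul_sub, smul_add]

theorem AC1_bound (S : Finset K) (hS : Subgroup.closure (S : Set K) = ⊤) (P : ℕ → Finset (K × K))
    (hP : ∀ p, ∃ m, ∀ n, m ≤ n → p ∈ P n) (x : K) :
    ∃ (m : ℕ) (c : ℝ), 0 ≤ c ∧ ∀ n, m ≤ n → ∀ b : K → V,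
      ‖b x‖ ≤ c * (∑ s ∈ S, ‖b s‖ + ∑ p ∈ P n, ‖dft π b p‖) := by
  have hmem : ∀ (b : K → V) (n : ℕ) (p : K × K), p ∈ P n →
      ‖dft π b p‖ ≤ ∑ p ∈ P n, ‖dft π b p‖ := by
    intro b n p hp
    exact Finset.single_le_sum (f := fun p => ‖dft π b p‖) (fun _ _ => norm_nonneg _) hp
  have hN0 : ∀ b : K → V, 0 ≤ ∑ s ∈ S, ‖b s‖ := fun b =>
    Finset.sum_nonneg fun _ _ => norm_nonneg _
  have hD0 : ∀ (b : K → V) (n : ℕ), 0 ≤ ∑ p ∈ P n, ‖dft π b p‖ := fun b n =>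
    Finset.sum_nonneg fun _ _ => norm_nonneg _
  have hone : ∃ (m : ℕ) (c : ℝ), 0 ≤ c ∧ ∀ n, m ≤ n → ∀ b : K → V,
      ‖b 1‖ ≤ c * (∑ s ∈ S, ‖b s‖ + ∑ p ∈ P n, ‖dft π b p‖) := by
    obtain ⟨m, hm⟩ := hP (1, 1)
    refine ⟨m, 1, zero_le_one, fun n hn b => ?_⟩
    have h1 : dft π b (1, 1) = b 1 := by
      simp only [dft, AC1_one, mul_one]
      abel
    have h2 := hmem b n (1, 1) (hm n hn)
    rw [h1] at h2
    have h3 := hN0 b
    linarith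
  have hx : x ∈ Subgroup.closure (S : Set K) := by rw [hS]; trivial
  refine Subgroup.closure_induction (p := fun x _ => ∃ (m : ℕ) (c : ℝ), 0 ≤ c ∧ ∀ n, m ≤ n →
    ∀ b : K → V, ‖b x‖ ≤ c * (∑ s ∈ S, ‖b s‖ + ∑ p ∈ P n, ‖dft π b p‖)) ?_ hone ?_ ?_ hx
  · intro x hx
    refine ⟨0, 1, zero_le_one, fun n _ b => ?_⟩
    have h1 : ‖b x‖ ≤ ∑ s ∈ S, ‖b s‖ :=
      Finset.single_le_sum (f := fun s => ‖b s‖) (fun _ _ => norm_nonneg _) hx
    have h2 := hD0 b n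
    linarith
  · rintro x y _ _ ⟨m₁, c₁, hc₁, h₁⟩ ⟨m₂, c₂, hc₂, h₂⟩
    obtain ⟨m₃, h₃⟩ := hP (x, y)
    refine ⟨max m₁ (max m₂ m₃), c₁ + c₂ + 1, by positivity, fun n hn b => ?_⟩
    have e1 := h₁ n ((le_max_left _ _).trans hn) b
    have e2 := h₂ n ((le_max_left _ _).trans ((le_max_right _ _).trans hn)) b
    have e3 := hmem b n (x, y) (h₃ n ((le_max_right _ _).trans ((le_max_right _ _).trans hn)))
    have e4 : b (x * y) = b x + π x (b y) - dft π b (x, y) := by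
      simp only [dft]; abel
    have e5 : ‖b (x * y)‖ ≤ ‖b x‖ + ‖b y‖ + ‖dft π b (x, y)‖ := by
      rw [e4]
      refine (norm_sub_le _ _).trans ?_
      have := norm_add_le (b x) (π x (b y))
      rw [LinearIsometryEquiv.norm_map] at this
      linarith
    have e6 := hN0 b
    calc ‖b (x * y)‖ ≤ ‖b x‖ + ‖b y‖ + ‖dft π b (x, y)‖ := e5
      _ ≤ c₁ * (∑ s ∈ S, ‖b s‖ + ∑ p ∈ P n, ‖dft π b p‖)
          + c₂ * (∑ s ∈ S, ‖b s‖ + ∑ p ∈ P n, ‖dft π b p‖)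
          + (∑ s ∈ S, ‖b s‖ + ∑ p ∈ P n, ‖dft π b p‖) := by linarith
      _ = _ := by ring
  · rintro x _ ⟨m₁, c₁, hc₁, h₁⟩
    obtain ⟨m₂, c₂, hc₂, h₂⟩ := hone
    obtain ⟨m₃, h₃⟩ := hP (x, x⁻¹)
    refine ⟨max m₁ (max m₂ m₃), c₁ + c₂ + 1, by positivity, fun n hn b => ?_⟩
    have e1 := h₁ n ((le_max_left _ _).trans hn) b
    have e2 := h₂ n ((le_max_left _ _).trans ((le_max_right _ _).trans hn)) b
    have e3 := hmem b n (x, x⁻¹) (h₃ n ((le_max_right _ _).trans ((le_max_right _ _).trans hn)))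
    have e4 : π x (b x⁻¹) = dft π b (x, x⁻¹) - b x + b 1 := by
      simp only [dft, mul_inv_cancel]; abel
    have e5 : ‖b x⁻¹‖ ≤ ‖dft π b (x, x⁻¹)‖ + ‖b x‖ + ‖b 1‖ := by
      rw [← LinearIsometryEquiv.norm_map (π x) (b x⁻¹), e4]
      refine (norm_add_le _ _).trans ?_
      have := norm_sub_le (dft π b (x, x⁻¹)) (b x)
      linarith
    have e6 := hN0 b
    calc ‖b x⁻¹‖ ≤ ‖dft π b (x, x⁻¹)‖ + ‖b x‖ + ‖b 1‖ := e5
      _ ≤ c₁ * (∑ s ∈ S, ‖b s‖ + ∑ p ∈ P n, ‖dft π b p‖)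
          + c₂ * (∑ s ∈ S, ‖b s‖ + ∑ p ∈ P n, ‖dft π b p‖)
          + (∑ s ∈ S, ‖b s‖ + ∑ p ∈ P n, ‖dft π b p‖) := by linarith
      _ = _ := by ring

theorem AC1_step (S : Finset K) (P : ℕ → Finset (K × K)) (g : K)
    (ℓ : V →L[ℝ] ℝ) (hℓ : ∀ v, ℓ (π g v - v) = 0) (m : ℕ) (c : ℝ) (hc : 0 ≤ c)
    (hmc : ∀ n, m ≤ n → ∀ b : K → V,
      ‖b g‖ ≤ c * (∑ s ∈ S, ‖b s‖ + ∑ p ∈ P n, ‖dft π b p‖))
    (n : ℕ) (hmn : m ≤ n) (hn : 2 * (‖ℓ‖ * c) + 1 ≤ n)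
    (b : K → V) (hb : (n : ℝ) * ∑ p ∈ P n, ‖dft π b p‖ < |ℓ (b g)|) :
    ∃ β : K → V, ∑ s ∈ S, ‖β s‖ = 1 ∧ ∑ p ∈ P n, ‖dft π β p‖ ≤ 2 * (‖ℓ‖ * c) / n ∧
      ∀ v : V, 1 / 2 ≤ ∑ s ∈ S, ‖β s - (π s v - v)‖ := by
  obtain ⟨D, hD⟩ : ∃ D : ℝ, D = ∑ p ∈ P n, ‖dft π b p‖ := ⟨_, rfl⟩
  obtain ⟨L, hL⟩ : ∃ L : ℝ, L = |ℓ (b g)| := ⟨_, rfl⟩
  obtain ⟨F, hF⟩ : ∃ F : V → ℝ, F = fun v => ∑ s ∈ S, ‖AC1sub π b v s‖ := ⟨_, rfl⟩
  obtain ⟨c₁, hc₁⟩ : ∃ c₁ : ℝ, c₁ = ‖ℓ‖ * c := ⟨_, rfl⟩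
  rw [← hD, ← hL] at hb
  rw [← hc₁] at hn ⊢
  have hc₁0 : 0 ≤ c₁ := by rw [hc₁]; exact mul_nonneg (norm_nonneg _) hc
  have hD0 : 0 ≤ D := by rw [hD]; exact Finset.sum_nonneg fun _ _ => norm_nonneg _
  have hn0 : (0 : ℝ) < n := by linarith
  have hL0 : 0 < L := lt_of_le_of_lt (mul_nonneg hn0.le hD0) hb
  have hF0 : ∀ v, 0 ≤ F v := by
    intro v; rw [hF]; exact Finset.sum_nonneg fun _ _ => norm_nonneg _
  have key : ∀ v, L < 2 * c₁ * F v := by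
    intro v
    have h1 : ℓ (AC1sub π b v g) = ℓ (b g) := by
      simp only [AC1sub]
      rw [map_sub, hℓ, sub_zero]
    have h2 := hmc n hmn (AC1sub π b v)
    have h3 : ∑ p ∈ P n, ‖dft π (AC1sub π b v) p‖ = D := by
      rw [hD]
      exact Finset.sum_congr rfl fun p _ => by rw [AC1_dft_sub]
    rw [h3] at h2
    have h4 : L ≤ ‖ℓ‖ * ‖AC1sub π b v g‖ := by
      rw [hL, ← h1]
      exact ℓ.le_opNorm _
    have h5 : ‖ℓ‖ * ‖AC1sub π b v g‖ ≤ c₁ * (F v + D) := by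
      rw [hc₁, hF, mul_assoc]
      exact mul_le_mul_of_nonneg_left h2 (norm_nonneg _)
    have h6 : 2 * c₁ * D ≤ n * D := mul_le_mul_of_nonneg_right (by linarith) hD0
    have h7 : L ≤ c₁ * F v + c₁ * D := by
      calc L ≤ c₁ * (F v + D) := h4.trans h5
        _ = _ := by ring
    have h8 : 2 * L ≤ 2 * c₁ * F v + 2 * c₁ * D := by
      calc 2 * L ≤ 2 * (c₁ * F v + c₁ * D) := by linarith
        _ = _ := by ring
    linarith
  have hc₁p : 0 < c₁ := by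
    rcases hc₁0.eq_or_lt with h | h
    · have := key 0
      rw [← h] at this
      simp only [mul_zero, zero_mul] at this
      exact absurd this (not_lt.mpr hL0.le)
    · exact h
  have hlow : ∀ v, L / (2 * c₁) ≤ F v := by
    intro v
    rw [div_le_iff₀ (by positivity)]
    calc L ≤ 2 * c₁ * F v := (key v).le
      _ = _ := by ring
  have hbdd : BddBelow (Set.range F) := ⟨0, by rintro _ ⟨v, rfl⟩; exact hF0 v⟩
  have hd : 0 < ⨅ v, F v := lt_of_lt_of_le (by positivity) (le_ciInf hlow)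
  obtain ⟨v₀, hv₀⟩ := exists_lt_of_ciInf_lt (show (⨅ v, F v) < 2 * ⨅ v, F v by linarith)
  have hq : 0 < F v₀ := lt_of_lt_of_le hd (ciInf_le hbdd v₀)
  obtain ⟨q, hqd⟩ : ∃ q : ℝ, q = F v₀ := ⟨_, rfl⟩
  rw [← hqd] at hv₀ hq
  have hqi : 0 ≤ q⁻¹ := inv_nonneg.mpr hq.le
  refine ⟨fun x => q⁻¹ • AC1sub π b v₀ x, ?_, ?_, ?_⟩
  · simp only [norm_smul, norm_inv, Real.norm_eq_abs, abs_of_pos hq]
    rw [← Finset.mul_sum]
    have : ∑ s ∈ S, ‖AC1sub π b v₀ s‖ = q := by rw [hqd, hF]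
    rw [this, inv_mul_cancel₀ hq.ne']
  · have h1 : ∑ p ∈ P n, ‖dft π (fun x => q⁻¹ • AC1sub π b v₀ x) p‖ = q⁻¹ * D := by
      rw [hD, Finset.mul_sum]
      refine Finset.sum_congr rfl fun p _ => ?_
      rw [AC1_dft_smul, AC1_dft_sub, norm_smul, Real.norm_eq_abs, abs_of_nonneg hqi]
    rw [h1, le_div_iff₀ hn0]
    have h2 := key v₀
    rw [← hqd] at h2
    have h3 : n * D ≤ 2 * c₁ * q := by linarith
    calc q⁻¹ * D * n = q⁻¹ * (n * D) := by ring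
      _ ≤ q⁻¹ * (2 * c₁ * q) := mul_le_mul_of_nonneg_left h3 hqi
      _ = 2 * c₁ := by field_simp
  · intro v
    have h1 : ∀ s, q⁻¹ • AC1sub π b v₀ s - (π s v - v) = q⁻¹ • AC1sub π b (v₀ + q • v) s := by
      intro s
      simp only [AC1sub, map_add, map_smul]
      have h2 : π s v - v = q⁻¹ • (q • π s v - q • v) := by
        rw [← smul_sub, smul_smul, inv_mul_cancel₀ hq.ne', one_smul]
      rw [h2, ← smul_sub]
      congr 1
      abel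
    have h3 : ∑ s ∈ S, ‖q⁻¹ • AC1sub π b v₀ s - (π s v - v)‖ = q⁻¹ * F (v₀ + q • v) := by
      rw [hF, Finset.mul_sum]
      refine Finset.sum_congr rfl fun s _ => ?_
      rw [h1, norm_smul, Real.norm_eq_abs, abs_of_nonneg hqi]
    show 1 / 2 ≤ ∑ s ∈ S, ‖q⁻¹ • AC1sub π b v₀ s - (π s v - v)‖
    rw [h3]
    have h4 : q / 2 ≤ F (v₀ + q • v) := by
      have := ciInf_le hbdd (v₀ + q • v)
      linarith
    calc (1 : ℝ) / 2 = q⁻¹ * (q / 2) := by field_simp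
      _ ≤ _ := mul_le_mul_of_nonneg_left h4 hqi

end AC1sec

/-- Almost cocycles which are far from coboundaries.

Proof. `K` is countable (finitely generated); let `P₀ ⊆ P₁ ⊆ ...` be finite sets with union `K × K`
(e.g. `P_n` = image of `Finset.range n` under an enumeration of the countable type `K × K`).
Let `S₀` be a finite generating set, closed under inverses and containing `1`, and
`N₀ b = ∑ s ∈ S₀, ‖b s‖`, `Dₙ b = ∑ p ∈ Pₙ, ‖dft π b p‖`. By `hno` for every `n` there is `b = bₙ` with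
`|ℓ (b g)| > n * Dₙ b`.
(a) For every `x : K` there are `m : ℕ` and `c ≥ 0` such that for all `b : K → V` and all `n ≥ m`:
`‖b x‖ ≤ c * (N₀ b + Dₙ b)`. (The set of these `x` contains `S₀` and is closed under products: choose
`m` with `(x, y) ∈ P_m`, then `‖b (x y)‖ ≤ ‖b x‖ + ‖b y‖ + ‖dft π b (x, y)‖`; the `Pₙ` are increasing.
So it contains the submonoid generated by `S₀`, which is everything.)
(b) For `v : V` let `∂v x = π x v - v`; `dft π (∂v) p = 0`, `dft` is additive, so `Dₙ (b - ∂v) = Dₙ b`,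
and `ℓ ((b - ∂v) g) = ℓ (b g)` by `hℓ`. Let `dₙ = ⨅ v, N₀ (bₙ - ∂v) ≥ 0`. For every `v`, by (a) for
`x = g`: `|ℓ (bₙ g)| ≤ ‖ℓ‖ c (N₀ (bₙ - ∂v) + Dₙ bₙ)`, so, with `c₁ = ‖ℓ‖ c`,
`|ℓ (bₙ g)| ≤ c₁ (dₙ + Dₙ bₙ) ≤ c₁ dₙ + c₁ |ℓ (bₙ g)| / n`. For `n ≥ 2 c₁ + 1` (and `n ≥ m`):
`0 < |ℓ (bₙ g)| ≤ 2 c₁ dₙ`, so `dₙ > 0` and `Dₙ bₙ < |ℓ (bₙ g)| / n ≤ 2 c₁ dₙ / n`. Choose `vₙ` with
`N₀ (bₙ - ∂vₙ) ≤ 2 dₙ` and put `βₙ = (1 / N₀ (bₙ - ∂vₙ)) • (bₙ - ∂vₙ)`: `N₀ βₙ = 1`,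
`Dₙ βₙ ≤ 2 c₁ / n`, and `N₀ (βₙ - ∂v) ≥ dₙ / N₀ (bₙ - ∂vₙ) ≥ 1/2` for all `v : V` (scale `v`). For the
finitely many other `n` put `βₙ = 0`. By (a) the sequence `n ↦ βₙ x` is bounded for every `x` (finitely
many `n` do not matter), and `‖dft π βₙ p‖ ≤ Dₙ βₙ ≤ 2 c₁ / n` as soon as `p ∈ Pₙ`. -/
theorem exists_beta {K : Type*} [Group K] (hfg : Group.FG K) {V : Type*}
    [NormedAddCommGroup V] [InnerProductSpace ℝ V] (π : K →* (V ≃ₗᵢ[ℝ] V)) (g : K)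
    (ℓ : V →L[ℝ] ℝ) (hℓ : ∀ v, ℓ (π g v - v) = 0)
    (hno : ∀ (P : Finset (K × K)) (C : ℝ), ∃ b : K → V,
      C * ∑ p ∈ P, ‖dft π b p‖ < |ℓ (b g)|) :
    ∃ (S₀ : Finset K) (β : ℕ → K → V), (∀ x, ∃ c, ∀ n, ‖β n x‖ ≤ c) ∧
      (∀ p : K × K, Tendsto (fun n => ‖dft π (β n) p‖) atTop (𝓝 0)) ∧
      ∀ᶠ n in atTop, ∀ v : V, 1 / 2 ≤ ∑ s ∈ S₀, ‖β n s - (π s v - v)‖ := by
  classical
  have hcount : Countable K := AC1_countable hfg
  obtain ⟨S, hS⟩ := hfg.out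
  obtain ⟨e, he⟩ := exists_surjective_nat (K × K)
  obtain ⟨P, hPd⟩ : ∃ P : ℕ → Finset (K × K), P = fun n => (Finset.range n).image e := ⟨_, rfl⟩
  have hP : ∀ p, ∃ m, ∀ n, m ≤ n → p ∈ P n := by
    intro p
    obtain ⟨k, hk⟩ := he p
    refine ⟨k + 1, fun n hn => ?_⟩
    rw [hPd]
    exact Finset.mem_image.mpr ⟨k, Finset.mem_range.mpr (by omega), hk⟩
  obtain ⟨m, c, hc, hmc⟩ := AC1_bound π S hS P hP g
  obtain ⟨n₁, hn₁⟩ := exists_nat_ge (2 * (‖ℓ‖ * c) + 1)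
  obtain ⟨C, hC⟩ : ∃ C : ℝ, C = 2 * (‖ℓ‖ * c) := ⟨_, rfl⟩
  have hC0 : 0 ≤ C := by rw [hC]; exact mul_nonneg zero_le_two (mul_nonneg (norm_nonneg _) hc)
  have key : ∀ n : ℕ, ∃ β : K → V, ∑ s ∈ S, ‖β s‖ = 1 ∧
      ∑ p ∈ P (n + (m + n₁ + 1)), ‖dft π β p‖ ≤ C / (n + 1) ∧
      ∀ v : V, 1 / 2 ≤ ∑ s ∈ S, ‖β s - (π s v - v)‖ := by
    intro n
    obtain ⟨b, hb⟩ := hno (P (n + (m + n₁ + 1))) ((n + (m + n₁ + 1) : ℕ) : ℝ)
    have h1 : 2 * (‖ℓ‖ * c) + 1 ≤ ((n + (m + n₁ + 1) : ℕ) : ℝ) := by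
      refine hn₁.trans ?_
      exact_mod_cast (by omega : n₁ ≤ n + (m + n₁ + 1))
    obtain ⟨β, h2, h3, h4⟩ := AC1_step π S P g ℓ hℓ m c hc hmc _ (by omega) h1 b hb
    refine ⟨β, h2, h3.trans ?_, h4⟩
    rw [hC]
    refine div_le_div_of_nonneg_left (by rw [← hC]; exact hC0) (by positivity) ?_
    exact_mod_cast (by omega : n + 1 ≤ n + (m + n₁ + 1))
  choose β h1 h2 h3 using key
  refine ⟨S, β, ?_, ?_, Eventually.of_forall h3⟩
  · intro x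
    obtain ⟨m', c', hc', hm'⟩ := AC1_bound π S hS P hP x
    refine ⟨c' * (1 + C) + ∑ k ∈ Finset.range m', ‖β k x‖, fun n => ?_⟩
    have h0 : 0 ≤ ∑ k ∈ Finset.range m', ‖β k x‖ := Finset.sum_nonneg fun _ _ => norm_nonneg _
    rcases lt_or_ge n m' with h | h
    · have e1 : ‖β n x‖ ≤ ∑ k ∈ Finset.range m', ‖β k x‖ :=
        Finset.single_le_sum (f := fun k => ‖β k x‖) (fun _ _ => norm_nonneg _)
          (Finset.mem_range.mpr h)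
      have e2 : 0 ≤ c' * (1 + C) := by positivity
      linarith
    · have e1 := hm' (n + (m + n₁ + 1)) (by omega) (β n)
      rw [h1] at e1
      have e2 : C / ((n : ℝ) + 1) ≤ C := by
        refine div_le_self hC0 ?_
        have : (0 : ℝ) ≤ n := Nat.cast_nonneg n
        linarith
      have e3 := (h2 n).trans e2
      have e4 : c' * (1 + ∑ p ∈ P (n + (m + n₁ + 1)), ‖dft π (β n) p‖) ≤ c' * (1 + C) :=
        mul_le_mul_of_nonneg_left (by linarith) hc'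
      linarith
  · intro p
    obtain ⟨m', hm'⟩ := hP p
    have hlim : Tendsto (fun n : ℕ => C / ((n : ℝ) + 1)) atTop (𝓝 0) := by
      have h5 := (tendsto_const_div_atTop_nhds_zero_nat C).comp (tendsto_add_atTop_nat 1)
      refine h5.congr fun n => ?_
      simp
    refine squeeze_zero' (Eventually.of_forall fun n => norm_nonneg _) ?_ hlim
    filter_upwards [eventually_ge_atTop m'] with n hn
    refine le_trans ?_ (h2 n)
    exact Finset.single_le_sum (f := fun p => ‖dft π (β n) p‖)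
      (fun _ _ => norm_nonneg _) (hm' _ (by omega))

end Kaz
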