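import Pool.Agent.W_04c03c_h58k.AB
import Pool.Agent.W_04c03c_h58k.AC1

/-!
# The gap: the coboundary from degree one to degree two is bounded below modulo coboundaries
-/

namespace Kaz

universe u

open Filter

/-- The gap.

Proof. Suppose not: then `hno` of `exists_beta` holds; take `S₀`, `β`. The sequence `n ↦ βₙ x` is in
`Bd V` for every `x`. Take `E, ρ, ι` of `exists_ultra` and `b x = ι (n ↦ βₙ x)`. It is a cocycle of `K`:
`b x + ρ x (b y) - b (x y) = ι (n ↦ dft π βₙ (x, y))` and `‖dft π βₙ (x, y)‖ → 0`, so its norm is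
`≤ ε` for all `ε > 0` (`Nat.hyperfilter_le_atTop` / `Filter.hyperfilter_le_cofinite`). By `hK` (applied
to `E`, `ρ`, `b`; `ρ` is tempered) there is `v : E` with `ρ x v + b x = v` for all `x`, and by density
`y : Bd V` with `‖ι y - v‖ ≤ η`, `η = 1 / (8 (|S₀| + 1))`. For `s ∈ S₀`:
`ι (n ↦ βₙ s - (π s (-yₙ) - (-yₙ))) = b s + ρ s (ι y) - ι y` has norm `≤ 2 η` (`b s = v - ρ s v`), so
along the ultrafilter `‖βₙ s - (π s (-yₙ) - (-yₙ))‖ < 3 η` (otherwise, by the ultrafilter dichotomy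
`Ultrafilter.eventually_not`, `3 η ≤ ‖..‖` eventually and the norm of `ι (..)` would be `≥ 3 η`). So
there is a (large) `n` with `∑ s ∈ S₀, ‖βₙ s - (π s (-yₙ) - (-yₙ))‖ ≤ 3 η |S₀| < 1/2`, a contradiction to
the last property of `exists_beta`. -/
theorem gap_ineq {K : Type u} [Group K] (hK : FixT K) (hfg : Group.FG K) {V : Type u}
    [NormedAddCommGroup V] [InnerProductSpace ℝ V] (π : K →* (V ≃ₗᵢ[ℝ] V)) (hπ : Tempered π)
    (g : K) (ℓ : V →L[ℝ] ℝ) (hℓ : ∀ v, ℓ (π g v - v) = 0) :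
    ∃ (P : Finset (K × K)) (C : ℝ), ∀ b : K → V, |ℓ (b g)| ≤ C * ∑ p ∈ P, ‖dft π b p‖ := by
  classical
  by_contra hcon
  push Not at hcon
  obtain ⟨S₀, β, hbd, hdft, hfar⟩ := exists_beta hfg π g ℓ hℓ hcon
  obtain ⟨E, iE1, iE2, iE3, ρ, ι, hρ, hdense, hle, hge, hact⟩ := exists_ultra π hπ
  let B : K → Bd V := fun x => ⟨fun n => β n x, hbd x⟩
  have hcoc : ∀ x y, ι (B (x * y)) = ι (B x) + ρ x (ι (B y)) := by
    intro x y
    let Z : Bd V := ⟨fun n => π x (β n y), by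
      obtain ⟨c, hc⟩ := hbd y
      exact ⟨c, fun n => by rw [LinearIsometryEquiv.norm_map]; exact hc n⟩⟩
    have h1 : ρ x (ι (B y)) = ι Z := hact x (B y) Z fun n => rfl
    have h2 : ∀ ε : ℝ, 0 < ε → ‖ι (B x + Z - B (x * y))‖ ≤ 0 + ε := by
      intro ε hε
      rw [zero_add]
      apply hle
      have h3 : ∀ᶠ n in atTop, ‖dft π (β n) (x, y)‖ < ε :=
        (hdft (x, y)).eventually (gt_mem_nhds hε)
      have h4 := h3.filter_mono Nat.hyperfilter_le_atTop
      filter_upwards [h4] with n hn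
      exact hn.le
    have h5 : ‖ι (B x + Z - B (x * y))‖ ≤ 0 := le_of_forall_pos_le_add h2
    have h6 : ι (B x + Z - B (x * y)) = 0 := norm_le_zero_iff.1 h5
    rw [map_sub, map_add, sub_eq_zero] at h6
    rw [h1, ← h6]
  obtain ⟨v, hv⟩ := hK E ρ (fun x => ι (B x)) hρ hcoc
  obtain ⟨η, hη⟩ : ∃ η : ℝ, η = 1 / (8 * ((S₀.card : ℝ) + 1)) := ⟨_, rfl⟩
  have hη0 : 0 < η := by rw [hη]; positivity
  obtain ⟨y, hy⟩ := hdense.exists_dist_lt v hη0
  have hy' : ‖ι y - v‖ < η := by rwa [dist_comm, dist_eq_norm] at hy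
  let T : K → Bd V := fun s => ⟨fun n => π s (y.1 n), by
    obtain ⟨c, hc⟩ := y.2
    exact ⟨c, fun n => by rw [LinearIsometryEquiv.norm_map]; exact hc n⟩⟩
  have hs : ∀ s ∈ S₀, ∀ᶠ n in (hyperfilter ℕ : Filter ℕ),
      ‖β n s - (π s (-(y.1 n)) - (-(y.1 n)))‖ < 3 * η := by
    intro s _
    have h1 : ρ s (ι y) = ι (T s) := hact s y (T s) fun n => rfl
    have h2 : ‖ι (B s + T s - y)‖ < 3 * η := by
      have h3 : ι (B s + T s - y) = ρ s (ι y - v) - (ι y - v) := by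
        rw [map_sub, map_add, ← h1, map_sub]
        have h4 : ι (B s) = v - ρ s v := eq_sub_of_add_eq' (hv s)
        rw [h4]
        abel
      rw [h3]
      have h5 := norm_sub_le (ρ s (ι y - v)) (ι y - v)
      rw [LinearIsometryEquiv.norm_map] at h5
      linarith
    have h6 : ¬ ∀ᶠ n in (hyperfilter ℕ : Filter ℕ), 3 * η ≤ ‖(B s + T s - y).1 n‖ := by
      intro h7
      have h8 := hge _ _ h7
      linarith
    rw [← Ultrafilter.eventually_not] at h6
    filter_upwards [h6] with n hn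
    rw [not_le] at hn
    have h9 : β n s - (π s (-(y.1 n)) - (-(y.1 n))) = (B s + T s - y).1 n := by
      rw [map_neg]
      change _ = β n s + π s (y.1 n) - y.1 n
      abel
    rw [h9]
    exact hn
  have hall := (Filter.eventually_all_finset S₀).2 hs
  have hfar' := hfar.filter_mono Nat.hyperfilter_le_atTop
  obtain ⟨n, hn1, hn2⟩ := (hall.and hfar').exists
  have h10 := hn2 (-(y.1 n))
  have h11 : ∑ s ∈ S₀, ‖β n s - (π s (-(y.1 n)) - (-(y.1 n)))‖ ≤ ∑ _s ∈ S₀, 3 * η :=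
    Finset.sum_le_sum fun s hs => (hn1 s hs).le
  rw [Finset.sum_const, nsmul_eq_mul] at h11
  have h12 : (S₀.card : ℝ) * (3 * η) < 1 / 2 := by
    have h13 : (S₀.card : ℝ) * (3 * η) = 3 / 8 * ((S₀.card : ℝ) / ((S₀.card : ℝ) + 1)) := by
      rw [hη]
      field_simp
    rw [h13]
    have h14 : (S₀.card : ℝ) / ((S₀.card : ℝ) + 1) ≤ 1 := by
      rw [div_le_one (by positivity)]
      linarith
    linarith
  linarith

end Kaz
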