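import Mathlib

/-!
# Riesz representation for a factored linear form
-/

namespace Kaz

/-- A linear form which is bounded by finitely many norms of linear maps to a Hilbert space.

Proof. `L : W →ₗ[ℝ] PiLp 2 (fun _ : ι => V)`, `L w = (D i w)_i`; `PiLp 2` is a Hilbert space over `ℝ`. The
linear form `ℓ` vanishes on `ker L` and `|ℓ w| ≤ C ∑ i, ‖D i w‖ ≤ |C| * card ι * ‖L w‖`
(`PiLp.norm_apply_le`). So it induces a linear form on `LinearMap.range L` (`LinearMap.quotKerEquivRange`,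
`Submodule.liftQ`), bounded by `|C| card ι` (`LinearMap.mkContinuous`), which extends to a continuous
linear form `φ` on `PiLp 2` (`exists_extension_norm_eq` / `Real.exists_extension_norm_eq`). By the
Riesz representation theorem (`InnerProductSpace.toDual`) there is `u` with `φ y = ⟪u, y⟫ =
∑ i, ⟪u i, y i⟫` (`PiLp.inner_apply`). -/
theorem riesz_factor {W : Type*} [AddCommGroup W] [Module ℝ W] {ι : Type*} [Fintype ι]
    {V : Type*} [NormedAddCommGroup V] [InnerProductSpace ℝ V] [CompleteSpace V]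
    (D : ι → W →ₗ[ℝ] V) (ℓ : W →ₗ[ℝ] ℝ) (C : ℝ) (h : ∀ w, |ℓ w| ≤ C * ∑ i, ‖D i w‖) :
    ∃ u : ι → V, ∀ w, ℓ w = ∑ i, inner ℝ (u i) (D i w) := by
  classical
  let RR : W →ₗ[ℝ] PiLp 2 (fun _ : ι => V) :=
    ((PiLp.continuousLinearEquiv 2 ℝ (fun _ : ι => V)).symm.toLinearEquiv :
      (ι → V) →ₗ[ℝ] PiLp 2 (fun _ : ι => V)).comp (LinearMap.pi D)
  have hRR : ∀ e j, RR e j = D j e := fun e j => rfl
  have hker : LinearMap.ker RR ≤ LinearMap.ker ℓ := by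
    intro e he
    rw [LinearMap.mem_ker] at he ⊢
    have h1 : ∀ j, D j e = 0 := fun j => by rw [← hRR, he]; rfl
    have h2 := h e
    simp only [h1, norm_zero, Finset.sum_const_zero, mul_zero] at h2
    exact abs_eq_zero.mp (le_antisymm h2 (abs_nonneg _))
  let ψ0 : LinearMap.range RR →ₗ[ℝ] ℝ :=
    ((LinearMap.ker RR).liftQ ℓ hker).comp
      (RR.quotKerEquivRange.symm : LinearMap.range RR →ₗ[ℝ] _)
  have hψ0 : ∀ e, ψ0 ⟨RR e, ⟨e, rfl⟩⟩ = ℓ e := by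
    intro e
    change ((LinearMap.ker RR).liftQ ℓ hker)
      (RR.quotKerEquivRange.symm ⟨RR e, ⟨e, rfl⟩⟩) = ℓ e
    have h0 : RR.quotKerEquivRange.symm ⟨RR e, ⟨e, rfl⟩⟩ = Submodule.Quotient.mk e := by
      rw [LinearEquiv.symm_apply_eq]
      rfl
    rw [h0]
    rfl
  have hbd : ∀ z : LinearMap.range RR, ‖ψ0 z‖ ≤ (|C| * Fintype.card ι) * ‖z‖ := by
    rintro ⟨_, e, rfl⟩
    rw [hψ0]
    rw [Real.norm_eq_abs]
    refine (h e).trans ?_
    have h1 : ∀ j, ‖D j e‖ ≤ ‖RR e‖ := fun j => by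
      rw [← hRR]; exact PiLp.norm_apply_le _ j
    have h2 : ∑ j, ‖D j e‖ ≤ Fintype.card ι * ‖RR e‖ := by
      calc ∑ j, ‖D j e‖ ≤ ∑ _j : ι, ‖RR e‖ := Finset.sum_le_sum fun j _ => h1 j
        _ = Fintype.card ι * ‖RR e‖ := by simp
    have h3 : 0 ≤ ∑ j, ‖D j e‖ := Finset.sum_nonneg fun _ _ => norm_nonneg _
    calc C * ∑ j, ‖D j e‖ ≤ |C| * ∑ j, ‖D j e‖ := mul_le_mul_of_nonneg_right (le_abs_self C) h3
      _ ≤ |C| * (Fintype.card ι * ‖RR e‖) := mul_le_mul_of_nonneg_left h2 (abs_nonneg C)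
      _ = |C| * Fintype.card ι * ‖(⟨RR e, ⟨e, rfl⟩⟩ : LinearMap.range RR)‖ := by
          rw [mul_assoc]; rfl
  let ψ1 : LinearMap.range RR →L[ℝ] ℝ := ψ0.mkContinuous _ hbd
  obtain ⟨ψ, hψ, -⟩ := exists_extension_norm_eq (LinearMap.range RR) ψ1
  let y : PiLp 2 (fun _ : ι => V) := (InnerProductSpace.toDual ℝ _).symm ψ
  refine ⟨fun j => y j, fun e => ?_⟩
  have h4 : ℓ e = ψ (RR e) := by
    rw [← hψ0]
    exact (hψ ⟨RR e, ⟨e, rfl⟩⟩).symm
  rw [h4]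
  have h5 : ψ (RR e) = inner ℝ y (RR e) := by
    rw [InnerProductSpace.toDual_symm_apply]
  rw [h5, PiLp.inner_apply]
  rfl

end Kaz
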