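import Pool.Agent.W_04c03c_h58k.TDef

/-!
# Induced representations as spaces of functions on the group
-/

namespace Kaz

universe u

section AEaux

variable {K : Type u} [Group K] (S : Subgroup K) (χ : S →* Circle)

/-- The Hilbert space. -/
abbrev AE_E : Type u := lp (fun _ : K ⧸ S => ℂ) 2

/-- The second factor of `x = (mk x).out * τ x`. -/
noncomputable def AE_t (x : K) : S :=
  ⟨(QuotientGroup.mk x : K ⧸ S).out⁻¹ * x, QuotientGroup.eq.1 (QuotientGroup.out_eq' _)⟩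

theorem AE_t_spec (x : K) : (QuotientGroup.mk x : K ⧸ S).out * AE_t S x = x :=
  mul_inv_cancel_left _ _

theorem AE_mk_mul (x : K) (s : S) : (QuotientGroup.mk (x * s) : K ⧸ S) = QuotientGroup.mk x :=
  QuotientGroup.mk_mul_of_mem x s.2

theorem AE_t_mul (x : K) (s : S) : AE_t S (x * s) = AE_t S x * s := by
  apply Subtype.ext
  show (QuotientGroup.mk (x * s) : K ⧸ S).out⁻¹ * (x * s) =
    (QuotientGroup.mk x : K ⧸ S).out⁻¹ * x * s
  rw [AE_mk_mul, mul_assoc]

theorem AE_t_out (q : K ⧸ S) : AE_t S q.out = 1 := by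
  apply Subtype.ext
  show (QuotientGroup.mk q.out : K ⧸ S).out⁻¹ * q.out = 1
  rw [QuotientGroup.out_eq', inv_mul_cancel]

/-- The factor of the function. -/
noncomputable def AE_c (x : K) : ℂ := (χ (AE_t S x) : ℂ)⁻¹

theorem AE_c_norm (x : K) : ‖AE_c S χ x‖ = 1 := by
  unfold AE_c
  rw [norm_inv, Circle.norm_coe, inv_one]

theorem AE_c_mul (x : K) (s : S) : AE_c S χ (x * s) = (χ s : ℂ)⁻¹ * AE_c S χ x := by
  unfold AE_c
  rw [AE_t_mul, map_mul, Circle.coe_mul, mul_inv_rev]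

theorem AE_c_out (q : K ⧸ S) : AE_c S χ q.out = 1 := by
  unfold AE_c
  rw [AE_t_out, map_one, Circle.coe_one, inv_one]

theorem AE_norm (v : AE_E S) : HasSum (fun q => ‖v q‖ ^ 2) (‖v‖ ^ 2) := by
  have h := lp.hasSum_norm (p := 2) (by norm_num) v
  simp only [ENNReal.toReal_ofNat, Real.rpow_two] at h
  exact h

theorem AE_mem {f : K ⧸ S → ℂ} (h : Summable fun q => ‖f q‖ ^ 2) : Memℓp f 2 := by
  refine memℓp_gen ?_
  simp only [ENNReal.toReal_ofNat, Real.rpow_two]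
  exact h

/-- The functions on the group. -/
noncomputable def AE_ev : AE_E S →ₗ[ℝ] (K → ℂ) where
  toFun v x := AE_c S χ x * v (QuotientGroup.mk x)
  map_add' v w := by
    funext x
    rw [lp.coeFn_add, Pi.add_apply, Pi.add_apply, mul_add]
  map_smul' r v := by
    funext x
    rw [lp.coeFn_smul, Pi.smul_apply, Pi.smul_apply, RingHom.id_apply, mul_smul_comm]

theorem AE_ev_apply (v : AE_E S) (x : K) :
    AE_ev S χ v x = AE_c S χ x * v (QuotientGroup.mk x) := rfl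

theorem AE_ev_out (v : AE_E S) (q : K ⧸ S) : AE_ev S χ v q.out = v q := by
  rw [AE_ev_apply, AE_c_out, one_mul, QuotientGroup.out_eq']

theorem AE_ev_mul (v : AE_E S) (x : K) (s : S) :
    AE_ev S χ v (x * s) = (χ s : ℂ)⁻¹ * AE_ev S χ v x := by
  rw [AE_ev_apply, AE_ev_apply, AE_c_mul, AE_mk_mul, mul_assoc]

theorem AE_ev_norm (v : AE_E S) (x : K) : ‖AE_ev S χ v x‖ = ‖v (QuotientGroup.mk x)‖ := by
  rw [AE_ev_apply, norm_mul, AE_c_norm, one_mul]

theorem AE_ev_inj {v w : AE_E S} (h : AE_ev S χ v = AE_ev S χ w) : v = w := by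
  refine lp.ext (funext fun q => ?_)
  rw [← AE_ev_out S χ v q, ← AE_ev_out S χ w q, h]

theorem AE_hs (k : K) (v : AE_E S) :
    HasSum (fun q : K ⧸ S => ‖AE_ev S χ v (k⁻¹ * q.out)‖ ^ 2) (‖v‖ ^ 2) := by
  have h := (Equiv.hasSum_iff (MulAction.toPerm (k⁻¹) : Equiv.Perm (K ⧸ S))).2 (AE_norm S v)
  have h1 : (fun q : K ⧸ S => ‖AE_ev S χ v (k⁻¹ * q.out)‖ ^ 2) =
      (fun q => ‖v q‖ ^ 2) ∘ (MulAction.toPerm (k⁻¹) : Equiv.Perm (K ⧸ S)) := by
    funext q
    have h2 : (QuotientGroup.mk (k⁻¹ * q.out) : K ⧸ S) = k⁻¹ • q := by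
      conv_rhs => rw [← QuotientGroup.out_eq' q]
      rfl
    rw [AE_ev_norm, h2]
    rfl
  rw [h1]
  exact h

/-- The operators. -/
noncomputable def AE_T (k : K) : AE_E S →ₗ[ℝ] AE_E S where
  toFun v := ⟨fun q => AE_ev S χ v (k⁻¹ * q.out), AE_mem S (AE_hs S χ k v).summable⟩
  map_add' v w := by
    refine lp.ext (funext fun q => ?_)
    show AE_ev S χ (v + w) (k⁻¹ * q.out) = AE_ev S χ v (k⁻¹ * q.out) + AE_ev S χ w (k⁻¹ * q.out)
    rw [map_add, Pi.add_apply]
  map_smul' r v := by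
    refine lp.ext (funext fun q => ?_)
    show AE_ev S χ (r • v) (k⁻¹ * q.out) = r • AE_ev S χ v (k⁻¹ * q.out)
    rw [map_smul, Pi.smul_apply]

theorem AE_T_apply (k : K) (v : AE_E S) (q : K ⧸ S) :
    AE_T S χ k v q = AE_ev S χ v (k⁻¹ * q.out) := rfl

theorem AE_T_ev (k : K) (v : AE_E S) (x : K) :
    AE_ev S χ (AE_T S χ k v) x = AE_ev S χ v (k⁻¹ * x) := by
  rw [AE_ev_apply, AE_T_apply]
  conv_rhs => rw [← AE_t_spec S x, ← mul_assoc, AE_ev_mul]
  rfl

theorem AE_T_norm (k : K) (v : AE_E S) : ‖AE_T S χ k v‖ = ‖v‖ := by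
  have h1 := AE_norm S (AE_T S χ k v)
  have h2 := h1.unique (AE_hs S χ k v)
  exact (sq_eq_sq₀ (norm_nonneg _) (norm_nonneg _)).1 h2

theorem AE_T_one (v : AE_E S) : AE_T S χ 1 v = v := by
  apply AE_ev_inj S χ
  funext x
  rw [AE_T_ev, inv_one, one_mul]

theorem AE_T_mul (k l : K) (v : AE_E S) : AE_T S χ (k * l) v = AE_T S χ k (AE_T S χ l v) := by
  apply AE_ev_inj S χ
  funext x
  rw [AE_T_ev, AE_T_ev, AE_T_ev, mul_inv_rev, mul_assoc]

/-- The representation. -/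
noncomputable def AE_pi : K →* (AE_E S ≃ₗᵢ[ℝ] AE_E S) where
  toFun k :=
    { toFun := AE_T S χ k
      map_add' := map_add _
      map_smul' := fun r v => map_smul (AE_T S χ k) r v
      invFun := AE_T S χ k⁻¹
      left_inv := fun v => by rw [← AE_T_mul, inv_mul_cancel, AE_T_one]
      right_inv := fun v => by rw [← AE_T_mul, mul_inv_cancel, AE_T_one]
      norm_map' := AE_T_norm S χ k }
  map_one' := by
    ext1 v
    exact AE_T_one S χ v
  map_mul' k l := by
    ext1 v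
    exact AE_T_mul S χ k l v

end AEaux

/-- The representation induced from the character `χ⁻¹` of `S`, as a space of complex functions on
`K`, regarded as a real Hilbert space.

Proof. `E = lp (fun _ : K ⧸ S => ℂ) 2` as a real inner product space (instance for `𝕜 = ℝ`, since `ℂ` is
an inner product space over `ℝ`). For `x : K` let `τ x : S` be the element
`(mk x).out⁻¹ * x`, so `x = (mk x).out * τ x`, `τ (x * s) = τ x * s`, `τ ((mk x).out) = 1`. Put
`ev v x = (χ (τ x) : ℂ)⁻¹ * v (mk x)`. The second property holds since `mk (x * s) = mk x`; and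
`ev v q.out = v q` gives the third one (`lp.norm_rpow_eq_tsum`, `HasSum`; the exponents are
`(2 : ℝ≥0∞).toReal`) and the last one (`v q = Ψ q.out`, `memℓp_gen`, and
`Ψ x = Ψ ((mk x).out * τ x)`). `π k v` is the element `u` of `lp` with `u q = ev v (k⁻¹ * q.out)`:
for an equivariant function `|Ψ|` is right invariant under `S`, so
`‖ev v (k⁻¹ * q.out)‖ = ‖v (k⁻¹ • q)‖`, and the sum over `q` of the squares is the same
(`Equiv.summable_iff`, `Equiv.tsum_eq` for `MulAction.toPerm k⁻¹` on `K ⧸ S`). Then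
`ev (π k v) x = ev v (k⁻¹ * x)` for all `x` (both sides are equivariant and agree on the
representatives), which gives linearity, multiplicativity and the inverse (`ev` is injective). -/
theorem exists_mono {K : Type u} [Group K] (S : Subgroup K) (χ : S →* Circle) :
    ∃ (E : Type u) (_ : NormedAddCommGroup E) (_ : InnerProductSpace ℝ E) (_ : CompleteSpace E)
      (π : K →* (E ≃ₗᵢ[ℝ] E)) (ev : E →ₗ[ℝ] (K → ℂ)),
      (∀ k v x, ev (π k v) x = ev v (k⁻¹ * x)) ∧
      (∀ v x (s : S), ev v (x * s) = (χ s : ℂ)⁻¹ * ev v x) ∧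
      (∀ v, HasSum (fun q : K ⧸ S => ‖ev v q.out‖ ^ 2) (‖v‖ ^ 2)) ∧
      ∀ Ψ : K → ℂ, (∀ x (s : S), Ψ (x * s) = (χ s : ℂ)⁻¹ * Ψ x) →
        Summable (fun q : K ⧸ S => ‖Ψ q.out‖ ^ 2) → ∃ v, ev v = Ψ := by
  refine ⟨AE_E S, inferInstance, inferInstance, inferInstance, AE_pi S χ, AE_ev S χ,
    AE_T_ev S χ, AE_ev_mul S χ, ?_, ?_⟩
  · intro v
    simp only [AE_ev_out]
    exact AE_norm S v
  · intro Ψ hΨ hs
    refine ⟨⟨fun q => Ψ q.out, AE_mem S hs⟩, funext fun x => ?_⟩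
    rw [AE_ev_apply]
    show AE_c S χ x * Ψ (QuotientGroup.mk x : K ⧸ S).out = Ψ x
    conv_rhs => rw [← AE_t_spec S x, hΨ]
    rfl

end Kaz
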