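import Pool.Agent.W_04c03c_h58k.TDef

/-!
# Representations induced from infinite cyclic subgroups are tempered
-/

namespace Kaz

universe u

/-- the bound for the convolution operator, on a finite set -/
theorem AF_real {K : Type*} [Group K] (a : K →₀ ℝ) (C : ℝ)
    (h : ∀ f : K →₀ ℝ, ∑ᶠ x, (a.sum fun k r => r * f (k⁻¹ * x)) ^ 2 ≤ C ^ 2 * ∑ᶠ x, f x ^ 2)
    (F G : Finset K) (u f : K → ℝ) (hf1 : ∀ x ∈ F, f x = u x) (hf2 : ∀ x ∉ F, f x = 0) :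
    ∑ x ∈ G, (a.sum fun k r => r * f (k⁻¹ * x)) ^ 2 ≤ C ^ 2 * ∑ x ∈ F, u x ^ 2 := by
  classical
  have hsup : ∀ x, f x ≠ 0 → x ∈ F := by
    intro x hx
    by_contra hxF
    exact hx (hf2 x hxF)
  have h1 := h (Finsupp.onFinset F f hsup)
  simp only [Finsupp.onFinset_apply] at h1
  have h2 : ∑ᶠ x, f x ^ 2 = ∑ x ∈ F, u x ^ 2 := by
    rw [finsum_eq_sum_of_support_subset (s := F)]
    · exact Finset.sum_congr rfl fun x hx => by rw [hf1 x hx]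
    · intro x hx
      rw [Function.mem_support] at hx
      refine hsup x fun h0 => hx ?_
      rw [h0]
      ring
  rw [h2] at h1
  refine le_trans ?_ h1
  set T : Finset K := a.support.biUnion fun k => F.image fun y => k * y with hT
  have h3 : (Function.support fun x => (a.sum fun k r => r * f (k⁻¹ * x)) ^ 2) ⊆ (T ∪ G : Finset K) := by
    intro x hx
    rw [Function.mem_support] at hx
    have h4 : (a.sum fun k r => r * f (k⁻¹ * x)) ≠ 0 := fun h0 => hx (by rw [h0]; ring)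
    rw [Finsupp.sum] at h4
    obtain ⟨k, hk, hk2⟩ := Finset.exists_ne_zero_of_sum_ne_zero h4
    have h5 : f (k⁻¹ * x) ≠ 0 := right_ne_zero_of_mul hk2
    have h6 := hsup _ h5
    rw [Finset.mem_coe, Finset.mem_union]
    left
    rw [hT, Finset.mem_biUnion]
    refine ⟨k, hk, Finset.mem_image.mpr ⟨k⁻¹ * x, h6, ?_⟩⟩
    rw [mul_inv_cancel_left]
  rw [finsum_eq_sum_of_support_subset _ h3]
  exact Finset.sum_le_sum_of_subset_of_nonneg Finset.subset_union_right fun _ _ _ => sq_nonneg _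

/-- the bound for complex functions -/
theorem AF_complex {K : Type*} [Group K] (a : K →₀ ℝ) (C : ℝ)
    (h : ∀ f : K →₀ ℝ, ∑ᶠ x, (a.sum fun k r => r * f (k⁻¹ * x)) ^ 2 ≤ C ^ 2 * ∑ᶠ x, f x ^ 2)
    (F G : Finset K) (ψ : K → ℂ) (hG : ∀ x ∈ G, ∀ k ∈ a.support, k⁻¹ * x ∈ F) :
    ∑ x ∈ G, ‖a.sum fun k r => (r : ℂ) * ψ (k⁻¹ * x)‖ ^ 2 ≤ C ^ 2 * ∑ x ∈ F, ‖ψ x‖ ^ 2 := by
  classical
  have e1 := AF_real a C h F G (fun x => (ψ x).re) (fun x => if x ∈ F then (ψ x).re else 0)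
    (fun x hx => if_pos hx) (fun x hx => if_neg hx)
  have e2 := AF_real a C h F G (fun x => (ψ x).im) (fun x => if x ∈ F then (ψ x).im else 0)
    (fun x hx => if_pos hx) (fun x hx => if_neg hx)
  have h1 : ∀ z : ℂ, ‖z‖ ^ 2 = z.re ^ 2 + z.im ^ 2 := by
    intro z
    rw [Complex.sq_norm, Complex.normSq_apply]
    ring
  have h2 : ∑ x ∈ G, ‖a.sum fun k r => (r : ℂ) * ψ (k⁻¹ * x)‖ ^ 2 =
      ∑ x ∈ G, (a.sum fun k r => r * (if k⁻¹ * x ∈ F then (ψ (k⁻¹ * x)).re else 0)) ^ 2 +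
      ∑ x ∈ G, (a.sum fun k r => r * (if k⁻¹ * x ∈ F then (ψ (k⁻¹ * x)).im else 0)) ^ 2 := by
    rw [← Finset.sum_add_distrib]
    refine Finset.sum_congr rfl fun x hx => ?_
    rw [h1]
    congr 2
    · rw [Finsupp.sum, Finsupp.sum, Complex.re_sum]
      refine Finset.sum_congr rfl fun k hk => ?_
      rw [if_pos (hG x hx k hk), Complex.re_ofReal_mul]
    · rw [Finsupp.sum, Finsupp.sum, Complex.im_sum]
      refine Finset.sum_congr rfl fun k hk => ?_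
      rw [if_pos (hG x hx k hk), Complex.im_ofReal_mul]
  have h3 : ∑ x ∈ F, ‖ψ x‖ ^ 2 = ∑ x ∈ F, (ψ x).re ^ 2 + ∑ x ∈ F, (ψ x).im ^ 2 := by
    rw [← Finset.sum_add_distrib]
    exact Finset.sum_congr rfl fun x _ => h1 _
  rw [h2, h3, mul_add]
  exact add_le_add e1 e2

/-- powers of an element of infinite order are distinct -/
theorem AF_inj {K : Type*} [Group K] {g : K} (hg : InfOrd g) {i j : ℤ} (h : g ^ i = g ^ j) : i = j := by
  have h0 : ¬ IsOfFinOrder g := by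
    rw [isOfFinOrder_iff_pow_eq_one]
    rintro ⟨n, hn, hn2⟩
    exact hg n hn hn2
  exact injective_zpow_iff_not_isOfFinOrder.mpr h0 h

/-- coordinates -/
theorem AF_coord {K : Type*} [Group K] {g : K} (x : K) :
    ∃ i : ℤ, x = (QuotientGroup.mk x : K ⧸ Subgroup.zpowers g).out * g ^ i := by
  have h1 : (QuotientGroup.mk x : K ⧸ Subgroup.zpowers g).out⁻¹ * x ∈ Subgroup.zpowers g := by
    rw [← QuotientGroup.eq]
    exact QuotientGroup.out_eq' _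
  obtain ⟨i, hi⟩ := Subgroup.mem_zpowers_iff.mp h1
  exact ⟨i, by rw [hi, mul_inv_cancel_left]⟩

theorem AF_mk {K : Type*} [Group K] {g : K} (q : K ⧸ Subgroup.zpowers g) (i : ℤ) :
    (QuotientGroup.mk (q.out * g ^ i) : K ⧸ Subgroup.zpowers g) = q := by
  conv_rhs => rw [← QuotientGroup.out_eq' q]
  rw [eq_comm, QuotientGroup.eq, inv_mul_cancel_left]
  exact Subgroup.zpow_mem_zpowers g i

theorem AF_pinj {K : Type*} [Group K] {g : K} (hg : InfOrd g) :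
    Function.Injective fun p : (K ⧸ Subgroup.zpowers g) × ℤ => p.1.out * g ^ p.2 := by
  rintro ⟨q, i⟩ ⟨q', i'⟩ h
  simp only at h
  have h1 : q = q' := by rw [← AF_mk q i, h, AF_mk]
  subst h1
  have h2 := AF_inj hg (mul_left_cancel h)
  rw [h2]

/-- the finite estimate -/
theorem AF_est {K : Type*} [Group K] {g : K} (hg : InfOrd g) (a : K →₀ ℝ) (C : ℝ)
    (h : ∀ f : K →₀ ℝ, ∑ᶠ x, (a.sum fun k r => r * f (k⁻¹ * x)) ^ 2 ≤ C ^ 2 * ∑ᶠ x, f x ^ 2)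
    (ψ : K → ℂ) (hψ : ∀ x (i : ℤ), ‖ψ (x * g ^ i)‖ = ‖ψ x‖)
    (hψ2 : ∀ x (i : ℤ), ‖a.sum fun k r => (r : ℂ) * ψ (k⁻¹ * (x * g ^ i))‖ =
      ‖a.sum fun k r => (r : ℂ) * ψ (k⁻¹ * x)‖) (B : ℝ)
    (hB : ∀ Φ : Finset (K ⧸ Subgroup.zpowers g), ∑ q ∈ Φ, ‖ψ q.out‖ ^ 2 ≤ B)
    (Φ' : Finset (K ⧸ Subgroup.zpowers g)) :
    ∑ q ∈ Φ', ‖a.sum fun k r => (r : ℂ) * ψ (k⁻¹ * q.out)‖ ^ 2 ≤ C ^ 2 * B := by
  classical
  choose τ hτ using fun x : K => AF_coord (g := g) x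
  set Φ : Finset (K ⧸ Subgroup.zpowers g) :=
    a.support.biUnion fun k => Φ'.image fun q => (QuotientGroup.mk (k⁻¹ * q.out)) with hΦ
  set L : ℕ := ∑ k ∈ a.support, ∑ q ∈ Φ', (τ (k⁻¹ * q.out)).natAbs with hL
  have hLle : ∀ k ∈ a.support, ∀ q ∈ Φ', (τ (k⁻¹ * q.out)).natAbs ≤ L := by
    intro k hk q hq
    calc (τ (k⁻¹ * q.out)).natAbs ≤ ∑ q ∈ Φ', (τ (k⁻¹ * q.out)).natAbs :=
          Finset.single_le_sum (f := fun q : K ⧸ Subgroup.zpowers g => (τ (k⁻¹ * q.out)).natAbs)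
            (fun _ _ => Nat.zero_le _) hq
      _ ≤ L := Finset.single_le_sum
            (f := fun k : K => ∑ q ∈ Φ', (τ (k⁻¹ * q.out)).natAbs)
            (fun _ _ => Nat.zero_le _) hk
  set S' : ℝ := ∑ q ∈ Φ', ‖a.sum fun k r => (r : ℂ) * ψ (k⁻¹ * q.out)‖ ^ 2 with hS'
  have hS0 : 0 ≤ S' := Finset.sum_nonneg fun _ _ => sq_nonneg _
  clear_value L Φ S'
  have key : ∀ n : ℕ, (n : ℝ) * S' ≤ (n + 2 * L : ℕ) * (C ^ 2 * B) := by
    intro n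
    obtain ⟨emb, hembv⟩ : ∃ emb : ((K ⧸ Subgroup.zpowers g) × ℤ) ↪ K,
        ∀ p, emb p = p.1.out * g ^ p.2 := ⟨⟨_, AF_pinj hg⟩, fun p => rfl⟩
    set F : Finset K := (Φ ×ˢ Finset.Ico (0 : ℤ) (n + 2 * L : ℕ)).map emb with hF
    set G : Finset K := (Φ' ×ˢ Finset.Ico (L : ℤ) (n + L : ℕ)).map emb with hGd
    have hG : ∀ x ∈ G, ∀ k ∈ a.support, k⁻¹ * x ∈ F := by
      intro x hx k hk
      rw [hGd, Finset.mem_map] at hx
      obtain ⟨⟨q, i⟩, hqi, rfl⟩ := hx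
      rw [Finset.mem_product, Finset.mem_Ico] at hqi
      obtain ⟨hq, hi1, hi2⟩ := hqi
      simp only at hq hi1 hi2
      have h1 := hLle k hk q hq
      rw [hF, Finset.mem_map]
      refine ⟨⟨QuotientGroup.mk (k⁻¹ * q.out), τ (k⁻¹ * q.out) + i⟩, ?_, ?_⟩
      · rw [Finset.mem_product, Finset.mem_Ico]
        refine ⟨?_, ?_, ?_⟩
        · rw [hΦ, Finset.mem_biUnion]
          exact ⟨k, hk, Finset.mem_image.mpr ⟨q, hq, rfl⟩⟩
        · simp only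
          omega
        · simp only
          push_cast at hi2 ⊢
          omega
      · rw [hembv, hembv]
        simp only
        rw [zpow_add, ← mul_assoc, ← hτ (k⁻¹ * q.out), mul_assoc]
    have h1 := AF_complex a C h F G ψ hG
    have h2 : ∑ x ∈ F, ‖ψ x‖ ^ 2 = (n + 2 * L : ℕ) * ∑ q ∈ Φ, ‖ψ q.out‖ ^ 2 := by
      rw [hF, Finset.sum_map, Finset.sum_product, Finset.mul_sum]
      refine Finset.sum_congr rfl fun q _ => ?_
      have h3 : ∀ i ∈ Finset.Ico (0 : ℤ) (n + 2 * L : ℕ), ‖ψ (emb (q, i))‖ ^ 2 = ‖ψ q.out‖ ^ 2 := by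
        intro i _
        rw [hembv, hψ]
      rw [Finset.sum_congr rfl h3, Finset.sum_const, nsmul_eq_mul]
      congr 1
      rw [Int.card_Ico, sub_zero, Int.toNat_natCast]
    have h4 : ∑ x ∈ G, ‖a.sum fun k r => (r : ℂ) * ψ (k⁻¹ * x)‖ ^ 2 = n * S' := by
      rw [hGd, Finset.sum_map, Finset.sum_product, hS', Finset.mul_sum]
      refine Finset.sum_congr rfl fun q _ => ?_
      have h3 : ∀ i ∈ Finset.Ico (L : ℤ) (n + L : ℕ),
          ‖a.sum fun k r => (r : ℂ) * ψ (k⁻¹ * (emb (q, i)))‖ ^ 2 =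
          ‖a.sum fun k r => (r : ℂ) * ψ (k⁻¹ * q.out)‖ ^ 2 := by
        intro i _
        rw [hembv, hψ2]
      rw [Finset.sum_congr rfl h3, Finset.sum_const, nsmul_eq_mul]
      congr 1
      rw [Int.card_Ico]
      simp
    rw [h4, h2] at h1
    refine h1.trans ?_
    have h5 := hB Φ
    have h6 : (0 : ℝ) ≤ C ^ 2 * (n + 2 * L : ℕ) := by positivity
    nlinarith [mul_le_mul_of_nonneg_left h5 h6]
  by_contra hcon
  push Not at hcon
  obtain ⟨n, hn⟩ := exists_nat_gt ((2 * L : ℝ) * (C ^ 2 * B) / (S' - C ^ 2 * B))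
  rw [div_lt_iff₀ (sub_pos.mpr hcon)] at hn
  have h1 := key n
  push_cast at h1
  nlinarith

/-- Representations induced from infinite cyclic subgroups are weakly contained in the regular
representation.

Proof. Let `S = zpowers g`, `a : K →₀ ℝ`, `C ≥ 0` with the bound for the convolution operator
`f ↦ a * f`, `(a * f) x = ∑ a_k f (k⁻¹ x)`. (i) The bound holds for finitely supported complex `f`:
`∑ᶠ ‖(a * f) x‖ ^ 2 ≤ C ^ 2 ∑ᶠ ‖f x‖ ^ 2`, by adding the bounds for the real and the imaginary part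
(`Complex.sq_norm`, `Complex.normSq_apply`; all sums are finite).
(ii) Every `x : K` is `q.out * g ^ i` for unique `q : K ⧸ S` (`q = mk x`) and `i : ℤ` (`hg`: the powers
of `g` are distinct, `zpow` injective); write `τ x = i`. `ψ = ev v` satisfies `ψ (x * g ^ i) =
χ(..)⁻¹ ψ x`, so `‖ψ (x * g ^ i)‖ = ‖ψ x‖`. Let `Φ'` be a finite set of cosets,
`Φ = ⋃ k ∈ supp a, k⁻¹ • Φ'` (finite), and `L : ℕ` an upper bound for the finitely many
`|τ (k⁻¹ * q.out)|`, `k ∈ supp a`, `q ∈ Φ'`. For `n : ℕ` let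
`F = {x | mk x ∈ Φ ∧ 0 ≤ τ x < n}` (finite) and `f x = ψ x` for `x ∈ F`, `0` otherwise. Then
`∑ ‖f x‖ ^ 2 = n * ∑ q ∈ Φ, ‖ψ q.out‖ ^ 2 ≤ n ‖v‖ ^ 2` (`h3`). For `x = q.out * g ^ i`, `q ∈ Φ'`,
`L ≤ i < n - L`, and `k ∈ supp a`: `k⁻¹ x = (k⁻¹ q.out) g ^ i` is in `F` (`mk (k⁻¹ x) = k⁻¹ • q ∈ Φ`,
`τ (k⁻¹ x) = τ (k⁻¹ q.out) + i ∈ [0, n)`), so
`(a * f) x = ∑ a_k ψ (k⁻¹ x) = ev (∑ a_k π k v) x` by `h1` and linearity of `ev`, and its norm is
`‖ev (∑ a_k π k v) q.out‖`. Hence for `n ≥ 2 L`: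
`(n - 2 L) * ∑ q ∈ Φ', ‖ev (∑ a_k π k v) q.out‖ ^ 2 ≤ C ^ 2 n ‖v‖ ^ 2`. Divide by `n` and let
`n → ∞`: `∑ q ∈ Φ', ‖ev (∑ a_k π k v) q.out‖ ^ 2 ≤ C ^ 2 ‖v‖ ^ 2` for all finite `Φ'`, so
`‖∑ a_k π k v‖ ^ 2 ≤ C ^ 2 ‖v‖ ^ 2` by `h3` (`HasSum` of nonnegative terms). -/
theorem tempered_of_ev {K : Type u} [Group K] {g : K} (hg : InfOrd g)
    (χ : Subgroup.zpowers g →* Circle) {E : Type u} [NormedAddCommGroup E] [InnerProductSpace ℝ E]
    (π : K →* (E ≃ₗᵢ[ℝ] E)) (ev : E →ₗ[ℝ] (K → ℂ)) (h1 : ∀ k v x, ev (π k v) x = ev v (k⁻¹ * x))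
    (h2 : ∀ v x (s : Subgroup.zpowers g), ev v (x * s) = (χ s : ℂ)⁻¹ * ev v x)
    (h3 : ∀ v, HasSum (fun q : K ⧸ Subgroup.zpowers g => ‖ev v q.out‖ ^ 2) (‖v‖ ^ 2)) :
    Tempered π := by
  intro a C hC hb v
  set w : E := a.sum fun k r => r • π k v with hw
  have hew : ∀ x, ev w x = a.sum fun k r => (r : ℂ) * ev v (k⁻¹ * x) := by
    intro x
    rw [hw, Finsupp.sum, map_sum, Finset.sum_apply, Finsupp.sum]
    refine Finset.sum_congr rfl fun k _ => ?_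
    rw [map_smul, Pi.smul_apply, h1, Complex.real_smul]
  have hinv : ∀ (u : E) x (i : ℤ), ‖ev u (x * g ^ i)‖ = ‖ev u x‖ := by
    intro u x i
    have h4 := h2 u x ⟨g ^ i, Subgroup.zpow_mem_zpowers g i⟩
    simp only at h4
    rw [h4, norm_mul, norm_inv, Circle.norm_coe, inv_one, one_mul]
  have hmain : ‖w‖ ^ 2 ≤ C ^ 2 * ‖v‖ ^ 2 := by
    refine hasSum_le_of_sum_le (h3 w) fun Φ' => ?_
    have h5 := AF_est hg a C hb (ev v) (hinv v) (fun x i => by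
      rw [← hew, ← hew]
      exact hinv w x i) (‖v‖ ^ 2)
      (fun Φ => sum_le_hasSum Φ (fun _ _ => sq_nonneg _) (h3 v)) Φ'
    simpa only [hew] using h5
  have h6 : (0 : ℝ) ≤ C * ‖v‖ := mul_nonneg hC (norm_nonneg v)
  rw [← mul_pow] at hmain
  exact le_of_sq_le_sq hmain h6

end Kaz
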