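import Pool.Agent.W_04c03c_h58k.AC
import Pool.Agent.W_04c03c_h58k.AD1
import Pool.Agent.W_04c03c_h58k.AE
import Pool.Agent.W_04c03c_h58k.AF

/-!
# The value of a cochain at `g` in terms of finitely many defects
-/

namespace Kaz

universe u

/-- Polarization. -/
theorem AD_inner {Q : Type*} {E : Type*} [NormedAddCommGroup E] [InnerProductSpace ℝ E]
    (e : E →ₗ[ℝ] (Q → ℂ)) (h : ∀ v, HasSum (fun q => ‖e v q‖ ^ 2) (‖v‖ ^ 2)) (u v : E) :
    HasSum (fun q => (e u q).re * (e v q).re + (e u q).im * (e v q).im) (inner ℝ u v) := by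
  have h1 := (((h (u + v)).sub (h u)).sub (h v)).mul_left (1 / 2)
  have h2 : 1 / 2 * (‖u + v‖ ^ 2 - ‖u‖ ^ 2 - ‖v‖ ^ 2) = inner ℝ u v := by
    have := norm_add_sq_real u v
    linarith
  rw [h2] at h1
  have h3 : (fun q => (e u q).re * (e v q).re + (e u q).im * (e v q).im) =
      fun q => 1 / 2 * (‖e (u + v) q‖ ^ 2 - ‖e u q‖ ^ 2 - ‖e v q‖ ^ 2) := by
    funext q
    rw [map_add, Pi.add_apply, Complex.sq_norm, Complex.sq_norm, Complex.sq_norm,
      Complex.normSq_apply, Complex.normSq_apply, Complex.normSq_apply, Complex.add_re,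
      Complex.add_im]
    ring
  rw [h3]
  exact h1

/-- A finite sum. -/
theorem AD_fin {Q : Type*} (Y : Q → ℝ) (r : Q →₀ ℝ) {c : ℝ} (h : HasSum (fun q => Y q * r q) c) :
    c = r.sum fun q a => Y q * a := by
  refine h.unique ?_
  exact hasSum_sum_of_ne_finset_zero fun q hq => by
    rw [Finsupp.notMem_support_iff.1 hq, mul_zero]

/-- The value of a cochain at `g` in terms of finitely many defects (duality).

Proof. Let `S = zpowers g`, `χ = 1`, `V, π, ev` from `exists_mono`; `π` is tempered (`tempered_of_ev`).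
Let `ℓ v = re (ev v 1)`: it is linear and `|ℓ v| ≤ ‖v‖` (`‖ev v 1‖ ^ 2 = ‖ev v (mk 1).out‖ ^ 2 ≤ ‖v‖ ^ 2`,
as `ev v` is right invariant under `S`), and `ℓ (π g v - v) = re (ev v g⁻¹ - ev v 1) = 0`. `gap_ineq`
gives `P`, `C`. Apply `riesz_factor` to `W = (K → V)`, `ι = P`, `D p b = dft π b p` and the linear form
`b ↦ ℓ (b g)`: `ℓ (b g) = ∑ p, ⟪u_p, dft π b p⟫` for all `b : K → V`.
For `r : K ⧸ S →₀ ℝ` let `V r` be the element of `V` with `ev (V r) x = (r (mk x) : ℂ)` (fourth
property of `exists_mono`; finite support), so `ev (π k (V r)) x = r (k⁻¹ • mk x)`. Let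
`Y p q = re (ev u_p q.out)`, square-summable. The inner product is
`⟪u, v⟫ = ∑' q, (re (ev u q.out) * re (ev v q.out) + im * im)` (polarization of the third property), so
`⟪u_p, V r⟫ = ∑ q, Y p q * r q` and `⟪u_p, π k (V r)⟫ = ∑ q, Y p q * r (k⁻¹ • q) = ∑ q, Y p (k • q) * r q`
(finite sums). Apply the identity to `k ↦ V (b k)`; `ℓ (V (b g)) = b g (mk 1)`.
(For `p ∉ P` put `Y p = 0`.) -/
theorem exists_gap {K : Type u} [Group K] (hK : FixT K) (hfg : Group.FG K) {g : K}
    (hg : InfOrd g) : ∃ (P : Finset (K × K)) (Y : K × K → K ⧸ Subgroup.zpowers g → ℝ),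
      (∀ p, Summable (fun q => Y p q ^ 2)) ∧
      ∀ b : K → (K ⧸ Subgroup.zpowers g →₀ ℝ), b g (QuotientGroup.mk 1) =
        ∑ p ∈ P, (((b p.1).sum fun q r => Y p q * r) +
          ((b p.2).sum fun q r => Y p (p.1 • q) * r) -
          ((b (p.1 * p.2)).sum fun q r => Y p q * r)) := by
  classical
  obtain ⟨V, i1, i2, i3, π, ev, h1, h2, h3, h4⟩ :=
    exists_mono (Subgroup.zpowers g) (1 : Subgroup.zpowers g →* Circle)
  have hπ : Tempered π := tempered_of_ev hg 1 π ev h1 h2 h3
  have h2' : ∀ v x (s : K), s ∈ Subgroup.zpowers g → ev v (x * s) = ev v x := by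
    intro v x s hs
    have := h2 v x ⟨s, hs⟩
    rw [MonoidHom.one_apply, Circle.coe_one, inv_one, one_mul] at this
    exact this
  have hout : ∀ v x, ev v x = ev v (QuotientGroup.mk x : K ⧸ Subgroup.zpowers g).out := by
    intro v x
    have h5 : (QuotientGroup.mk x : K ⧸ Subgroup.zpowers g).out⁻¹ * x ∈ Subgroup.zpowers g :=
      QuotientGroup.eq.1 (QuotientGroup.out_eq' _)
    rw [← h2' v (QuotientGroup.mk x : K ⧸ Subgroup.zpowers g).out _ h5, mul_inv_cancel_left]
  have hb : ∀ v x, ‖ev v x‖ ≤ ‖v‖ := by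
    intro v x
    have h5 := le_hasSum (h3 v) (QuotientGroup.mk x : K ⧸ Subgroup.zpowers g)
      (fun q _ => sq_nonneg _)
    rw [← hout v x] at h5
    exact (sq_le_sq₀ (norm_nonneg _) (norm_nonneg _)).1 h5
  obtain ⟨ℓ, hℓ⟩ : ∃ ℓ : V →L[ℝ] ℝ, ∀ v, ℓ v = (ev v 1).re := by
    refine ⟨LinearMap.mkContinuous
      { toFun := fun v => (ev v 1).re
        map_add' := fun v w => by rw [map_add, Pi.add_apply, Complex.add_re]
        map_smul' := fun r v => by
          rw [map_smul, Pi.smul_apply, RingHom.id_apply, Complex.smul_re] } 1 ?_, fun v => rfl⟩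
    intro v
    rw [one_mul]
    exact (Complex.abs_re_le_norm _).trans (hb v 1)
  have hℓ0 : ∀ v, ℓ (π g v - v) = 0 := by
    intro v
    have h5 : ev (π g v) 1 = ev v 1 := by
      rw [h1, mul_one, ← one_mul (g⁻¹)]
      exact h2' v 1 _ (Subgroup.inv_mem _ (Subgroup.mem_zpowers g))
    rw [map_sub, hℓ, hℓ, h5, sub_self]
  obtain ⟨P, C, hPC⟩ := gap_ineq hK hfg π hπ g ℓ hℓ0
  obtain ⟨D, hD⟩ : ∃ D : P → (K → V) →ₗ[ℝ] V, ∀ p b, D p b = dft π b p := by
    refine ⟨fun p =>
      { toFun := fun b => dft π b p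
        map_add' := fun b b' => by
          unfold dft
          rw [Pi.add_apply, Pi.add_apply, Pi.add_apply, map_add]
          abel
        map_smul' := fun r b => by
          unfold dft
          rw [Pi.smul_apply, Pi.smul_apply, Pi.smul_apply, map_smul, RingHom.id_apply, smul_sub,
            smul_add] }, fun p b => rfl⟩
  obtain ⟨L, hL⟩ : ∃ L : (K → V) →ₗ[ℝ] ℝ, ∀ b, L b = ℓ (b g) :=
    ⟨ℓ.toLinearMap.comp (LinearMap.proj g), fun b => rfl⟩
  obtain ⟨u, hu⟩ := riesz_factor D L C (fun b => by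
    rw [hL]
    refine (hPC b).trans (le_of_eq ?_)
    congr 1
    rw [← Finset.sum_coe_sort]
    exact Finset.sum_congr rfl fun p _ => by rw [hD])
  -- the elements with finite support
  have hV : ∀ r : K ⧸ Subgroup.zpowers g →₀ ℝ, ∃ v : V, ∀ x,
      ev v x = ((r (QuotientGroup.mk x) : ℝ) : ℂ) := by
    intro r
    obtain ⟨v, hv⟩ := h4 (fun x => ((r (QuotientGroup.mk x) : ℝ) : ℂ)) (fun x s => by
        rw [MonoidHom.one_apply, Circle.coe_one, inv_one, one_mul,
          QuotientGroup.mk_mul_of_mem x s.2])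
      (summable_of_ne_finset_zero (s := r.support) fun q hq => by
        rw [QuotientGroup.out_eq', Finsupp.notMem_support_iff.1 hq]
        simp)
    exact ⟨v, fun x => congrFun hv x⟩
  choose W hW using hV
  obtain ⟨e, he⟩ : ∃ e : V →ₗ[ℝ] (K ⧸ Subgroup.zpowers g → ℂ), ∀ v q, e v q = ev v q.out := by
    refine ⟨
      { toFun := fun v q => ev v q.out
        map_add' := fun v w => by
          funext q
          rw [map_add]
          rfl
        map_smul' := fun r v => by
          funext q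
          rw [map_smul]
          rfl }, fun v q => rfl⟩
  have hin := AD_inner e (fun v => by simpa only [he] using h3 v)
  have i1' : ∀ (v : V) (r : K ⧸ Subgroup.zpowers g →₀ ℝ),
      inner ℝ v (W r) = r.sum fun q a => (ev v q.out).re * a := by
    intro v r
    refine AD_fin (fun q => (ev v q.out).re) r ?_
    have h5 := hin v (W r)
    simp only [he, hW, Complex.ofReal_re, Complex.ofReal_im, mul_zero, add_zero,
      QuotientGroup.out_eq'] at h5
    exact h5
  have i2' : ∀ (v : V) (k : K) (r : K ⧸ Subgroup.zpowers g →₀ ℝ),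
      inner ℝ v (π k (W r)) = r.sum fun q a => (ev v (k • q).out).re * a := by
    intro v k r
    refine AD_fin (fun q => (ev v (k • q).out).re) r ?_
    have h5 := hin v (π k (W r))
    have h6 : ∀ q : K ⧸ Subgroup.zpowers g, (QuotientGroup.mk (k⁻¹ * q.out) :
        K ⧸ Subgroup.zpowers g) = k⁻¹ • q := by
      intro q
      conv_rhs => rw [← QuotientGroup.out_eq' q]
      rfl
    simp only [he, h1, hW, Complex.ofReal_re, Complex.ofReal_im, mul_zero, add_zero, h6] at h5
    have h7 := (Equiv.hasSum_iff (MulAction.toPerm k : Equiv.Perm (K ⧸ Subgroup.zpowers g))).2 h5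
    have h8 : ((fun q : K ⧸ Subgroup.zpowers g => (ev v q.out).re * r (k⁻¹ • q)) ∘
        (MulAction.toPerm k : Equiv.Perm (K ⧸ Subgroup.zpowers g))) =
        fun q => (ev v (k • q).out).re * r q := by
      funext q
      show (ev v (k • q).out).re * r (k⁻¹ • k • q) = _
      rw [inv_smul_smul]
    rw [h8] at h7
    exact h7
  obtain ⟨Y, hY⟩ : ∃ Y : K × K → K ⧸ Subgroup.zpowers g → ℝ, Y = fun p q =>
    if h : p ∈ P then (ev (u ⟨p, h⟩) q.out).re else 0 := ⟨_, rfl⟩
  have hYp : ∀ (p : P) q, Y p q = (ev (u p) q.out).re := by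
    intro p q
    rw [hY]
    exact dif_pos p.2
  refine ⟨P, Y, ?_, ?_⟩
  · intro p
    by_cases hp : p ∈ P
    · refine Summable.of_nonneg_of_le (fun q => sq_nonneg _) (fun q => ?_)
        (h3 (u ⟨p, hp⟩)).summable
      rw [hYp ⟨p, hp⟩ q, ← sq_abs]
      exact pow_le_pow_left₀ (abs_nonneg _) (Complex.abs_re_le_norm _) 2
    · have h5 : ∀ q, Y p q = 0 := by
        intro q
        rw [hY]
        exact dif_neg hp
      simp [h5]
  · intro b
    have h5 := hu fun k => W (b k)
    rw [hL, hℓ, hW, Complex.ofReal_re] at h5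
    rw [h5, ← Finset.sum_coe_sort P (fun p : K × K => (((b p.1).sum fun q r => Y p q * r) +
          ((b p.2).sum fun q r => Y p (p.1 • q) * r) -
          ((b (p.1 * p.2)).sum fun q r => Y p q * r)))]
    refine Finset.sum_congr rfl fun p _ => ?_
    rw [hD]
    unfold dft
    rw [inner_sub_right, inner_add_right, i1', i1', i2']
    simp only [hYp]

end Kaz
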