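import Pool.Agent.W_04c03c_h58k.AE
import Pool.Agent.W_04c03c_h58k.AF

/-!
# Functions with square-summable derivative are constant at infinity
-/

namespace Kaz

universe u

/-- Functions with square-summable derivative are constant at infinity.

Proof. Take `E, π, ev` of `exists_mono` for `S = zpowers g` and `χ`; `π` is tempered (`tempered_of_ev`).
`ev` is injective: if `ev v = 0` then `‖v‖ ^ 2 = 0` (`HasSum` unique). For `k : K` the function
`x ↦ Ψ (k⁻¹ * x) - Ψ x` is equivariant (`h1`), so it is `ev (b k)` for some `b k : E` (`h2`).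
`b (k * l) = b k + π k (b l)`: apply `ev`: `Ψ (l⁻¹ k⁻¹ x) - Ψ x = (Ψ (k⁻¹ x) - Ψ x) +
(Ψ (l⁻¹ k⁻¹ x) - Ψ (k⁻¹ x))`. By `hK` there is `v` with `π k v + b k = v`, so
`ev v (k⁻¹ x) + Ψ (k⁻¹ x) - Ψ x = ev v x` for all `k, x`: the function `ev v + Ψ` is constant, `= κ`.
`Ψ - κ = - ev v`, so the first claim is `HasSum.summable`. Second: for `s ∈ S`, `x = 1`:
`κ = (ev v + Ψ) (1 * s) = (χ s)⁻¹ * (ev v + Ψ) 1 = (χ s)⁻¹ * κ`. -/
theorem fix_const {K : Type u} [Group K] (hK : FixT K) {g : K} (hg : InfOrd g)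
    (χ : Subgroup.zpowers g →* Circle) (Ψ : K → ℂ)
    (h1 : ∀ x (s : Subgroup.zpowers g), Ψ (x * s) = (χ s : ℂ)⁻¹ * Ψ x)
    (h2 : ∀ k : K, Summable (fun q : K ⧸ Subgroup.zpowers g => ‖Ψ (k⁻¹ * q.out) - Ψ q.out‖ ^ 2)) :
    ∃ κ : ℂ, Summable (fun q : K ⧸ Subgroup.zpowers g => ‖Ψ q.out - κ‖ ^ 2) ∧
      ∀ s : Subgroup.zpowers g, (χ s : ℂ)⁻¹ * κ = κ := by
  obtain ⟨E, i1, i2, i3, π, ev, e1, e2, e3, e4⟩ := exists_mono (Subgroup.zpowers g) χ
  have hT : Tempered π := tempered_of_ev hg χ π ev e1 e2 e3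
  have hinj : ∀ v w, ev v = ev w → v = w := by
    intro v w hvw
    have h5 : ev (v - w) = 0 := by rw [map_sub, hvw, sub_self]
    have h6 := e3 (v - w)
    rw [h5] at h6
    have h7 : HasSum (fun q : K ⧸ Subgroup.zpowers g => ‖(0 : K → ℂ) q.out‖ ^ 2) 0 := by
      have h8 : (fun q : K ⧸ Subgroup.zpowers g => ‖(0 : K → ℂ) q.out‖ ^ 2) = fun _ => 0 := by
        funext q
        rw [Pi.zero_apply, norm_zero, zero_pow two_ne_zero]
      rw [h8]
      exact hasSum_zero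
    have h8 : ‖v - w‖ ^ 2 = 0 := h6.unique h7
    exact sub_eq_zero.1 (norm_eq_zero.1 ((pow_eq_zero_iff two_ne_zero).1 h8))
  have hb : ∀ k : K, ∃ v, ev v = fun x => Ψ (k⁻¹ * x) - Ψ x := by
    intro k
    refine e4 _ (fun x s => ?_) (h2 k)
    show Ψ (k⁻¹ * (x * s)) - Ψ (x * s) = (χ s : ℂ)⁻¹ * (Ψ (k⁻¹ * x) - Ψ x)
    rw [← mul_assoc, h1, h1, mul_sub]
  choose b hb using hb
  have hbx : ∀ k x, ev (b k) x = Ψ (k⁻¹ * x) - Ψ x := fun k x => congrFun (hb k) x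
  obtain ⟨v, hv⟩ := hK E π b hT fun k l => hinj _ _ (by
    funext x
    rw [map_add, Pi.add_apply, e1, hbx, hbx, hbx, mul_inv_rev, mul_assoc]
    ring)
  have hc : ∀ x, ev v x + Ψ x = ev v 1 + Ψ 1 := by
    intro x
    have h5 : ev (π x v + b x) x = ev v x := by rw [hv]
    rw [map_add, Pi.add_apply, e1, hbx, inv_mul_cancel] at h5
    rw [← h5]
    ring
  refine ⟨ev v 1 + Ψ 1, ?_, fun s => ?_⟩
  · have h5 : (fun q : K ⧸ Subgroup.zpowers g => ‖Ψ q.out - (ev v 1 + Ψ 1)‖ ^ 2) =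
        fun q => ‖ev v q.out‖ ^ 2 := by
      funext q
      rw [← hc q.out, sub_add_cancel_right, norm_neg]
    rw [h5]
    exact (e3 v).summable
  · have h5 := hc (1 * s)
    rw [e2, h1, ← mul_add] at h5
    exact h5

end Kaz
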