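import Pool.Agent.W_04c03c_h58k.KFace

/-!
# The orientation character
-/

namespace Kaz

open RCan

variable {N Ξ V : Type*} [Group N] [MulAction N Ξ] [MulAction N V] {sm : V → V → Prop}
  {cusp : V → Option Ξ}

theorem CA_cr_hom {A B : Type*} [AddCommGroup A] [AddCommGroup B] (φ : A →+ B)
    (f : List V → A) : cr sm (fun l => φ (f l)) = fun l => φ (cr sm f l) := by
  funext l
  unfold RCan.cr
  split_ifs
  · rw [co_hom]
  · rw [map_zero]

theorem CA_isD_hom {A B : Type*} [AddCommGroup A] [AddCommGroup B] (φ : A →+ B) {n : ℕ}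
    {f : List V → A} (hf : IsD sm cusp A n f) : IsD sm cusp B n (fun l => φ (f l)) := by
  have h1 : ∀ l, φ (f l) ≠ 0 → f l ≠ 0 := fun l hl h => hl (by rw [h, map_zero])
  exact ⟨hf.alt.hom φ, fun l hl => hf.len l (h1 l hl), fun l hl => hf.rl l (h1 l hl),
    hf.fin.subset fun l hl => h1 l hl⟩

/-- Exact real cochains of degree 3. -/
def CA_Ex (sm : V → V → Prop) (cusp : V → Option Ξ) (f : List V → ℝ) : Prop :=
  ∃ b, IsD sm cusp ℝ 2 b ∧ cr sm b = f

theorem CA_Ex.add {f g : List V → ℝ} (hf : CA_Ex sm cusp f) (hg : CA_Ex sm cusp g) :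
    CA_Ex sm cusp (f + g) := by
  obtain ⟨b, hb, rfl⟩ := hf
  obtain ⟨c, hc, rfl⟩ := hg
  exact ⟨b + c, hb.add hc, cr_add b c⟩

theorem CA_Ex.smul {f : List V → ℝ} (hf : CA_Ex sm cusp f) (r : ℝ) :
    CA_Ex sm cusp (fun l => r * f l) := by
  obtain ⟨b, hb, rfl⟩ := hf
  exact ⟨fun l => r * b l, CA_isD_hom (AddMonoidHom.mulLeft r) hb,
    CA_cr_hom (AddMonoidHom.mulLeft r) b⟩

theorem CA_Ex.tr (hF : Face N Ξ V sm cusp) {f : List V → ℝ} (hf : CA_Ex sm cusp f) (g : N) :
    CA_Ex sm cusp (RCan.tr g f) := by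
  obtain ⟨b, hb, rfl⟩ := hf
  exact ⟨RCan.tr g b, hb.tr hF.smul_sm hF.cusp_smul g, cr_tr hF.smul_sm g b⟩

/-- The orientation character.

Proof. Let `z` be as in `hF.h3`. (1) `z` is not exact over `ℝ`: if `cr b = z` (cast to `ℝ`) with
`IsD ℝ 2 b`, then for `f` of `hne` the second property of `z` (for `k = ℝ`) gives `c`, `e` with
`f - c z = cr e`, so `f = cr (c • b + e)`, a contradiction. (2) For `g : N` choose `m g : ℤ` and `e' g` with
`z (g⁻¹ ·) - m g * z = cr (e' g)`. If `r z` is exact over `ℝ` for a real number `r` then `r = 0` (by (1),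
divide by `r`). For `g, h`: `z ((g h)⁻¹ ·) = (z (g⁻¹ ·)) (h⁻¹ ..)`; modulo exact real cochains (translates of
exact cochains are exact: `cr` commutes with translations, `hF.smul_sm`, and translates of `IsD`
cochains are `IsD`, `hF.cusp_smul`) `z ((g h)⁻¹ ·) ~ m g * m h * z`, and `~ m (g h) * z`; so
`m (g h) = m g * m h`. Also `m 1 = 1` (`z (1⁻¹ ·) = z`). So `m g * m g⁻¹ = 1` and `m g = 1 ∨ m g = -1`
(`Int.isUnit_iff`). (3) `w = m`, `e g = m g • e' g`: `cr (e g) = m g * z (g⁻¹ ·) - m g * m g * z`.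
The other fields are fields of `hF` (`h2` for `k = ℝ`, `crD` is `IsD.cr hF`). Useful: `RCan.tr`, `cr_tr`,
`IsD.tr`, `tr_mul` in `AlgA`. Note `(g h)⁻¹ = h⁻¹ g⁻¹`:
`z (l.map ((g h)⁻¹ • ·)) = z ((l.map (g⁻¹ • ·)).map (h⁻¹ • ·))`. -/
theorem exists_orient (hF : Face N Ξ V sm cusp) (hne : NonEx sm cusp) :
    ∃ (z : List V → ℤ) (w : N → ℤ) (e : N → List V → ℤ), KFace N Ξ V sm cusp z w e := by
  obtain ⟨z, hz, _, hzf, hzg⟩ := hF.h3
  choose m e' he' hme using hzg
  -- the class of `z` is not zero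
  have h1 : ¬ CA_Ex sm cusp (fun l => (z l : ℝ)) := by
    intro hex
    obtain ⟨f, hf, hcf, hn⟩ := hne
    obtain ⟨c, e, he, hce⟩ := hzf ℝ f hf hcf
    have h2 : CA_Ex sm cusp ((fun l => c * (z l : ℝ)) + cr sm e) := (hex.smul c).add ⟨e, he, rfl⟩
    obtain ⟨b, hb, hb2⟩ := h2
    refine hn b hb ?_
    rw [hb2, ← hce]
    funext l
    simp only [Pi.add_apply]
    ring
  have h1' : ∀ r : ℝ, CA_Ex sm cusp (fun l => r * (z l : ℝ)) → r = 0 := by
    intro r hr
    by_contra h0
    refine h1 ?_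
    have h2 := hr.smul r⁻¹
    have h3 : (fun l => r⁻¹ * (r * (z l : ℝ))) = fun l => (z l : ℝ) := by
      funext l
      rw [← mul_assoc, inv_mul_cancel₀ h0, one_mul]
    rwa [h3] at h2
  -- translates
  have h2 : ∀ g : N, CA_Ex sm cusp (fun l => RCan.tr g (fun l => (z l : ℝ)) l - m g * (z l : ℝ)) := by
    intro g
    refine ⟨fun l => ((e' g l : ℤ) : ℝ), CA_isD_hom (Int.castAddHom ℝ) (he' g), ?_⟩
    have h3 := CA_cr_hom (sm := sm) (Int.castAddHom ℝ) (e' g)
    refine h3.trans ?_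
    rw [← hme g]
    funext l
    simp only [Int.coe_castAddHom, RCan.tr]
    push_cast
    rfl
  have hm1 : m 1 = 1 := by
    have h3 := h2 1
    rw [tr_one] at h3
    have h4 : CA_Ex sm cusp (fun l => (1 - (m 1 : ℝ)) * (z l : ℝ)) := by
      convert h3 using 2
      ring
    have h5 := h1' _ h4
    have h6 : (m 1 : ℝ) = 1 := by linarith
    exact_mod_cast h6
  have hmm : ∀ g h : N, m (g * h) = m g * m h := by
    intro g h
    have h3 := h2 (g * h)
    have h4 := (h2 h).tr hF g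
    have h5 := (h2 g).smul (m h)
    have h6 := ((h3.smul (-1)).add h4).add h5
    have h7 : CA_Ex sm cusp (fun l => ((m (g * h) : ℝ) - m g * m h) * (z l : ℝ)) := by
      convert h6 using 1
      funext l
      simp only [Pi.add_apply, RCan.tr]
      rw [map_smul_smul, ← mul_inv_rev]
      ring
    have h8 := h1' _ h7
    have h9 : (m (g * h) : ℝ) = m g * m h := by linarith
    exact_mod_cast h9
  have hmu : ∀ g : N, m g = 1 ∨ m g = -1 := by
    intro g
    have h3 : m g * m g⁻¹ = 1 := by rw [← hmm, mul_inv_cancel, hm1]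
    exact Int.isUnit_iff.1 (IsUnit.of_mul_eq_one _ h3)
  refine ⟨z, m, fun g l => m g * e' g l, ?_⟩
  exact
    { refl := hF.refl
      symm := hF.symm
      smul_sm := hF.smul_sm
      cusp_smul := hF.cusp_smul
      free := hF.free
      dis := hF.dis
      ne := hF.ne
      h2 := hF.h2 ℝ
      crD := fun n f hf => hf.cr hF
      zD := hz
      w1 := hmu
      wm := hmm
      eD := fun g => CA_isD_hom (AddMonoidHom.mulLeft (m g)) (he' g)
      ec := fun g l => by
        have h3 : cr sm (fun l => m g * e' g l) = fun l => m g * cr sm (e' g) l :=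
          CA_cr_hom (AddMonoidHom.mulLeft (m g)) (e' g)
        rw [h3, ← hme g]
        have h4 : m g * m g = 1 := by
          rcases hmu g with h | h <;> rw [h] <;> norm_num
        calc m g * (z (l.map (fun x => g⁻¹ • x)) - m g * z l)
            = m g * z (l.map (fun x => g⁻¹ • x)) - (m g * m g) * z l := by ring
          _ = m g * z (l.map (fun x => g⁻¹ • x)) - z l := by rw [h4, one_mul]
      zn := fun b hb h => h1 ⟨b, hb, h⟩ }

end Kaz
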