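import Pool.Agent.W_04c03c_h58k.KFace

/-!
# Convolution of cochains with functions on the group
-/

namespace Kaz

open RCan

/-- the convolution of the function `Y` on `K` with the cochain `f` -/
noncomputable def opK {K V : Type*} [Group K] [MulAction K V] (Y : K → ℝ) (f : List V → ℝ) :
    List V → ℝ := fun l => ∑ᶠ h : K, Y h * f (l.map (fun x => h • x))

open Classical in
/-- the indicator function of the subgroup generated by `g` -/
noncomputable def indS {K : Type*} [Group K] (g : K) : K → ℝ :=
  fun h => if h ∈ Subgroup.zpowers g then 1 else 0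

variable {K Ξ V : Type*} [Group K] [MulAction K Ξ] [MulAction K V] {sm : V → V → Prop}
  {cusp : V → Option Ξ}

/-- Only finitely many translates of a nonempty list are in the support.

Proof. The action is free on vertices, so `h ↦ l.map (h • ·)` is injective (look at the head of `l`),
and the preimage of the finite support is finite (`Set.Finite.preimage`). -/
theorem opK_fin (hfree : ∀ (g : K) (v : V), g • v = v → g = 1) {f : List V → ℝ}
    (hf : (Function.support f).Finite) {l : List V} (hl : l ≠ []) :
    {h : K | f (l.map (fun x => h • x)) ≠ 0}.Finite := by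
  obtain ⟨x, l', rfl⟩ := List.exists_cons_of_ne_nil hl
  have hinj : Function.Injective (fun h : K => (x :: l').map (fun y => h • y)) := by
    intro a b hab
    have h1 : a • x = b • x := by
      have := congrArg List.head? hab
      simpa using this
    have h2 : (b⁻¹ * a) • x = x := by rw [mul_smul, h1, inv_smul_smul]
    have h3 := hfree _ _ h2
    exact (inv_mul_eq_one.1 h3).symm
  exact hf.preimage hinj.injOn

/-- Proof. `Alt`, length: termwise (`List.map_append`, `List.map_cons`, `finsum_neg_distrib`,
`finsum_congr`). Relative: if the sum is not zero then some `l.map (h • ·)` is a relative list, and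
then `l` is one: smallness is invariant (`hsm` for `h⁻¹`), and if all entries of `l` are in the horoball
`ξ` then all entries of `l.map (h • ·)` are in `h • ξ` (`hcusp`). -/
theorem opK_isR (hsm : ∀ (g : K) (v w : V), sm v w → sm (g • v) (g • w))
    (hcusp : ∀ (g : K) (v : V), cusp (g • v) = (cusp v).map (fun ξ => g • ξ)) (Y : K → ℝ) {n : ℕ}
    {f : List V → ℝ} (hf : IsD sm cusp ℝ n f) : IsR sm cusp ℝ n (opK Y f) := by
  refine ⟨⟨?_, ?_⟩, ?_, ?_⟩
  · intro l₁ x y l₂
    unfold opK
    rw [← finsum_neg_distrib]
    congr 1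
    funext h
    simp only [List.map_append, List.map_cons]
    rw [hf.alt.1]
    ring
  · intro l₁ x l₂
    unfold opK
    have h1 : ∀ h : K, Y h * f ((l₁ ++ x :: x :: l₂).map (fun x => h • x)) = 0 := by
      intro h
      simp only [List.map_append, List.map_cons]
      rw [hf.alt.2, mul_zero]
    simp only [h1]
    exact finsum_zero
  · intro l hl
    obtain ⟨h, hh⟩ : ∃ h : K, Y h * f (l.map (fun x => h • x)) ≠ 0 := by
      by_contra hc
      push Not at hc
      refine hl ?_
      unfold opK
      simp only [hc]
      exact finsum_zero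
    have h1 := hf.len _ (right_ne_zero_of_mul hh)
    rwa [List.length_map] at h1
  · intro l hl
    obtain ⟨h, hh⟩ : ∃ h : K, Y h * f (l.map (fun x => h • x)) ≠ 0 := by
      by_contra hc
      push Not at hc
      refine hl ?_
      unfold opK
      simp only [hc]
      exact finsum_zero
    obtain ⟨h1, h2⟩ := hf.rl _ (right_ne_zero_of_mul hh)
    constructor
    · intro x hx y hy
      have h3 := hsm h⁻¹ _ _ (h1 (h • x) (List.mem_map.2 ⟨x, hx, rfl⟩) (h • y)
        (List.mem_map.2 ⟨y, hy, rfl⟩))
      rwa [inv_smul_smul, inv_smul_smul] at h3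
    · rintro ⟨ξ, hξ⟩
      refine h2 ⟨h • ξ, fun x hx => ?_⟩
      obtain ⟨y, hy, rfl⟩ := List.mem_map.1 hx
      rw [hcusp, hξ y hy]
      rfl

/-- The sum over the faces commutes with sums over `K`. -/
theorem CB_dl_finsum {K V : Type*} (l : List V) (F : K → List V → ℝ)
    (hF : ∀ l' : List V, l'.Sublist l → {h : K | F h l' ≠ 0}.Finite) :
    dl l (fun l' => ∑ᶠ h : K, F h l') = ∑ᶠ h : K, dl l (F h) := by
  classical
  obtain ⟨S, hS⟩ : ∃ S : Set K, S = ⋃ l' ∈ {l' : List V | l'.Sublist l}, {h : K | F h l' ≠ 0} :=
    ⟨_, rfl⟩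
  have hSf : S.Finite := by
    rw [hS]
    refine Set.Finite.biUnion ((List.finite_toSet l.sublists).subset ?_) fun l' hl' => hF l' hl'
    intro l' hl'
    exact List.mem_sublists.2 hl'
  have hSm : ∀ (h : K) (l' : List V), l'.Sublist l → F h l' ≠ 0 → h ∈ hSf.toFinset := by
    intro h l' h1 h2
    rw [Set.Finite.mem_toFinset, hS]
    exact Set.mem_biUnion (show l' ∈ {l' : List V | l'.Sublist l} from h1) h2
  have h1 : ∀ l' : List V, l'.Sublist l → l'.length + 1 = l.length →
      (fun l' => ∑ᶠ h : K, F h l') l' = (fun l' => ∑ h ∈ hSf.toFinset, F h l') l' := by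
    intro l' hl' _
    exact finsum_eq_sum_of_support_subset _ fun h hh => hSm h l' hl' hh
  rw [dl_congr l h1]
  have h2 : ∑ᶠ h : K, dl l (F h) = ∑ h ∈ hSf.toFinset, dl l (F h) := by
    refine finsum_eq_sum_of_support_subset _ fun h hh => ?_
    by_contra h3
    refine hh (dl_eq_zero l fun l' hl' _ => ?_)
    by_contra h4
    exact h3 (hSm h l' hl' h4)
  rw [h2]
  have h3 : (fun l' => ∑ h ∈ hSf.toFinset, F h l') = ∑ h ∈ hSf.toFinset, F h := by
    funext l'
    rw [Finset.sum_apply]
  rw [h3]
  exact map_sum (AddMonoidHom.mk' (fun f : List V → ℝ => dl l f) (dl_add l)) F hSf.toFinset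

/-- The convolution commutes with the coboundary.

Proof. If `l` is not small both sides vanish (`l.map (h • ·)` is not small). Let `l` be small, so all
`l.map (h • ·)` are. There is a finite set `T ⊆ K` such that `f (l'.map (h • ·)) = 0` for all sublists
`l'` of `l` and `h ∉ T` (`opK_fin` for the finitely many nonempty sublists, and `f [] = 0` since
`f l' ≠ 0` implies `l'.length = n + 1`), and also for `cr sm f` at `l`. Then for these `l'`
`opK Y f l' = ∑ h ∈ T, Y h * f (l'.map (h • ·))` (`finsum_eq_sum_of_support_subset`), and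
`dl l` is additive (`dl_add`, `dl_congr`, `dl_smul`, `dl_map`):
`co (opK Y f) l = ∑ h ∈ T, Y h * co f (l.map (h • ·))`. -/
theorem opK_cr (hfree : ∀ (g : K) (v : V), g • v = v → g = 1)
    (hsm : ∀ (g : K) (v w : V), sm v w → sm (g • v) (g • w)) (Y : K → ℝ) {n : ℕ} {f : List V → ℝ}
    (hf : IsD sm cusp ℝ n f) : cr sm (opK Y f) = opK Y (cr sm f) := by
  have hS : ∀ (h : K) (l : List V), Sml sm (l.map (fun x => h • x)) ↔ Sml sm l := by
    intro h l
    constructor
    · intro h1 x hx y hy
      have h3 := hsm h⁻¹ _ _ (h1 (h • x) (List.mem_map.2 ⟨x, hx, rfl⟩) (h • y)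
        (List.mem_map.2 ⟨y, hy, rfl⟩))
      rwa [inv_smul_smul, inv_smul_smul] at h3
    · intro h1 x hx y hy
      obtain ⟨x', hx', rfl⟩ := List.mem_map.1 hx
      obtain ⟨y', hy', rfl⟩ := List.mem_map.1 hy
      exact hsm h _ _ (h1 x' hx' y' hy')
  funext l
  by_cases hl : Sml sm l
  · have e1 : cr sm (opK Y f) l = co (opK Y f) l := if_pos hl
    have e2 : ∀ h : K, cr sm f (l.map (fun x => h • x)) = co f (l.map (fun x => h • x)) :=
      fun h => if_pos ((hS h l).2 hl)
    rw [e1]
    unfold opK
    simp only [e2]
    have hfin : ∀ l' : List V, {h : K | Y h * f (l'.map (fun x => h • x)) ≠ 0}.Finite := by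
      intro l'
      by_cases h0 : l' = []
      · have h1 : f [] = 0 := by
          by_contra h2
          have := hf.len _ h2
          simp at this
        subst h0
        have h3 : {h : K | Y h * f (([] : List V).map (fun x => h • x)) ≠ 0} = ∅ := by
          ext h
          simp [h1]
        rw [h3]
        exact Set.finite_empty
      · exact (opK_fin hfree hf.fin h0).subset fun h hh => right_ne_zero_of_mul hh
    show dl l (fun l' => ∑ᶠ h : K, Y h * f (l'.map (fun x => h • x))) = _
    rw [CB_dl_finsum l (fun (h : K) (l' : List V) => Y h * f (l'.map (fun x => h • x)))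
      fun l' _ => hfin l']
    congr 1
    funext h
    have h1 := dl_smul (Y h) l (fun l' => f (l'.map (fun x => h • x)))
    rw [← dl_map] at h1
    exact h1
  · have e1 : cr sm (opK Y f) l = 0 := if_neg hl
    rw [e1]
    unfold opK
    have e2 : ∀ h : K, Y h * cr sm f (l.map (fun x => h • x)) = 0 := by
      intro h
      have : cr sm f (l.map (fun x => h • x)) = 0 := if_neg fun h1 => hl ((hS h l).1 h1)
      rw [this, mul_zero]
    simp only [e2]
    exact finsum_zero.symm

/-- Linearity.

Proof. `finsum_sub_distrib` with the finiteness of `opK_fin` for `l ≠ []`; for `l = []`: both sides are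
sums of `0` by `hf0`, `hg0`. -/
theorem opK_sub (hfree : ∀ (g : K) (v : V), g • v = v → g = 1) (Y : K → ℝ) {f g : List V → ℝ}
    (hf : (Function.support f).Finite) (hg : (Function.support g).Finite) (hf0 : f [] = 0)
    (hg0 : g [] = 0) : opK Y (f - g) = opK Y f - opK Y g := by
  funext l
  show opK Y (f - g) l = opK Y f l - opK Y g l
  unfold opK
  by_cases hl : l = []
  · subst hl
    simp only [List.map_nil, Pi.sub_apply, hf0, hg0, sub_zero, mul_zero, finsum_zero]
  · rw [← finsum_sub_distrib]
    · congr 1
      funext h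
      rw [Pi.sub_apply]
      ring
    · exact (opK_fin hfree hf hl).subset fun h hh => right_ne_zero_of_mul hh
    · exact (opK_fin hfree hg hl).subset fun h hh => right_ne_zero_of_mul hh

/-- Invariance.

Proof. `opK Y f (l.map (g • ·)) = ∑ᶠ h, Y h * f (l.map (h * g • ·))`; reindex by `h ↦ h * g`
(`finsum_comp_equiv (Equiv.mulRight g)`), `Y (h * g⁻¹) = Y h`. -/
theorem opK_inv {g : K} {Y : K → ℝ} (hY : ∀ h, Y (h * g) = Y h) (f : List V → ℝ) (l : List V) :
    opK Y f (l.map (fun x => g • x)) = opK Y f l := by
  unfold opK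
  rw [← finsum_comp_equiv (Equiv.mulRight g) (f := fun h : K => Y h * f (l.map (fun x => h • x)))]
  congr 1
  funext h
  simp only [Equiv.coe_mulRight, hY, List.map_map]
  congr 2
  apply List.map_congr_left
  intro x _
  simp only [Function.comp_apply, mul_smul]

end Kaz
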