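import Pool.Agent.W_04c03c_h58k.KFace

/-!
# The defects of the cochains `e g` are exact
-/

namespace Kaz

open RCan

variable {K Ξ V : Type*} [Group K] [MulAction K Ξ] [MulAction K V] {sm : V → V → Prop}
  {cusp : V → Option Ξ} {z : List V → ℤ} {w : K → ℤ} {e : K → List V → ℤ}

/-- the defect of `e` from being a cocycle, with real values -/
def dfe (w : K → ℤ) (e : K → List V → ℤ) (x y : K) : List V → ℝ :=
  fun l => (e x l : ℝ) + (w x : ℝ) * (e y (l.map (fun v => x⁻¹ • v)) : ℝ) - (e (x * y) l : ℝ)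

theorem CC_hom {A B : Type*} [AddCommGroup A] [AddCommGroup B] (φ : A →+ B) {n : ℕ}
    {f : List V → A} (hf : IsD sm cusp A n f) : IsD sm cusp B n (fun l => φ (f l)) := by
  have h0 : ∀ l, φ (f l) ≠ 0 → f l ≠ 0 := by
    intro l hl h
    exact hl (by rw [h, map_zero])
  exact ⟨Alt.hom φ hf.alt, fun l hl => hf.len l (h0 l hl), fun l hl => hf.rl l (h0 l hl),
    hf.fin.subset (fun l hl => h0 l hl)⟩

theorem CC_cr_hom {A B : Type*} [AddCommGroup A] [AddCommGroup B] (φ : A →+ B)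
    (f : List V → A) : cr sm (fun l => φ (f l)) = fun l => φ (cr sm f l) := by
  funext l
  by_cases hl : Sml sm l
  · rw [cr_of_sml _ hl, cr_of_sml _ hl, co_hom]
  · simp [cr, hl]

theorem CC_dfe (w : K → ℤ) (e : K → List V → ℤ) (x y : K) : dfe w e x y =
    (fun l => Int.castAddHom ℝ (e x l)) +
    (fun l => ((AddMonoidHom.mulLeft (w x : ℝ)).comp (Int.castAddHom ℝ)) (tr x (e y) l)) -
    (fun l => Int.castAddHom ℝ (e (x * y) l)) := rfl

theorem CC_sub {A : Type*} [AddCommGroup A] {n : ℕ} {f g : List V → A}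
    (hf : IsD sm cusp A n f) (hg : IsD sm cusp A n g) : IsD sm cusp A n (f - g) := by
  have h1 : IsD sm cusp A n (fun l => (negAddMonoidHom : A →+ A) (g l)) := CC_hom _ hg
  have h2 : f - g = f + (fun l => (negAddMonoidHom : A →+ A) (g l)) := by
    funext l
    exact sub_eq_add_neg _ _
  rw [h2]
  exact hf.add h1

/-- The defects are exact.

Proof. `dfe w e x y` is `IsD ℝ 2`: casts of `IsD ℤ 2` cochains (`Int.castAddHom ℝ`, `Alt.hom`), translates
(`Alt.map`; relative lists are invariant under `K`: `hF.smul_sm`, `hF.cusp_smul`; finite support: the map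
`l ↦ l.map (x⁻¹ • ·)` is injective), sums and differences (`IsD.add`, `IsR.sub`). Its coboundary: `cr`
commutes with casts and with translations (`dl_map`, `dl_hom`; smallness is invariant), so by `hF.ec`
it is `(w x z(x⁻¹ l) - z l) + w x (w y z(y⁻¹ x⁻¹ l) - z (x⁻¹ l)) - (w (x y) z ((x y)⁻¹ l) - z l) = 0`
(`hF.wm`). Apply `hF.h2`. Useful: `RCan.tr`, `cr_tr`, `IsD.tr`, `map_smul_smul` in `AlgA`. -/
theorem exists_eps (hF : KFace K Ξ V sm cusp z w e) (x y : K) :
    IsD sm cusp ℝ 2 (dfe w e x y) ∧ ∃ ε : List V → ℝ, IsD sm cusp ℝ 1 ε ∧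
      cr sm ε = dfe w e x y := by
  have hD : IsD sm cusp ℝ 2 (dfe w e x y) := by
    rw [CC_dfe]
    exact CC_sub ((CC_hom _ (hF.eD x)).add
      (CC_hom _ (IsD.tr hF.smul_sm hF.cusp_smul (hF.eD y) x))) (CC_hom _ (hF.eD (x * y)))
  refine ⟨hD, hF.h2 _ hD ?_⟩
  rw [CC_dfe, cr_sub, cr_add, CC_cr_hom, CC_cr_hom, CC_cr_hom, cr_tr hF.smul_sm]
  funext l
  show ((cr sm (e x) l : ℤ) : ℝ) + (w x : ℝ) * ((tr x (cr sm (e y)) l : ℤ) : ℝ) -
    ((cr sm (e (x * y)) l : ℤ) : ℝ) = 0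
  rw [tr_apply, hF.ec, hF.ec, hF.ec, map_smul_smul, hF.wm, mul_inv_rev]
  push_cast
  ring

end Kaz
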