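import Pool.Agent.W_04c03c_h58k.CD1
import Pool.Agent.W_04c03c_h58k.AD

/-!
# The class of `g` is exact with square-summable coefficients
-/

namespace Kaz

open RCan

universe u

variable {K : Type u} {Ξ V : Type*} [Group K] [MulAction K Ξ] [MulAction K V] {sm : V → V → Prop}
  {cusp : V → Option Ξ} {z : List V → ℤ} {w : K → ℤ} {e : K → List V → ℤ}

theorem CD_isR_sum {ι : Type*} (s : Finset ι) (f : ι → List V → ℝ)
    (hf : ∀ i, IsR sm cusp ℝ 1 (f i)) : IsR sm cusp ℝ 1 (∑ i ∈ s, f i) := by
  classical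
  induction s using Finset.induction_on with
  | empty =>
    rw [Finset.sum_empty]
    exact ⟨Alt.zero, fun l hl => absurd rfl hl, fun l hl => absurd rfl hl⟩
  | insert a s ha ih =>
    rw [Finset.sum_insert ha]
    exact (hf a).add ih

theorem CD_cr_sum {ι : Type*} (s : Finset ι) (f : ι → List V → ℝ) :
    cr sm (∑ i ∈ s, f i) = ∑ i ∈ s, cr sm (f i) := by
  classical
  induction s using Finset.induction_on with
  | empty =>
    rw [Finset.sum_empty, Finset.sum_empty]
    have h := cr_sub (sm := sm) (0 : List V → ℝ) 0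
    rw [sub_zero] at h
    rw [h, sub_self]
  | insert a s ha ih =>
    rw [Finset.sum_insert ha, Finset.sum_insert ha, cr_add, ih]

theorem CD_sq_add {Q : Type*} {f g : Q → ℝ} (hf : Summable fun q => f q ^ 2)
    (hg : Summable fun q => g q ^ 2) : Summable fun q => (f q + g q) ^ 2 := by
  refine Summable.of_nonneg_of_le (fun q => sq_nonneg _) (fun q => ?_)
    ((hf.mul_left 2).add (hg.mul_left 2))
  nlinarith [sq_nonneg (f q - g q)]

theorem CD_sq_sum {Q ι : Type*} (s : Finset ι) {f : ι → Q → ℝ}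
    (hf : ∀ i, Summable fun q => f i q ^ 2) : Summable fun q => (∑ i ∈ s, f i q) ^ 2 := by
  classical
  induction s using Finset.induction_on with
  | empty => simp
  | insert a s ha ih =>
    simp only [Finset.sum_insert ha]
    exact CD_sq_add (hf a) ih

theorem CD_sq_mul {Q : Type*} {f : Q → ℝ} (hf : Summable fun q => f q ^ 2) (c : ℝ) :
    Summable fun q => (f q * c) ^ 2 := by
  have h := hf.mul_right (c ^ 2)
  refine h.congr fun q => ?_
  rw [mul_pow]

theorem CD_shift {Q : Type*} [MulAction K Q] {y : Q → ℝ} (hy : Summable fun q => y q ^ 2) (u : K) :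
    Summable fun q => y (u • q) ^ 2 := by
  have h := (MulAction.toPerm u : Equiv.Perm Q).summable_iff (f := fun q => y q ^ 2)
  exact h.2 hy

theorem CD_val {g : K} (hF : KFace K Ξ V sm cusp z w e) (y : K ⧸ Subgroup.zpowers g → ℝ)
    {f : List V → ℝ} {l : List V} {U : Finset K} (hU : ∀ u : K, f (l.map (fun x => u • x)) ≠ 0 → u ∈ U)
    (q : K ⧸ Subgroup.zpowers g) :
    opK (fun h => y (QuotientGroup.mk h) * (w h : ℝ)) f (l.map (fun x => q.out⁻¹ • x)) =
      (w q.out : ℝ) * ∑ u ∈ U, y (u • q) * ((w u : ℝ) * f (l.map (fun x => u • x))) := by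
  rw [opK, ← finsum_comp_equiv (Equiv.mulRight q.out), Finset.mul_sum]
  have h1 : ∀ u : K, (y (QuotientGroup.mk (Equiv.mulRight q.out u)) * (w (Equiv.mulRight q.out u) : ℝ)) *
      f ((l.map (fun x => q.out⁻¹ • x)).map (fun x => (Equiv.mulRight q.out u) • x)) =
      (w q.out : ℝ) * (y (u • q) * ((w u : ℝ) * f (l.map (fun x => u • x)))) := by
    intro u
    have h2 : (QuotientGroup.mk (u * q.out) : K ⧸ Subgroup.zpowers g) = u • q := by
      conv_rhs => rw [← QuotientGroup.out_eq' q]
      rfl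
    have h3 : (l.map (fun x => q.out⁻¹ • x)).map (fun x => (u * q.out) • x) =
        l.map (fun x => u • x) := by
      rw [List.map_map]
      congr 1
      funext v
      show (u * q.out) • q.out⁻¹ • v = u • v
      rw [smul_smul, mul_inv_cancel_right]
    rw [Equiv.coe_mulRight, h2, h3, hF.wm, Int.cast_mul]
    ring
  rw [finsum_congr h1]
  refine finsum_eq_sum_of_support_subset _ ?_
  intro u hu
  refine hU u fun h0 => hu ?_
  show (w q.out : ℝ) * (y (u • q) * ((w u : ℝ) * f (l.map (fun x => u • x)))) = 0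
  rw [h0, mul_zero, mul_zero, mul_zero]

/-- The class of `g` is exact with square-summable coefficients.

Proof. `exists_gap` gives `P, Y`; `exists_eps` gives `ε p` for `p ∈ P` with `cr (ε p) = dfe w e p.1 p.2`.
Put `Y' p h = Y p (mk h) * w h` and `η = ∑ p ∈ P, opK (Y' p) (ε p)`. (1) `IsR`: `opK_isR`, sums
(`IsR.add`, induction on the finite set; the zero cochain is `IsR`). (2) Invariance: `opK_inv`,
`mk (h * g) = mk h`, `w (h * g) = w h`. (3) `cr η l = ∑ p, opK (Y' p) (dfe ..) l` (`opK_cr`, `cr_add`)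
`= opK (indS g) (e g) l` for `l ≠ []` (`gap_cochain`). (4) Summability: for `l ≠ []` (for `l = []` the
function is `0`) and `x = q.out`, `η (x⁻¹ l) = ∑ p ∑ᶠ h, Y p (mk h) w h (ε p) ((h x⁻¹) l)`; reindex `h = u x`:
`= ∑ p ∑ᶠ u, Y p (mk (u * x)) w (u * x) (ε p) (u l)`, where `mk (u * x) = u • q` and `u` runs over a finite set
(`opK_fin`); each `q ↦ Y p (u • q)` is square-summable (`Equiv.summable_iff` for
`MulAction.toPerm u`), `|w| = 1`, and finite linear combinations of square-summable functions are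
square-summable. (The square of a finite sum is at most `n` times the sum of the squares:
`inner_mul_le_norm_mul_norm` / `sq_sum_le_card_mul_sum_sq`; `Summable.of_nonneg_of_le`.) The factor
`w (u * q.out) = w u * w q.out` has absolute value `1`.
(5) `L` = the union of the supports of the `ε p`: if `η l ≠ 0` some
`ε p (l.map (h • ·)) ≠ 0`, and `l = (l.map (h • ·)).map (h⁻¹ • ·)`. -/
theorem exists_eta (hF : KFace K Ξ V sm cusp z w e) (hK : FixT K) (hfg : Group.FG K) {g : K}
    (hg : InfOrd g) (hw : w g = 1) : ∃ η : List V → ℝ, IsR sm cusp ℝ 1 η ∧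
      (∀ l : List V, η (l.map (fun x => g • x)) = η l) ∧
      (∀ l : List V, l ≠ [] → cr sm η l = opK (indS g) (fun m => (e g m : ℝ)) l) ∧
      (∀ l : List V, Summable (fun q : K ⧸ Subgroup.zpowers g =>
        η (l.map (fun x => q.out⁻¹ • x)) ^ 2)) ∧
      ∃ L : Finset (List V), ∀ l : List V, η l ≠ 0 → ∃ l₀ ∈ L, ∃ k : K, l = l₀.map (fun x => k • x) := by
  classical
  obtain ⟨P, Y, hYs, hY⟩ := exists_gap hK hfg hg
  choose ε hε1 hε2 using fun p : K × K => (exists_eps hF p.1 p.2).2
  let Y' : K × K → K → ℝ := fun p h => Y p (QuotientGroup.mk h) * (w h : ℝ)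
  have hR : IsR sm cusp ℝ 1 (∑ p ∈ P, opK (Y' p) (ε p)) :=
    CD_isR_sum P _ fun p => opK_isR hF.smul_sm hF.cusp_smul (Y' p) (hε1 p)
  refine ⟨∑ p ∈ P, opK (Y' p) (ε p), hR, ?_, ?_, ?_, ?_⟩
  · intro l
    rw [Finset.sum_apply, Finset.sum_apply]
    refine Finset.sum_congr rfl fun p _ => opK_inv (fun h => ?_) _ _
    show Y p (QuotientGroup.mk (h * g)) * (w (h * g) : ℝ) = Y p (QuotientGroup.mk h) * (w h : ℝ)
    rw [hF.wm, hw, mul_one, QuotientGroup.mk_mul_of_mem h (Subgroup.mem_zpowers g)]
  · intro l hl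
    rw [CD_cr_sum, Finset.sum_apply, gap_cochain hF hw hY hl]
    refine Finset.sum_congr rfl fun p _ => ?_
    rw [opK_cr hF.free hF.smul_sm (Y' p) (hε1 p), hε2 p]
  · intro l
    by_cases hl : l = []
    · subst hl
      have h0 : (∑ p ∈ P, opK (Y' p) (ε p)) ([] : List V) = 0 := by
        by_contra h
        have := hR.len _ h
        simp at this
      have h1 : (fun q : K ⧸ Subgroup.zpowers g =>
          (∑ p ∈ P, opK (Y' p) (ε p)) (([] : List V).map (fun x => q.out⁻¹ • x)) ^ 2) = fun _ => 0 := by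
        funext q
        rw [List.map_nil, h0]
        norm_num
      rw [h1]
      exact summable_zero
    · have hfin : ∀ p : K × K, {h : K | ε p (l.map (fun x => h • x)) ≠ 0}.Finite := fun p =>
        opK_fin hF.free (hε1 p).fin hl
      have hval : ∀ q : K ⧸ Subgroup.zpowers g,
          (∑ p ∈ P, opK (Y' p) (ε p)) (l.map (fun x => q.out⁻¹ • x)) ^ 2 =
          (∑ p ∈ P, ∑ u ∈ (hfin p).toFinset,
            Y p (u • q) * ((w u : ℝ) * ε p (l.map (fun x => u • x)))) ^ 2 := by
        intro q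
        have h1 : ((w q.out : ℝ)) ^ 2 = 1 := by
          rcases hF.w1 q.out with h | h <;> rw [h] <;> norm_num
        have h2 : (∑ p ∈ P, opK (Y' p) (ε p)) (l.map (fun x => q.out⁻¹ • x)) = (w q.out : ℝ) *
            ∑ p ∈ P, ∑ u ∈ (hfin p).toFinset,
              Y p (u • q) * ((w u : ℝ) * ε p (l.map (fun x => u • x))) := by
          rw [Finset.sum_apply, Finset.mul_sum]
          refine Finset.sum_congr rfl fun p _ => ?_
          exact CD_val hF (Y p) (fun u hu => (hfin p).mem_toFinset.2 hu) q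
        rw [h2, mul_pow, h1, one_mul]
      simp only [hval]
      refine CD_sq_sum P fun p => CD_sq_sum _ fun u => ?_
      exact CD_sq_mul (CD_shift (hYs p) u) _
  · refine ⟨P.biUnion fun p => (hε1 p).fin.toFinset, fun l hl => ?_⟩
    rw [Finset.sum_apply] at hl
    obtain ⟨p, hp, hp1⟩ := Finset.exists_ne_zero_of_sum_ne_zero hl
    rw [opK] at hp1
    obtain ⟨h, hh⟩ : ∃ h, Y' p h * ε p (l.map (fun x => h • x)) ≠ 0 := by
      by_contra hn
      push Not at hn
      exact hp1 (by rw [finsum_congr hn, finsum_zero])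
    refine ⟨l.map (fun x => h • x), ?_, h⁻¹, ?_⟩
    · rw [Finset.mem_biUnion]
      refine ⟨p, hp, ?_⟩
      rw [Set.Finite.mem_toFinset]
      exact right_ne_zero_of_mul hh
    · rw [List.map_map]
      conv_lhs => rw [← List.map_id l]
      congr 1
      funext v
      show v = h⁻¹ • h • v
      rw [inv_smul_smul]

end Kaz
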