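import Pool.Agent.W_04c03c_h58k.CB
import Pool.Agent.W_04c03c_h58k.CC

/-!
# The duality identity for cochains
-/

namespace Kaz

open RCan

variable {K Ξ V : Type*} [Group K] [MulAction K Ξ] [MulAction K V] {sm : V → V → Prop}
  {cusp : V → Option Ξ} {z : List V → ℤ} {w : K → ℤ} {e : K → List V → ℤ}

theorem CD1_w_one (hF : KFace K Ξ V sm cusp z w e) : w 1 = 1 := by
  have h := hF.wm 1 1
  rw [mul_one] at h
  rcases hF.w1 1 with h1 | h1
  · exact h1
  · rw [h1] at h
    norm_num at h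

theorem CD1_w_inv (hF : KFace K Ξ V sm cusp z w e) (x : K) : w x⁻¹ = w x := by
  have h := hF.wm x⁻¹ x
  rw [inv_mul_cancel, CD1_w_one hF] at h
  rcases hF.w1 x with h1 | h1 <;> rcases hF.w1 x⁻¹ with h2 | h2 <;> rw [h1, h2] at h ⊢ <;>
    norm_num at h

theorem CD1_w_zpowers (hF : KFace K Ξ V sm cusp z w e) {g : K} (hw : w g = 1) {h : K}
    (hh : h ∈ Subgroup.zpowers g) : w h = 1 := by
  let S : Subgroup K :=
    { carrier := {h | w h = 1}
      mul_mem' := fun {a b} ha hb => by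
        show w (a * b) = 1
        have ha' : w a = 1 := ha
        have hb' : w b = 1 := hb
        rw [hF.wm, ha', hb', mul_one]
      one_mem' := CD1_w_one hF
      inv_mem' := fun {a} ha => by
        show w a⁻¹ = 1
        rw [CD1_w_inv hF]
        exact ha }
  have h1 : Subgroup.zpowers g ≤ S := Subgroup.zpowers_le.2 hw
  exact h1 hh

theorem CD1_fin (hF : KFace K Ξ V sm cusp z w e) {l : List V} (hl : l ≠ []) (k : K) :
    {h : K | (e k (l.map (fun x => h • x)) : ℝ) ≠ 0}.Finite := by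
  refine opK_fin (f := fun m => (e k m : ℝ)) hF.free ?_ hl
  refine (hF.eD k).fin.subset fun m hm => ?_
  intro h
  exact hm (by show (e k m : ℝ) = 0; rw [h, Int.cast_zero])

/-- The function of the proof. -/
noncomputable def CD1_F (hF : KFace K Ξ V sm cusp z w e) {l : List V} (hl : l ≠ []) (k : K) : K →₀ ℝ :=
  Finsupp.ofSupportFinite (fun h => (w h : ℝ) * (e k (l.map (fun x => h • x)) : ℝ))
    ((CD1_fin hF hl k).subset fun h hh => by
      intro h0
      exact hh (by show (w h : ℝ) * (e k (l.map (fun x => h • x)) : ℝ) = 0; rw [h0, mul_zero]))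

theorem CD1_F_apply (hF : KFace K Ξ V sm cusp z w e) {l : List V} (hl : l ≠ []) (k h : K) :
    CD1_F hF hl k h = (w h : ℝ) * (e k (l.map (fun x => h • x)) : ℝ) := rfl

theorem CD1_sum (hF : KFace K Ξ V sm cusp z w e) {l : List V} (hl : l ≠ []) (k : K) {Q : Type*}
    (m : K → Q) (y : Q → ℝ) :
    ((Finsupp.mapDomain m (CD1_F hF hl k)).sum fun q r => y q * r) =
      ∑ᶠ h, y (m h) * ((w h : ℝ) * (e k (l.map (fun x => h • x)) : ℝ)) := by
  rw [Finsupp.sum_mapDomain_index (fun _ => mul_zero _) (fun _ _ _ => mul_add _ _ _), Finsupp.sum]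
  refine (finsum_eq_sum_of_support_subset _ ?_).symm
  intro h hh
  rw [Finset.mem_coe, Finsupp.mem_support_iff]
  intro h0
  refine hh ?_
  show y (m h) * ((w h : ℝ) * (e k (l.map (fun x => h • x)) : ℝ)) = 0
  rw [← CD1_F_apply hF hl, h0, mul_zero]

theorem CD1_left (hF : KFace K Ξ V sm cusp z w e) {g : K} (hw : w g = 1) {l : List V}
    (hl : l ≠ []) : Finsupp.mapDomain (QuotientGroup.mk : K → K ⧸ Subgroup.zpowers g)
      (CD1_F hF hl g) (QuotientGroup.mk 1) = opK (indS g) (fun m => (e g m : ℝ)) l := by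
  classical
  rw [Finsupp.mapDomain, Finsupp.sum_apply, Finsupp.sum, opK]
  refine Eq.symm ?_
  rw [finsum_eq_sum_of_support_subset (s := (CD1_F hF hl g).support)]
  · refine Finset.sum_congr rfl fun h _ => ?_
    rw [Finsupp.single_apply, CD1_F_apply, indS]
    by_cases hh : h ∈ Subgroup.zpowers g
    · have h1 : (QuotientGroup.mk h : K ⧸ Subgroup.zpowers g) = QuotientGroup.mk 1 :=
        (QuotientGroup.eq.2 (by rw [inv_one, one_mul]; exact hh)).symm
      rw [if_pos hh, if_pos h1, CD1_w_zpowers hF hw hh, Int.cast_one]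
    · have h1 : ¬ (QuotientGroup.mk h : K ⧸ Subgroup.zpowers g) = QuotientGroup.mk 1 := by
        intro h2
        have h3 := QuotientGroup.eq.1 h2.symm
        rw [inv_one, one_mul] at h3
        exact hh h3
      rw [if_neg hh, if_neg h1, zero_mul]
  · intro h hh
    rw [Finset.mem_coe, Finsupp.mem_support_iff, CD1_F_apply]
    intro h0
    refine hh ?_
    have h1 : (w h : ℝ) ≠ 0 := by
      rcases hF.w1 h with h2 | h2 <;> rw [h2] <;> norm_num
    have h3 : (e g (l.map (fun x => h • x)) : ℝ) = 0 := by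
      rcases mul_eq_zero.1 h0 with h4 | h4
      · exact absurd h4 h1
      · exact h4
    show indS g h * (e g (l.map (fun x => h • x)) : ℝ) = 0
    rw [h3, mul_zero]

theorem CD1_fin3 (hF : KFace K Ξ V sm cusp z w e) {l : List V} (hl : l ≠ []) (k : K) (y : K → ℝ) :
    (Function.support fun h => y h * (e k (l.map (fun x => h • x)) : ℝ)).Finite := by
  refine (CD1_fin hF hl k).subset fun h hh h0 => hh ?_
  show y h * (e k (l.map (fun x => h • x)) : ℝ) = 0
  rw [h0, mul_zero]

theorem CD1_fin4 (hF : KFace K Ξ V sm cusp z w e) {l : List V} (hl : l ≠ []) (k x : K)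
    (y : K → ℝ) : (Function.support fun h =>
      y h * (e k ((l.map (fun x => h • x)).map (fun v => x⁻¹ • v)) : ℝ)).Finite := by
  have h1 := (CD1_fin3 hF hl k fun h => y (x * h)).preimage
    (f := fun h => x⁻¹ * h) (mul_right_injective _).injOn
  refine h1.subset fun h hh => ?_
  intro h0
  refine hh ?_
  have h2 : y (x * (x⁻¹ * h)) * (e k (l.map (fun v => (x⁻¹ * h) • v)) : ℝ) = 0 := h0
  rw [mul_inv_cancel_left] at h2
  show y h * (e k ((l.map (fun x => h • x)).map (fun v => x⁻¹ • v)) : ℝ) = 0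
  rw [List.map_map]
  rw [← h2]
  congr 4
  funext v
  exact (mul_smul _ _ _).symm

theorem CD1_term (hF : KFace K Ξ V sm cusp z w e) {g : K} {l : List V} (hl : l ≠ [])
    (y : K ⧸ Subgroup.zpowers g → ℝ) (a b : K) :
    (∑ᶠ h, y (QuotientGroup.mk h) * ((w h : ℝ) * (e a (l.map (fun x => h • x)) : ℝ))) +
      (∑ᶠ h, y (a • (QuotientGroup.mk h : K ⧸ Subgroup.zpowers g)) *
        ((w h : ℝ) * (e b (l.map (fun x => h • x)) : ℝ))) -
      (∑ᶠ h, y (QuotientGroup.mk h) * ((w h : ℝ) * (e (a * b) (l.map (fun x => h • x)) : ℝ))) =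
      opK (fun h => y (QuotientGroup.mk h) * w h) (dfe w e a b) l := by
  have h2 : (∑ᶠ h, y (a • (QuotientGroup.mk h : K ⧸ Subgroup.zpowers g)) *
        ((w h : ℝ) * (e b (l.map (fun x => h • x)) : ℝ))) =
      ∑ᶠ h, (y (QuotientGroup.mk h) * (w h : ℝ)) * ((w a : ℝ) *
        (e b ((l.map (fun x => h • x)).map (fun v => a⁻¹ • v)) : ℝ)) := by
    rw [← finsum_comp_equiv (Equiv.mulLeft a⁻¹)]
    refine finsum_congr fun h => ?_
    have h3 : a • (QuotientGroup.mk (a⁻¹ * h) : K ⧸ Subgroup.zpowers g) = QuotientGroup.mk h := by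
      show (QuotientGroup.mk (a * (a⁻¹ * h)) : K ⧸ Subgroup.zpowers g) = QuotientGroup.mk h
      rw [mul_inv_cancel_left]
    have h4 : l.map (fun x => (a⁻¹ * h) • x) = (l.map (fun x => h • x)).map (fun v => a⁻¹ • v) := by
      rw [List.map_map]
      congr 1
      funext v
      exact mul_smul _ _ _
    rw [Equiv.coe_mulLeft, h3, h4, hF.wm, CD1_w_inv hF, Int.cast_mul]
    ring
  rw [h2, ← finsum_add_distrib, ← finsum_sub_distrib, opK]
  · refine finsum_congr fun h => ?_
    rw [dfe]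
    ring
  · have h5 := (CD1_fin3 hF hl a fun h => y (QuotientGroup.mk h) * (w h : ℝ)).union
      (CD1_fin4 hF hl b a fun h => y (QuotientGroup.mk h) * (w h : ℝ) * (w a : ℝ))
    refine h5.subset fun h hh => ?_
    by_contra hn
    rw [Set.mem_union, not_or] at hn
    obtain ⟨hn1, hn2⟩ := hn
    rw [Function.notMem_support] at hn1 hn2
    refine hh ?_
    show y (QuotientGroup.mk h) * ((w h : ℝ) * (e a (l.map (fun x => h • x)) : ℝ)) +
      (y (QuotientGroup.mk h) * (w h : ℝ)) * ((w a : ℝ) *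
        (e b ((l.map (fun x => h • x)).map (fun v => a⁻¹ • v)) : ℝ)) = 0
    rw [← mul_assoc, hn1, ← mul_assoc, hn2, add_zero]
  · refine (CD1_fin3 hF hl (a * b) fun h => y (QuotientGroup.mk h) * (w h : ℝ)).subset
      fun h hh h0 => hh ?_
    show y (QuotientGroup.mk h) * ((w h : ℝ) * (e (a * b) (l.map (fun x => h • x)) : ℝ)) = 0
    rw [← mul_assoc]
    exact h0
  · refine (CD1_fin3 hF hl a fun h => y (QuotientGroup.mk h) * (w h : ℝ)).subset
      fun h hh h0 => hh ?_
    show y (QuotientGroup.mk h) * ((w h : ℝ) * (e a (l.map (fun x => h • x)) : ℝ)) = 0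
    rw [← mul_assoc]
    exact h0
  · refine (CD1_fin4 hF hl b a fun h => y (QuotientGroup.mk h) * (w h : ℝ) * (w a : ℝ)).subset
      fun h hh h0 => hh ?_
    show (y (QuotientGroup.mk h) * (w h : ℝ)) * ((w a : ℝ) *
        (e b ((l.map (fun x => h • x)).map (fun v => a⁻¹ • v)) : ℝ)) = 0
    rw [← mul_assoc]
    exact h0

/-- The duality identity for cochains.

Proof. Fix `l ≠ []`. For `k : K` let `F k : K →₀ ℝ` be `h ↦ w h * e k (l.map (h • ·))`, of finite support
(`opK_fin` for the cast of `e k`, `hF.eD`), and `b k = Finsupp.mapDomain QuotientGroup.mk (F k)`.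
Apply `hY` to `b`. Left side: `b g (mk 1)` is the sum of `F g h` over `h` with `mk h = mk 1`, i.e.
`h ∈ zpowers g`; there `w h = 1` (`hw`, `hF.wm`, `hF.w1`: `w` is a homomorphism to `{1, -1}`), so it is
`opK (indS g) (e g) l`. Right side: `(b k).sum (fun q r => y q * r) = ∑ᶠ h, y (mk h) * F k h`
(`Finsupp.sum_mapDomain_index`, as sums over any finite set containing the supports). So the term of
`p = (x, y)` is `∑ᶠ h, Y p (mk h) * w h * e x (h l) + ∑ᶠ h, Y p (x • mk h) * w h * e y (h l) -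
∑ᶠ h, Y p (mk h) * w h * e (x * y) (h l)`. In the second sum `x • mk h = mk (x * h)`; reindex `h ↦ x⁻¹ * h`:
`Y p (mk h) * w (x⁻¹ h) * e y ((x⁻¹ h) l)`, `w (x⁻¹ h) = w x * w h` (`w x⁻¹ = w x` since `w x = ± 1`),
`(l.map ((x⁻¹ h) • ·)) = (l.map (h • ·)).map (x⁻¹ • ·)`. Add the three finite sums. -/
theorem gap_cochain (hF : KFace K Ξ V sm cusp z w e) {g : K} (hw : w g = 1)
    {P : Finset (K × K)} {Y : K × K → K ⧸ Subgroup.zpowers g → ℝ}
    (hY : ∀ b : K → (K ⧸ Subgroup.zpowers g →₀ ℝ), b g (QuotientGroup.mk 1) =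
        ∑ p ∈ P, (((b p.1).sum fun q r => Y p q * r) +
          ((b p.2).sum fun q r => Y p (p.1 • q) * r) -
          ((b (p.1 * p.2)).sum fun q r => Y p q * r))) {l : List V} (hl : l ≠ []) :
    opK (indS g) (fun m => (e g m : ℝ)) l =
      ∑ p ∈ P, opK (fun h => Y p (QuotientGroup.mk h) * w h) (dfe w e p.1 p.2) l := by
  have h := hY fun k => Finsupp.mapDomain QuotientGroup.mk (CD1_F hF hl k)
  rw [CD1_left hF hw hl] at h
  rw [h]
  refine Finset.sum_congr rfl fun p _ => ?_
  rw [CD1_sum hF hl p.1 QuotientGroup.mk (Y p),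
    CD1_sum hF hl p.2 QuotientGroup.mk fun q => Y p (p.1 • q),
    CD1_sum hF hl (p.1 * p.2) QuotientGroup.mk (Y p)]
  exact CD1_term hF hl (Y p) p.1 p.2

end Kaz
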