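import Pool.Agent.W_04c03c_h58k.KFace
import Pool.Agent.W_04c03c_h58.SimCon
import Pool.Agent.W_04c03c_h58.FpA

/-!
# The circle valued function of a cochain with integral coboundary
-/

namespace Kaz

open RCan

variable {K Ξ V : Type*} [Group K] [MulAction K Ξ] [MulAction K V] {sm : V → V → Prop}
  {cusp : V → Option Ξ} {z : List V → ℤ} {w : K → ℤ} {e : K → List V → ℤ}

/-- A real cochain with integral coboundary is modulo `1` a coboundary.

Proof. `u x y = Circle.exp (2 * π * η [x, y])` and `simply_connected` (`hF.refl`, `hF.symm`, `hF.dis`,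
`hF.ne`): for `x, y, z` pairwise small, `[x, y, z]` is small and `cr sm η [x, y, z] = η [y, z] - η [x, z] +
η [x, y]` (`dl_cons`) is an integer `n` (`hint`), so `u x y * u y z = u x z * Circle.exp (2 π n) = u x z`
(`Circle.exp_add`, `Circle.exp_two_pi`, `Circle.exp_int..`). -/
theorem exists_circ (hF : KFace K Ξ V sm cusp z w e) {η : List V → ℝ}
    (hint : ∀ l : List V, l.length = 3 → ∃ n : ℤ, cr sm η l = n) :
    ∃ f : V → Circle, ∀ x y, sm x y →
      Circle.exp (2 * Real.pi * η [x, y]) = (f x)⁻¹ * f y := by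
  obtain ⟨rk, ps, hdis⟩ := hF.dis
  have := hF.ne
  refine simply_connected hF.refl hF.symm hdis
    (fun x y => Circle.exp (2 * Real.pi * η [x, y])) ?_
  intro x y z hxy hyz hxz
  have hsml : Sml sm [x, y, z] := by
    intro a ha b hb
    simp only [List.mem_cons, List.not_mem_nil, or_false] at ha hb
    rcases ha with rfl | rfl | rfl <;> rcases hb with rfl | rfl | rfl
    · exact hF.refl _
    · exact hxy
    · exact hxz
    · exact hF.symm _ _ hxy
    · exact hF.refl _
    · exact hyz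
    · exact hF.symm _ _ hxz
    · exact hF.symm _ _ hyz
    · exact hF.refl _
  obtain ⟨n, hn⟩ := hint [x, y, z] rfl
  have hcr : cr sm η [x, y, z] = η [y, z] - (η [x, z] - (η [x, y] - 0)) := by
    unfold cr
    rw [if_pos hsml, co_apply, dl_cons, dl_cons, dl_cons, dl_nil]
  rw [hcr, sub_zero] at hn
  show Circle.exp (2 * Real.pi * η [x, y]) * Circle.exp (2 * Real.pi * η [y, z]) =
    Circle.exp (2 * Real.pi * η [x, z])
  rw [← Circle.exp_add]
  have h1 : 2 * Real.pi * η [x, y] + 2 * Real.pi * η [y, z] =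
      2 * Real.pi * η [x, z] + n * (2 * Real.pi) := by
    have h2 : η [x, y] + η [y, z] = η [x, z] + n := by linarith
    calc 2 * Real.pi * η [x, y] + 2 * Real.pi * η [y, z]
        = 2 * Real.pi * (η [x, y] + η [y, z]) := by ring
      _ = 2 * Real.pi * (η [x, z] + n) := by rw [h2]
      _ = 2 * Real.pi * η [x, z] + n * (2 * Real.pi) := by ring
  rw [h1]
  exact Circle.periodic_exp.int_mul n _

/-- Proof. `F x = f (g • x) * (f x)⁻¹` is locally constant: for `sm x y`, `(f x)⁻¹ * f y =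
(f (g x))⁻¹ * f (g y)` since `η [g • x, g • y] = η [x, y]` (`hF.smul_sm`); so it is a constant `c`
(`const_of_dis`, `hF.dis`). `g ^ n` for `n : ℤ` acts by `c ^ n`: `f (g ^ n • x) = c ^ n * f x`
(`zpow_induction` / induction on `n`). `χ` is the homomorphism `g ^ n ↦ c ^ n`; well defined since
`n ↦ g ^ n` is injective (`hg`); or define `χ s = f (s • v₀) * (f v₀)⁻¹` for a fixed `v₀` and show that
`f (s • x) = χ s * f x` for all `s ∈ zpowers g`, `x`, which implies that `χ` is multiplicative. -/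
theorem exists_char (hF : KFace K Ξ V sm cusp z w e) {g : K} {η : List V → ℝ}
    (hinv : ∀ l : List V, η (l.map (fun x => g • x)) = η l) {f : V → Circle}
    (hf : ∀ x y, sm x y → Circle.exp (2 * Real.pi * η [x, y]) = (f x)⁻¹ * f y) :
    ∃ χ : Subgroup.zpowers g →* Circle, ∀ (s : Subgroup.zpowers g) (x : V),
      f ((s : K) • x) = χ s * f x := by
  obtain ⟨rk, ps, hdis⟩ := hF.dis
  obtain ⟨v₀⟩ := hF.ne
  have hloc : ∀ x y, sm x y → f (g • x) * (f x)⁻¹ = f (g • y) * (f y)⁻¹ := by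
    intro x y hxy
    have h1 := hf x y hxy
    have h2 := hf (g • x) (g • y) (hF.smul_sm g x y hxy)
    have h3 : η [g • x, g • y] = η [x, y] := hinv [x, y]
    rw [h3, h1] at h2
    have h4 : f (g • x) * (f x)⁻¹ * f y = f (g • y) := by
      rw [mul_assoc, h2, mul_inv_cancel_left]
    rw [← h4, mul_inv_cancel_right]
  have hc : ∀ x, f (g • x) = f (g • v₀) * (f v₀)⁻¹ * f x := by
    intro x
    have h1 := const_of_dis hF.refl hdis (fun x => f (g • x) * (f x)⁻¹) hloc x v₀
    have h2 : f (g • x) * (f x)⁻¹ = f (g • v₀) * (f v₀)⁻¹ := h1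
    rw [← h2, inv_mul_cancel_right]
  have hpow : ∀ (n : ℤ) (x : V), f (g ^ n • x) = (f (g • v₀) * (f v₀)⁻¹) ^ n * f x := by
    intro n
    induction n using Int.induction_on with
    | zero =>
      intro x
      rw [zpow_zero, zpow_zero, one_smul, one_mul]
    | succ i ih =>
      intro x
      rw [zpow_add_one, zpow_add_one, mul_smul, ih, hc x]
      exact (mul_assoc _ _ _).symm
    | pred i ih =>
      intro x
      have h1 := ih (g⁻¹ • x)
      have h2 := hc (g⁻¹ • x)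
      rw [smul_inv_smul] at h2
      rw [zpow_sub_one, zpow_sub_one, mul_smul, h1, h2, mul_assoc, inv_mul_cancel_left]
  have key : ∀ (s : Subgroup.zpowers g) (x : V),
      f ((s : K) • x) = f ((s : K) • v₀) * (f v₀)⁻¹ * f x := by
    rintro ⟨s, hs⟩ x
    obtain ⟨n, rfl⟩ := Subgroup.mem_zpowers_iff.1 hs
    show f (g ^ n • x) = f (g ^ n • v₀) * (f v₀)⁻¹ * f x
    rw [hpow n x, hpow n v₀, mul_inv_cancel_right]
  refine ⟨MonoidHom.mk' (fun s : Subgroup.zpowers g => f ((s : K) • v₀) * (f v₀)⁻¹) ?_, ?_⟩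
  · intro s t
    show f (((s * t : Subgroup.zpowers g) : K) • v₀) * (f v₀)⁻¹ =
      f ((s : K) • v₀) * (f v₀)⁻¹ * (f ((t : K) • v₀) * (f v₀)⁻¹)
    have h1 : ((s * t : Subgroup.zpowers g) : K) = (s : K) * (t : K) := rfl
    rw [h1, mul_smul, key s ((t : K) • v₀), mul_assoc]
  · intro s x
    exact key s x

/-- Proof. Let `R p q` be the statement to be proved. It is an equivalence relation: symmetric, and
transitive by `‖a - c‖ ^ 2 ≤ 2 ‖a - b‖ ^ 2 + 2 ‖b - c‖ ^ 2`. It holds for `sm p q`: for `x = c.out`, the pair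
`x⁻¹ • p, x⁻¹ • q` is small, and `‖f (x⁻¹ p) - f (x⁻¹ q)‖ = ‖1 - (f (x⁻¹ p))⁻¹ f (x⁻¹ q)‖ =
‖1 - exp (2 π i η [x⁻¹ p, x⁻¹ q])‖ ≤ 2 π |η ([p, q].map (x⁻¹ • ·))|` (`Real.norm_exp_I_mul_ofReal_sub_one_le`
or similar). By `const_of_dis` applied to the quotient map `V → Quot R` (or by connecting through the
dismantling) all pairs are related. -/
theorem circ_summable (hF : KFace K Ξ V sm cusp z w e) {g : K} {η : List V → ℝ}
    (hsum : ∀ l : List V, Summable (fun q : K ⧸ Subgroup.zpowers g =>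
        η (l.map (fun x => q.out⁻¹ • x)) ^ 2)) {f : V → Circle}
    (hf : ∀ x y, sm x y → Circle.exp (2 * Real.pi * η [x, y]) = (f x)⁻¹ * f y) (p q : V) :
    Summable (fun c : K ⧸ Subgroup.zpowers g =>
      ‖(f (c.out⁻¹ • p) : ℂ) - (f (c.out⁻¹ • q) : ℂ)‖ ^ 2) := by
  obtain ⟨rk, ps, hdis⟩ := hF.dis
  let R : V → V → Prop := fun p q => Summable (fun c : K ⧸ Subgroup.zpowers g =>
      ‖(f (c.out⁻¹ • p) : ℂ) - (f (c.out⁻¹ • q) : ℂ)‖ ^ 2)
  have hrefl : ∀ p, R p p := by
    intro p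
    show Summable _
    simp only [sub_self, norm_zero, ne_eq, OfNat.ofNat_ne_zero, not_false_eq_true, zero_pow]
    exact summable_zero
  have hsymm : ∀ p q, R p q → R q p := by
    intro p q h
    show Summable _
    refine h.congr fun c => ?_
    rw [norm_sub_rev]
  have htrans : ∀ p q r, R p q → R q r → R p r := by
    intro p q r h1 h2
    show Summable _
    refine Summable.of_nonneg_of_le (fun c => by positivity) (fun c => ?_)
      ((h1.mul_left 2).add (h2.mul_left 2))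
    set a : ℂ := (f (c.out⁻¹ • p) : ℂ)
    set b : ℂ := (f (c.out⁻¹ • q) : ℂ)
    set d : ℂ := (f (c.out⁻¹ • r) : ℂ)
    have h3 : ‖a - d‖ ≤ ‖a - b‖ + ‖b - d‖ := by
      have : a - d = (a - b) + (b - d) := by ring
      rw [this]
      exact norm_add_le _ _
    have h4 : 0 ≤ ‖a - d‖ := norm_nonneg _
    have h5 : 0 ≤ ‖a - b‖ := norm_nonneg _
    have h6 : 0 ≤ ‖b - d‖ := norm_nonneg _
    nlinarith [sq_nonneg (‖a - b‖ - ‖b - d‖)]
  have hsm : ∀ p q, sm p q → R p q := by
    intro p q hpq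
    show Summable _
    refine Summable.of_nonneg_of_le (fun c => by positivity) (fun c => ?_)
      ((hsum [p, q]).mul_left ((2 * Real.pi) ^ 2))
    have h1 := hf (c.out⁻¹ • p) (c.out⁻¹ • q) (hF.smul_sm _ _ _ hpq)
    have h2 : (List.map (fun x => (c.out⁻¹ : K) • x) [p, q]) = [c.out⁻¹ • p, c.out⁻¹ • q] := rfl
    rw [h2, ← mul_pow]
    have h3 : ‖(f (c.out⁻¹ • p) : ℂ) - (f (c.out⁻¹ • q) : ℂ)‖ ≤
        |2 * Real.pi * η [c.out⁻¹ • p, c.out⁻¹ • q]| := by
      have h4 : (f (c.out⁻¹ • q) : ℂ) = (f (c.out⁻¹ • p) : ℂ) *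
          (Circle.exp (2 * Real.pi * η [c.out⁻¹ • p, c.out⁻¹ • q]) : ℂ) := by
        rw [h1, ← Circle.coe_mul, mul_inv_cancel_left]
      rw [h4, ← mul_one_sub, norm_mul, Circle.norm_coe, one_mul, norm_sub_rev, Circle.coe_exp,
        mul_comm _ Complex.I]
      exact Real.norm_exp_I_mul_ofReal_sub_one_le
    calc ‖(f (c.out⁻¹ • p) : ℂ) - (f (c.out⁻¹ • q) : ℂ)‖ ^ 2
        ≤ |2 * Real.pi * η [c.out⁻¹ • p, c.out⁻¹ • q]| ^ 2 :=
          pow_le_pow_left₀ (norm_nonneg _) h3 2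
      _ = (2 * Real.pi * η [c.out⁻¹ • p, c.out⁻¹ • q]) ^ 2 := sq_abs _
  let S : Setoid V := ⟨R, ⟨hrefl, fun {p q} h => hsymm p q h, fun {p q r} h1 h2 => htrans p q r h1 h2⟩⟩
  have h := const_of_dis hF.refl hdis (fun x => (Quotient.mk S x)) (fun x y hxy =>
    Quotient.sound (hsm x y hxy)) p q
  exact Quotient.exact h

end Kaz
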