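import Pool.Agent.W_04c03c_h58k.CE
import Pool.Agent.W_04c03c_h58k.AG

/-!
# The circle valued function is constant at infinity
-/

namespace Kaz

open RCan

universe u

variable {K : Type u} {Ξ V : Type*} [Group K] [MulAction K Ξ] [MulAction K V] {sm : V → V → Prop}
  {cusp : V → Option Ξ} {z : List V → ℤ} {w : K → ℤ} {e : K → List V → ℤ}

/-- The circle valued function is constant at infinity.

Proof. Take `χ` of `exists_char` and a vertex `v₀` (`hF.ne`), and put `Ψ x = f (x⁻¹ • v₀)` (in `ℂ`). For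
`s ∈ zpowers g`: `Ψ (x * s) = f (s⁻¹ • x⁻¹ • v₀) = χ s⁻¹ * Ψ x = (χ s)⁻¹ * Ψ x`. The hypothesis `h2` of
`fix_const` for `k` is `circ_summable` for `p = k • v₀`, `q = v₀` (`(k⁻¹ * c.out)⁻¹ • v₀ = c.out⁻¹ • k • v₀`).
We get `κ₀ : ℂ` with `‖Ψ c.out - κ₀‖ ^ 2` summable and `(χ s)⁻¹ * κ₀ = κ₀`. The set of cosets is infinite
and the terms of a summable family tend to `0` along `cofinite` (`Summable.tendsto_cofinite_zero`), and
`‖Ψ c.out‖ = 1`, so `‖κ₀‖ = 1` (`cofinite` is `NeBot`; `|‖κ₀‖ - 1| ≤ ‖Ψ c.out - κ₀‖`). So `κ₀ = κ` is in the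
circle, `χ s = 1` for all `s` and `f (g • x) = f x`. For all `x : V`:
`‖f (c.out⁻¹ x) - κ‖ ^ 2 ≤ 2 ‖f (c.out⁻¹ x) - f (c.out⁻¹ v₀)‖ ^ 2 + 2 ‖f (c.out⁻¹ v₀) - κ‖ ^ 2`
(`circ_summable`). -/
theorem exists_kap (hF : KFace K Ξ V sm cusp z w e) (hK : FixT K) {g : K} (hg : InfOrd g)
    [Infinite (K ⧸ Subgroup.zpowers g)] {η : List V → ℝ}
    (hinv : ∀ l : List V, η (l.map (fun x => g • x)) = η l)
    (hsum : ∀ l : List V, Summable (fun q : K ⧸ Subgroup.zpowers g =>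
        η (l.map (fun x => q.out⁻¹ • x)) ^ 2)) {f : V → Circle}
    (hf : ∀ x y, sm x y → Circle.exp (2 * Real.pi * η [x, y]) = (f x)⁻¹ * f y) :
    ∃ κ : Circle, (∀ x, f (g • x) = f x) ∧ ∀ x : V,
      Summable (fun c : K ⧸ Subgroup.zpowers g => ‖(f (c.out⁻¹ • x) : ℂ) - (κ : ℂ)‖ ^ 2) := by
  obtain ⟨χ, hχ⟩ := exists_char hF hinv hf
  obtain ⟨v₀⟩ := hF.ne
  have hcs := circ_summable hF hsum hf
  have h1 : ∀ (x : K) (s : Subgroup.zpowers g),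
      (fun x : K => (f (x⁻¹ • v₀) : ℂ)) (x * s) =
        (χ s : ℂ)⁻¹ * (fun x : K => (f (x⁻¹ • v₀) : ℂ)) x := by
    intro x s
    change (f ((x * (s : K))⁻¹ • v₀) : ℂ) = (χ s : ℂ)⁻¹ * (f (x⁻¹ • v₀) : ℂ)
    have h : (x * (s : K))⁻¹ • v₀ = ((s⁻¹ : Subgroup.zpowers g) : K) • (x⁻¹ • v₀) := by
      rw [mul_inv_rev, mul_smul]
      rfl
    rw [h, hχ, map_inv, Circle.coe_mul, Circle.coe_inv]
  have h2 : ∀ k : K, Summable (fun q : K ⧸ Subgroup.zpowers g =>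
      ‖(fun x : K => (f (x⁻¹ • v₀) : ℂ)) (k⁻¹ * q.out) -
        (fun x : K => (f (x⁻¹ • v₀) : ℂ)) q.out‖ ^ 2) := by
    intro k
    refine (hcs (k • v₀) v₀).congr fun q => ?_
    change _ = ‖(f ((k⁻¹ * q.out)⁻¹ • v₀) : ℂ) - (f (q.out⁻¹ • v₀) : ℂ)‖ ^ 2
    rw [mul_inv_rev, inv_inv, mul_smul]
  obtain ⟨κ₀, hκ1, hκ2⟩ := fix_const hK hg χ (fun x => (f (x⁻¹ • v₀) : ℂ)) h1 h2
  have h3 : ‖κ₀‖ = 1 := by
    have h4 := hκ1.tendsto_cofinite_zero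
    have h5 : Filter.Tendsto (fun _ : K ⧸ Subgroup.zpowers g => (‖κ₀‖ - 1) ^ 2) Filter.cofinite
        (nhds 0) := by
      refine squeeze_zero (fun _ => sq_nonneg _) (fun q => ?_) h4
      rw [← sq_abs (‖κ₀‖ - 1)]
      apply pow_le_pow_left₀ (abs_nonneg _)
      have h6 := abs_norm_sub_norm_le κ₀ (f (q.out⁻¹ • v₀) : ℂ)
      rw [Circle.norm_coe, norm_sub_rev] at h6
      exact h6
    have h6 : (‖κ₀‖ - 1) ^ 2 = 0 := tendsto_nhds_unique tendsto_const_nhds h5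
    have h7 := pow_eq_zero_iff (two_ne_zero) |>.1 h6
    linarith
  have hκ0 : κ₀ ≠ 0 := by
    intro h
    rw [h, norm_zero] at h3
    exact zero_ne_one h3
  have hχ1 : ∀ s, χ s = 1 := by
    intro s
    have h' : ((χ s : ℂ))⁻¹ = 1 := mul_right_cancel₀ hκ0 ((hκ2 s).trans (one_mul κ₀).symm)
    rw [inv_eq_one] at h'
    apply Circle.ext
    rw [h', Circle.coe_one]
  refine ⟨⟨κ₀, mem_sphere_zero_iff_norm.2 h3⟩, fun x => ?_, fun x => ?_⟩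
  · have h := hχ ⟨g, Subgroup.mem_zpowers g⟩ x
    rw [hχ1, one_mul] at h
    exact h
  · have ha := (hcs x v₀).mul_left 2
    have hb := hκ1.mul_left 2
    refine Summable.of_nonneg_of_le (fun c => sq_nonneg _) (fun c => ?_) (ha.add hb)
    change ‖(f (c.out⁻¹ • x) : ℂ) - κ₀‖ ^ 2 ≤
      2 * ‖(f (c.out⁻¹ • x) : ℂ) - (f (c.out⁻¹ • v₀) : ℂ)‖ ^ 2 +
        2 * ‖(f (c.out⁻¹ • v₀) : ℂ) - κ₀‖ ^ 2
    have h7 := norm_sub_le_norm_sub_add_norm_sub (f (c.out⁻¹ • x) : ℂ)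
      (f (c.out⁻¹ • v₀) : ℂ) κ₀
    have h8 := pow_le_pow_left₀ (norm_nonneg _) h7 2
    have h9 := sq_nonneg (‖(f (c.out⁻¹ • x) : ℂ) - (f (c.out⁻¹ • v₀) : ℂ)‖ -
      ‖(f (c.out⁻¹ • v₀) : ℂ) - κ₀‖)
    nlinarith only [h8, h9]

end Kaz
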