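import Pool.Agent.W_04c03c_h58k.CE

/-!
# Finite support modulo the cyclic subgroup
-/

namespace Kaz

open RCan

variable {K Ξ V : Type*} [Group K] [MulAction K Ξ] [MulAction K V] {sm : V → V → Prop}
  {cusp : V → Option Ξ} {z : List V → ℤ} {w : K → ℤ} {e : K → List V → ℤ}

/-- the cochain of degree zero of a function on the vertices -/
def vtx {V : Type*} (θ : V → ℝ) : List V → ℝ
  | [x] => θ x
  | _ => 0

theorem CI_vtx_ne {V : Type*} (θ : V → ℝ) {l : List V} (h : l.length ≠ 1) : vtx θ l = 0 := by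
  match l with
  | [] => rfl
  | [x] => simp at h
  | x :: y :: l => rfl

theorem CI_vtx_alt {V : Type*} (θ : V → ℝ) : Alt (vtx θ) := by
  refine ⟨fun l₁ x y l₂ => ?_, fun l₁ x l₂ => ?_⟩
  · rw [CI_vtx_ne θ (by simp; omega), CI_vtx_ne θ (by simp; omega), neg_zero]
  · exact CI_vtx_ne θ (by simp; omega)

theorem CI_cr_two (θ : V → ℝ) {x y : V} (h : Sml sm [x, y]) :
    cr sm (vtx θ) [x, y] = θ y - θ x := by
  rw [cr_of_sml _ h]
  show dl [x, y] (vtx θ) = _
  rw [dl_cons, dl_cons, dl_nil, sub_zero]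
  rfl

theorem CI_cr_ne (θ : V → ℝ) {l : List V} (h : l.length ≠ 2) : cr sm (vtx θ) l = 0 := by
  unfold cr
  split_ifs
  · exact dl_eq_zero l (fun l' _ h2 => CI_vtx_ne θ (by omega))
  · rfl

theorem CI_cr_not (θ : V → ℝ) {l : List V} (h : ¬ Sml sm l) : cr sm (vtx θ) l = 0 := by
  simp [cr, h]

theorem CI_sml_map (hs : ∀ (g : K) (v w : V), sm v w → sm (g • v) (g • w)) (g : K) (l : List V) :
    Sml sm (l.map (fun x => g • x)) ↔ Sml sm l := by
  constructor
  · intro h x hx y hy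
    have := hs g⁻¹ _ _ (h (g • x) (List.mem_map_of_mem hx) (g • y) (List.mem_map_of_mem hy))
    simpa using this
  · intro h x hx y hy
    rw [List.mem_map] at hx hy
    obtain ⟨x', hx', rfl⟩ := hx
    obtain ⟨y', hy', rfl⟩ := hy
    exact hs g _ _ (h x' hx' y' hy')

theorem CI_cr_map (hs : ∀ (g : K) (v w : V), sm v w → sm (g • v) (g • w)) (g : K) (θ : V → ℝ)
    (hθ : ∀ x, θ (g • x) = θ x) (l : List V) :
    cr sm (vtx θ) (l.map (fun x => g • x)) = cr sm (vtx θ) l := by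
  by_cases h : Sml sm l
  · rw [cr_of_sml _ h, cr_of_sml _ ((CI_sml_map hs g l).2 h), co_map]
    have : (fun l' : List V => vtx θ (l'.map (fun x => g • x))) = vtx θ := by
      funext l'
      match l' with
      | [] => rfl
      | [x] => exact hθ x
      | x :: y :: l => rfl
    rw [this]
  · rw [CI_cr_not θ h, CI_cr_not θ (fun h' => h ((CI_sml_map hs g l).1 h'))]

theorem CI_map_zpow {A : Type*} (g : K) (φ : List V → A)
    (h : ∀ l : List V, φ (l.map (fun x => g • x)) = φ l) (n : ℤ) :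
    ∀ l : List V, φ (l.map (fun x => g ^ n • x)) = φ l := by
  induction n with
  | zero => intro l; simp
  | succ n ih =>
    intro l
    have h1 : l.map (fun x => g ^ ((n : ℤ) + 1) • x)
        = (l.map (fun x => g ^ (n : ℤ) • x)).map (fun x => g • x) := by
      rw [List.map_map]
      apply List.map_congr_left
      intro x _
      show g ^ ((n : ℤ) + 1) • x = g • (g ^ (n : ℤ) • x)
      rw [smul_smul, ← zpow_one_add, add_comm]
    rw [h1, h, ih]
  | pred n ih =>
    intro l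
    have h1 : l.map (fun x => g ^ (-(n : ℤ)) • x)
        = (l.map (fun x => g ^ (-(n : ℤ) - 1) • x)).map (fun x => g • x) := by
      rw [List.map_map]
      apply List.map_congr_left
      intro x _
      show g ^ (-(n : ℤ)) • x = g • (g ^ (-(n : ℤ) - 1) • x)
      rw [smul_smul, ← zpow_one_add]
      congr 2
      ring
    rw [← h, ← h1, ih]

theorem CI_arg_lt {a b : Circle} (h : ‖(a : ℂ) - (b : ℂ)‖ < 1) :
    |Complex.arg ((a / b : Circle) : ℂ)| < Real.pi / 2 := by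
  rw [Complex.abs_arg_lt_pi_div_two_iff]
  left
  have h1 : ‖((a / b : Circle) : ℂ) - 1‖ < 1 := by
    have h2 : ((a / b : Circle) : ℂ) - 1 = ((a : ℂ) - (b : ℂ)) * (b : ℂ)⁻¹ := by
      rw [Circle.coe_div]
      field_simp
    rw [h2, norm_mul, norm_inv, Circle.norm_coe, inv_one, mul_one]
    exact h
  have h3 := Complex.abs_re_le_norm (((a / b : Circle) : ℂ) - 1)
  rw [Complex.sub_re, Complex.one_re] at h3
  have h4 := abs_lt.1 (lt_of_le_of_lt h3 h1)
  linarith [h4.1]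

/-- the decomposition of a translate by the representatives of the cosets -/
theorem CI_dec (g k : K) (l : List V) : ∃ n : ℤ,
    l.map (fun x => k • x) = (l.map (fun x =>
      ((QuotientGroup.mk k⁻¹ : K ⧸ Subgroup.zpowers g).out)⁻¹ • x)).map (fun x => g ^ n • x) := by
  obtain ⟨h, hh⟩ := QuotientGroup.mk_out_eq_mul (Subgroup.zpowers g) k⁻¹
  obtain ⟨n, hn⟩ := Subgroup.mem_zpowers_iff.1 h.2
  refine ⟨n, ?_⟩
  rw [List.map_map]
  apply List.map_congr_left
  intro x _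
  show k • x = g ^ n • ((QuotientGroup.mk k⁻¹ : K ⧸ Subgroup.zpowers g).out)⁻¹ • x
  rw [hh, smul_smul, hn]
  congr 1
  group

/-- Correction by the coboundary of the argument. -/
theorem exists_eta0 (hF : KFace K Ξ V sm cusp z w e) {g : K} {η : List V → ℝ}
    (hη : IsR sm cusp ℝ 1 η) (hinv : ∀ l : List V, η (l.map (fun x => g • x)) = η l)
    (hsum : ∀ l : List V, Summable (fun q : K ⧸ Subgroup.zpowers g =>
        η (l.map (fun x => q.out⁻¹ • x)) ^ 2)) {L : Finset (List V)}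
    (hL : ∀ l : List V, η l ≠ 0 → ∃ l₀ ∈ L, ∃ k : K, l = l₀.map (fun x => k • x))
    {f : V → Circle}
    (hf : ∀ x y, sm x y → Circle.exp (2 * Real.pi * η [x, y]) = (f x)⁻¹ * f y) {κ : Circle}
    (hfinv : ∀ x, f (g • x) = f x)
    (hkap : ∀ x : V, Summable (fun c : K ⧸ Subgroup.zpowers g =>
      ‖(f (c.out⁻¹ • x) : ℂ) - (κ : ℂ)‖ ^ 2)) :
    ∃ η₀ : List V → ℝ, IsR sm cusp ℝ 1 η₀ ∧ (∀ l : List V, η₀ (l.map (fun x => g • x)) = η₀ l) ∧
      cr sm η₀ = cr sm η ∧ ∃ L₀ : Finset (List V), ∀ l : List V, η₀ l ≠ 0 →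
        ∃ l₀ ∈ L₀, ∃ n : ℤ, l = l₀.map (fun x => g ^ n • x) := by
  classical
  have hpi : 0 < Real.pi := Real.pi_pos
  have hfeq : ∀ x y, sm x y → η [x, y] = 0 → f x = f y := by
    intro x y hxy h0
    have := hf x y hxy
    rw [h0, mul_zero, Circle.exp_zero] at this
    exact eq_of_inv_mul_eq_one this.symm
  obtain ⟨θ, hθ⟩ : ∃ θ : V → ℝ, ∀ x, θ x = Complex.arg ((f x / κ : Circle) : ℂ) / (2 * Real.pi) :=
    ⟨_, fun x => rfl⟩
  have hθ1 : ∀ x, Circle.exp (2 * Real.pi * θ x) = f x / κ := by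
    intro x
    have : 2 * Real.pi * θ x = Complex.arg ((f x / κ : Circle) : ℂ) := by
      rw [hθ]
      field_simp
    rw [this, Circle.exp_arg]
  have hθf : ∀ x y, f x = f y → θ x = θ y := by
    intro x y h
    rw [hθ, hθ, h]
  have hθg : ∀ x, θ (g • x) = θ x := fun x => hθf _ _ (hfinv x)
  have hsm2 : ∀ x y : V, Sml sm [x, y] → sm x y := fun x y h => h x (by simp) y (by simp)
  obtain ⟨η₀, hη₀⟩ : ∃ η₀ : List V → ℝ, η₀ = η - cr sm (vtx θ) := ⟨_, rfl⟩
  have hη₀2 : ∀ x y, Sml sm [x, y] → η₀ [x, y] = η [x, y] - (θ y - θ x) := by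
    intro x y h
    rw [hη₀, Pi.sub_apply, CI_cr_two θ h]
  -- vanishing outside the small lists of length two
  have hz1 : ∀ l : List V, l.length ≠ 2 → η₀ l = 0 := by
    intro l hl
    have h1 : η l = 0 := by
      by_contra h
      exact hl (hη.len l h)
    rw [hη₀, Pi.sub_apply, CI_cr_ne θ hl, h1, sub_zero]
  have hz2 : ∀ l : List V, ¬ Sml sm l → η₀ l = 0 := by
    intro l hl
    have h1 : η l = 0 := by
      by_contra h
      exact hl (hη.rl l h).1
    rw [hη₀, Pi.sub_apply, CI_cr_not θ hl, h1, sub_zero]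
  have hz3 : ∀ l : List V, η l = 0 → η₀ l = 0 := by
    intro l hl
    by_cases h1 : l.length = 2
    · by_cases h2 : Sml sm l
      · obtain ⟨x, y, rfl⟩ := List.length_eq_two.1 h1
        rw [hη₀2 x y h2, hl, hθf x y (hfeq x y (hsm2 x y h2) hl)]
        ring
      · exact hz2 l h2
    · exact hz1 l h1
  have hR : IsR sm cusp ℝ 1 η₀ := by
    refine ⟨?_, ?_, ?_⟩
    · rw [hη₀]
      exact hη.alt.sub (CI_vtx_alt θ).cr
    · intro l hl
      by_contra h
      exact hl (hz1 l h)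
    · intro l hl
      exact hη.rl l (fun h => hl (hz3 l h))
  have hinv0 : ∀ l : List V, η₀ (l.map (fun x => g • x)) = η₀ l := by
    intro l
    rw [hη₀, Pi.sub_apply, Pi.sub_apply, hinv, CI_cr_map hF.smul_sm g θ hθg]
  have hcr : cr sm η₀ = cr sm η := by
    rw [hη₀, cr_sub, cr_cr, sub_zero]
  -- integrality
  have hint : ∀ x y, Sml sm [x, y] → ∃ n : ℤ, η₀ [x, y] = n := by
    intro x y h
    have h1 : Circle.exp (2 * Real.pi * η₀ [x, y]) = 1 := by
      rw [hη₀2 x y h]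
      have h2 : 2 * Real.pi * (η [x, y] - (θ y - θ x))
          = 2 * Real.pi * η [x, y] - (2 * Real.pi * θ y - 2 * Real.pi * θ x) := by ring
      rw [h2, Circle.exp_sub, Circle.exp_sub, hθ1, hθ1, hf x y (hsm2 x y h)]
      rw [div_div_div_cancel_right, inv_mul_eq_div, div_self']
    obtain ⟨n, hn⟩ := Circle.exp_eq_one.1 h1
    refine ⟨n, ?_⟩
    have h2 : 2 * Real.pi * (η₀ [x, y] - n) = 0 := by
      rw [mul_sub, hn]; ring
    have h3 : η₀ [x, y] - n = 0 := by
      rcases mul_eq_zero.1 h2 with h | h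
      · exfalso
        linarith
      · exact h
    linarith
  -- the exceptional cosets
  have hfin : ∀ l₀ : List V, {c : K ⧸ Subgroup.zpowers g |
      η₀ (l₀.map (fun x => c.out⁻¹ • x)) ≠ 0}.Finite := by
    intro l₀
    by_cases hlen : l₀.length = 2
    · obtain ⟨p, q, rfl⟩ := List.length_eq_two.1 hlen
      have e1 : ∀ᶠ c : K ⧸ Subgroup.zpowers g in Filter.cofinite,
          η ([p, q].map (fun x => c.out⁻¹ • x)) ^ 2 < 1 / 4 :=
        (hsum [p, q]).tendsto_cofinite_zero.eventually (gt_mem_nhds (by norm_num))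
      have e2 : ∀ x : V, ∀ᶠ c : K ⧸ Subgroup.zpowers g in Filter.cofinite,
          ‖(f (c.out⁻¹ • x) : ℂ) - (κ : ℂ)‖ ^ 2 < 1 := fun x =>
        (hkap x).tendsto_cofinite_zero.eventually (gt_mem_nhds (by norm_num))
      have e3 := (e1.and (e2 p)).and (e2 q)
      rw [Filter.eventually_cofinite] at e3
      refine e3.subset ?_
      intro c hc h3
      apply hc
      obtain ⟨⟨h1, h2p⟩, h2q⟩ := h3
      have hab : ∀ x : V, ‖(f (c.out⁻¹ • x) : ℂ) - (κ : ℂ)‖ ^ 2 < 1 → |θ (c.out⁻¹ • x)| < 1 / 4 := by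
        intro x hx
        have hx1 : ‖(f (c.out⁻¹ • x) : ℂ) - (κ : ℂ)‖ < 1 := by
          by_contra hx2
          push Not at hx2
          nlinarith
        have hx3 := CI_arg_lt hx1
        rw [hθ, abs_div, abs_of_pos (by positivity : (0 : ℝ) < 2 * Real.pi), div_lt_iff₀ (by positivity)]
        linarith
      have hp := abs_lt.1 (hab p h2p)
      have hq := abs_lt.1 (hab q h2q)
      have h1' : |η ([p, q].map (fun x => c.out⁻¹ • x))| < 1 / 2 := by
        apply abs_lt_of_sq_lt_sq _ (by norm_num)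
        linarith
      have h1'' := abs_lt.1 h1'
      by_cases hs : Sml sm ([p, q].map (fun x => c.out⁻¹ • x))
      · have hs' : Sml sm [c.out⁻¹ • p, c.out⁻¹ • q] := hs
        obtain ⟨n, hn⟩ := hint _ _ hs'
        have h5 := hη₀2 _ _ hs'
        have h6 : η ([p, q].map (fun x => c.out⁻¹ • x)) = η [c.out⁻¹ • p, c.out⁻¹ • q] := rfl
        rw [h6] at h1''
        have h7 : |(n : ℝ)| < 1 := by
          rw [← hn, h5, abs_lt]
          constructor
          · linarith [hp.1, hp.2, hq.1, hq.2, h1''.1, h1''.2]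
          · linarith [hp.1, hp.2, hq.1, hq.2, h1''.1, h1''.2]
        have h8 : n = 0 := by
          have : |n| < 1 := by exact_mod_cast h7
          exact Int.abs_lt_one_iff.1 this
        show η₀ [c.out⁻¹ • p, c.out⁻¹ • q] = 0
        rw [hn, h8, Int.cast_zero]
      · exact hz2 _ hs
    · have : {c : K ⧸ Subgroup.zpowers g | η₀ (l₀.map (fun x => c.out⁻¹ • x)) ≠ 0} = ∅ := by
        ext c
        simp only [Set.mem_ofPred_eq, Set.mem_empty_iff_false, iff_false, not_not]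
        exact hz1 _ (by rw [List.length_map]; exact hlen)
      rw [this]
      exact Set.finite_empty
  refine ⟨η₀, hR, hinv0, hcr, L.biUnion (fun l₀ => (hfin l₀).toFinset.image
    (fun c => l₀.map (fun x => c.out⁻¹ • x))), ?_⟩
  intro l hl
  obtain ⟨l₀, hl₀, k, rfl⟩ := hL l (fun h => hl (hz3 l h))
  obtain ⟨n, hn⟩ := CI_dec g k l₀
  refine ⟨l₀.map (fun x => ((QuotientGroup.mk k⁻¹ : K ⧸ Subgroup.zpowers g).out)⁻¹ • x), ?_, n, hn⟩
  rw [Finset.mem_biUnion]
  refine ⟨l₀, hl₀, ?_⟩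
  rw [Finset.mem_image]
  refine ⟨QuotientGroup.mk k⁻¹, ?_, rfl⟩
  rw [Set.Finite.mem_toFinset]
  show η₀ _ ≠ 0
  rw [hn, CI_map_zpow g η₀ hinv0 n] at hl
  exact hl

/-- The case of finite index. -/
theorem eta_finite {g : K} [Finite (K ⧸ Subgroup.zpowers g)] {η : List V → ℝ}
    {L : Finset (List V)}
    (hL : ∀ l : List V, η l ≠ 0 → ∃ l₀ ∈ L, ∃ k : K, l = l₀.map (fun x => k • x)) :
    ∃ L₀ : Finset (List V), ∀ l : List V, η l ≠ 0 →
        ∃ l₀ ∈ L₀, ∃ n : ℤ, l = l₀.map (fun x => g ^ n • x) := by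
  classical
  refine ⟨L.biUnion (fun l₀ => (Set.toFinite (Set.univ : Set (K ⧸ Subgroup.zpowers g))).toFinset.image
    (fun c => l₀.map (fun x => c.out⁻¹ • x))), ?_⟩
  intro l hl
  obtain ⟨l₀, hl₀, k, rfl⟩ := hL l hl
  obtain ⟨n, hn⟩ := CI_dec g k l₀
  refine ⟨l₀.map (fun x => ((QuotientGroup.mk k⁻¹ : K ⧸ Subgroup.zpowers g).out)⁻¹ • x), ?_, n, hn⟩
  rw [Finset.mem_biUnion]
  refine ⟨l₀, hl₀, ?_⟩
  rw [Finset.mem_image]
  refine ⟨QuotientGroup.mk k⁻¹, ?_, rfl⟩
  rw [Set.Finite.mem_toFinset]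
  exact Set.mem_univ _

end Kaz
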