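import Pool.Agent.W_04c03c_h58k.CB

/-!
# Invariant cochains with finite support modulo the cyclic subgroup
-/

namespace Kaz

open RCan

variable {K Ξ V : Type*} [Group K] [MulAction K Ξ] [MulAction K V] {sm : V → V → Prop}
  {cusp : V → Option Ξ} {z : List V → ℤ} {w : K → ℤ} {e : K → List V → ℤ}

/-- representatives of the orbits of `zpowers g` -/
theorem CK_rep (hfree : ∀ (g : K) (v : V), g • v = v → g = 1) (g : K) :
    ∃ (D : Set V) (s : V → K), (∀ v, s v ∈ Subgroup.zpowers g ∧ s v • v ∈ D) ∧
      ∀ v, ∀ h ∈ Subgroup.zpowers g, h • v ∈ D → h = s v := by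
  classical
  let S := Subgroup.zpowers g
  let D : Set V := {x | (Quotient.mk (MulAction.orbitRel S V) x).out = x}
  have hmk : ∀ (v : V) (h : K), h ∈ S →
      Quotient.mk (MulAction.orbitRel S V) (h • v) = Quotient.mk (MulAction.orbitRel S V) v := by
    intro v h hh
    apply Quotient.sound
    show (MulAction.orbitRel S V) (h • v) v
    rw [MulAction.orbitRel_apply]
    exact ⟨⟨h, hh⟩, rfl⟩
  have hex : ∀ v : V, ∃ h : K, h ∈ S ∧ h • v ∈ D := by
    intro v
    have h1 : (MulAction.orbitRel S V) (Quotient.mk (MulAction.orbitRel S V) v).out v :=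
      Quotient.exact (Quotient.out_eq _)
    rw [MulAction.orbitRel_apply] at h1
    obtain ⟨⟨h, hh⟩, h2⟩ := h1
    have h3 : h • v = (Quotient.mk (MulAction.orbitRel S V) v).out := h2
    refine ⟨h, hh, ?_⟩
    show (Quotient.mk (MulAction.orbitRel S V) (h • v)).out = h • v
    rw [hmk v h hh, h3]
  choose s hs using hex
  refine ⟨D, s, hs, ?_⟩
  intro v h hh hD
  have h1 : (Quotient.mk (MulAction.orbitRel S V) (h • v)).out = h • v := hD
  have h2 : (Quotient.mk (MulAction.orbitRel S V) (s v • v)).out = s v • v := (hs v).2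
  rw [hmk v h hh] at h1
  rw [hmk v _ (hs v).1] at h2
  have h3 : h • v = s v • v := h1.symm.trans h2
  have h4 : ((s v)⁻¹ * h) • v = v := by
    rw [mul_smul, h3, inv_smul_smul]
  have h5 := hfree _ _ h4
  rw [inv_mul_eq_one] at h5
  exact h5.symm

/-- Invariant cochains with finite support modulo `S = zpowers g` are sums of translates of a finitely
supported cochain.

Proof. Let `D ⊆ V` be a set of representatives of the orbits of `S` on `V` (e.g. for
`MulAction.orbitRel.Quotient S V`, `D = {x | x = (Quotient.mk _ x).out}`). For `x : V` there is exactly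
one `s ∈ S` with `s • x ∈ D` (the action is free). Let `φ l = (number of entries of `l` in `D`) / 2`
(`List.countP` or the sum of the list of indicators) and `ε l = φ l * η₀ l`. It is alternating
(`φ` is invariant under exchanging entries), relative of length `2`. Finite support: if `ε l ≠ 0` then
`l = g ^ n • l₀` with `l₀ ∈ L₀`, and some entry `g ^ n • x`, `x ∈ l₀`, is in `D`: the element `g ^ n` is
determined by `x`; so `l` is in the finite set of the `s_x • l₀`, `x ∈ l₀ ∈ L₀`. The sum:
`opK (indS g) ε l = ∑ᶠ s ∈ S, φ (s l) * η₀ (s l) = η₀ l * ∑ᶠ s ∈ S, φ (s l)` (`η₀` is invariant under `S`), and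
for `l = [x, y]` `∑ᶠ s, φ (s l) = 1/2 + 1/2 = 1` (each entry is in `D` for exactly one `s`). For `l` of
other length both sides vanish. -/
theorem exists_trans (hF : KFace K Ξ V sm cusp z w e) {g : K} {η₀ : List V → ℝ}
    (hη : IsR sm cusp ℝ 1 η₀) (hinv : ∀ l : List V, η₀ (l.map (fun x => g • x)) = η₀ l)
    {L₀ : Finset (List V)} (hL : ∀ l : List V, η₀ l ≠ 0 →
        ∃ l₀ ∈ L₀, ∃ n : ℤ, l = l₀.map (fun x => g ^ n • x)) :
    ∃ ε : List V → ℝ, IsD sm cusp ℝ 1 ε ∧ η₀ = opK (indS g) ε := by
  classical
  obtain ⟨D, s, hs, hu⟩ := CK_rep hF.free g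
  -- invariance under the whole subgroup
  have hinvS : ∀ h ∈ Subgroup.zpowers g, ∀ l : List V, η₀ (l.map (fun x => h • x)) = η₀ l := by
    have hpow : ∀ (i : ℕ) (l : List V), η₀ (l.map (fun x => g ^ i • x)) = η₀ l := by
      intro i
      induction i with
      | zero => intro l; rw [pow_zero, map_one_smul]
      | succ i ih =>
        intro l
        rw [pow_succ, ← map_smul_smul g (g ^ i) l, ih, hinv]
    have hpinv : ∀ (i : ℕ) (l : List V), η₀ (l.map (fun x => (g ^ i)⁻¹ • x)) = η₀ l := by
      intro i l
      have := hpow i (l.map (fun x => (g ^ i)⁻¹ • x))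
      rw [map_smul_smul, mul_inv_cancel, map_one_smul] at this
      exact this.symm
    intro h hh l
    obtain ⟨i, rfl⟩ := Subgroup.mem_zpowers_iff.1 hh
    rcases Int.eq_nat_or_neg i with ⟨j, rfl | rfl⟩
    · rw [zpow_natCast]
      exact hpow j l
    · rw [zpow_neg, zpow_natCast]
      exact hpinv j l
  let c : V → ℝ := fun x => if x ∈ D then (1 / 2 : ℝ) else 0
  let φ : List V → ℝ := fun l => (l.map c).sum
  refine ⟨fun l => φ l * η₀ l, ⟨⟨?_, ?_⟩, ?_, ?_, ?_⟩, ?_⟩
  · intro l₁ x y l₂
    have h1 : φ (l₁ ++ x :: y :: l₂) = φ (l₁ ++ y :: x :: l₂) := by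
      simp only [φ, List.map_append, List.map_cons, List.sum_append, List.sum_cons]
      ring
    show φ (l₁ ++ x :: y :: l₂) * η₀ (l₁ ++ x :: y :: l₂)
      = -(φ (l₁ ++ y :: x :: l₂) * η₀ (l₁ ++ y :: x :: l₂))
    rw [h1, hη.alt.1]
    ring
  · intro l₁ x l₂
    show φ (l₁ ++ x :: x :: l₂) * η₀ (l₁ ++ x :: x :: l₂) = 0
    rw [hη.alt.2, mul_zero]
  · intro l hl
    exact hη.len l (right_ne_zero_of_mul hl)
  · intro l hl
    exact hη.rl l (right_ne_zero_of_mul hl)
  · have hfin : (⋃ l₀ ∈ (L₀ : Set (List V)), ⋃ x ∈ {x | x ∈ l₀},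
        {l₀.map (fun y => s x • y)}).Finite :=
      L₀.finite_toSet.biUnion (fun l₀ _ => (List.finite_toSet l₀).biUnion
        (fun x _ => Set.finite_singleton _))
    refine hfin.subset ?_
    intro l hl
    have h1 : φ l ≠ 0 := left_ne_zero_of_mul hl
    have h2 : η₀ l ≠ 0 := right_ne_zero_of_mul hl
    obtain ⟨l₀, hl₀, n, hn⟩ := hL l h2
    have h3 : ∃ y ∈ l, y ∈ D := by
      by_contra hcon
      push Not at hcon
      apply h1
      show (l.map c).sum = 0
      apply List.sum_eq_zero
      intro r hr
      rw [List.mem_map] at hr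
      obtain ⟨y, hy, rfl⟩ := hr
      show (if y ∈ D then (1 / 2 : ℝ) else 0) = 0
      rw [if_neg (hcon y hy)]
    obtain ⟨y, hy, hyD⟩ := h3
    rw [hn, List.mem_map] at hy
    obtain ⟨x, hx, rfl⟩ := hy
    have h4 := hu x (g ^ n) (Subgroup.zpow_mem_zpowers g n) hyD
    simp only [Set.mem_iUnion]
    refine ⟨l₀, hl₀, x, hx, ?_⟩
    rw [← h4]
    exact hn
  · funext l
    by_cases hlen : l.length = 2
    · obtain ⟨x, y, rfl⟩ := List.length_eq_two.1 hlen
      have key : ∀ (v : V) (h : K), indS g h * c (h • v) = if h = s v then (1 / 2 : ℝ) else 0 := by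
        intro v h
        show (if h ∈ Subgroup.zpowers g then (1 : ℝ) else 0) * (if h • v ∈ D then (1 / 2 : ℝ) else 0)
          = _
        by_cases hh : h = s v
        · rw [hh, if_pos (hs v).1, if_pos (hs v).2, if_pos rfl, one_mul]
        · rw [if_neg hh]
          by_cases h1 : h ∈ Subgroup.zpowers g
          · by_cases h2 : h • v ∈ D
            · exact absurd (hu v h h1 h2) hh
            · rw [if_neg h2, mul_zero]
          · rw [if_neg h1, zero_mul]
      have h1 : ∀ h : K, indS g h * (φ ([x, y].map (fun v => h • v)) * η₀ ([x, y].map (fun v => h • v)))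
          = (if h = s x then (1 / 2 : ℝ) * η₀ [x, y] else 0)
            + (if h = s y then (1 / 2 : ℝ) * η₀ [x, y] else 0) := by
        intro h
        have h2 : indS g h * η₀ ([x, y].map (fun v => h • v)) = indS g h * η₀ [x, y] := by
          by_cases hh : h ∈ Subgroup.zpowers g
          · rw [hinvS h hh]
          · have : indS g h = 0 := by
              show (if h ∈ Subgroup.zpowers g then (1 : ℝ) else 0) = 0
              rw [if_neg hh]
            rw [this, zero_mul, zero_mul]
        have h3 : φ ([x, y].map (fun v => h • v)) = c (h • x) + c (h • y) := by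
          simp only [φ, List.map_cons, List.map_nil, List.sum_cons, List.sum_nil, add_zero]
        rw [h3]
        calc indS g h * ((c (h • x) + c (h • y)) * η₀ ([x, y].map (fun v => h • v)))
            = (c (h • x) + c (h • y)) * (indS g h * η₀ ([x, y].map (fun v => h • v))) := by ring
          _ = (c (h • x) + c (h • y)) * (indS g h * η₀ [x, y]) := by rw [h2]
          _ = (indS g h * c (h • x)) * η₀ [x, y] + (indS g h * c (h • y)) * η₀ [x, y] := by ring
          _ = _ := by
            rw [key x h, key y h, ite_mul, ite_mul, zero_mul]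
      show η₀ [x, y] = ∑ᶠ h : K, indS g h *
        (φ ([x, y].map (fun v => h • v)) * η₀ ([x, y].map (fun v => h • v)))
      rw [finsum_congr h1]
      have hsing : ∀ (t : K) (r : ℝ), ∑ᶠ h : K, (if h = t then r else 0) = r := by
        intro t r
        rw [finsum_eq_single _ t (fun h hh => if_neg hh), if_pos rfl]
      have hsup : ∀ (t : K) (r : ℝ), (Function.support (fun h : K => if h = t then r else 0)).Finite := by
        intro t r
        refine (Set.finite_singleton t).subset ?_
        intro h hh
        by_contra hcon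
        apply hh
        exact if_neg hcon
      rw [finsum_add_distrib (hsup _ _) (hsup _ _), hsing, hsing]
      ring
    · have h1 : ∀ l' : List V, l'.length = l.length → η₀ l' = 0 := by
        intro l' hl'
        by_contra hcon
        exact hlen (hl' ▸ hη.len l' hcon)
      show η₀ l = ∑ᶠ h : K, indS g h *
        (φ (l.map (fun v => h • v)) * η₀ (l.map (fun v => h • v)))
      rw [h1 l rfl]
      symm
      have : ∀ h : K, indS g h * (φ (l.map (fun v => h • v)) * η₀ (l.map (fun v => h • v))) = 0 := by
        intro h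
        rw [h1 _ (List.length_map _), mul_zero, mul_zero]
      rw [finsum_congr this, finsum_zero]

/-- splitting off the first term -/
theorem CK_nat (f : ℕ → ℝ) (hf : (Function.support f).Finite) :
    ∑ᶠ n : ℕ, f n = f 0 + ∑ᶠ n : ℕ, f (n + 1) := by
  obtain ⟨N, hN⟩ := hf.bddAbove
  have h1 : Function.support f ⊆ (Finset.range (N + 2) : Set ℕ) := by
    intro n hn
    have := hN hn
    simp only [Finset.coe_range, Set.mem_Iio]
    omega
  have h2 : Function.support (fun n => f (n + 1)) ⊆ (Finset.range (N + 1) : Set ℕ) := by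
    intro n hn
    have : n + 1 ≤ N := hN hn
    simp only [Finset.coe_range, Set.mem_Iio]
    omega
  rw [finsum_eq_sum_of_support_subset _ h1, finsum_eq_sum_of_support_subset _ h2,
    Finset.sum_range_succ' f (N + 1)]
  ring

/-- Cochains with vanishing sum of translates are differences.

Proof. `b l = ∑ᶠ n : ℕ, a (g ^ (n + 1) l)` (`l.map (fun x => g ^ (n + 1) • x)`). For `l ≠ []` the set of the
integers `n` with `a (g ^ n l) ≠ 0` is finite (`opK_fin`, and `n ↦ g ^ n` is injective, `hg`), for `l = []`
everything is zero (`IsD.len`). `b (g⁻¹ l) = ∑ᶠ n : ℕ, a (g ^ n l) = a l + b l`. `b` is alternating and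
relative of degree `n` (termwise; relative lists are invariant, `hF.smul_sm`, `hF.cusp_smul`). Finite
support: by `h`, `b l = - ∑_{m ≥ 0} a (g ^ (-m) l)`. If `b l ≠ 0` there are `n ≥ 1` with
`l₁ = g ^ n l ∈ supp a` and `m ≥ 0` with `l₂ = g ^ (-m) l ∈ supp a`; `l₁ = g ^ (n + m) l₂`, so `n + m` is
determined by the pair `(l₁, l₂)` (free action, `hg`), and `l = g ^ m l₂` with `0 ≤ m ≤ n + m`: finitely
many possibilities. -/
theorem exists_diff (hF : KFace K Ξ V sm cusp z w e) {g : K} (hg : InfOrd g) {n : ℕ}
    {a : List V → ℝ} (ha : IsD sm cusp ℝ n a) (h : ∀ l : List V, l ≠ [] → opK (indS g) a l = 0) :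
    ∃ b : List V → ℝ, IsD sm cusp ℝ n b ∧
      ∀ l : List V, a l = b (l.map (fun x => g⁻¹ • x)) - b l := by
  classical
  have hinj : Function.Injective (fun m : ℕ => g ^ m) := by
    have key : ∀ i j : ℕ, i < j → g ^ i ≠ g ^ j := by
      intro i j hij heq
      apply hg (j - i) (by omega)
      have : g ^ j = g ^ i * g ^ (j - i) := by rw [← pow_add]; congr 1; omega
      rw [this] at heq
      exact left_eq_mul.1 heq
    intro i j hij
    rcases lt_trichotomy i j with h1 | h1 | h1
    · exact absurd hij (key i j h1)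
    · exact h1
    · exact absurd hij.symm (key j i h1)
  have hinj1 : Function.Injective (fun m : ℕ => g ^ (m + 1)) := by
    intro i j hij
    have := hinj hij
    simpa using this
  -- the translates of a given nonempty list determine the group element
  have hsep : ∀ (l : List V), l ≠ [] → ∀ (x y : K),
      l.map (fun v => x • v) = l.map (fun v => y • v) → x = y := by
    intro l hl x y hxy
    obtain ⟨v, l', rfl⟩ := List.exists_cons_of_ne_nil hl
    simp only [List.map_cons, List.cons.injEq] at hxy
    have h4 : (y⁻¹ * x) • v = v := by rw [mul_smul, hxy.1, inv_smul_smul]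
    have h5 := hF.free _ _ h4
    rw [inv_mul_eq_one] at h5
    exact h5.symm
  have ha0 : a [] = 0 := by
    by_contra hcon
    have := ha.len [] hcon
    simp at this
  let b : List V → ℝ := fun l => ∑ᶠ m : ℕ, a (l.map (fun x => g ^ (m + 1) • x))
  have hbne : ∀ l, b l ≠ 0 → ∃ m : ℕ, a (l.map (fun x => g ^ (m + 1) • x)) ≠ 0 := by
    intro l hl
    by_contra hcon
    push Not at hcon
    apply hl
    show ∑ᶠ m : ℕ, a (l.map (fun x => g ^ (m + 1) • x)) = 0
    rw [finsum_congr hcon, finsum_zero]
  have hblen : ∀ l, b l ≠ 0 → l.length = n + 1 := by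
    intro l hl
    obtain ⟨m, hm⟩ := hbne l hl
    have := ha.len _ hm
    simpa using this
  refine ⟨b, ⟨⟨?_, ?_⟩, hblen, ?_, ?_⟩, ?_⟩
  · intro l₁ x y l₂
    show ∑ᶠ m : ℕ, _ = -∑ᶠ m : ℕ, _
    rw [← finsum_neg_distrib]
    apply finsum_congr
    intro m
    simp only [List.map_append, List.map_cons]
    exact ha.alt.1 _ _ _ _
  · intro l₁ x l₂
    show ∑ᶠ m : ℕ, _ = 0
    have : ∀ m : ℕ, a ((l₁ ++ x :: x :: l₂).map (fun x => g ^ (m + 1) • x)) = 0 := by
      intro m
      simp only [List.map_append, List.map_cons]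
      exact ha.alt.2 _ _ _
    rw [finsum_congr this, finsum_zero]
  · intro l hl
    obtain ⟨m, hm⟩ := hbne l hl
    have := ha.rl _ hm
    exact ⟨(sml_smul hF.smul_sm _ l).1 this.1, fun h1 => this.2 ((inC_smul hF.cusp_smul _ l).2 h1)⟩
  · -- finite support
    have hneg : ∀ l, b l ≠ 0 → ∃ m : ℕ, a (l.map (fun x => (g ^ m)⁻¹ • x)) ≠ 0 := by
      intro l hl
      by_contra hcon
      push Not at hcon
      have hl0 : l ≠ [] := by
        rintro rfl
        have := hblen [] hl
        simp at this
      apply hl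
      rw [← h l hl0]
      show ∑ᶠ m : ℕ, a (l.map (fun x => g ^ (m + 1) • x))
        = ∑ᶠ k : K, indS g k * a (l.map (fun x => k • x))
      have h1 := finsum_mem_range (f := fun k : K => a (l.map (fun x => k • x))) hinj1
      rw [← h1, finsum_mem_def]
      apply finsum_congr
      intro k
      by_cases hk : k ∈ Set.range (fun m : ℕ => g ^ (m + 1))
      · rw [Set.indicator_of_mem hk]
        have : indS g k = 1 := by
          show (if k ∈ Subgroup.zpowers g then (1 : ℝ) else 0) = 1
          obtain ⟨m, rfl⟩ := hk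
          exact if_pos (Subgroup.npow_mem_zpowers g (m + 1))
        rw [this, one_mul]
      · rw [Set.indicator_of_notMem hk]
        by_cases hk2 : k ∈ Subgroup.zpowers g
        · obtain ⟨i, rfl⟩ := Subgroup.mem_zpowers_iff.1 hk2
          have hi : i ≤ 0 := by
            by_contra hcon2
            push Not at hcon2
            apply hk
            refine ⟨(i - 1).toNat, ?_⟩
            show g ^ ((i - 1).toNat + 1) = g ^ i
            rw [← zpow_natCast]
            congr 1
            push_cast
            omega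
          have : g ^ i = (g ^ ((-i).toNat))⁻¹ := by
            rw [← zpow_natCast, ← zpow_neg]
            congr 1
            omega
          rw [this, hcon, mul_zero]
        · have : indS g k = 0 := if_neg hk2
          rw [this, zero_mul]
    have hfin2 : ∀ l₁ ∈ Function.support a, ∀ l₂ ∈ Function.support a,
        {l : List V | ∃ i j : ℕ, l = l₂.map (fun x => g ^ i • x) ∧
          l₁ = l₂.map (fun x => g ^ (j + i) • x)}.Finite := by
      intro l₁ _ l₂ hl₂
      have hl₂0 : l₂ ≠ [] := by
        rintro rfl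
        exact hl₂ ha0
      by_cases hex : ∃ N : ℕ, l₁ = l₂.map (fun x => g ^ N • x)
      · obtain ⟨N, hN⟩ := hex
        refine ((Finset.range (N + 1)).finite_toSet.image
          (fun i => l₂.map (fun x => g ^ i • x))).subset ?_
        rintro l ⟨i, j, rfl, h2⟩
        refine ⟨i, ?_, rfl⟩
        rw [hN] at h2
        have := hinj (hsep l₂ hl₂0 _ _ h2)
        simp only [Finset.coe_range, Set.mem_Iio]
        omega
      · refine Set.Finite.subset Set.finite_empty ?_
        rintro l ⟨i, j, _, h2⟩
        exact hex ⟨_, h2⟩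
    have hfin3 : (⋃ l₁ ∈ Function.support a, ⋃ l₂ ∈ Function.support a,
        {l : List V | ∃ i j : ℕ, l = l₂.map (fun x => g ^ i • x) ∧
          l₁ = l₂.map (fun x => g ^ (j + i) • x)}).Finite :=
      ha.fin.biUnion (fun l₁ h1 => ha.fin.biUnion (fun l₂ h2 => hfin2 l₁ h1 l₂ h2))
    refine hfin3.subset ?_
    intro l hl
    obtain ⟨i, hi⟩ := hneg l hl
    obtain ⟨j, hj⟩ := hbne l hl
    simp only [Set.mem_iUnion]
    refine ⟨_, hj, _, hi, i, j + 1, ?_, ?_⟩
    · rw [map_smul_smul, mul_inv_cancel, map_one_smul]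
    · rw [map_smul_smul]
      congr 1
      funext x
      congr 1
      rw [pow_add g (j + 1) i, mul_assoc, mul_inv_cancel, mul_one]
  · intro l
    by_cases hl : l = []
    · subst hl
      simp only [List.map_nil, sub_self]
      exact ha0
    · have h1 : b (l.map (fun x => g⁻¹ • x)) = ∑ᶠ m : ℕ, a (l.map (fun x => g ^ m • x)) := by
        show ∑ᶠ m : ℕ, a ((l.map (fun x => g⁻¹ • x)).map (fun x => g ^ (m + 1) • x)) = _
        apply finsum_congr
        intro m
        rw [map_smul_smul]
        congr 2
        funext x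
        rw [pow_succ, mul_assoc, mul_inv_cancel, mul_one]
      have h2 : (Function.support (fun m : ℕ => a (l.map (fun x => g ^ m • x)))).Finite := by
        have := opK_fin hF.free ha.fin hl
        exact this.preimage (f := fun m : ℕ => g ^ m) hinj.injOn
      rw [h1, CK_nat _ h2]
      show a l = a (l.map (fun x => g ^ 0 • x)) + b l - b l
      rw [pow_zero, map_one_smul]
      ring

end Kaz
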