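import Pool.Agent.W_04c03c_h58k.CK
import Pool.Agent.W_04c03c_h58k.CC

/-!
# The contradiction
-/

namespace Kaz

open RCan

variable {K Ξ V : Type*} [Group K] [MulAction K Ξ] [MulAction K V] {sm : V → V → Prop}
  {cusp : V → Option Ξ} {z : List V → ℤ} {w : K → ℤ} {e : K → List V → ℤ}

/-- The class of `g` is not exact with finite support modulo the powers of `g`.

Proof. `exists_trans` gives `ε` with `η₀ = opK (indS g) ε`. Let `a = e g - cr ε` (`e g` cast to `ℝ`):
`IsD ℝ 2` (`hF.eD g`, `Int.castAddHom`, `Alt.hom`; `hF.crD`; `IsR.sub`). For `l ≠ []`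
`opK (indS g) a l = opK (indS g) (e g) l - opK (indS g) (cr ε) l = cr η₀ l - cr (opK (indS g) ε) l = 0`
(`opK_sub`, `opK_cr`). `exists_diff` gives `b` with `a l = b (g⁻¹ l) - b l`. Apply `cr`:
`cr a = cr (e g) - cr (cr ε) = w g * z (g⁻¹ l) - z l = z (g⁻¹ l) - z l` (`hF.ec`, `hw`, `cr_cr`) and `cr`
commutes with translations (`cr_tr` in `AlgA`) and casts. So `ζ = z - cr b` satisfies `ζ (g⁻¹ l) = ζ l`,
and `ζ` has finite support (`hF.zD`, `hF.crD`), `ζ l ≠ 0` implies `l ≠ []`. If `ζ l ≠ 0` then the lists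
`g ^ (-n) l`, `n : ℕ`, are pairwise different (free action, `hg`) elements of the support:
contradiction. So `z = cr b` over the reals, contradicting `hF.zn b`. -/
theorem no_eta0 (hF : KFace K Ξ V sm cusp z w e)
    {g : K} (hg : InfOrd g) (hw : w g = 1)
    {η₀ : List V → ℝ} (hη : IsR sm cusp ℝ 1 η₀)
    (hinv : ∀ l : List V, η₀ (l.map (fun x => g • x)) = η₀ l)
    {L₀ : Finset (List V)} (hL : ∀ l : List V, η₀ l ≠ 0 →
        ∃ l₀ ∈ L₀, ∃ n : ℤ, l = l₀.map (fun x => g ^ n • x))
    (hcr : ∀ l : List V, l ≠ [] → cr sm η₀ l = opK (indS g) (fun m => (e g m : ℝ)) l) : False := by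
  classical
  obtain ⟨ε, hε, hηε⟩ := exists_trans hF hη hinv hL
  have hcrε : IsD sm cusp ℝ 2 (cr sm ε) := hF.crD 1 ε hε
  have he : IsD sm cusp ℝ 2 (fun l => Int.castAddHom ℝ (e g l)) := CC_hom _ (hF.eD g)
  have ha : IsD sm cusp ℝ 2 ((fun l => Int.castAddHom ℝ (e g l)) - cr sm ε) := CC_sub he hcrε
  have hnil : ∀ (f : List V → ℝ), IsD sm cusp ℝ 2 f → f [] = 0 := by
    intro f hf
    by_contra hcon
    have := hf.len [] hcon
    simp at this
  have hzero : ∀ l : List V, l ≠ [] →
      opK (indS g) ((fun l => Int.castAddHom ℝ (e g l)) - cr sm ε) l = 0 := by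
    intro l hl
    rw [opK_sub hF.free _ he.fin hcrε.fin (hnil _ he) (hnil _ hcrε), Pi.sub_apply,
      ← opK_cr hF.free hF.smul_sm (indS g) hε, ← hηε, hcr l hl]
    exact sub_self _
  obtain ⟨b, hb, hab⟩ := exists_diff hF hg ha hzero
  -- the difference between `z` and the coboundary of `b`
  have hcrb : IsD sm cusp ℝ 3 (cr sm b) := hF.crD 2 b hb
  have hz : IsD sm cusp ℝ 3 (fun l => Int.castAddHom ℝ (z l)) := CC_hom _ hF.zD
  have hζ : IsD sm cusp ℝ 3 ((fun l => Int.castAddHom ℝ (z l)) - cr sm b) := CC_sub hz hcrb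
  have hab2 : (fun l => Int.castAddHom ℝ (e g l)) - cr sm ε = tr g b - b := by
    funext l
    exact hab l
  have hinv2 : ∀ l : List V, ((fun l => Int.castAddHom ℝ (z l)) - cr sm b) (l.map (fun x => g⁻¹ • x))
      = ((fun l => Int.castAddHom ℝ (z l)) - cr sm b) l := by
    intro l
    have h1 : cr sm ((fun l => Int.castAddHom ℝ (e g l)) - cr sm ε) l
        = cr sm (tr g b - b) l := by rw [hab2]
    rw [cr_sub, cr_sub, cr_cr, cr_tr hF.smul_sm, CC_cr_hom, sub_zero] at h1
    have h2 : (Int.castAddHom ℝ) (cr sm (e g) l) = cr sm b (l.map (fun x => g⁻¹ • x)) - cr sm b l :=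
      h1
    rw [hF.ec, hw, one_mul, map_sub] at h2
    show (Int.castAddHom ℝ) (z (l.map (fun x => g⁻¹ • x))) - cr sm b (l.map (fun x => g⁻¹ • x))
      = (Int.castAddHom ℝ) (z l) - cr sm b l
    linarith
  have hinv3 : ∀ (n : ℕ) (l : List V),
      ((fun l => Int.castAddHom ℝ (z l)) - cr sm b) (l.map (fun x => (g⁻¹) ^ n • x))
      = ((fun l => Int.castAddHom ℝ (z l)) - cr sm b) l := by
    intro n
    induction n with
    | zero => intro l; rw [pow_zero, map_one_smul]
    | succ n ih =>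
      intro l
      rw [pow_succ, ← map_smul_smul g⁻¹ ((g⁻¹) ^ n) l, ih, hinv2]
  have hnot : ∀ l : List V, ((fun l => Int.castAddHom ℝ (z l)) - cr sm b) l = 0 := by
    intro l
    by_contra hl
    have hl0 : l ≠ [] := by
      rintro rfl
      have := hζ.len [] hl
      simp at this
    obtain ⟨v, l', rfl⟩ := List.exists_cons_of_ne_nil hl0
    have hinj : Function.Injective
        (fun n : ℕ => (v :: l').map (fun x => (g⁻¹) ^ n • x)) := by
      have key : ∀ i j : ℕ, i < j → (g⁻¹) ^ i • v ≠ (g⁻¹) ^ j • v := by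
        intro i j hij heq
        have h1 : (((g⁻¹) ^ i)⁻¹ * (g⁻¹) ^ j) • v = v := by
          rw [mul_smul, ← heq, inv_smul_smul]
        have h2 := hF.free _ _ h1
        have h3 : (g⁻¹) ^ j = (g⁻¹) ^ i * (g⁻¹) ^ (j - i) := by
          rw [← pow_add]
          congr 1
          omega
        rw [h3, inv_mul_cancel_left, inv_pow, inv_eq_one] at h2
        exact hg (j - i) (by omega) h2
      intro i j hij
      have h1 : (g⁻¹) ^ i • v = (g⁻¹) ^ j • v := by
        have := congrArg List.head? hij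
        simpa using this
      rcases lt_trichotomy i j with h | h | h
      · exact absurd h1 (key i j h)
      · exact h
      · exact absurd h1.symm (key j i h)
    have h1 : (Set.range (fun n : ℕ => (v :: l').map (fun x => (g⁻¹) ^ n • x))).Infinite :=
      Set.infinite_range_of_injective hinj
    apply h1
    refine hζ.fin.subset ?_
    rintro m ⟨n, rfl⟩
    show ((fun l => Int.castAddHom ℝ (z l)) - cr sm b) ((v :: l').map (fun x => (g⁻¹) ^ n • x)) ≠ 0
    rw [hinv3]
    exact hl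
  apply hF.zn b hb
  funext l
  have h1 : (Int.castAddHom ℝ) (z l) - cr sm b l = 0 := hnot l
  have h2 : ((z l : ℤ) : ℝ) - cr sm b l = 0 := h1
  linarith

end Kaz
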