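import Pool.Agent.W_04c03c_h58k.CD
import Pool.Agent.W_04c03c_h58k.CH
import Pool.Agent.W_04c03c_h58k.CI
import Pool.Agent.W_04c03c_h58k.CM

/-!
# Groups with an interface have tempered affine actions without fixed points
-/

namespace Kaz

open RCan

universe u

/-- The value is an integer. -/
theorem CN_int {K V : Type*} [Group K] [MulAction K V] (g : K) (f : List V → ℤ) (l : List V) :
    ∃ n : ℤ, opK (indS g) (fun m => (f m : ℝ)) l = n := by
  unfold opK
  refine finsum_induction (fun x : ℝ => ∃ n : ℤ, x = n) ⟨0, by simp⟩ ?_ ?_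
  · rintro x y ⟨m, hm⟩ ⟨n, hn⟩
    exact ⟨m + n, by rw [hm, hn]; push_cast; rfl⟩
  · intro h
    unfold indS
    split_ifs
    · exact ⟨f (l.map fun x => h • x), by rw [one_mul]⟩
    · exact ⟨0, by rw [zero_mul, Int.cast_zero]⟩

/-- Groups with an interface have tempered affine isometric actions without fixed points.

Proof. Replace `g` by `g ^ 2`: `InfOrd (g ^ 2)`, `w (g ^ 2) = w g * w g = 1`. `exists_eta` gives `η`, `L`. If
`K ⧸ zpowers g` is finite, `eta_finite` and `no_eta0` for `η₀ = η`. Otherwise it is infinite: for lists `l`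
of length `3` `cr η l = opK (indS g) (e g) l` is an integer (a finite sum of integers times `0` or `1`:
`opK_fin`, `finsum_eq_sum..`), so `exists_circ` gives `f`, `exists_kap` gives `κ` and the invariance of `f`,
`exists_eta0` gives `η₀`, `L₀`, and `no_eta0` gives a contradiction (`cr η₀ = cr η`). -/
theorem not_fixT {K : Type u} {Ξ V : Type*} [Group K] [MulAction K Ξ] [MulAction K V]
    {sm : V → V → Prop} {cusp : V → Option Ξ} {z : List V → ℤ} {w : K → ℤ}
    {e : K → List V → ℤ} (hF : KFace K Ξ V sm cusp z w e) (hfg : Group.FG K) {g : K}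
    (hg : InfOrd g) : ¬ FixT K := by
  intro hK
  have hg2 : InfOrd (g ^ 2) := by
    intro n hn h
    rw [← pow_mul] at h
    exact hg (2 * n) (by omega) h
  have hw2 : w (g ^ 2) = 1 := by
    rw [sq, hF.wm]
    rcases hF.w1 g with h | h
    · rw [h, one_mul]
    · rw [h, neg_one_mul, neg_neg]
  obtain ⟨η, hη, hinv, hcr, hsum, L, hL⟩ := exists_eta hF hK hfg hg2 hw2
  by_cases hfin : Finite (K ⧸ Subgroup.zpowers (g ^ 2))
  · obtain ⟨L₀, hL₀⟩ := eta_finite (g := g ^ 2) hL
    exact no_eta0 hF hg2 hw2 hη hinv hL₀ hcr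
  · have hinf : Infinite (K ⧸ Subgroup.zpowers (g ^ 2)) := not_finite_iff_infinite.1 hfin
    have hint : ∀ l : List V, l.length = 3 → ∃ n : ℤ, cr sm η l = n := by
      intro l hl
      have hl0 : l ≠ [] := by
        rintro rfl
        simp at hl
      rw [hcr l hl0]
      exact CN_int (g ^ 2) (e (g ^ 2)) l
    obtain ⟨f, hf⟩ := exists_circ hF hint
    obtain ⟨κ, hfinv, hkap⟩ := exists_kap hF hK hg2 hinv hsum hf
    obtain ⟨η₀, hη₀, hinv₀, hcr₀, L₀, hL₀⟩ := exists_eta0 hF hη hinv hsum hL hf hfinv hkap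
    exact no_eta0 hF hg2 hw2 hη₀ hinv₀ hL₀ fun l hl => by
      rw [hcr₀]
      exact hcr l hl

end Kaz
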