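import Mathlib

/-!
# The Gaussian kernel is positive semidefinite
-/

namespace Kaz

/-- The powers of the Gram matrix are positive semidefinite. -/
theorem DA_pow {E : Type*} [NormedAddCommGroup E] [InnerProductSpace ℝ E] {κ : Type*} [Finite κ]
    (v : κ → E) (n : ℕ) :
    (Matrix.of fun i j => (inner ℝ (v i) (v j)) ^ n : Matrix κ κ ℝ).PosSemidef := by
  induction n with
  | zero =>
    have h := Matrix.posSemidef_gram ℝ (fun _ : κ => (1 : ℝ))
    have e : (Matrix.of fun i j => (inner ℝ (v i) (v j)) ^ 0 : Matrix κ κ ℝ) =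
        Matrix.gram ℝ (fun _ : κ => (1 : ℝ)) := by
      ext i j
      simp [Matrix.gram_apply]
    rw [e]
    exact h
  | succ n ih =>
    have h := ih.hadamard (Matrix.posSemidef_gram ℝ v)
    have e : (Matrix.of fun i j => (inner ℝ (v i) (v j)) ^ (n + 1) : Matrix κ κ ℝ) =
        Matrix.hadamard (Matrix.of fun i j => (inner ℝ (v i) (v j)) ^ n) (Matrix.gram ℝ v) := by
      ext i j
      simp [Matrix.gram_apply, pow_succ]
    rw [e]
    exact h

/-- The quadratic forms of the powers of the inner products are nonnegative. -/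
theorem DA_form {E : Type*} [NormedAddCommGroup E] [InnerProductSpace ℝ E] {ι : Type*}
    (s : Finset ι) (x : ι → E) (c : ι → ℝ) (n : ℕ) :
    0 ≤ ∑ i ∈ s, ∑ j ∈ s, c i * c j * (inner ℝ (x i) (x j)) ^ n := by
  have h := (DA_pow (fun i : s => x i) n).dotProduct_mulVec_nonneg (fun i : s => c i)
  have e : (star (fun i : s => c i)) ⬝ᵥ (Matrix.of fun i j : s =>
      (inner ℝ (x i) (x j)) ^ n : Matrix s s ℝ).mulVec (fun i : s => c i) =
      ∑ i ∈ s, ∑ j ∈ s, c i * c j * (inner ℝ (x i) (x j)) ^ n := by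
    rw [← Finset.sum_coe_sort s]
    unfold dotProduct Matrix.mulVec dotProduct
    refine Finset.sum_congr rfl fun i _ => ?_
    rw [← Finset.sum_coe_sort s, Finset.mul_sum]
    refine Finset.sum_congr rfl fun j _ => ?_
    simp only [Pi.star_apply, star_trivial, Matrix.of_apply]
    ring
  rw [e] at h
  exact h

/-- The exponential kernel is positive semidefinite. -/
theorem DA_exp {E : Type*} [NormedAddCommGroup E] [InnerProductSpace ℝ E] {t : ℝ} (ht : 0 ≤ t)
    {ι : Type*} (s : Finset ι) (x : ι → E) (c : ι → ℝ) :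
    0 ≤ ∑ i ∈ s, ∑ j ∈ s, c i * c j * Real.exp (2 * t * inner ℝ (x i) (x j)) := by
  have h1 : HasSum (fun n : ℕ => ∑ i ∈ s, ∑ j ∈ s, c i * c j *
      ((2 * t * inner ℝ (x i) (x j)) ^ n / (n.factorial : ℝ)))
      (∑ i ∈ s, ∑ j ∈ s, c i * c j * Real.exp (2 * t * inner ℝ (x i) (x j))) := by
    refine hasSum_sum fun i _ => hasSum_sum fun j _ => ?_
    refine HasSum.mul_left _ ?_
    rw [Real.exp_eq_exp_ℝ]
    exact NormedSpace.expSeries_div_hasSum_exp (2 * t * inner ℝ (x i) (x j))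
  refine h1.nonneg fun n => ?_
  have e : ∑ i ∈ s, ∑ j ∈ s, c i * c j * ((2 * t * inner ℝ (x i) (x j)) ^ n / (n.factorial : ℝ)) =
      (2 * t) ^ n / (n.factorial : ℝ) *
        ∑ i ∈ s, ∑ j ∈ s, c i * c j * (inner ℝ (x i) (x j)) ^ n := by
    rw [Finset.mul_sum]
    refine Finset.sum_congr rfl fun i _ => ?_
    rw [Finset.mul_sum]
    refine Finset.sum_congr rfl fun j _ => ?_
    rw [mul_pow]
    ring
  rw [e]
  exact mul_nonneg (by positivity) (DA_form s x c n)

/-- The Gaussian kernel is positive semidefinite (Schoenberg).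

Proof. Call a kernel `A : ι → ι → ℝ` psd on `s` if `∑ i ∈ s, ∑ j ∈ s, c i * c j * A i j ≥ 0` for all `c`. (1) If
`A` is psd and `B i j = ⟪x i, x j⟫` then the product `A i j * B i j` is psd: the vectors `x i`, `i ∈ s`, lie in
the finite-dimensional subspace `F` they span; with an orthonormal basis `e_k` of `F`
(`stdOrthonormalBasis ℝ F`), `⟪x i, x j⟫ = ∑ k, ⟪x i, e_k⟫ * ⟪x j, e_k⟫` (`OrthonormalBasis.sum_inner_mul_inner`),
so the form is `∑ k, ∑ i j, (c i ⟪x i, e_k⟫) (c j ⟪x j, e_k⟫) A i j ≥ 0`. (Alternatively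
`Matrix.PosSemidef.hadamard` if Mathlib has it.) (2) So `⟪x i, x j⟫ ^ n` is psd for all `n` (induction; `n = 0`:
`(∑ c i) ^ 2 ≥ 0`), and `exp (2 t ⟪x i, x j⟫) = ∑' n, (2 t) ^ n / n! * ⟪x i, x j⟫ ^ n` is psd (the form is the
`HasSum` of nonnegative terms, or a limit of partial sums). (3) `‖x i - x j‖ ^ 2 = ‖x i‖ ^ 2 - 2 ⟪x i, x j⟫ +
‖x j‖ ^ 2`, so the kernel is `exp (-t ‖x i‖ ^ 2) * exp (-t ‖x j‖ ^ 2) * exp (2 t ⟪x i, x j⟫)`; absorb the first
two factors in `c`. -/
theorem gauss_psd {E : Type*} [NormedAddCommGroup E] [InnerProductSpace ℝ E] {t : ℝ} (ht : 0 ≤ t)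
    {ι : Type*} (s : Finset ι) (x : ι → E) (c : ι → ℝ) :
    0 ≤ ∑ i ∈ s, ∑ j ∈ s, c i * c j * Real.exp (-t * ‖x i - x j‖ ^ 2) := by
  have h := DA_exp ht s x (fun i => c i * Real.exp (-t * ‖x i‖ ^ 2))
  refine h.trans_eq ?_
  refine Finset.sum_congr rfl fun i _ => Finset.sum_congr rfl fun j _ => ?_
  have e : -t * ‖x i - x j‖ ^ 2 = -t * ‖x i‖ ^ 2 + -t * ‖x j‖ ^ 2 +
      2 * t * inner ℝ (x i) (x j) := by
    rw [norm_sub_sq_real]
    ring
  rw [e, Real.exp_add, Real.exp_add]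
  ring

end Kaz
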