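import Pool.Agent.W_04c03c_h58k.AA

/-!
# The unitary representation of a function of positive type
-/

namespace Kaz

universe u

/-- The form. -/
noncomputable def DB_in {K : Type u} [Group K] (φ : K → ℝ) (f f' : K →₀ ℂ) : ℂ :=
  f.sum fun g a => f'.sum fun h b => (starRingEnd ℂ) a * b * (φ (g⁻¹ * h) : ℂ)

theorem DB_single {K : Type u} [Group K] (φ : K → ℝ) (g h : K) (a b : ℂ) :
    DB_in φ (Finsupp.single g a) (Finsupp.single h b) =
      (starRingEnd ℂ) a * b * (φ (g⁻¹ * h) : ℂ) := by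
  unfold DB_in
  rw [Finsupp.sum_single_index, Finsupp.sum_single_index]
  · simp
  · rw [Finsupp.sum_single_index] <;> simp

theorem DB_map {K : Type u} [Group K] (φ : K → ℝ) (k : K) (f f' : K →₀ ℂ) :
    DB_in φ (Finsupp.mapDomain (k * ·) f) (Finsupp.mapDomain (k * ·) f') = DB_in φ f f' := by
  unfold DB_in
  rw [Finsupp.sum_mapDomain_index]
  · refine Finset.sum_congr rfl fun g _ => ?_
    show (Finsupp.mapDomain (k * ·) f').sum (fun h b =>
      (starRingEnd ℂ) (f g) * b * (φ ((k * g)⁻¹ * h) : ℂ)) = _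
    rw [Finsupp.sum_mapDomain_index]
    · refine Finset.sum_congr rfl fun h _ => ?_
      show (starRingEnd ℂ) (f g) * f' h * (φ ((k * g)⁻¹ * (k * h)) : ℂ) =
        (starRingEnd ℂ) (f g) * f' h * (φ (g⁻¹ * h) : ℂ)
      have h1 : (k * g)⁻¹ * (k * h) = g⁻¹ * h := by group
      rw [h1]
    · intro h
      simp
    · intro h b b'
      ring
  · intro g
    simp [Finsupp.sum]
  · intro g a a'
    rw [← Finsupp.sum_add]
    refine Finset.sum_congr rfl fun h _ => ?_
    rw [map_add]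
    ring

theorem DB_add {K : Type u} [Group K] (φ : K → ℝ) (f₁ f₂ f' : K →₀ ℂ) :
    DB_in φ (f₁ + f₂) f' = DB_in φ f₁ f' + DB_in φ f₂ f' := by
  unfold DB_in
  rw [Finsupp.sum_add_index']
  · intro g
    simp [Finsupp.sum]
  · intro g a a'
    rw [← Finsupp.sum_add]
    refine Finset.sum_congr rfl fun h _ => ?_
    rw [map_add]
    ring

theorem DB_smul {K : Type u} [Group K] (φ : K → ℝ) (f f' : K →₀ ℂ) (r : ℂ) :
    DB_in φ (r • f) f' = (starRingEnd ℂ) r * DB_in φ f f' := by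
  unfold DB_in
  rw [Finsupp.sum_smul_index, Finsupp.mul_sum]
  · refine Finset.sum_congr rfl fun g _ => ?_
    show (f'.sum fun h b => (starRingEnd ℂ) (r * f g) * b * (φ (g⁻¹ * h) : ℂ)) =
      (starRingEnd ℂ) r * f'.sum fun h b => (starRingEnd ℂ) (f g) * b * (φ (g⁻¹ * h) : ℂ)
    rw [Finsupp.mul_sum]
    refine Finset.sum_congr rfl fun h _ => ?_
    rw [map_mul]
    ring
  · intro g
    simp [Finsupp.sum]

theorem DB_conj {K : Type u} [Group K] (φ : K → ℝ) (hs : ∀ g, φ g⁻¹ = φ g) (f f' : K →₀ ℂ) :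
    (starRingEnd ℂ) (DB_in φ f' f) = DB_in φ f f' := by
  unfold DB_in
  unfold Finsupp.sum
  simp only [map_sum]
  rw [Finset.sum_comm]
  refine Finset.sum_congr rfl fun g _ => Finset.sum_congr rfl fun h _ => ?_
  rw [map_mul, map_mul, Complex.conj_conj, Complex.conj_ofReal]
  have h1 : φ (h⁻¹ * g) = φ (g⁻¹ * h) := by
    rw [← hs (h⁻¹ * g), mul_inv_rev, inv_inv]
  rw [h1]
  ring

theorem DB_nonneg {K : Type u} [Group K] (φ : K → ℝ)
    (hp : ∀ (s : Finset K) (c : K → ℝ), 0 ≤ ∑ g ∈ s, ∑ h ∈ s, c g * c h * φ (g⁻¹ * h))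
    (f : K →₀ ℂ) : 0 ≤ (DB_in φ f f).re := by
  have h1 : (DB_in φ f f).re =
      (∑ g ∈ f.support, ∑ h ∈ f.support, (f g).re * (f h).re * φ (g⁻¹ * h)) +
      ∑ g ∈ f.support, ∑ h ∈ f.support, (f g).im * (f h).im * φ (g⁻¹ * h) := by
    unfold DB_in Finsupp.sum
    rw [Complex.re_sum, ← Finset.sum_add_distrib]
    refine Finset.sum_congr rfl fun g _ => ?_
    rw [Complex.re_sum, ← Finset.sum_add_distrib]
    refine Finset.sum_congr rfl fun h _ => ?_
    rw [Complex.re_mul_ofReal, Complex.mul_re, Complex.conj_re, Complex.conj_im]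
    ring
  rw [h1]
  exact add_nonneg (hp f.support fun g => (f g).re) (hp f.support fun g => (f g).im)

/-- The unitary representation of a (real) function of positive type (GNS construction).

Proof. `W = K →₀ ℂ` with the form `c.inner f f' = ∑ g h, conj (f g) * f' h * φ (g⁻¹ * h)` (`Finsupp.sum`), a
`PreInnerProductSpace.Core ℂ W`: symmetric since `φ (h⁻¹ g) = φ ((g⁻¹ h)⁻¹) = φ (g⁻¹ h)` is real;
`re (c.inner f f) = ∑ g h, (re f g * re f h + im f g * im f h) * φ (g⁻¹ h) ≥ 0` by `hp` twice. `K` acts by left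
translation: `ρ k = Finsupp.lmapDomain ℂ ℂ (k * ·)`, which preserves the form as
`(k g)⁻¹ (k h) = g⁻¹ h`. `exists_hilb` gives `E, π, ι`; `ξ = ι (single 1 1)`, `π g ξ = ι (single g 1)`,
`⟪ξ, π g ξ⟫ = c.inner (single 1 1) (single g 1) = φ g`. -/
theorem exists_gns {K : Type u} [Group K] (φ : K → ℝ) (hs : ∀ g, φ g⁻¹ = φ g)
    (hp : ∀ (s : Finset K) (c : K → ℝ), 0 ≤ ∑ g ∈ s, ∑ h ∈ s, c g * c h * φ (g⁻¹ * h)) :
    ∃ (E : Type u) (_ : NormedAddCommGroup E) (_ : InnerProductSpace ℂ E) (_ : CompleteSpace E)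
      (π : K →* (E ≃ₗᵢ[ℂ] E)) (ξ : E), ∀ g, inner ℂ ξ (π g ξ) = (φ g : ℂ) := by
  obtain ⟨c, hc⟩ : ∃ c : PreInnerProductSpace.Core ℂ (K →₀ ℂ),
      ∀ f f', c.inner f f' = DB_in φ f f' :=
    ⟨{ inner := DB_in φ
       conj_inner_symm := fun f f' => DB_conj φ hs f f'
       re_inner_nonneg := fun f => DB_nonneg φ hp f
       add_left := fun f₁ f₂ f' => DB_add φ f₁ f₂ f'
       smul_left := fun f f' r => DB_smul φ f f' r }, fun f f' => rfl⟩
  obtain ⟨ρ, hρ⟩ : ∃ ρ : K →* ((K →₀ ℂ) →ₗ[ℂ] (K →₀ ℂ)),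
      ∀ k f, ρ k f = Finsupp.mapDomain (k * ·) f := by
    refine ⟨{ toFun := fun k => Finsupp.lmapDomain ℂ ℂ (k * ·)
              map_one' := ?_
              map_mul' := ?_ }, fun k f => rfl⟩
    · refine LinearMap.ext fun f => ?_
      show Finsupp.mapDomain (1 * ·) f = f
      simp only [one_mul]
      exact Finsupp.mapDomain_id
    · intro k l
      refine LinearMap.ext fun f => ?_
      show Finsupp.mapDomain (k * l * ·) f =
        Finsupp.mapDomain (k * ·) (Finsupp.mapDomain (l * ·) f)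
      rw [← Finsupp.mapDomain_comp]
      congr 1
      funext x
      exact mul_assoc _ _ _
  obtain ⟨E, i1, i2, i3, π, ι, _, h1, h2⟩ := exists_hilb c ρ (fun k x y => by
    rw [hc, hc, hρ, hρ, DB_map])
  refine ⟨E, i1, i2, i3, π, ι (Finsupp.single 1 1), fun g => ?_⟩
  rw [h2, h1, hc, hρ, Finsupp.mapDomain_single, DB_single]
  simp

end Kaz
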