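import Mathlib

/-!
# Bounded cocycles are coboundaries
-/

namespace Kaz

/-- A function of the form of the circumradius with the parallelogram inequality has a unique
minimizer. -/
theorem DD_min {E : Type*} [NormedAddCommGroup E] [InnerProductSpace ℝ E] [CompleteSpace E]
    (R : E → ℝ) (hR0 : ∀ v, 0 ≤ R v) (hRc : Continuous R)
    (hpar : ∀ v w, R ((1/2 : ℝ) • (v + w)) ^ 2 ≤ R v ^ 2 / 2 + R w ^ 2 / 2 - ‖v - w‖ ^ 2 / 4) :
    ∃ v₀, (∀ v, R v₀ ≤ R v) ∧ ∀ v, R v ≤ R v₀ → v = v₀ := by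
  set r : ℝ := ⨅ v, R v with hr
  have hbdd : BddBelow (Set.range R) := ⟨0, by rintro _ ⟨v, rfl⟩; exact hR0 v⟩
  have hrle : ∀ v, r ≤ R v := fun v => ciInf_le hbdd v
  have hr0 : 0 ≤ r := le_ciInf hR0
  have key : ∀ v w, ‖v - w‖ ^ 2 ≤ 2 * (R v ^ 2 - r ^ 2) + 2 * (R w ^ 2 - r ^ 2) := by
    intro v w
    have h1 := hpar v w
    have h2 : r ^ 2 ≤ R ((1/2 : ℝ) • (v + w)) ^ 2 := by
      have := hrle ((1/2 : ℝ) • (v + w))
      gcongr
    linarith
  have hex : ∀ n : ℕ, ∃ v, R v < r + 1 / ((n : ℝ) + 1) := by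
    intro n
    have : r < r + 1 / ((n : ℝ) + 1) := by
      have : (0 : ℝ) < 1 / ((n : ℝ) + 1) := by positivity
      linarith
    exact exists_lt_of_ciInf_lt this
  choose u hu using hex
  have hest : ∀ n : ℕ, R (u n) ^ 2 - r ^ 2 ≤ (2 * r + 1) * (1 / ((n : ℝ) + 1)) := by
    intro n
    have h1 := hu n
    have h2 := hrle (u n)
    have hn : (0 : ℝ) < 1 / ((n : ℝ) + 1) := by positivity
    have hn1 : 1 / ((n : ℝ) + 1) ≤ 1 := by
      rw [div_le_one (by positivity)]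
      have : (0 : ℝ) ≤ n := n.cast_nonneg
      linarith
    nlinarith
  have htend : Filter.Tendsto (fun n : ℕ => 1 / ((n : ℝ) + 1)) Filter.atTop (nhds 0) :=
    tendsto_one_div_add_atTop_nhds_zero_nat
  have hcau : CauchySeq u := by
    apply cauchySeq_of_le_tendsto_0 (fun n : ℕ => Real.sqrt (4 * ((2 * r + 1) * (1 / ((n : ℝ) + 1)))))
    · intro n m N hn hm
      rw [dist_eq_norm]
      apply Real.le_sqrt_of_sq_le
      have h1 := key (u n) (u m)
      have hN : (0 : ℝ) < (N : ℝ) + 1 := by positivity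
      have e1 : R (u n) ^ 2 - r ^ 2 ≤ (2 * r + 1) * (1 / ((N : ℝ) + 1)) := by
        refine (hest n).trans ?_
        have : (N : ℝ) ≤ n := by exact_mod_cast hn
        gcongr
      have e2 : R (u m) ^ 2 - r ^ 2 ≤ (2 * r + 1) * (1 / ((N : ℝ) + 1)) := by
        refine (hest m).trans ?_
        have : (N : ℝ) ≤ m := by exact_mod_cast hm
        gcongr
      linarith
    · have : Filter.Tendsto (fun n : ℕ => Real.sqrt (4 * ((2 * r + 1) * (1 / ((n : ℝ) + 1)))))
          Filter.atTop (nhds (Real.sqrt (4 * ((2 * r + 1) * 0)))) :=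
        (Real.continuous_sqrt.tendsto _).comp ((htend.const_mul (2 * r + 1)).const_mul 4)
      simpa using this
  obtain ⟨v₀, hv₀⟩ := cauchySeq_tendsto_of_complete hcau
  have hRv0 : R v₀ = r := by
    apply le_antisymm _ (hrle v₀)
    have h1 : Filter.Tendsto (fun n => R (u n)) Filter.atTop (nhds (R v₀)) :=
      (hRc.tendsto v₀).comp hv₀
    have h2 : Filter.Tendsto (fun n : ℕ => r + 1 / ((n : ℝ) + 1)) Filter.atTop (nhds (r + 0)) :=
      htend.const_add r
    rw [add_zero] at h2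
    exact le_of_tendsto_of_tendsto' h1 h2 (fun n => (hu n).le)
  refine ⟨v₀, fun v => by rw [hRv0]; exact hrle v, fun v hv => ?_⟩
  have hRv : R v = r := le_antisymm (by rw [← hRv0]; exact hv) (hrle v)
  have := key v v₀
  rw [hRv, hRv0] at this
  have h3 : ‖v - v₀‖ = 0 := by
    have h4 := norm_nonneg (v - v₀)
    nlinarith
  rwa [norm_eq_zero, sub_eq_zero] at h3

/-- Bounded cocycles are coboundaries (the circumcentre of a bounded orbit).

Proof. `R v = ⨆ g, ‖v - b g‖` (bounded by `‖v‖ + C`). `R` is `1`-Lipschitz, and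
`R (π h v + b h) = ⨆ g, ‖π h v + b h - b (h * g)‖ = ⨆ g, ‖π h v - π h (b g)‖ = R v` (reindex `g ↦ h * g`,
`hb`). Let `r = ⨅ v, R v`. By the parallelogram law, for `v, v'` and `m = (v + v') / 2`:
`‖m - b g‖ ^ 2 = ‖v - b g‖ ^ 2 / 2 + ‖v' - b g‖ ^ 2 / 2 - ‖v - v'‖ ^ 2 / 4`, so
`r ^ 2 ≤ (R m) ^ 2 ≤ (R v) ^ 2 / 2 + (R v') ^ 2 / 2 - ‖v - v'‖ ^ 2 / 4`. Hence a minimizing sequence is Cauchy
and its limit `v₀` has `R v₀ = r`, and `v₀` is the only such point. `π h v₀ + b h` is such a point, so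
it is equal to `v₀`. -/
theorem fix_of_bdd {K : Type*} [Group K] {E : Type*} [NormedAddCommGroup E]
    [InnerProductSpace ℝ E] [CompleteSpace E] (π : K →* (E ≃ₗᵢ[ℝ] E)) (b : K → E)
    (hb : ∀ g h, b (g * h) = b g + π g (b h)) {C : ℝ} (h : ∀ g, ‖b g‖ ≤ C) :
    ∃ v, ∀ g, π g v + b g = v := by
  set R : E → ℝ := fun v => ⨆ g, ‖v - b g‖ with hRdef
  have hbd : ∀ v, BddAbove (Set.range fun g => ‖v - b g‖) := by
    intro v
    refine ⟨‖v‖ + C, ?_⟩
    rintro _ ⟨g, rfl⟩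
    exact (norm_sub_le _ _).trans (by linarith [h g])
  have hle : ∀ v g, ‖v - b g‖ ≤ R v := fun v g => le_ciSup (hbd v) g
  have hR0 : ∀ v, 0 ≤ R v := fun v => (norm_nonneg _).trans (hle v 1)
  have hlip : ∀ v w, R v ≤ R w + ‖v - w‖ := by
    intro v w
    apply ciSup_le
    intro g
    have h1 : ‖v - b g‖ ≤ ‖w - b g‖ + ‖v - w‖ := by
      have : v - b g = (w - b g) + (v - w) := by abel
      rw [this]
      exact norm_add_le _ _
    linarith [hle w g]
  have hRc : Continuous R := by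
    have : LipschitzWith 1 R := by
      apply LipschitzWith.of_dist_le_mul
      intro v w
      rw [Real.dist_eq, dist_eq_norm]
      simp only [NNReal.coe_one, one_mul]
      rw [abs_le]
      constructor
      · have := hlip w v
        rw [norm_sub_rev] at this
        linarith
      · have := hlip v w
        linarith
    exact this.continuous
  have hpar : ∀ v w, R ((1/2 : ℝ) • (v + w)) ^ 2 ≤ R v ^ 2 / 2 + R w ^ 2 / 2 - ‖v - w‖ ^ 2 / 4 := by
    intro v w
    have hg : ∀ g, ‖(1/2 : ℝ) • (v + w) - b g‖ ^ 2 ≤ R v ^ 2 / 2 + R w ^ 2 / 2 - ‖v - w‖ ^ 2 / 4 := by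
      intro g
      have e := parallelogram_law_with_norm ℝ (v - b g) (w - b g)
      have e1 : (v - b g) + (w - b g) = (2 : ℝ) • ((1/2 : ℝ) • (v + w) - b g) := by
        rw [smul_sub, smul_smul, two_smul ℝ (b g)]
        norm_num
        abel
      have e2 : (v - b g) - (w - b g) = v - w := by abel
      rw [e1, e2, norm_smul] at e
      have h2 : ‖(2 : ℝ)‖ = 2 := by norm_num
      rw [h2] at e
      have l1 := hle v g
      have l2 := hle w g
      have n1 := norm_nonneg (v - b g)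
      have n2 := norm_nonneg (w - b g)
      nlinarith
    have hS : 0 ≤ R v ^ 2 / 2 + R w ^ 2 / 2 - ‖v - w‖ ^ 2 / 4 := (sq_nonneg _).trans (hg 1)
    have h3 : R ((1/2 : ℝ) • (v + w)) ≤
        Real.sqrt (R v ^ 2 / 2 + R w ^ 2 / 2 - ‖v - w‖ ^ 2 / 4) := by
      apply ciSup_le
      intro g
      exact Real.le_sqrt_of_sq_le (hg g)
    calc R ((1/2 : ℝ) • (v + w)) ^ 2
        ≤ (Real.sqrt (R v ^ 2 / 2 + R w ^ 2 / 2 - ‖v - w‖ ^ 2 / 4)) ^ 2 := by
          have := hR0 ((1/2 : ℝ) • (v + w))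
          gcongr
      _ = _ := Real.sq_sqrt hS
  obtain ⟨v₀, -, huniq⟩ := DD_min R hR0 hRc hpar
  refine ⟨v₀, fun k => huniq _ ?_⟩
  apply ciSup_le
  intro g
  have e : π k v₀ + b k - b g = π k (v₀ - b (k⁻¹ * g)) := by
    have h1 := hb k (k⁻¹ * g)
    rw [mul_inv_cancel_left] at h1
    rw [h1, map_sub]
    abel
  rw [e, LinearIsometryEquiv.norm_map]
  exact hle v₀ _

end Kaz
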