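import Pool.Agent.W_04c03c_h58k.DA
import Pool.Agent.W_04c03c_h58k.DB
import Pool.Agent.W_04c03c_h58k.DD

/-!
# Delorme's theorem: property (T) implies the fixed point property
-/

namespace Kaz

universe u

/-- The invariant vectors. -/
def DC_inv {K : Type u} [Group K] {E : Type u} [NormedAddCommGroup E] [InnerProductSpace ℂ E]
    (π : K →* (E ≃ₗᵢ[ℂ] E)) : Submodule ℂ E where
  carrier := {v | ∀ g, π g v = v}
  add_mem' {v w} hv hw g := by rw [map_add, hv g, hw g]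
  zero_mem' g := map_zero _
  smul_mem' c v hv g := by rw [map_smul, hv g]

theorem DC_mem {K : Type u} [Group K] {E : Type u} [NormedAddCommGroup E]
    [InnerProductSpace ℂ E] (π : K →* (E ≃ₗᵢ[ℂ] E)) (v : E) :
    v ∈ DC_inv π ↔ ∀ g, π g v = v := Iff.rfl

theorem DC_closed {K : Type u} [Group K] {E : Type u} [NormedAddCommGroup E]
    [InnerProductSpace ℂ E] (π : K →* (E ≃ₗᵢ[ℂ] E)) : IsClosed (DC_inv π : Set E) := by
  have h1 : (DC_inv π : Set E) = ⋂ g, {v | π g v = v} := by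
    ext v
    simp [DC_mem]
  rw [h1]
  exact isClosed_iInter fun g => isClosed_eq (π g).continuous continuous_id

theorem DC_orth {K : Type u} [Group K] {E : Type u} [NormedAddCommGroup E]
    [InnerProductSpace ℂ E] (π : K →* (E ≃ₗᵢ[ℂ] E)) (g : K) {v : E} (hv : v ∈ (DC_inv π)ᗮ) :
    π g v ∈ (DC_inv π)ᗮ := by
  rw [Submodule.mem_orthogonal] at hv ⊢
  intro m hm
  have h1 := hv m hm
  rw [← (π g).inner_map_map, (DC_mem π m).1 hm g] at h1
  exact h1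

/-- The restriction. -/
noncomputable def DC_res {K : Type u} [Group K] {E : Type u} [NormedAddCommGroup E]
    [InnerProductSpace ℂ E] (π : K →* (E ≃ₗᵢ[ℂ] E)) :
    K →* ((DC_inv π)ᗮ ≃ₗᵢ[ℂ] (DC_inv π)ᗮ) where
  toFun g :=
    { toFun := fun v => ⟨π g v, DC_orth π g v.2⟩
      map_add' := fun v w => Subtype.ext (map_add (π g) _ _)
      map_smul' := fun c v => Subtype.ext (map_smul (π g) c (v : E))
      invFun := fun v => ⟨π g⁻¹ v, DC_orth π g⁻¹ v.2⟩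
      left_inv := fun v => Subtype.ext (by
        show π g⁻¹ (π g v) = v
        have h1 : (π g⁻¹ * π g) (v : E) = v := by
          rw [← map_mul, inv_mul_cancel, map_one]
          rfl
        exact h1)
      right_inv := fun v => Subtype.ext (by
        show π g (π g⁻¹ v) = v
        have h1 : (π g * π g⁻¹) (v : E) = v := by
          rw [← map_mul, mul_inv_cancel, map_one]
          rfl
        exact h1)
      norm_map' := fun v => (π g).norm_map v }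
  map_one' := by
    ext1 v
    apply Subtype.ext
    show π 1 (v : E) = v
    rw [map_one]
    rfl
  map_mul' g h := by
    ext1 v
    apply Subtype.ext
    show π (g * h) (v : E) = π g (π h v)
    rw [map_mul]
    rfl

theorem DC_res_apply {K : Type u} [Group K] {E : Type u} [NormedAddCommGroup E]
    [InnerProductSpace ℂ E] (π : K →* (E ≃ₗᵢ[ℂ] E)) (g : K) (v : (DC_inv π)ᗮ) :
    ((DC_res π g v : (DC_inv π)ᗮ) : E) = π g v := rfl

/-- Vectors with small displacement on the Kazhdan set have uniformly small displacement.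

Proof. Let `Q, ε` be as in `HasT`. Let `M = {v | ∀ g, π g v = v}`, a closed subspace, `P` the orthogonal
projection and `ξ' = ξ - P ξ ∈ Mᗮ`. `Mᗮ` is invariant under all `π g`, and a complete space; the
restriction of `π` to `Mᗮ` has no nonzero invariant vector (it would lie in `M ∩ Mᗮ`). So by `HasT` for the
representation on `Mᗮ` (a subtype; if `ξ' ≠ 0`) there is `q ∈ Q` with `‖π q ξ' - ξ'‖ ≥ ε ‖ξ'‖`. Since
`π q ξ - ξ = π q ξ' - ξ'`, `ε ‖ξ'‖ ≤ τ`. So `‖π g ξ - ξ‖ = ‖π g ξ' - ξ'‖ ≤ 2 ‖ξ'‖ ≤ 2 τ / ε`. -/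
theorem hasT_unif {K : Type u} [Group K] (hK : HasT K) : ∃ (Q : Finset K) (ε : ℝ), 0 < ε ∧
    ∀ (E : Type u) [NormedAddCommGroup E] [InnerProductSpace ℂ E] [CompleteSpace E]
      (π : K →* (E ≃ₗᵢ[ℂ] E)) (ξ : E) (τ : ℝ), 0 ≤ τ → (∀ q ∈ Q, ‖π q ξ - ξ‖ ≤ τ) →
      ∀ g, ‖π g ξ - ξ‖ ≤ 2 * τ / ε := by
  obtain ⟨Q, ε, hε, hQ⟩ := hK
  refine ⟨Q, ε, hε, ?_⟩
  intro E _ _ _ π ξ τ hτ hξ g
  have hcomp : CompleteSpace (DC_inv π) := (DC_closed π).completeSpace_coe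
  obtain ⟨y, hy, z, hz, hyz⟩ := (DC_inv π).exists_add_mem_mem_orthogonal ξ
  have hdis : ∀ g, π g ξ - ξ = π g z - z := by
    intro g
    rw [hyz, map_add, (DC_mem π y).1 hy g]
    abel
  have hzτ : ε * ‖z‖ ≤ τ := by
    by_cases hz0 : z = 0
    · rw [hz0, norm_zero, mul_zero]
      exact hτ
    by_contra hcon
    push Not at hcon
    obtain ⟨v, hv0, hv⟩ := hQ ((DC_inv π)ᗮ : Submodule ℂ E) (DC_res π)
      ⟨⟨z, hz⟩, fun h => hz0 (congrArg Subtype.val h), fun q hq => by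
        have h1 : ‖DC_res π q ⟨z, hz⟩ - (⟨z, hz⟩ : (DC_inv π)ᗮ)‖ = ‖π q z - z‖ := rfl
        rw [h1, ← hdis q]
        exact lt_of_le_of_lt (hξ q hq) hcon⟩
    apply hv0
    have h2 : (v : E) ∈ DC_inv π := fun g => congrArg Subtype.val (hv g)
    have h3 : (v : E) = 0 := by
      have h4 := (Submodule.mem_orthogonal _ _).1 v.2 v h2
      exact inner_self_eq_zero.1 h4
    exact Subtype.ext h3
  have hz1 : ‖z‖ ≤ τ / ε := by
    rw [le_div_iff₀ hε, mul_comm]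
    exact hzτ
  rw [hdis g]
  have h5 := norm_sub_le (π g z) z
  rw [(π g).norm_map] at h5
  have h6 : 2 * τ / ε = 2 * (τ / ε) := by ring
  rw [h6]
  linarith

/-- Delorme's theorem.

Proof. `b 1 = 0`, `b g⁻¹ = - π g⁻¹ (b g)`, so `‖b (g⁻¹ * h)‖ = ‖b h - b g‖` and `‖b g⁻¹‖ = ‖b g‖`. For `t > 0` let
`φ g = exp (-t ‖b g‖ ^ 2)`: `φ (g⁻¹ * h) = exp (-t ‖b g - b h‖ ^ 2)` is psd (`gauss_psd`), `φ 1 = 1`. `exists_gns`
gives `E', π', ξ` with `⟪ξ, π' g ξ⟫ = φ g`, so `‖ξ‖ = 1` and `‖π' g ξ - ξ‖ ^ 2 = 2 - 2 φ g`. Let `Q, ε` be as in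
`hasT_unif` and choose `t > 0` so small that `2 - 2 exp (-t ‖b q‖ ^ 2) ≤ (ε / 2) ^ 2` for all `q ∈ Q`
(`1 - exp (-x) ≤ x`: take `t = (ε / 2) ^ 2 / (2 (1 + ∑ q ∈ Q, ‖b q‖ ^ 2))`). With `τ = ε / 2`:
`2 - 2 φ g = ‖π' g ξ - ξ‖ ^ 2 ≤ 1` for all `g`, so `exp (-t ‖b g‖ ^ 2) ≥ 1 / 2` and
`‖b g‖ ^ 2 ≤ log 2 / t`: `b` is bounded; `fix_of_bdd`. -/
theorem fix_of_hasT {K : Type u} [Group K] (hK : HasT K) {E : Type*} [NormedAddCommGroup E]
    [InnerProductSpace ℝ E] [CompleteSpace E] (π : K →* (E ≃ₗᵢ[ℝ] E)) (b : K → E)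
    (hb : ∀ g h, b (g * h) = b g + π g (b h)) : ∃ v, ∀ g, π g v + b g = v := by
  obtain ⟨Q, ε, hε, hQ⟩ := hasT_unif hK
  have hb1 : b 1 = 0 := by
    have h1 := hb 1 1
    rw [mul_one, map_one] at h1
    have h2 : (1 : E ≃ₗᵢ[ℝ] E) (b 1) = b 1 := rfl
    rw [h2] at h1
    exact left_eq_add.1 h1
  have hbi : ∀ g, b g⁻¹ = -π g⁻¹ (b g) := by
    intro g
    have h1 := hb g⁻¹ g
    rw [inv_mul_cancel, hb1] at h1
    exact eq_neg_of_add_eq_zero_left h1.symm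
  have hbn : ∀ g h, ‖b (g⁻¹ * h)‖ = ‖b g - b h‖ := by
    intro g h
    rw [hb, hbi, neg_add_eq_sub, ← map_sub, (π g⁻¹).norm_map, norm_sub_rev]
  have hbinv : ∀ g, ‖b g⁻¹‖ = ‖b g‖ := by
    intro g
    rw [hbi, norm_neg, (π g⁻¹).norm_map]
  obtain ⟨A, hA⟩ : ∃ A : ℝ, A = ∑ q ∈ Q, ‖b q‖ ^ 2 := ⟨_, rfl⟩
  have hA0 : 0 ≤ A := by
    rw [hA]
    exact Finset.sum_nonneg fun q _ => sq_nonneg _
  obtain ⟨t, ht⟩ : ∃ t : ℝ, t = (ε / 2) ^ 2 / (2 * (1 + A)) := ⟨_, rfl⟩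
  have ht0 : 0 < t := by
    rw [ht]
    positivity
  obtain ⟨E', i1, i2, i3, π', ξ, hξ⟩ := exists_gns (fun g => Real.exp (-t * ‖b g‖ ^ 2))
    (fun g => by rw [hbinv]) (fun s c => by
      simp only [hbn]
      exact gauss_psd ht0.le s b c)
  have hn : ‖ξ‖ ^ 2 = 1 := by
    have h1 := hξ 1
    rw [map_one] at h1
    have h2 : (1 : E' ≃ₗᵢ[ℂ] E') ξ = ξ := rfl
    rw [h2, hb1, norm_zero] at h1
    have h3 : (-t * (0 : ℝ) ^ 2) = 0 := by ring
    rw [h3, Real.exp_zero] at h1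
    rw [← inner_self_eq_norm_sq (𝕜 := ℂ) ξ, h1]
    exact Complex.ofReal_re _
  have hd : ∀ g, ‖π' g ξ - ξ‖ ^ 2 = 2 - 2 * Real.exp (-t * ‖b g‖ ^ 2) := by
    intro g
    rw [@norm_sub_sq ℂ, (π' g).norm_map, hn, ← inner_conj_symm, hξ]
    simp only [Complex.conj_ofReal]
    have h1 : RCLike.re ((Real.exp (-t * ‖b g‖ ^ 2) : ℝ) : ℂ) = Real.exp (-t * ‖b g‖ ^ 2) :=
      Complex.ofReal_re _
    rw [h1]
    ring
  have hq : ∀ q ∈ Q, ‖π' q ξ - ξ‖ ≤ ε / 2 := by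
    intro q hq
    have h1 := hd q
    have h2 := Real.add_one_le_exp (-t * ‖b q‖ ^ 2)
    have h3 : ‖b q‖ ^ 2 ≤ A := by
      rw [hA]
      exact Finset.single_le_sum (f := fun q => ‖b q‖ ^ 2) (fun q _ => sq_nonneg _) hq
    have h4 : 2 * (1 + A) * t = (ε / 2) ^ 2 := by
      rw [ht]
      field_simp
    have h5 : ‖π' q ξ - ξ‖ ^ 2 ≤ (ε / 2) ^ 2 := by
      rw [h1, ← h4]
      nlinarith
    exact (sq_le_sq₀ (norm_nonneg _) (by positivity)).1 h5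
  have hall := hQ E' π' ξ (ε / 2) (by positivity) hq
  have hbd : ∀ g, ‖b g‖ ≤ Real.sqrt (Real.log 2 / t) := by
    intro g
    have h1 := hall g
    have h2 : 2 * (ε / 2) / ε = 1 := by
      field_simp
    rw [h2] at h1
    have h3 := hd g
    have h4 : ‖π' g ξ - ξ‖ ^ 2 ≤ 1 := by
      have := norm_nonneg (π' g ξ - ξ)
      nlinarith
    have h5 : 1 / 2 ≤ Real.exp (-t * ‖b g‖ ^ 2) := by linarith
    have h6 : Real.log (1 / 2) ≤ -t * ‖b g‖ ^ 2 := by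
      rw [Real.log_le_iff_le_exp (by norm_num)]
      exact h5
    rw [one_div, Real.log_inv] at h6
    apply Real.le_sqrt_of_sq_le
    rw [le_div_iff₀ ht0]
    linarith
  exact fix_of_bdd π b hb hbd

end Kaz
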