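import Pool.Agent.W_04c03c_h58k.TDef

/-!
# Groups with property (T) are finitely generated
-/

namespace Kaz

universe u

lemma DE_mem {I : Type u} (σ : I ≃ I) (v : lp (fun _ : I => ℂ) 2) :
    Memℓp (fun i => v (σ i)) 2 := by
  have h2 : 0 < (2 : ENNReal).toReal := by norm_num
  have h := (memℓp_gen_iff h2).1 (lp.memℓp v)
  rw [memℓp_gen_iff h2]
  exact (Equiv.summable_iff σ).2 h

/-- Composition with a permutation of the index set. -/
noncomputable def DE_perm {I : Type u} (σ : I ≃ I) (v : lp (fun _ : I => ℂ) 2) :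
    lp (fun _ : I => ℂ) 2 := ⟨fun i => v (σ i), DE_mem σ v⟩

lemma DE_perm_apply {I : Type u} (σ : I ≃ I) (v : lp (fun _ : I => ℂ) 2) (i : I) :
    DE_perm σ v i = v (σ i) := rfl

lemma DE_perm_norm {I : Type u} (σ : I ≃ I) (v : lp (fun _ : I => ℂ) 2) :
    ‖DE_perm σ v‖ = ‖v‖ := by
  have h2 : 0 < (2 : ENNReal).toReal := by norm_num
  rw [lp.norm_eq_tsum_rpow h2, lp.norm_eq_tsum_rpow h2]
  congr 1
  exact Equiv.tsum_eq σ (fun i => ‖v i‖ ^ (2 : ENNReal).toReal)

/-- The isometry given by a permutation of the index set. -/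
noncomputable def DE_iso {I : Type u} (σ : I ≃ I) :
    lp (fun _ : I => ℂ) 2 ≃ₗᵢ[ℂ] lp (fun _ : I => ℂ) 2 where
  toFun := DE_perm σ
  map_add' v w := by
    apply lp.ext
    funext i
    rfl
  map_smul' c v := by
    apply lp.ext
    funext i
    rfl
  invFun := DE_perm σ.symm
  left_inv v := by
    apply lp.ext
    funext i
    simp only [DE_perm_apply, Equiv.apply_symm_apply]
  right_inv v := by
    apply lp.ext
    funext i
    simp only [DE_perm_apply, Equiv.symm_apply_apply]
  norm_map' v := DE_perm_norm σ v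

lemma DE_iso_apply {I : Type u} (σ : I ≃ I) (v : lp (fun _ : I => ℂ) 2) (i : I) :
    DE_iso σ v i = v (σ i) := rfl

/-- The permutation representation. -/
noncomputable def DE_rep (K : Type u) [Group K] (I : Type u) [MulAction K I] :
    K →* (lp (fun _ : I => ℂ) 2 ≃ₗᵢ[ℂ] lp (fun _ : I => ℂ) 2) where
  toFun k := DE_iso (MulAction.toPerm k⁻¹)
  map_one' := by
    apply LinearIsometryEquiv.ext
    intro v
    apply lp.ext
    funext i
    show v ((1 : K)⁻¹ • i) = v i
    rw [inv_one, one_smul]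
  map_mul' g h := by
    apply LinearIsometryEquiv.ext
    intro v
    apply lp.ext
    funext i
    show v ((g * h)⁻¹ • i) = v (h⁻¹ • (g⁻¹ • i))
    rw [mul_inv_rev, mul_smul]

lemma DE_rep_apply {K : Type u} [Group K] {I : Type u} [MulAction K I] (k : K)
    (v : lp (fun _ : I => ℂ) 2) (i : I) : DE_rep K I k v i = v (k⁻¹ • i) := rfl

/-- Groups with property (T) are finitely generated (Kazhdan).

Proof. Let `Q, ε` be as in `HasT` and `K₀ = Subgroup.closure Q`. `K` acts on `E = lp (fun _ : K ⧸ K₀ => ℂ) 2`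
by `(π k v) q = v (k⁻¹ • q)` (construct it by hand, `Equiv` of the index set; `lp` norm as a sum). The
vector `v = lp.single 2 (mk 1) 1` is invariant under `Q ⊆ K₀` and not zero, so there is an invariant
`v ≠ 0`, `v (k⁻¹ • q) = v q` for all `k`, so `v` is constant and not zero (`K` acts transitively on
`K ⧸ K₀`); its square is summable, so `K ⧸ K₀` is finite (`summable_const_iff` or
`Summable.tendsto_cofinite_zero`). `K` is generated by `Q` and representatives of the cosets. -/
theorem fg_of_hasT {K : Type u} [Group K] (hK : HasT K) : Group.FG K := by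
  classical
  obtain ⟨Q, ε, hε, hT⟩ := hK
  set K₀ : Subgroup K := Subgroup.closure (Q : Set K) with hK₀
  have key := hT (lp (fun _ : K ⧸ K₀ => ℂ) 2) (DE_rep K (K ⧸ K₀)) (by
    refine ⟨lp.single 2 (QuotientGroup.mk (1 : K) : K ⧸ K₀) (1 : ℂ), ?_, ?_⟩
    · intro h
      have h1 := lp.norm_single (p := 2) (E := fun _ : K ⧸ K₀ => ℂ) (by norm_num)
        (QuotientGroup.mk (1 : K) : K ⧸ K₀) (1 : ℂ)
      rw [h, norm_zero, norm_one] at h1
      exact zero_ne_one h1
    · intro q hq
      have hq0 : q ∈ K₀ := Subgroup.subset_closure hq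
      have hinv : DE_rep K (K ⧸ K₀) q (lp.single 2 (QuotientGroup.mk (1 : K) : K ⧸ K₀) (1 : ℂ)) =
          lp.single 2 (QuotientGroup.mk (1 : K) : K ⧸ K₀) (1 : ℂ) := by
        apply lp.ext
        funext i
        rw [DE_rep_apply, lp.single_apply, lp.single_apply]
        have hfix : q • (QuotientGroup.mk (1 : K) : K ⧸ K₀) = QuotientGroup.mk (1 : K) := by
          rw [MulAction.Quotient.smul_mk, smul_eq_mul, mul_one]
          apply QuotientGroup.eq.2
          rw [mul_one]
          exact K₀.inv_mem hq0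
        by_cases hi : i = QuotientGroup.mk (1 : K)
        · rw [hi, inv_smul_eq_iff.2 hfix.symm]
        · have hi2 : q⁻¹ • i ≠ QuotientGroup.mk (1 : K) := by
            intro h
            apply hi
            rw [inv_smul_eq_iff] at h
            rw [h, hfix]
          rw [Pi.single_eq_of_ne hi, Pi.single_eq_of_ne hi2]
      rw [hinv, sub_self, norm_zero]
      have h1 := lp.norm_single (p := 2) (E := fun _ : K ⧸ K₀ => ℂ) (by norm_num)
        (QuotientGroup.mk (1 : K) : K ⧸ K₀) (1 : ℂ)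
      rw [h1, norm_one, mul_one]
      exact hε)
  obtain ⟨v, hv0, hv⟩ := key
  have hconst : ∀ i : K ⧸ K₀, v i = v (QuotientGroup.mk (1 : K)) := by
    intro i
    obtain ⟨k, rfl⟩ := QuotientGroup.mk_surjective i
    have h1 : DE_rep K (K ⧸ K₀) k⁻¹ v (QuotientGroup.mk (1 : K) : K ⧸ K₀) =
        v (QuotientGroup.mk (1 : K) : K ⧸ K₀) := by rw [hv]
    rw [DE_rep_apply, inv_inv, MulAction.Quotient.smul_mk, smul_eq_mul, mul_one] at h1
    exact h1
  have hne : v (QuotientGroup.mk (1 : K) : K ⧸ K₀) ≠ 0 := by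
    intro h
    apply hv0
    apply lp.ext
    funext i
    rw [hconst i, h]
    rfl
  have hfin : Finite (K ⧸ K₀) := by
    by_contra hinf
    have hinf' : Infinite (K ⧸ K₀) := not_finite_iff_infinite.1 hinf
    have h2 : 0 < (2 : ENNReal).toReal := by norm_num
    have hs := (memℓp_gen_iff h2).1 (lp.memℓp v)
    have hs2 : Summable fun _ : K ⧸ K₀ =>
        ‖v (QuotientGroup.mk (1 : K) : K ⧸ K₀)‖ ^ (2 : ENNReal).toReal := by
      refine hs.congr fun i => ?_
      rw [hconst i]
    rw [summable_const_iff] at hs2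
    have : ‖v (QuotientGroup.mk (1 : K) : K ⧸ K₀)‖ = 0 := by
      by_contra hne2
      have hpos : 0 < ‖v (QuotientGroup.mk (1 : K) : K ⧸ K₀)‖ :=
        lt_of_le_of_ne (norm_nonneg _) (Ne.symm hne2)
      have := Real.rpow_pos_of_pos hpos (2 : ENNReal).toReal
      linarith
    exact hne (norm_eq_zero.1 this)
  rw [Group.fg_iff]
  refine ⟨(Q : Set K) ∪ Set.range (Quotient.out : K ⧸ K₀ → K), ?_, ?_⟩
  · rw [Subgroup.eq_top_iff']
    intro g
    have h1 : ((QuotientGroup.mk g : K ⧸ K₀)).out ∈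
        Subgroup.closure ((Q : Set K) ∪ Set.range (Quotient.out : K ⧸ K₀ → K)) :=
      Subgroup.subset_closure (Or.inr ⟨_, rfl⟩)
    have h2 : K₀ ≤ Subgroup.closure ((Q : Set K) ∪ Set.range (Quotient.out : K ⧸ K₀ → K)) :=
      Subgroup.closure_mono Set.subset_union_left
    have h3 : ((QuotientGroup.mk g : K ⧸ K₀)).out⁻¹ * g ∈ K₀ := by
      rw [← QuotientGroup.eq]
      exact QuotientGroup.out_eq' _
    have h4 := Subgroup.mul_mem _ h1 (h2 h3)
    rwa [mul_inv_cancel_left] at h4
  · exact (Finset.finite_toSet Q).union (Set.finite_range _)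

end Kaz
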