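import Mathlib

/-!
# Property (T), tempered representations, cocycles: definitions
-/

namespace Kaz

universe u

/-- The orthogonal representation `π` is weakly contained in the regular representation: the norm of
`π(a)` is at most the norm of the convolution operator of `a` on `ℓ²(K)`, for all `a` in the real
group ring. -/
def Tempered {K : Type*} [Group K] {E : Type*} [NormedAddCommGroup E] [InnerProductSpace ℝ E]
    (π : K →* (E ≃ₗᵢ[ℝ] E)) : Prop :=
  ∀ (a : K →₀ ℝ) (C : ℝ), 0 ≤ C →
    (∀ f : K →₀ ℝ, ∑ᶠ x, (a.sum fun k r => r * f (k⁻¹ * x)) ^ 2 ≤ C ^ 2 * ∑ᶠ x, f x ^ 2) →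
    ∀ v : E, ‖a.sum fun k r => r • π k v‖ ≤ C * ‖v‖

/-- Every affine isometric action of `K` on a real Hilbert space, whose linear part is weakly
contained in the regular representation, has a fixed point. -/
def FixT (K : Type u) [Group K] : Prop :=
  ∀ (E : Type u) [NormedAddCommGroup E] [InnerProductSpace ℝ E] [CompleteSpace E]
    (π : K →* (E ≃ₗᵢ[ℝ] E)) (b : K → E), Tempered π →
    (∀ g h, b (g * h) = b g + π g (b h)) → ∃ v, ∀ g, π g v + b g = v

/-- Kazhdan's property (T): there are a finite set `Q` and `ε > 0` such that every unitary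
representation with a `(Q, ε)`-invariant vector has a nonzero invariant vector. -/
def HasT (K : Type u) [Group K] : Prop :=
  ∃ (Q : Finset K) (ε : ℝ), 0 < ε ∧
    ∀ (E : Type u) [NormedAddCommGroup E] [InnerProductSpace ℂ E] [CompleteSpace E]
      (π : K →* (E ≃ₗᵢ[ℂ] E)), (∃ v : E, v ≠ 0 ∧ ∀ q ∈ Q, ‖π q v - v‖ < ε * ‖v‖) →
      ∃ v : E, v ≠ 0 ∧ ∀ g, π g v = v

/-- `g` has infinite order -/
def InfOrd {K : Type*} [Group K] (g : K) : Prop := ∀ n : ℕ, 0 < n → g ^ n ≠ 1

end Kaz
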