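import Pool.Agent.W_04c03c_h58.AlgA
import Pool.Agent.W_04c03c_h58k.TDef

/-!
# The interface between geometry and algebra, for a group `K` acting on the Rips complex
-/

namespace Kaz

open RCan

/-- The third cohomology with compact supports of the Rips complex relative to the horoballs is not
zero over the reals. -/
def NonEx {V Ξ : Type*} (sm : V → V → Prop) (cusp : V → Option Ξ) : Prop :=
  ∃ f : List V → ℝ, IsD sm cusp ℝ 3 f ∧ cr sm f = 0 ∧
    ∀ b : List V → ℝ, IsD sm cusp ℝ 2 b → cr sm b ≠ f

/-- The interface used for property (T): `z` is the fundamental class, `w` the orientation character,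
`cr (e g) = g z - z` (for the action twisted by `w`). -/
structure KFace (K Ξ V : Type*) [Group K] [MulAction K Ξ] [MulAction K V] (sm : V → V → Prop)
    (cusp : V → Option Ξ) (z : List V → ℤ) (w : K → ℤ) (e : K → List V → ℤ) : Prop where
  refl : ∀ v, sm v v
  symm : ∀ v w, sm v w → sm w v
  smul_sm : ∀ (g : K) (v w : V), sm v w → sm (g • v) (g • w)
  cusp_smul : ∀ (g : K) (v : V), cusp (g • v) = (cusp v).map (fun ξ => g • ξ)
  free : ∀ (g : K) (v : V), g • v = v → g = 1
  dis : ∃ (rk : V → ℕ) (ps : V → V), Dis sm rk ps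
  ne : Nonempty V
  h2 : ∀ f : List V → ℝ, IsD sm cusp ℝ 2 f → cr sm f = 0 →
    ∃ e, IsD sm cusp ℝ 1 e ∧ cr sm e = f
  crD : ∀ (n : ℕ) (f : List V → ℝ), IsD sm cusp ℝ n f → IsD sm cusp ℝ (n + 1) (cr sm f)
  zD : IsD sm cusp ℤ 3 z
  w1 : ∀ g, w g = 1 ∨ w g = -1
  wm : ∀ g h, w (g * h) = w g * w h
  eD : ∀ g, IsD sm cusp ℤ 2 (e g)
  ec : ∀ g l, cr sm (e g) l = w g * z (l.map (fun x => g⁻¹ • x)) - z l
  zn : ∀ b : List V → ℝ, IsD sm cusp ℝ 2 b → cr sm b ≠ fun l => (z l : ℝ)

/-- Restriction of the interface to a group which maps injectively to `K`. -/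
theorem KFace.comap {K Ξ V : Type*} [Group K] [MulAction K Ξ] [MulAction K V] {sm : V → V → Prop}
    {cusp : V → Option Ξ} {z : List V → ℤ} {w : K → ℤ} {e : K → List V → ℤ}
    (h : KFace K Ξ V sm cusp z w e) {L : Type*} [Group L] (j : L →* K)
    (hj : Function.Injective j) :
    @KFace L Ξ V _ (MulAction.compHom Ξ j) (MulAction.compHom V j) sm cusp z (fun g => w (j g))
      (fun g => e (j g)) := by
  let _ : MulAction L Ξ := MulAction.compHom Ξ j
  let _ : MulAction L V := MulAction.compHom V j
  exact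
    { refl := h.refl
      symm := h.symm
      smul_sm := fun g v w hvw => h.smul_sm (j g) v w hvw
      cusp_smul := fun g v => h.cusp_smul (j g) v
      free := fun g v hg => hj ((h.free (j g) v hg).trans (map_one j).symm)
      dis := h.dis
      ne := h.ne
      h2 := h.h2
      crD := h.crD
      zD := h.zD
      w1 := fun g => h.w1 (j g)
      wm := fun g g' => by rw [map_mul, h.wm]
      eD := fun g => h.eD (j g)
      ec := fun g l => by
        rw [h.ec]
        have : ∀ x : V, g⁻¹ • x = (j g)⁻¹ • x := fun x => by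
          show j g⁻¹ • x = _
          rw [map_inv]
        simp only [this]
      zn := h.zn }

end Kaz
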