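import Pool.Agent.W_04c03c_h58.AsAlt
import Pool.Agent.W_04c03c_h58.AsC
import Pool.Agent.W_04c03c_h58.AsCc

/-!
# Nontrivial classes in Mayer-Vietoris
-/

namespace Kaz

open RCan

/-- There is a nontrivial real class, given by an alternating cocycle on lists of length `m`. -/
def NT {E : Type*} [PseudoMetricSpace E] (U : Set E) (m : ℕ) : Prop :=
  ∃ a : List E → ℝ, Alt a ∧ (∀ l, a l ≠ 0 → l.length = m) ∧ AZ U m a ∧ ¬ AB U m a

section NA

variable {E : Type*} [PseudoMetricSpace E] {A : Type*} [AddCommGroup A]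

open Classical in
/-- extension by zero of a cochain on `U ∩ V` -/
noncomputable def NA_w (U V : Set E) (w : List E → A) : List E → A := fun l =>
  if ∀ x ∈ l, x ∈ U ∩ V then w l else 0

open Classical in
/-- the connecting cocycle -/
noncomputable def NA_u (U V P : Set E) (w : List E → A) : List E → A
  | [] => 0
  | x :: l => if x ∈ P then co (NA_w U V w) (x :: l) else 0

theorem NA_w_eq {U V : Set E} (w : List E → A) {l : List E} (h : ∀ x ∈ l, x ∈ U ∩ V) :
    NA_w U V w l = w l := by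
  unfold NA_w
  rw [if_pos h]

theorem NA_co {U V : Set E} (w : List E → A) {l : List E} (h : ∀ x ∈ l, x ∈ U ∩ V) :
    co (NA_w U V w) l = co w l := by
  apply dl_congr
  intro l' h1 _
  exact NA_w_eq w fun x hx => h x (h1.subset hx)

theorem NA_w_alt {U V : Set E} {w : List E → A} (hw : Alt w) : Alt (NA_w U V w) := by
  classical
  have := Alt.ite (fun l : List E => ∀ x ∈ l, x ∈ U ∩ V)
    (fun l l' h h' => ⟨fun hs x hx => hs x (h' hx), fun hs x hx => hs x (h hx)⟩) hw
  unfold NA_w
  convert this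

/-- the values of the connecting cocycle -/
theorem NA_key {U V P : Set E} {r : ℝ}
    (hU : ∀ x ∈ U ∪ V, ∀ y ∈ U ∪ V, dist x y < r → x ∈ P → y ∈ U)
    (hV : ∀ x ∈ U ∪ V, ∀ y ∈ U ∪ V, dist x y < r → x ∉ P → y ∈ V)
    {m : ℕ} {w : List E → A} {ε : ℝ} (hε : ε ≤ r)
    (hw : ∀ l, l.length = m + 1 → Nr (U ∩ V) ε l → co w l = 0) {l : List E}
    (hl : l.length = m + 1) (hn : Nr (U ∪ V) ε l) :
    ((∀ x ∈ l, x ∈ U) → NA_u U V P w l = co (NA_w U V w) l) ∧
      ((∀ x ∈ l, x ∈ V) → NA_u U V P w l = 0) := by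
  classical
  have hzero : (∀ x ∈ l, x ∈ U) → (∀ x ∈ l, x ∈ V) → co (NA_w U V w) l = 0 := by
    intro h1 h2
    rw [NA_co w fun x hx => ⟨h1 x hx, h2 x hx⟩]
    refine hw l hl fun x hx => ⟨⟨h1 x hx, h2 x hx⟩, (hn x hx).2⟩
  cases l with
  | nil => simp at hl
  | cons x l =>
    constructor
    · intro h1
      by_cases hx : x ∈ P
      · show (if x ∈ P then co (NA_w U V w) (x :: l) else 0) = _
        rw [if_pos hx]
      · show (if x ∈ P then co (NA_w U V w) (x :: l) else 0) = _
        rw [if_neg hx, hzero h1 (AsCc_memV hV hε hn hx)]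
    · intro h2
      by_cases hx : x ∈ P
      · show (if x ∈ P then co (NA_w U V w) (x :: l) else 0) = _
        rw [if_pos hx, hzero (AsCc_mem hU hε hn hx) h2]
      · show (if x ∈ P then co (NA_w U V w) (x :: l) else 0) = _
        rw [if_neg hx]

/-- the connecting cochain is a cocycle near the diagonal -/
theorem NA_cocycle {U V P : Set E} {r : ℝ}
    (hU : ∀ x ∈ U ∪ V, ∀ y ∈ U ∪ V, dist x y < r → x ∈ P → y ∈ U)
    (hV : ∀ x ∈ U ∪ V, ∀ y ∈ U ∪ V, dist x y < r → x ∉ P → y ∈ V)
    {m : ℕ} {w : List E → A} {ε : ℝ} (hε : ε ≤ r)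
    (hw : ∀ l, l.length = m + 1 → Nr (U ∩ V) ε l → co w l = 0) {l : List E}
    (hl : l.length = m + 1 + 1) (hn : Nr (U ∪ V) ε l) : co (NA_u U V P w) l = 0 := by
  have hkey : ∀ l' : List E, l'.Sublist l → l'.length + 1 = l.length →
      ((∀ x ∈ l', x ∈ U) → NA_u U V P w l' = co (NA_w U V w) l') ∧
        ((∀ x ∈ l', x ∈ V) → NA_u U V P w l' = 0) := fun l' h1 h2 =>
    NA_key hU hV hε hw (by omega) (hn.sub h1.subset)
  cases l with
  | nil => simp at hl
  | cons x l =>
    by_cases hx : x ∈ P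
    · have hall := AsCc_mem hU hε hn hx
      have h5 : co (NA_u U V P w) (x :: l) = co (co (NA_w U V w)) (x :: l) := by
        apply dl_congr
        intro l' h6 h7
        exact (hkey l' h6 h7).1 fun y hy => hall y (h6.subset hy)
      rw [h5, co_co]
      rfl
    · have hall := AsCc_memV hV hε hn hx
      apply dl_eq_zero
      intro l' h6 h7
      exact (hkey l' h6 h7).2 fun y hy => hall y (h6.subset hy)

theorem NA_rr_zero {A : Type*} [AddCommGroup A] [LinearOrder E] (l : List E) :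
    rr (0 : List E → A) l = 0 := by
  show sgn l • (0 : A) = 0
  rw [smul_zero]

end NA

/-- The connecting homomorphism is injective if `U` and `V` are acyclic in the lower degree.

Proof. Let `w` be an alternating real cochain as in `NT (U ∩ V) m`, `ε_w` with `co w l = 0` for `l` of
length `m + 1`, `Nr (U ∩ V) ε_w l`. `w' l = w l` if all entries are in `U ∩ V`, else `0`; alternating
(`Alt.ite`). `u [] = 0`, `u (x :: l) = if x ∈ P then co w' (x :: l) else 0`. As in `AsCc_key` and `mv_cyc`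
(`AsCc.lean`, the same for real values): for `l` of length `m + 1` with `Nr (U ∪ V) (min ε_w r) l`:
if all entries of `l` are in `U` then `u l = co w' l`; if all are in `V` then `u l = 0`; every such `l` has
all its entries in `U` or all in `V`, and `co u = 0` on such lists of length `m + 2`. Choose a linear
order on `E` (`linearOrderOfSTO WellOrderingRel`) and let `a l = if l.length = m + 1 then rr u l else 0`:
alternating (`AsAlt_trunc`, `alt_rr`), a cocycle near the diagonal (`AsAlt_co`, `rr_congr`). Suppose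
`a = co b` on lists of length `m + 1` with `Nr (U ∪ V) ε`. For `l` in `U` of length `m + 1`,
`Nr U (min ..) l`: `a l = rr u l = rr (co w') l = co (rr w') l = co w' l` (`rr_congr`: the lists with the
same entries are also in `U`; `co_rr`, `rr_alt`). For `l` in `V`: `a l = 0`. So `co (b - w') = 0` on
small lists of length `m + 1` in `U`, `co b = 0` on those in `V`: by `h1`, `h2`, `b - w' = co c₁` on small
lists of length `m` in `U`, `b = co c₂` on those in `V`, and on `U ∩ V`:
`w = w' = b - co c₁ = co (c₂ - c₁)`: `AB (U ∩ V) m w`, a contradiction. -/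
theorem mv_nt {E : Type*} [PseudoMetricSpace E] {U V P : Set E} {r : ℝ} (hr : 0 < r)
    (hU : ∀ x ∈ U ∪ V, ∀ y ∈ U ∪ V, dist x y < r → x ∈ P → y ∈ U)
    (hV : ∀ x ∈ U ∪ V, ∀ y ∈ U ∪ V, dist x y < r → x ∉ P → y ∈ V)
    {m : ℕ} (h1 : Ac U m) (h2 : Ac V m) (h3 : NT (U ∩ V) m) : NT (U ∪ V) (m + 1) := by
  classical
  let _ : LinearOrder E := linearOrderOfSTO WellOrderingRel
  obtain ⟨w, hwa, _, ⟨εw, hεw, hw⟩, hwn⟩ := h3
  have hw'a : Alt (NA_w U V w) := NA_w_alt hwa
  refine ⟨fun l => if l.length = m + 1 then rr (NA_u U V P w) l else 0,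
    AsAlt_trunc (alt_rr _) (m + 1), fun l hl => ?_, ⟨min εw r, lt_min hεw hr, fun l hl hn => ?_⟩, ?_⟩
  · by_contra hcon
    exact hl (if_neg hcon)
  · rw [AsAlt_co _ hl]
    have h4 : rr (co (NA_u U V P w)) l = rr (0 : List E → ℝ) l :=
      rr_congr fun l' h5 h6 => NA_cocycle hU hV (min_le_right _ _)
        (fun l h7 h8 => hw l h7 (h8.mono subset_rfl (min_le_left _ _))) (h5.trans hl)
        (AsAlt_nr hn h6)
    rw [h4, NA_rr_zero]
  · rintro ⟨b, εb, hεb, hb⟩
    set ε : ℝ := min (min εw r) εb with hεdef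
    have hε : 0 < ε := lt_min (lt_min hεw hr) hεb
    have e1 : ε ≤ εw := (min_le_left _ _).trans (min_le_left _ _)
    have e2 : ε ≤ r := (min_le_left _ _).trans (min_le_right _ _)
    have e3 : ε ≤ εb := min_le_right _ _
    have hw' : ∀ l, l.length = m + 1 → Nr (U ∩ V) ε l → co w l = 0 := fun l h1 h2 =>
      hw l h1 (h2.mono subset_rfl e1)
    have hzU : AZ U m (b - NA_w U V w) := by
      refine ⟨ε, hε, fun l hl hn => ?_⟩
      have h4 := hb l hl (hn.mono Set.subset_union_left e3)
      beta_reduce at h4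
      rw [if_pos hl] at h4
      have h5 : rr (NA_u U V P w) l = rr (co (NA_w U V w)) l :=
        rr_congr fun l' h5 h6 => (NA_key hU hV e2 hw' (h5.trans hl)
          ((AsAlt_nr hn h6).mono Set.subset_union_left le_rfl)).1
          fun x hx => (AsAlt_nr hn h6 x hx).1
      rw [h5, ← co_rr, rr_alt hw'a] at h4
      rw [co_sub, Pi.sub_apply, h4, sub_self]
    have hzV : AZ V m b := by
      refine ⟨ε, hε, fun l hl hn => ?_⟩
      have h4 := hb l hl (hn.mono Set.subset_union_right e3)
      beta_reduce at h4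
      rw [if_pos hl] at h4
      have h5 : rr (NA_u U V P w) l = rr (0 : List E → ℝ) l :=
        rr_congr fun l' h5 h6 => (NA_key hU hV e2 hw' (h5.trans hl)
          ((AsAlt_nr hn h6).mono Set.subset_union_right le_rfl)).2
          fun x hx => (AsAlt_nr hn h6 x hx).1
      rw [h5, NA_rr_zero] at h4
      exact h4.symm
    obtain ⟨c₁, ε₁, hε₁, hc₁⟩ := h1 ℝ _ hzU
    obtain ⟨c₂, ε₂, hε₂, hc₂⟩ := h2 ℝ _ hzV
    refine hwn ⟨c₂ - c₁, min ε₁ ε₂, lt_min hε₁ hε₂, fun l hl hn => ?_⟩
    have h4 := hc₁ l hl (hn.mono Set.inter_subset_left (min_le_left _ _))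
    have h5 := hc₂ l hl (hn.mono Set.inter_subset_right (min_le_right _ _))
    rw [Pi.sub_apply, NA_w_eq w fun x hx => (hn x hx).1] at h4
    rw [co_sub, Pi.sub_apply, ← h5, ← h4]
    ring

end Kaz
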