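import Pool.Agent.W_04c03c_h58k.NA
import Pool.Agent.W_04c03c_h58.AsDe
import Pool.Agent.W_04c03c_h58.Inf

/-!
# The two-sphere has a nontrivial class
-/

namespace Kaz

open RCan RealInnerProductSpace

variable {E : Type*} [NormedAddCommGroup E] [InnerProductSpace ℝ E] [FiniteDimensional ℝ E]

/-- Bands. -/
theorem NB_band (L : Submodule ℝ E) {e : E} (he : e ∈ L) (he1 : ‖e‖ = 1) (m : ℕ)
    (h : NT (Sph (L ⊓ (Submodule.span ℝ {e})ᗮ)) m) :
    NT {x : E | x ∈ Sph L ∧ |⟪x, e⟫| ≤ 1 / 2} m := by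
  obtain ⟨a, ha1, ha2, ha3, ha4⟩ := h
  have hU : IsCompact {x : E | x ∈ Sph L ∧ |⟪x, e⟫| ≤ 1 / 2} := by
    refine (isCompact_sphere (0 : E) 1).of_isClosed_subset ?_ ?_
    · have h1 : IsClosed (L : Set E) := L.closed_of_finiteDimensional
      have h2 : IsClosed {x : E | ‖x‖ = 1} := isClosed_eq continuous_norm continuous_const
      have h3 : IsClosed {x : E | |⟪x, e⟫| ≤ 1 / 2} :=
        isClosed_le (by fun_prop) continuous_const
      exact (h1.inter h2).inter h3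
    · intro x hx
      rw [mem_sphere_zero_iff_norm]
      exact hx.1.2
  have hmem : ∀ x ∈ {x : E | x ∈ Sph L ∧ |⟪x, e⟫| ≤ 1 / 2},
      ‖AsDb_y e 1 x‖⁻¹ • AsDb_y e 1 x ∈ Sph (L ⊓ (Submodule.span ℝ {e})ᗮ) := by
    rintro x ⟨⟨hx, hx1⟩, hs⟩
    have hpos := AsDb_pos he1 1 hx1 hs
    refine ⟨Submodule.mem_inf.2 ⟨L.smul_mem _ (L.sub_mem hx (L.smul_mem _ he)), ?_⟩, ?_⟩
    · rw [Submodule.mem_orthogonal_singleton_iff_inner_left, real_inner_smul_left, AsDb_inner he1,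
        sub_self, zero_mul, mul_zero]
    · rw [norm_smul, norm_inv, norm_norm, inv_mul_cancel₀ hpos.ne']
  have hcont : ContinuousOn (fun x : E => ‖AsDb_y e 1 x‖⁻¹ • AsDb_y e 1 x)
      {x : E | x ∈ Sph L ∧ |⟪x, e⟫| ≤ 1 / 2} := by
    have hy : Continuous fun x : E => AsDb_y e 1 x := by
      unfold AsDb_y
      fun_prop
    refine ContinuousOn.smul (ContinuousOn.inv₀ hy.norm.continuousOn ?_) hy.continuousOn
    intro x hx
    exact (AsDb_pos he1 1 hx.1.2 hx.2).ne'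
  have hu : ∀ ε > 0, ∃ η > 0, ∀ x ∈ {x : E | x ∈ Sph L ∧ |⟪x, e⟫| ≤ 1 / 2},
      ∀ y ∈ {x : E | x ∈ Sph L ∧ |⟪x, e⟫| ≤ 1 / 2}, dist x y < η →
        dist (‖AsDb_y e 1 x‖⁻¹ • AsDb_y e 1 x) (‖AsDb_y e 1 y‖⁻¹ • AsDb_y e 1 y) < ε := by
    have h3 := hU.uniformContinuousOn_of_continuous hcont
    rw [Metric.uniformContinuousOn_iff] at h3
    exact h3
  have hin : ∀ x ∈ Sph (L ⊓ (Submodule.span ℝ {e})ᗮ), ⟪x, e⟫ = 0 := by
    rintro x ⟨hx, _⟩
    have h2 := (Submodule.mem_inf.1 hx).2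
    rw [Submodule.mem_orthogonal_singleton_iff_inner_left] at h2
    exact h2
  have hsub : Sph (L ⊓ (Submodule.span ℝ {e})ᗮ) ⊆ {x : E | x ∈ Sph L ∧ |⟪x, e⟫| ≤ 1 / 2} := by
    intro x hx
    refine ⟨⟨(Submodule.mem_inf.1 hx.1).1, hx.2⟩, ?_⟩
    rw [hin x hx, abs_zero]
    norm_num
  have hid : ∀ x ∈ Sph (L ⊓ (Submodule.span ℝ {e})ᗮ),
      ‖AsDb_y e 1 x‖⁻¹ • AsDb_y e 1 x = x := by
    intro x hx
    have h1 : AsDb_y e 1 x = x := by
      rw [AsDb_y, hin x hx, mul_zero, zero_smul, sub_zero]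
    rw [h1, hx.2, inv_one, one_smul]
  refine ⟨fun l => a (l.map fun x => ‖AsDb_y e 1 x‖⁻¹ • AsDb_y e 1 x), ha1.map _,
    fun l hl => ?_, ha3.comp _ hmem hu, fun hb => ha4 ?_⟩
  · have h1 := ha2 _ hl
    rwa [List.length_map] at h1
  · refine (hb.mono hsub).congr one_pos fun l _ hn => ?_
    have e0 : (l.map fun x => ‖AsDb_y e 1 x‖⁻¹ • AsDb_y e 1 x) = l :=
      AsBr_map fun x hx => hid x (hn x hx).1
    simp only [e0]

/-- The induction step: compare `band_retract` (`AsDb.lean`) and `sph_step` (`AsDc.lean`).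

Proof. (1) Band: let `B = {x | x ∈ Sph L ∧ |⟪x, e⟫| ≤ 1 / 2}`, `S' = Sph (L ⊓ (span {e})ᗮ)`, and
`ρ x = ‖AsDb_y e 1 x‖⁻¹ • AsDb_y e 1 x` (`AsDb_y e 1 x = x - ⟪x, e⟫ • e`), a map from `B` to `S'` which is
uniformly continuous on the compact set `B` (see the proof of `band_retract`) and the identity on
`S' ⊆ B`. If `a` is as in `NT S' m` then `a ∘ (List.map ρ)` is alternating (`Alt.map`), of the right
length, a cocycle near the diagonal of `B` (`AZ.comp`), and not a coboundary on `B` (restrict to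
`S' ⊆ B` (`AB.mono`), where `l.map ρ = l`). (2) `mv_nt` for the two caps `U, V`, with `P`, `r = 1/2`
exactly as in the proof of `sph_step`; `cap_ac` gives `Ac U m`, `Ac V m`. -/
theorem sph_step_nt (L : Submodule ℝ E) {e : E} (he : e ∈ L) (he1 : ‖e‖ = 1) (m : ℕ)
    (h : NT (Sph (L ⊓ (Submodule.span ℝ {e})ᗮ)) m) : NT (Sph L) (m + 1) := by
  obtain ⟨U, hUd⟩ : ∃ U : Set E, U = {x | x ∈ Sph L ∧ -(1 / 2) ≤ ⟪x, e⟫} := ⟨_, rfl⟩
  obtain ⟨V, hVd⟩ : ∃ V : Set E, V = {x | x ∈ Sph L ∧ -(1 / 2) ≤ ⟪x, -e⟫} := ⟨_, rfl⟩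
  have hUm : ∀ x, x ∈ U ↔ x ∈ Sph L ∧ -(1 / 2) ≤ ⟪x, e⟫ := fun x => by rw [hUd]; rfl
  have hVm : ∀ x, x ∈ V ↔ x ∈ Sph L ∧ ⟪x, e⟫ ≤ 1 / 2 := fun x => by
    rw [hVd, Set.mem_ofPred_eq, inner_neg_right, neg_le_neg_iff]
  have hUV : U ∪ V = Sph L := by
    ext x
    rw [Set.mem_union, hUm, hVm]
    constructor
    · rintro (h | h)
      · exact h.1
      · exact h.1
    · intro h
      rcases le_total 0 ⟪x, e⟫ with h1 | h1
      · exact Or.inl ⟨h, by linarith⟩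
      · exact Or.inr ⟨h, by linarith⟩
  have hint : U ∩ V = {x | x ∈ Sph L ∧ |⟪x, e⟫| ≤ 1 / 2} := by
    ext x
    rw [Set.mem_inter_iff, hUm, hVm, Set.mem_ofPred_eq, abs_le]
    tauto
  have hacU : Ac U m := by rw [hUd]; exact cap_ac L he he1 m
  have hacV : Ac V m := by
    rw [hVd]; exact cap_ac L (L.neg_mem he) (by rw [norm_neg, he1]) m
  have hr : (0 : ℝ) < 1 / 2 := by norm_num
  have hU : ∀ x ∈ U ∪ V, ∀ y ∈ U ∪ V, dist x y < 1 / 2 → x ∈ {x : E | 0 ≤ ⟪x, e⟫} → y ∈ U := by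
    intro x _ y hy hd hx
    rw [hUV] at hy
    have h1 := (abs_le.mp (AsDc_dist he1 x y)).2
    have h2 : 0 ≤ ⟪x, e⟫ := hx
    exact (hUm y).2 ⟨hy, by linarith⟩
  have hV : ∀ x ∈ U ∪ V, ∀ y ∈ U ∪ V, dist x y < 1 / 2 → x ∉ {x : E | 0 ≤ ⟪x, e⟫} → y ∈ V := by
    intro x _ y hy hd hx
    rw [hUV] at hy
    have h1 := (abs_le.mp (AsDc_dist he1 x y)).1
    have h2 : ⟪x, e⟫ < 0 := not_le.mp hx
    exact (hVm y).2 ⟨hy, by linarith⟩
  have hb := NB_band L he he1 m h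
  rw [← hint] at hb
  rw [← hUV]
  exact mv_nt hr hU hV hacU hacV hb

/-- The sphere of dimension zero.

Proof. `a l = 1` if `l = [e]`, and `0` otherwise: alternating (`a` vanishes on lists of length `≥ 2`), a
cocycle near the diagonal (small lists of length `2` are constant: `AsDd_small`), and not a coboundary:
`co b [x] = b []` is the same for `x = e` and `x = -e`, but `a [e] = 1`, `a [-e] = 0` (`-e ≠ e`). -/
theorem sph_zero_nt {L : Submodule ℝ E} {e : E} (he1 : ‖e‖ = 1) (hL : Sph L = {e, -e}) :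
    NT (Sph L) 1 := by
  classical
  have heU : e ∈ Sph L := by rw [hL]; exact Or.inl rfl
  have heU' : -e ∈ Sph L := by rw [hL]; exact Or.inr rfl
  have hne : -e ≠ e := by
    intro h
    have h1 : e + e = 0 := by
      nth_rewrite 1 [← h]
      exact neg_add_cancel e
    have h2 : e = 0 := by
      rw [← two_smul ℝ e, smul_eq_zero] at h1
      rcases h1 with h1 | h1
      · norm_num at h1
      · exact h1
    rw [h2, norm_zero] at he1
    exact zero_ne_one he1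
  have hlen : ∀ (l₁ l₂ : List E) (x y : E), l₁ ++ x :: y :: l₂ ≠ [e] := by
    intro l₁ l₂ x y h
    have h1 := congrArg List.length h
    simp at h1
    omega
  refine ⟨fun l => if l = [e] then 1 else 0, ⟨fun l₁ x y l₂ => ?_, fun l₁ x l₂ => ?_⟩,
    fun l hl => ?_, ⟨1, one_pos, fun l hl hn => ?_⟩, ?_⟩
  · simp only [if_neg (hlen l₁ l₂ x y), if_neg (hlen l₁ l₂ y x), neg_zero]
  · exact if_neg (hlen l₁ l₂ x x)
  · by_cases h : l = [e]
    · rw [h]
      rfl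
    · exact absurd (if_neg h) hl
  · obtain ⟨x, hx⟩ : ∃ x, x ∈ l := by
      rcases l with _ | ⟨x, l⟩
      · simp at hl
      · exact ⟨x, List.mem_cons_self⟩
    have h1 := AsDd_small he1 hL le_rfl hn hx
    rw [hl] at h1
    rw [h1, co_apply, AsDd_dl x 1, if_neg (by decide)]
  · rintro ⟨b, ε, hε, hb⟩
    have h1 := hb [e] rfl (AsDd_rep hε 1 heU)
    have h2 := hb [-e] rfl (AsDd_rep hε 1 heU')
    rw [co_apply, dl_cons, dl_nil, sub_zero] at h1 h2
    have h3 : ¬ ([-e] = [e]) := fun h => hne (List.cons.inj h).1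
    simp only [if_true] at h1
    simp only [if_neg h3] at h2
    rw [← h2] at h1
    exact one_ne_zero h1

/-- The two-sphere has a nontrivial class.

Proof. Exactly as in `as_sphere` (`AsDe.lean`): `Sph L₁ = {e 0, -e 0}`, `sph_zero_nt`, and `sph_step_nt`
for `L₂`, `e 1` and for `⊤`, `e 2`; `Sph ⊤ = S2`. (It is fine to copy the proof of `as_sphere`.) -/
theorem sphere_nt : NT S2 3 := by
  set e : Fin 3 → EuclideanSpace ℝ (Fin 3) := fun i => EuclideanSpace.single i (1 : ℝ) with he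
  have hn : ∀ i, ‖e i‖ = 1 := by
    intro i
    simp [he]
  have hin : ∀ (i : Fin 3) (x : EuclideanSpace ℝ (Fin 3)),
      x ∈ (Submodule.span ℝ {e i})ᗮ ↔ x i = 0 := by
    intro i x
    rw [Submodule.mem_orthogonal_singleton_iff_inner_right]
    simp [he, EuclideanSpace.inner_single_left]
  set L₂ : Submodule ℝ (EuclideanSpace ℝ (Fin 3)) := ⊤ ⊓ (Submodule.span ℝ {e 2})ᗮ with hL2
  set L₁ : Submodule ℝ (EuclideanSpace ℝ (Fin 3)) := L₂ ⊓ (Submodule.span ℝ {e 1})ᗮ with hL1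
  have hm2 : ∀ x : EuclideanSpace ℝ (Fin 3), x ∈ L₂ ↔ x 2 = 0 := by
    intro x
    rw [hL2, Submodule.mem_inf, hin]
    exact ⟨fun h => h.2, fun h => ⟨trivial, h⟩⟩
  have hm1 : ∀ x : EuclideanSpace ℝ (Fin 3), x ∈ L₁ ↔ x 2 = 0 ∧ x 1 = 0 := by
    intro x
    rw [hL1, Submodule.mem_inf, hin, hm2]
  have he12 : e 1 ∈ L₂ := by
    rw [hm2]
    simp [he]
  have hS1 : Sph L₁ = {e 0, -e 0} := by
    apply Set.Subset.antisymm
    · rintro x ⟨hx, hx1⟩
      rw [hm1] at hx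
      have h2 : ‖x‖ ^ 2 = ∑ i, (x i) ^ 2 := EuclideanSpace.real_norm_sq_eq x
      rw [hx1, Fin.sum_univ_three, hx.1, hx.2] at h2
      have h3 : x 0 = 1 ∨ x 0 = -1 := by
        have h4 : (x 0 - 1) * (x 0 + 1) = 0 := by nlinarith
        rcases mul_eq_zero.1 h4 with h | h
        · left; linarith
        · right; linarith
      rcases h3 with h3 | h3
      · left
        ext i
        fin_cases i
        · simpa [he] using h3
        · simpa [he] using hx.2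
        · simpa [he] using hx.1
      · right
        rw [Set.mem_singleton_iff]
        ext i
        fin_cases i
        · simpa [he] using h3
        · simpa [he] using hx.2
        · simpa [he] using hx.1
    · rintro x (rfl | rfl)
      · refine ⟨?_, hn 0⟩
        rw [hm1]
        simp [he]
      · refine ⟨?_, ?_⟩
        · rw [hm1]
          simp [he]
        · rw [norm_neg]
          exact hn 0
  have htop : Sph (⊤ : Submodule ℝ (EuclideanSpace ℝ (Fin 3))) = S2 := by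
    ext x
    simp [Sph]
  rw [← htop]
  exact sph_step_nt ⊤ Submodule.mem_top (hn 2) 2
    (sph_step_nt L₂ he12 (hn 1) 1 (sph_zero_nt (hn 0) hS1))

end Kaz
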