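import Pool.Agent.W_04c03c_h58.PiC

/-!
# Every point of the sphere is close to shadows of far points
-/

namespace Kaz

open RCan Set
open scoped NNReal

variable {X : Type*} [MetricSpace X]

/-- Proof (compare `shadow_near` in `PiC.lean`). `close_of_gp` for `η` gives `M₀`. Let `M : ℕ` with
`M ≥ R + 1`, `M ≥ 1`, `(M - 1) / 2 - C - δ ≥ M₀` and `M - 1 - δ ≥ M₀`. `near_of_close` (with `R := M`) gives
`ε`. For `z ∈ S2` let `γ z` be a ray from `o` with `bp h (γ z) = z` (`exists_ray_bp`) and `y z` a net point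
within `1` of `γ z M` (`hN.dense`). The first two properties are proved as in `shadow_near`. Third: let
`v = y z`, `γ'` a ray from `o` with `bp h γ' = π v` (`exists_ray_bp`). For `t` large (`t ≥ dist o (pt v)`):
`gp o (pt v) (γ' t) ≥ dist o (pt v) / 2 - C ≥ (M - 1) / 2 - C` (`hS`), and
`gp o (γ z M) (pt v) ≥ gp o (pt v) (pt v) - 1 ≥ M - 2`, more precisely
`gp o (γ z M) (pt v) ≥ dist o (γ z M) - dist (γ z M) (pt v) ≥ M - 1`. So
`gp o (γ z M) (γ' t) ≥ min (M - 1) ((M - 1) / 2 - C) - δ ≥ M₀` (`gp_hyp`), and `close_of_gp` gives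
`dist (bp h (γ z)) (bp h γ') < η` (`dist_bp`). (Choose `M` still larger if constants do not fit.) -/
theorem near_two [ProperSpace X] {δ : ℝ} (hδ : Hyp4 X δ) (hG : IsGeod X) (h : Bdry X ≃ₜ S2)
    {o : X} {V : Type*} {pt : V → X} (hN : IsNet pt) {π : V → E3} {C : ℝ} (hπ : ∀ v, π v ∈ S2)
    (hS : Shd h o pt π C) (R : ℝ) {η : ℝ} (hη : 0 < η) : ∃ (y : E3 → V) (ε : ℝ), 0 < ε ∧
    (∀ z ∈ S2, R ≤ dist o (pt (y z))) ∧
    (∀ z ∈ S2, ∀ z' ∈ S2, dist z z' < ε → smr δ pt (y z) (y z')) ∧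
    ∀ z ∈ S2, dist (π (y z)) z < η := by
  classical
  have hδ0 : 0 ≤ δ := hδ.1
  have hsc : sc δ = 20 * δ + 40 := rfl
  obtain ⟨M₀, hM₀⟩ := close_of_gp hδ h o hη
  obtain ⟨M, hM⟩ : ∃ M : ℕ, max (R + 1) (max (M₀ + δ + 1) (2 * (M₀ + C + δ) + 1)) ≤ M :=
    exists_nat_ge _
  have hM1 : R + 1 ≤ M := (le_max_left _ _).trans hM
  have hM2 : M₀ + δ + 1 ≤ M := ((le_max_left _ _).trans (le_max_right _ _)).trans hM
  have hM3 : 2 * (M₀ + C + δ) + 1 ≤ M := ((le_max_right _ _).trans (le_max_right _ _)).trans hM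
  obtain ⟨ε, hε, hclose⟩ := near_of_close hδ h o (M : ℝ≥0)
  have hex : ∀ z : E3, ∃ yz : V, z ∈ S2 → ∃ γ : GRay X, γ.1 0 = o ∧ bp h γ = z ∧
      dist (γ.1 M) (pt yz) ≤ 1 := by
    intro z
    by_cases hz : z ∈ S2
    · obtain ⟨γ, h0, h1⟩ := exists_ray_bp hδ hG h o hz
      obtain ⟨v, hv⟩ := hN.dense (γ.1 M)
      exact ⟨v, fun _ => ⟨γ, h0, h1, hv⟩⟩
    · obtain ⟨v, _⟩ := hN.dense o
      exact ⟨v, fun h => absurd h hz⟩
  choose y hy using hex
  refine ⟨y, ε, hε, ?_, ?_, ?_⟩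
  · intro z hz
    obtain ⟨γ, h0, _, h2⟩ := hy z hz
    have h3 : dist o (γ.1 M) = M := by
      rw [← h0, γ.2.dist_eq, NNReal.dist_eq]
      simp
    have h4 := dist_triangle o (pt (y z)) (γ.1 M)
    rw [dist_comm (pt (y z)) (γ.1 M)] at h4
    linarith
  · intro z hz z' hz' hd
    obtain ⟨γ, h0, h1, h2⟩ := hy z hz
    obtain ⟨γ', h0', h1', h2'⟩ := hy z' hz'
    have h3 := hclose γ γ' h0 h0' (by rw [← dist_bp, h1, h1']; exact hd)
    have h4 := dist_triangle4 (pt (y z)) (γ.1 M) (γ'.1 M) (pt (y z'))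
    rw [dist_comm (pt (y z)) (γ.1 M)] at h4
    unfold smr
    rw [hsc]
    linarith
  · intro z hz
    obtain ⟨γ, h0, h1, h2⟩ := hy z hz
    obtain ⟨γ', h0', h1'⟩ := exists_ray_bp hδ hG h o (hπ (y z))
    have h3 : dist o (γ.1 M) = M := by
      rw [← h0, γ.2.dist_eq, NNReal.dist_eq]
      simp
    have h4 : (M : ℝ) - 1 ≤ dist o (pt (y z)) := by
      have h5 := dist_triangle o (pt (y z)) (γ.1 M)
      rw [dist_comm (pt (y z)) (γ.1 M)] at h5
      linarith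
    set t : ℝ≥0 := ⟨dist o (pt (y z)), dist_nonneg⟩ with ht
    have htc : (t : ℝ) = dist o (pt (y z)) := rfl
    have a1 : M₀ + δ ≤ gp o (pt (y z)) (γ'.1 t) := by
      have h5 := hS (y z) γ' h0' h1' t
      rw [htc, min_eq_left (by linarith [dist_nonneg (x := o) (y := pt (y z))])] at h5
      linarith
    have a2 : M₀ + δ ≤ gp o (γ.1 M) (pt (y z)) := by
      unfold gp
      linarith
    have a3 : M₀ + δ - δ ≤ gp o (γ.1 M) (γ'.1 t) := gp_hyp' hδ a2 a1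
    have a4 := hM₀ γ γ' h0 h0' (M : ℝ≥0) t (by linarith)
    rw [← dist_bp, h1, h1'] at a4
    rw [dist_comm]
    exact a4

end Kaz
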