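import Pool.Agent.W_04c03c_h58k.NB
import Pool.Agent.W_04c03c_h58k.KFace
import Pool.Agent.W_04c03c_h58.FaceB

/-!
# The fundamental class is not exact
-/

namespace Kaz

open RCan

variable {N Ξ V : Type*} [Group N] [MulAction N Ξ] [MulAction N V] {sm : V → V → Prop}
  {cusp : V → Option Ξ} {π : V → E3} {ctr : Ξ → E3} {d : V → ℝ}

/-- The third relative cohomology with compact supports is not zero.

Proof. Let `a` be as in `sphere_nt` (alternating, on lists of length `3`, a cocycle near the diagonal of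
`S2`, not a coboundary), and `f = cr sm (ap sm π a)` (`isD_cr_ap` for `n = 2`: `IsD ℝ 3 f`;
`cr_cr`). Suppose `cr sm b = f` with `IsD ℝ 2 b`. Then `ρ = ap sm π a - b` is `IsR ℝ 2` (`isR_ap`,
`IsR.sub`) with `cr ρ = 0`, so by `exists_rel` (`n = 1`) there is `e₁` (`IsR ℝ 1`) with `cr sm e₁ = ρ`.
Let `ε_a > 0` be the constant of `AZ S2 3 a` and `R` larger than all `d x`, `x` an entry of a list in
the (finite) support of `b`. `hnear` for `R` and `η = ε_a / 4` gives `y`, `ε`. For a list `l` of length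
`3` with `Nr S2 (min ε (ε_a / 4)) l`: `l.map y` is small, its entries have `d ≥ R`, so `b (l.map y) = 0` and
`a ((l.map y).map π) = ap sm π a (l.map y) = ρ (l.map y) = cr sm e₁ (l.map y) = co e₁ (l.map y)
= co (fun l => e₁ (l.map y)) l` (`co_map`/`dl_map`). So `l ↦ a (l.map (π ∘ y))` is `AB S2 3`. Since
`π ∘ y` is `η`-close to the identity on `S2`, `as_step` (in `AsB.lean`, with `f = id`, `g = π ∘ y`,
`U = W = S2`) gives that `l ↦ a (l.map (π ∘ y)) - a (l.map id)` is `AB S2 3`. So `a` is `AB S2 3`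
(`AB.sub`, `AB.congr`), a contradiction. -/
theorem nonEx_of_inf (hD : InfD N Ξ V sm cusp π ctr d)
    (hnear : ∀ (R η : ℝ), 0 < η → ∃ (y : E3 → V) (ε : ℝ), 0 < ε ∧ (∀ z ∈ S2, R ≤ d (y z)) ∧
      (∀ z ∈ S2, ∀ z' ∈ S2, dist z z' < ε → sm (y z) (y z')) ∧ ∀ z ∈ S2, dist (π (y z)) z < η) :
    NonEx sm cusp := by
  classical
  obtain ⟨a, ha, hla, hz, hnb⟩ := sphere_nt
  refine ⟨cr sm (ap sm π a), isD_cr_ap hD (n := 2) (by norm_num) ha hla hz, cr_cr _, ?_⟩
  intro b hb hcb
  apply hnb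
  have hR : IsR sm cusp ℝ 2 (ap sm π a - b) :=
    (isR_ap hD (n := 2) (by norm_num) ha hla).sub hb.isR
  have hc : cr sm (ap sm π a - b) = 0 := by
    rw [cr_sub, hcb, sub_self]
  obtain ⟨e₁, -, he₁⟩ := exists_rel hD (n := 1) le_rfl hR hc
  obtain ⟨εa, hεa, hza⟩ := hz
  obtain ⟨R, hRb⟩ : ∃ R : ℝ, ∀ l, b l ≠ 0 → ∀ x ∈ l, d x < R := by
    have hfin : (⋃ l ∈ Function.support b, {x | x ∈ l}).Finite :=
      hb.fin.biUnion fun l _ => l.finite_toSet
    obtain ⟨M, hM⟩ := (hfin.image d).bddAbove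
    refine ⟨M + 1, fun l hl x hx => ?_⟩
    have h1 : d x ≤ M := hM ⟨x, Set.mem_biUnion (show l ∈ Function.support b from hl) hx, rfl⟩
    linarith
  obtain ⟨y, ε, hε, hy1, hy2, hy3⟩ := hnear R (εa / 4) (by linarith)
  have hAB1 : AB S2 3 (fun l => a (l.map (fun z => π (y z)))) := by
    refine ⟨fun l' => e₁ (l'.map y), ε, hε, fun l hl hn => ?_⟩
    have hsml : Sml sm (l.map y) := by
      intro x hx x' hx'
      obtain ⟨z, hz, rfl⟩ := List.mem_map.1 hx
      obtain ⟨z', hz', rfl⟩ := List.mem_map.1 hx'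
      exact hy2 z (hn z hz).1 z' (hn z' hz').1 ((hn z hz).2 z' hz')
    have hb0 : b (l.map y) = 0 := by
      by_contra hne
      obtain ⟨z, hz⟩ : ∃ z, z ∈ l := by
        apply List.exists_mem_of_length_pos
        omega
      have h1 := hRb _ hne (y z) (List.mem_map_of_mem hz)
      have h2 := hy1 z (hn z hz).1
      linarith
    have h1 : a (l.map (fun z => π (y z))) = (ap sm π a - b) (l.map y) := by
      rw [Pi.sub_apply, hb0, sub_zero, InfB_ap_of a hsml, List.map_map]
      rfl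
    change a (l.map (fun z => π (y z))) = _
    rw [h1, ← he₁, cr_of_sml _ hsml, co_map]
  obtain ⟨b', hb'⟩ := as_step (U := S2) (W := S2) (m := 3) (ε' := εa / 4) hza id
    (fun z => π (y z)) (fun x hx x' hx' hxx => by
      have h1 := hy3 x hx
      have h2 := hy3 x' hx'
      refine ⟨hx, hD.sph _, ?_, ?_, ?_⟩
      · change dist x x' < εa
        linarith
      · change dist x (π (y x')) < εa
        have h3 := dist_triangle x x' (π (y x'))
        rw [dist_comm x' (π (y x'))] at h3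
        linarith
      · have h3 := dist_triangle4 (π (y x)) x x' (π (y x'))
        rw [dist_comm x' (π (y x'))] at h3
        linarith)
  have hAB2 : AB S2 3 (fun l => a (l.map (fun z => π (y z))) - a (l.map id)) :=
    ⟨b', εa / 4, by linarith, hb'⟩
  refine (hAB1.sub hAB2).congr one_pos fun l _ _ => ?_
  rw [Pi.sub_apply, List.map_id]
  ring

end Kaz
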