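import Pool.Agent.W_04c03c_h58k.AB

/-!
# From actions without fixed points to actions without almost fixed points
-/

namespace Kaz

universe u

open Filter Topology

/-- An Ekeland type lemma.

Proof. Otherwise for every `v` there is `v'` with `‖v' - v‖ ≤ n * D v` and `D v' < D v / 2`. Starting from
`0` we get a sequence `v i` with `D (v i) ≤ D 0 / 2 ^ i` and `‖v (i+1) - v i‖ ≤ n * D 0 / 2 ^ i`: it is Cauchy
(`cauchySeq_of_le_geometric_two` or similar), its limit `v` satisfies `D v = 0` by continuity,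
contradiction. -/
theorem ekeland {E : Type*} [NormedAddCommGroup E] [CompleteSpace E] (D : E → ℝ)
    (hD : Continuous D) (hpos : ∀ v, 0 < D v) (n : ℕ) :
    ∃ v, ∀ v', ‖v' - v‖ ≤ n * D v → D v / 2 ≤ D v' := by
  by_contra hcon
  push Not at hcon
  choose f hf1 hf2 using hcon
  let u : ℕ → E := fun i => Nat.rec 0 (fun _ x => f x) i
  have hu : ∀ i, u (i + 1) = f (u i) := fun i => rfl
  have hDu : ∀ i, D (u i) ≤ D (u 0) * (1 / 2) ^ i := by
    intro i
    induction i with
    | zero => simp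
    | succ i ih =>
      rw [hu, pow_succ]
      have h1 := hf2 (u i)
      have h2 : D (u i) / 2 ≤ D (u 0) * (1 / 2) ^ i / 2 := by linarith
      linarith
  have hdist : ∀ i, dist (u i) (u (i + 1)) ≤ (n * D (u 0)) * (1 / 2) ^ i := by
    intro i
    rw [dist_comm, dist_eq_norm, hu]
    calc ‖f (u i) - u i‖ ≤ n * D (u i) := hf1 (u i)
      _ ≤ n * (D (u 0) * (1 / 2) ^ i) := by
          exact mul_le_mul_of_nonneg_left (hDu i) (Nat.cast_nonneg n)
      _ = (n * D (u 0)) * (1 / 2) ^ i := by ring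
  have hcau : CauchySeq u := cauchySeq_of_le_geometric (1 / 2) _ (by norm_num) hdist
  obtain ⟨v, hv⟩ := cauchySeq_tendsto_of_complete hcau
  have h1 : Tendsto (fun i => D (u i)) atTop (𝓝 (D v)) := (hD.tendsto v).comp hv
  have h2 : Tendsto (fun i : ℕ => D (u 0) * (1 / 2 : ℝ) ^ i) atTop (𝓝 (D (u 0) * 0)) :=
    (tendsto_pow_atTop_nhds_zero_of_lt_one (by norm_num) (by norm_num)).const_mul _
  have h3 : D v ≤ D (u 0) * 0 := le_of_tendsto_of_tendsto' h1 h2 hDu
  have h4 := hpos v
  linarith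

/-- Rescaling an affine isometric action without fixed points (Gromov, Shalom).

Proof. `¬ FixT K` gives `E₀, π₀, b₀`, tempered, without fixed point. Let `S₀` be a finite generating set
containing `1`, closed under inverses, `D v = ∑ s ∈ S₀, ‖π₀ s v + b₀ s - v‖`: continuous, and positive (if
`D v = 0` then the stabilizer of `v` contains `S₀`, so `v` is a fixed point). For every `n` take `v n` of
`ekeland` and `β n k = (D (v n))⁻¹ • (π₀ k (v n) + b₀ k - v n)`: a cocycle for `π₀`, with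
`∑ s ∈ S₀, ‖β n s‖ = 1`, so `‖β n k‖ ≤ (word length of k)` is bounded in `n` for every `k` (closure
induction), and for `‖u‖ ≤ n`: `∑ s ∈ S₀, ‖π₀ s u + β n s - u‖ = D (v n + D (v n) • u) / D (v n) ≥ 1 / 2`.
Take `E, ρ, ι` of `exists_ultra` for `π₀` and `b k = ι (n ↦ β n k)`: a cocycle (linearity of `ι` and the
equivariance property). For `e : E` and `η > 0` choose `y : Bd E₀` with `‖ι y - e‖ ≤ η`. For `n` large
`‖y n‖ ≤ n`, so `∑ s ∈ S₀, ‖x_s n‖ ≥ 1 / 2` with `x_s n = π₀ s (y n) + β n s - y n`. If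
`∑ s ∈ S₀, ‖ι x_s‖ < 1 / 2` choose `c_s > ‖ι x_s‖` with `∑ c_s < 1 / 2`; along the ultrafilter `‖x_s n‖ < c_s`
for all `s ∈ S₀` (otherwise `c_s ≤ ‖x_s n‖` along the ultrafilter and `c_s ≤ ‖ι x_s‖`), a contradiction.
So `∑ s ∈ S₀, ‖ρ s (ι y) + b s - ι y‖ ≥ 1 / 2` and, letting `η → 0` (or with `η = 1 / (8 (|S₀| + 1))`),
`∑ s ∈ S₀, ‖ρ s e + b s - e‖ ≥ 1 / 4 = c`. -/
theorem exists_reduced {K : Type u} [Group K] (hfg : Group.FG K) (hK : ¬ FixT K) :
    ∃ (E : Type u) (_ : NormedAddCommGroup E) (_ : InnerProductSpace ℝ E) (_ : CompleteSpace E)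
      (π : K →* (E ≃ₗᵢ[ℝ] E)) (b : K → E), Tempered π ∧
      (∀ g h, b (g * h) = b g + π g (b h)) ∧
      ∃ (S₀ : Finset K) (c : ℝ), 0 < c ∧ ∀ v, c ≤ ∑ s ∈ S₀, ‖π s v + b s - v‖ := by
  classical
  unfold FixT at hK
  push Not at hK
  obtain ⟨E₀, i1, i2, i3, π₀, b₀, hπ₀, hb₀, hfix⟩ := hK
  obtain ⟨S, hS⟩ := hfg.out
  have hpimul : ∀ (g h : K) (v : E₀), π₀ (g * h) v = π₀ g (π₀ h v) := by
    intro g h v
    rw [map_mul]
    rfl
  have hpione : ∀ v : E₀, π₀ 1 v = v := by
    intro v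
    rw [map_one]
    rfl
  have hb1 : b₀ 1 = 0 := by
    have h := hb₀ 1 1
    rw [mul_one, hpione] at h
    simpa using h
  -- the displacement function
  set D : E₀ → ℝ := fun v => ∑ s ∈ S, ‖π₀ s v + b₀ s - v‖ with hDdef
  have hDc : Continuous D := by
    refine continuous_finsetSum _ fun s _ => ?_
    exact (((π₀ s).continuous.add continuous_const).sub continuous_id).norm
  have hDpos : ∀ v, 0 < D v := by
    intro v
    have h0 : 0 ≤ D v := Finset.sum_nonneg fun s _ => norm_nonneg _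
    refine lt_of_le_of_ne h0 fun hz => ?_
    have hz2 : ∀ s ∈ S, π₀ s v + b₀ s = v := by
      intro s hs
      have h1 := (Finset.sum_eq_zero_iff_of_nonneg (fun s _ => norm_nonneg _)).1 hz.symm s hs
      exact sub_eq_zero.1 (norm_eq_zero.1 h1)
    obtain ⟨g, hg⟩ := hfix v
    apply hg
    have hgS : g ∈ Subgroup.closure (S : Set K) := by
      rw [hS]
      exact Subgroup.mem_top g
    clear hg
    induction hgS using Subgroup.closure_induction with
    | mem x hx => exact hz2 x hx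
    | one => rw [hpione, hb1, add_zero]
    | mul x y _ _ hx hy =>
      rw [hpimul, hb₀, ← add_assoc, add_right_comm, ← map_add, hy, hx]
    | inv x _ hx =>
      have h1 : π₀ x⁻¹ (π₀ x v + b₀ x) = π₀ x⁻¹ v := by rw [hx]
      rw [map_add, ← hpimul, inv_mul_cancel, hpione] at h1
      have h2 := hb₀ x⁻¹ x
      rw [inv_mul_cancel, hb1] at h2
      have h3 : π₀ x⁻¹ (b₀ x) = - b₀ x⁻¹ := by
        rw [eq_neg_iff_add_eq_zero, add_comm]
        exact h2.symm
      rw [h3] at h1
      rw [← h1]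
      abel
  have hch : ∀ n : ℕ, ∃ v, ∀ v', ‖v' - v‖ ≤ n * D v → D v / 2 ≤ D v' := fun n =>
    ekeland D hDc hDpos n
  choose v hv using hch
  set β : ℕ → K → E₀ := fun n k => (D (v n))⁻¹ • (π₀ k (v n) + b₀ k - v n) with hβ
  have hβmul : ∀ n g h, β n (g * h) = β n g + π₀ g (β n h) := by
    intro n g h
    simp only [hβ]
    rw [map_smul, ← smul_add]
    congr 1
    rw [map_sub, map_add, hpimul, hb₀]
    abel
  have hβ1 : ∀ n, β n 1 = 0 := by
    intro n
    simp only [hβ]
    rw [hpione, hb1]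
    simp
  have hβsum : ∀ n, ∀ u : E₀, D (v n) * ∑ s ∈ S, ‖π₀ s u + β n s - u‖ = D (v n + D (v n) • u) := by
    intro n u
    rw [Finset.mul_sum]
    simp only [hDdef]
    refine Finset.sum_congr rfl fun s _ => ?_
    have hne : D (v n) ≠ 0 := (hDpos (v n)).ne'
    change D (v n) * ‖π₀ s u + β n s - u‖ = ‖π₀ s (v n + D (v n) • u) + b₀ s - (v n + D (v n) • u)‖
    have h1 : π₀ s (v n + D (v n) • u) + b₀ s - (v n + D (v n) • u) =
        D (v n) • (π₀ s u + β n s - u) := by
      simp only [hβ]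
      rw [smul_sub, smul_add, smul_inv_smul₀ hne, map_add, map_smul]
      abel
    rw [h1, norm_smul, Real.norm_of_nonneg (hDpos (v n)).le]
  have hβS : ∀ n, ∀ s ∈ S, ‖β n s‖ ≤ 1 := by
    intro n s hs
    have h1 := hβsum n 0
    rw [smul_zero, add_zero] at h1
    have h2 : ∑ s ∈ S, ‖π₀ s (0 : E₀) + β n s - 0‖ = 1 :=
      mul_left_cancel₀ (hDpos (v n)).ne' (by rw [h1, mul_one])
    have h3 : ‖π₀ s (0 : E₀) + β n s - 0‖ ≤ ∑ s ∈ S, ‖π₀ s (0 : E₀) + β n s - 0‖ :=
      Finset.single_le_sum (f := fun s => ‖π₀ s (0 : E₀) + β n s - 0‖)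
        (fun s _ => norm_nonneg _) hs
    rw [h2, map_zero, zero_add, sub_zero] at h3
    exact h3
  have hβbd : ∀ k : K, ∃ C : ℝ, ∀ n, ‖β n k‖ ≤ C := by
    intro k
    have hk : k ∈ Subgroup.closure (S : Set K) := by
      rw [hS]
      exact Subgroup.mem_top k
    induction hk using Subgroup.closure_induction with
    | mem x hx => exact ⟨1, fun n => hβS n x hx⟩
    | one => exact ⟨0, fun n => by rw [hβ1, norm_zero]⟩
    | mul x y _ _ hx hy =>
      obtain ⟨C, hC⟩ := hx
      obtain ⟨C', hC'⟩ := hy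
      refine ⟨C + C', fun n => ?_⟩
      rw [hβmul]
      refine (norm_add_le _ _).trans (add_le_add (hC n) ?_)
      rw [LinearIsometryEquiv.norm_map]
      exact hC' n
    | inv x _ hx =>
      obtain ⟨C, hC⟩ := hx
      refine ⟨C, fun n => ?_⟩
      have h2 := hβmul n x x⁻¹
      rw [mul_inv_cancel, hβ1] at h2
      have h3 : ‖π₀ x (β n x⁻¹)‖ = ‖β n x‖ := by
        rw [← norm_neg (β n x)]
        congr 1
        rw [eq_neg_iff_add_eq_zero, add_comm]
        exact h2.symm
      rw [LinearIsometryEquiv.norm_map] at h3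
      rw [h3]
      exact hC n
  -- the ultrapower
  obtain ⟨E, j1, j2, j3, ρ, ι, hρ, hdense, hle, hge, heq⟩ := exists_ultra π₀ hπ₀
  let bs : K → Bd E₀ := fun k => ⟨fun n => β n k, hβbd k⟩
  let act : K → Bd E₀ → Bd E₀ := fun k x => ⟨fun n => π₀ k (x.1 n), by
    obtain ⟨C, hC⟩ := x.2
    exact ⟨C, fun n => by rw [LinearIsometryEquiv.norm_map]; exact hC n⟩⟩
  have hact : ∀ k x, ρ k (ι x) = ι (act k x) := fun k x => heq k x (act k x) fun n => rfl
  refine ⟨E, j1, j2, j3, ρ, fun k => ι (bs k), hρ, ?_, S, 1 / 4, by norm_num, ?_⟩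
  · intro g h
    change ι (bs (g * h)) = ι (bs g) + ρ g (ι (bs h))
    rw [hact, ← map_add]
    congr 1
    apply Subtype.ext
    funext n
    exact hβmul n g h
  · intro e
    change 1 / 4 ≤ ∑ s ∈ S, ‖ρ s e + ι (bs s) - e‖
    have hcard : (0 : ℝ) < S.card + 1 := by positivity
    set η : ℝ := 1 / (8 * (S.card + 1)) with hη
    have hηpos : 0 < η := by positivity
    obtain ⟨y, hy⟩ := hdense.exists_dist_lt e hηpos
    -- the estimate for `ι y`
    have hxs : ∀ s, ι (act s y + bs s - y) = ρ s (ι y) + ι (bs s) - ι y := by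
      intro s
      rw [map_sub, map_add, ← hact]
    have hmain : 1 / 2 ≤ ∑ s ∈ S, ‖ρ s (ι y) + ι (bs s) - ι y‖ := by
      by_contra hlt
      push Not at hlt
      set tt : ℝ := ∑ s ∈ S, ‖ρ s (ι y) + ι (bs s) - ι y‖ with htt
      set δ : ℝ := (1 / 2 - tt) / (S.card + 1) with hδ
      have hδpos : 0 < δ := div_pos (by linarith) hcard
      have hev : ∀ s ∈ S, ∀ᶠ n in (hyperfilter ℕ : Filter ℕ),
          ‖(act s y + bs s - y).1 n‖ < ‖ρ s (ι y) + ι (bs s) - ι y‖ + δ := by
        intro s _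
        rcases Ultrafilter.em (hyperfilter ℕ)
          (fun n => ‖ρ s (ι y) + ι (bs s) - ι y‖ + δ ≤ ‖(act s y + bs s - y).1 n‖) with h | h
        · have h1 := hge _ _ h
          rw [hxs] at h1
          linarith
        · filter_upwards [h] with n hn
          exact not_le.1 hn
      have hev2 : ∀ᶠ n in (hyperfilter ℕ : Filter ℕ), ∀ s ∈ S,
          ‖(act s y + bs s - y).1 n‖ < ‖ρ s (ι y) + ι (bs s) - ι y‖ + δ :=
        (Filter.eventually_all_finset S).2 hev
      obtain ⟨C, hC⟩ := y.2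
      have hev3 : ∀ᶠ n : ℕ in (hyperfilter ℕ : Filter ℕ), C ≤ (n : ℝ) := by
        have h1 : ∀ᶠ n : ℕ in atTop, C ≤ (n : ℝ) := by
          obtain ⟨m, hm⟩ := exists_nat_ge C
          filter_upwards [eventually_ge_atTop m] with n hn
          exact hm.trans (by exact_mod_cast hn)
        rw [← Nat.cofinite_eq_atTop] at h1
        exact hyperfilter_le_cofinite h1
      obtain ⟨n, hn1, hn2⟩ := (hev2.and hev3).exists
      have h1 : D (v n) / 2 ≤ D (v n + D (v n) • y.1 n) := by
        refine hv n _ ?_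
        rw [add_sub_cancel_left, norm_smul, Real.norm_of_nonneg (hDpos (v n)).le, mul_comm]
        exact mul_le_mul_of_nonneg_right ((hC n).trans hn2) (hDpos (v n)).le
      rw [← hβsum] at h1
      have h2 : 1 / 2 ≤ ∑ s ∈ S, ‖π₀ s (y.1 n) + β n s - y.1 n‖ := by
        have h3 := hDpos (v n)
        by_contra h4
        push Not at h4
        have h5 := mul_lt_mul_of_pos_left h4 h3
        linarith
      have h3 : ∑ s ∈ S, ‖π₀ s (y.1 n) + β n s - y.1 n‖ ≤
          ∑ s ∈ S, (‖ρ s (ι y) + ι (bs s) - ι y‖ + δ) :=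
        Finset.sum_le_sum fun s hs => (hn1 s hs).le
      rw [Finset.sum_add_distrib, Finset.sum_const, nsmul_eq_mul] at h3
      have h4 : (S.card : ℝ) * δ < 1 / 2 - tt := by
        have h5 : ((S.card : ℝ) + 1) * δ = 1 / 2 - tt := by
          rw [hδ]
          field_simp
        linarith
      linarith
    have hdiff : ∀ s ∈ S, ‖ρ s (ι y) + ι (bs s) - ι y‖ ≤ ‖ρ s e + ι (bs s) - e‖ + 2 * η := by
      intro s _
      have h1 : ρ s (ι y) + ι (bs s) - ι y =
          (ρ s e + ι (bs s) - e) + (ρ s (ι y - e) + (e - ι y)) := by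
        rw [map_sub]
        abel
      rw [h1]
      refine (norm_add_le _ _).trans (add_le_add le_rfl ?_)
      refine (norm_add_le _ _).trans ?_
      rw [LinearIsometryEquiv.norm_map, ← dist_eq_norm, ← dist_eq_norm, dist_comm (ι y) e]
      linarith
    have h5 := hmain.trans (Finset.sum_le_sum hdiff)
    rw [Finset.sum_add_distrib, Finset.sum_const, nsmul_eq_mul] at h5
    have h6 : (S.card : ℝ) * (2 * η) ≤ 1 / 4 := by
      rw [hη]
      have h7 : (S.card : ℝ) * (2 * (1 / (8 * (S.card + 1)))) = (1 / 4) * (S.card / (S.card + 1)) := by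
        field_simp
        ring
      rw [h7]
      have h8 : (S.card : ℝ) / (S.card + 1) ≤ 1 := by
        rw [div_le_one hcard]
        linarith
      linarith
    linarith

end Kaz
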