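import Pool.Agent.W_04c03c_h58.RayC2
import Pool.Agent.W_04c03c_h58k.TDef

/-!
# Elements of infinite order
-/

namespace Kaz

open RCan
open scoped NNReal

theorem XO_pow {G X : Type*} [Group G] [MetricSpace X] [MulAction G X]
    (hi : ∀ (g : G) (x y : X), dist (g • x) (g • y) = dist x y) (g : G) (o : X) (m : ℕ) :
    dist (g • o) (g ^ (m + 1) • o) = dist o (g ^ m • o) := by
  rw [pow_succ', mul_smul, hi]

theorem XO_sq {G X : Type*} [Group G] [MetricSpace X] [MulAction G X]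
    (hi : ∀ (g : G) (x y : X), dist (g • x) (g • y) = dist x y) (g : G) (o : X) :
    dist o (g • g • o) = dist (g • o) (g⁻¹ • o) := by
  rw [← hi g⁻¹ o (g • g • o), inv_smul_smul, dist_comm]

/-- Lemma 1. Proof. Let `a n = dist o (g ^ n • o)`. The four point condition for `o, g o, g² o, g^(n+1) o`
in the form `dist o (g² o) + dist (g o) (g^(n+1) o) ≤ max (dist o (g o) + dist (g² o) (g^(n+1) o))
(dist o (g^(n+1) o) + dist (g o) (g² o)) + 2 δ` gives `a 2 + a n ≤ a 1 + max (a (n-1)) (a (n+1)) + 2 δ` for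
`n ≥ 1`. With `ε = a 2 - a 1 - 2 δ > 0`: `a n + ε ≤ max (a (n-1)) (a (n+1))`. By induction
`a (n+1) ≥ a n + ε` for `n ≥ 1` (`n = 1`: `a 2 = a 1 + 2 δ + ε`; for `n ≥ 2` `a (n-1) < a n + ε`). So
`a n ≥ a 1 + (n - 1) ε`, which tends to infinity, and `g` has infinite order (if `g ^ m = 1`, `m ≥ 1`
then `a (m * j) = 0` for all `j`). -/
theorem infOrd_of_two {G X : Type*} [Group G] [MetricSpace X] [MulAction G X] {δ : ℝ}
    (hδ : Hyp4 X δ) (hi : ∀ (g : G) (x y : X), dist (g • x) (g • y) = dist x y) {g : G} {o : X}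
    (h : dist o (g • o) + 2 * δ < dist o (g • g • o)) : InfOrd g := by
  set a : ℕ → ℝ := fun n => dist o (g ^ n • o) with ha
  have ha1 : dist o (g • o) = a 1 := by simp [ha]
  have ha2 : dist o (g • g • o) = a 2 := by simp [ha, pow_two, mul_smul]
  rw [ha1, ha2] at h
  have key : ∀ m : ℕ, a 2 + a (m + 1) ≤ max (a 1 + a m) (a (m + 2) + a 1) + 2 * δ := by
    intro m
    have h1 := hδ.2 o (g ^ 2 • o) (g • o) (g ^ (m + 2) • o)
    have h2 : dist (g • o) (g ^ (m + 2) • o) = a (m + 1) := XO_pow hi g o (m + 1)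
    have h3 : dist (g ^ 2 • o) (g • o) = a 1 := by
      rw [dist_comm, XO_pow hi g o 1]
    have h4 : dist (g ^ 2 • o) (g ^ (m + 2) • o) = a m := by
      rw [pow_two, mul_smul, pow_succ', mul_smul, hi, XO_pow hi g o m]
    rw [h2, h3, h4, ha1] at h1
    exact h1
  have hstep : ∀ m : ℕ, a (m + 1) + (a 2 - a 1 - 2 * δ) ≤ a (m + 2) := by
    intro m
    induction m with
    | zero => have := hδ.1; simp only [zero_add]; linarith
    | succ m ih =>
      have h1 := key (m + 1)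
      rcases le_total (a 1 + a (m + 1)) (a (m + 1 + 2) + a 1) with h2 | h2
      · rw [max_eq_right h2] at h1
        linarith
      · rw [max_eq_left h2] at h1
        have h3 : a (m + 1 + 1) = a (m + 2) := rfl
        rw [h3] at h1
        linarith
  have hlow : ∀ m : ℕ, (m : ℝ) * (a 2 - a 1 - 2 * δ) ≤ a (m + 1) := by
    intro m
    induction m with
    | zero => simp [ha]
    | succ m ih =>
      have h1 := hstep m
      push_cast
      have h3 : a (m + 1 + 1) = a (m + 2) := rfl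
      rw [h3]
      linarith
  intro k hk hgk
  have h1 := hlow (2 * k - 1)
  have h2 : 2 * k - 1 + 1 = 2 * k := by omega
  have h3 : a (2 * k) = 0 := by
    simp only [ha]
    rw [mul_comm, pow_mul, hgk, one_pow, one_smul, dist_self]
  rw [h2, h3] at h1
  have h4 : (0 : ℝ) < ((2 * k - 1 : ℕ) : ℝ) := by
    exact_mod_cast (by omega : 0 < 2 * k - 1)
  have h5 : 0 < a 2 - a 1 - 2 * δ := by linarith
  have := mul_pos h4 h5
  linarith

theorem XO_not {G X : Type*} [Group G] [MetricSpace X] [MulAction G X] {δ : ℝ}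
    (hδ : Hyp4 X δ) (hi : ∀ (g : G) (x y : X), dist (g • x) (g • y) = dist x y) {g : G} {o : X}
    (h : ¬ InfOrd g) : dist o (g • o) / 2 - δ ≤ gp o (g • o) (g⁻¹ • o) := by
  have h1 : dist o (g • g • o) ≤ dist o (g • o) + 2 * δ := by
    by_contra hc
    exact h (infOrd_of_two hδ hi (not_le.1 hc))
  rw [XO_sq hi] at h1
  have h2 : dist o (g⁻¹ • o) = dist o (g • o) := by
    rw [← hi g o (g⁻¹ • o), smul_inv_smul, dist_comm]
  unfold gp
  rw [h2]
  linarith

/-- Lemma 2 (Gromov; Coornaert-Delzant-Papadopoulos 9.2.3).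

Proof. Write `a = dist o (g o)`, `b = dist o (h o)`, `p = gp o (g o) (h o)`, all products at `o`.
If `g` does not have infinite order then by Lemma 1 `dist o (g² o) ≤ a + 2 δ`, and
`dist o (g² o) = dist (g⁻¹ o) (g o) = 2 a - 2 gp (g⁻¹ o) (g o)`, so `gp (g o) (g⁻¹ o) ≥ a / 2 - δ`; similarly
for `h`. Suppose neither `g` nor `h` has infinite order. `p ≥ min (gp (g o) (g⁻¹ o)) (gp (g⁻¹ o) (h o)) - δ`
(`gp_hyp`) and `a / 2 - δ > p + δ`, so `gp (g⁻¹ o) (h o) ≤ p + δ`. Similarly `gp (g o) (h⁻¹ o) ≤ p + δ`.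
Let `k = g h`, `c = dist o (k o) = dist (g⁻¹ o) (h o) = a + b - 2 gp (g⁻¹ o) (h o) ≥ a + b - 2 p - 2 δ`.
`gp (k o) (g o) = (c + a - dist (g h o) (g o)) / 2 = (c + a - b) / 2 ≥ a - p - δ`, and
`gp (k⁻¹ o) (h⁻¹ o) = (c + b - a) / 2 ≥ b - p - δ` (`k⁻¹ o = h⁻¹ g⁻¹ o`). Two uses of `gp_hyp`:
`gp (g o) (h⁻¹ o) ≥ min (gp (g o) (k o)) (min (gp (k o) (k⁻¹ o)) (gp (k⁻¹ o) (h⁻¹ o))) - 2 δ`; since
`gp (g o) (h⁻¹ o) ≤ p + δ` and `a - p - δ, b - p - δ > p + 3 δ`, `gp (k o) (k⁻¹ o) ≤ p + 3 δ`. Then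
`dist o (k² o) = 2 c - 2 gp (k⁻¹ o) (k o) ≥ 2 c - 2 p - 6 δ > c + 2 δ` because
`c ≥ a + b - 2 p - 2 δ > 2 p + 8 δ`. By Lemma 1 `k` has infinite order. -/
theorem infOrd_of_pair {G X : Type*} [Group G] [MetricSpace X] [MulAction G X] {δ : ℝ}
    (hδ : Hyp4 X δ) (hi : ∀ (g : G) (x y : X), dist (g • x) (g • y) = dist x y) {g h : G} {o : X}
    (hg : 2 * gp o (g • o) (h • o) + 10 * δ + 1 ≤ dist o (g • o))
    (hh : 2 * gp o (g • o) (h • o) + 10 * δ + 1 ≤ dist o (h • o)) : ∃ k : G, InfOrd k := by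
  have hδ0 := hδ.1
  by_cases hgi : InfOrd g
  · exact ⟨g, hgi⟩
  by_cases hhi : InfOrd h
  · exact ⟨h, hhi⟩
  refine ⟨g * h, ?_⟩
  have h1 := XO_not hδ hi (o := o) hgi
  have h2 := XO_not hδ hi (o := o) hhi
  set p := gp o (g • o) (h • o) with hp
  -- `gp (g⁻¹ o) (h o) ≤ p + δ`
  have h3 : gp o (g⁻¹ • o) (h • o) ≤ p + δ := by
    by_contra hc
    have h4 := gp_hyp hδ o (g • o) (g⁻¹ • o) (h • o)
    have h5 : p + δ < min (gp o (g • o) (g⁻¹ • o)) (gp o (g⁻¹ • o) (h • o)) :=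
      lt_min (by linarith) (not_le.1 hc)
    linarith
  have h4 : gp o (g • o) (h⁻¹ • o) ≤ p + δ := by
    by_contra hc
    have h4 := gp_hyp hδ o (g • o) (h⁻¹ • o) (h • o)
    rw [gp_comm o (h⁻¹ • o)] at h4
    have h5 : p + δ < min (gp o (g • o) (h⁻¹ • o)) (gp o (h • o) (h⁻¹ • o)) :=
      lt_min (not_le.1 hc) (by linarith)
    linarith
  have hginv : dist o (g⁻¹ • o) = dist o (g • o) := by
    rw [← hi g o (g⁻¹ • o), smul_inv_smul, dist_comm]
  have hhinv : dist o (h⁻¹ • o) = dist o (h • o) := by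
    rw [← hi h o (h⁻¹ • o), smul_inv_smul, dist_comm]
  have hc1 : dist o ((g * h) • o) = dist (g⁻¹ • o) (h • o) := by
    rw [← hi g⁻¹ o ((g * h) • o), mul_smul, inv_smul_smul]
  have hcinv : dist o ((g * h)⁻¹ • o) = dist o ((g * h) • o) := by
    rw [← hi (g * h) o ((g * h)⁻¹ • o), smul_inv_smul, dist_comm]
  have hc2 : dist o (g • o) + dist o (h • o) - 2 * p - 2 * δ ≤ dist o ((g * h) • o) := by
    rw [hc1]
    unfold gp at h3
    rw [hginv] at h3
    linarith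
  have hb : dist ((g * h) • o) (g • o) = dist o (h • o) := by
    rw [mul_smul, hi, dist_comm]
  have hb2 : dist ((g * h)⁻¹ • o) (h⁻¹ • o) = dist o (g • o) := by
    rw [mul_inv_rev, mul_smul, hi, dist_comm, hginv]
  have h6 : dist o (g • o) - p - δ ≤ gp o (g • o) ((g * h) • o) := by
    rw [gp_comm]
    unfold gp
    rw [hb]
    linarith
  have h7 : dist o (h • o) - p - δ ≤ gp o ((g * h)⁻¹ • o) (h⁻¹ • o) := by
    unfold gp
    rw [hb2, hhinv, hcinv]
    linarith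
  have h8 : gp o ((g * h) • o) (h⁻¹ • o) ≤ p + 2 * δ := by
    by_contra hc
    have h9 := gp_hyp hδ o (g • o) ((g * h) • o) (h⁻¹ • o)
    have h10 : p + 2 * δ < min (gp o (g • o) ((g * h) • o)) (gp o ((g * h) • o) (h⁻¹ • o)) :=
      lt_min (by linarith) (not_le.1 hc)
    linarith
  have h9 : gp o ((g * h) • o) ((g * h)⁻¹ • o) ≤ p + 3 * δ := by
    by_contra hc
    have h9 := gp_hyp hδ o ((g * h) • o) ((g * h)⁻¹ • o) (h⁻¹ • o)
    have h10 : p + 3 * δ < min (gp o ((g * h) • o) ((g * h)⁻¹ • o))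
        (gp o ((g * h)⁻¹ • o) (h⁻¹ • o)) :=
      lt_min (not_le.1 hc) (by linarith)
    linarith
  refine infOrd_of_two hδ hi (o := o) ?_
  rw [XO_sq hi]
  have h10 : dist ((g * h) • o) ((g * h)⁻¹ • o) =
      2 * dist o ((g * h) • o) - 2 * gp o ((g * h) • o) ((g * h)⁻¹ • o) := by
    unfold gp
    rw [hcinv]
    ring
  rw [h10]
  linarith

/-- Infinite groups acting cocompactly: elements of infinite order.

Proof. `exists_two_rays` gives rays `γ₁, γ₂` from `o` which are not asymptotic, `gp_bdd` a bound `M` of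
`gp o (γ₁ s) (γ₂ t)`. Choose `o` any point, and `D` with: for every `x` there is `g` with
`dist (g • o) x ≤ D` (from `hco`: `K` is bounded, `g⁻¹`). For `n` large choose `g, h` with
`dist (g • o) (γ₁ n) ≤ D`, `dist (h • o) (γ₂ n) ≤ D`: `gp o (g o) (h o) ≤ M + 2 D` (`gp_point`, `gp_comm`) and
`dist o (g o), dist o (h o) ≥ n - D`. Apply `infOrd_of_pair`. -/
theorem infOrd_of_cocpt {G X : Type*} [Group G] [MetricSpace X] [ProperSpace X] [MulAction G X]
    (hG : IsGeod X) (hH : IsHyp X)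
    (hi : ∀ (g : G) (x y : X), dist (g • x) (g • y) = dist x y)
    (hnt : Nontrivial (Bdry X)) (hco : ∃ K : Set X, IsCompact K ∧ ∀ x, ∃ g : G, g • x ∈ K) :
    ∃ g : G, InfOrd g := by
  obtain ⟨δ, hδ⟩ := exists_hyp4 hH
  obtain ⟨o⟩ : Nonempty X := by
    obtain ⟨a, -, -⟩ := hnt
    obtain ⟨α, rfl⟩ := Quotient.exists_rep a
    exact ⟨α.1 0⟩
  obtain ⟨γ₁, γ₂, h1, h2, hne⟩ := exists_two_rays hδ hG o hnt
  obtain ⟨M, hM⟩ := gp_bdd hδ hG (o := o) hne
  obtain ⟨K, hK, hco⟩ := hco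
  obtain ⟨D, hD⟩ := hK.isBounded.subset_closedBall o
  have hD' : ∀ x : X, ∃ g : G, dist (g • o) x ≤ D := by
    intro x
    obtain ⟨g, hg⟩ := hco x
    refine ⟨g⁻¹, ?_⟩
    rw [← hi g, smul_inv_smul, dist_comm]
    exact hD hg
  obtain ⟨N, hN⟩ := exists_nat_ge (2 * (M + 2 * D) + 10 * δ + 1 + D)
  obtain ⟨g, hg⟩ := hD' (γ₁.1 N)
  obtain ⟨h, hh⟩ := hD' (γ₂.1 N)
  have h3 := gp_point o (g • o) (γ₁.1 N) (h • o)
  have h4 := gp_point o (h • o) (γ₂.1 N) (γ₁.1 N)
  rw [gp_comm o (h • o), gp_comm o (γ₂.1 N)] at h4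
  have h5 := hM N N
  have h6 : dist o (γ₁.1 N) = N := by rw [RayB_dist h1]; simp
  have h7 : dist o (γ₂.1 N) = N := by rw [RayB_dist h2]; simp
  have h8 := dist_triangle o (g • o) (γ₁.1 N)
  have h9 := dist_triangle o (h • o) (γ₂.1 N)
  rw [h6] at h8
  rw [h7] at h9
  exact infOrd_of_pair hδ hi (g := g) (h := h) (o := o) (by linarith) (by linarith)

/-- The groups of Q1 contain elements of infinite order.

Proof. If `ι` is not empty, `H i` contains a subgroup isomorphic to `ℤ²`, and the image of `(1, 0)` has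
infinite order. If `ι` is empty, then `𝓗` is empty (a member `B` would have a stabilizer, which would be
conjugate to some `H i`), so the action is cocompact; `Bdry X ≃ₜ S²` is nontrivial. -/
theorem exists_infOrd {G : Type*} [Group G] {ι : Type*} (H : ι → Subgroup G)
    (hH : ∀ i, VirtZ2 (H i)) (hG : SphereRelHyp G H) : ∃ g : G, InfOrd g := by
  rcases isEmpty_or_nonempty ι with hι | ⟨⟨i⟩⟩
  · obtain ⟨X, _, _, _, 𝓗, hGe, hHy, hC, hst, ⟨e⟩⟩ := hG
    have hemp : ∀ B ∈ 𝓗, False := by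
      intro B hB
      obtain ⟨i, -, -⟩ := (hst _).1 ⟨B, hB, rfl⟩
      exact hι.elim i
    obtain ⟨K, hK, hco⟩ := hC.cocpt
    have hnt : Nontrivial (Bdry X) := by
      have hS : Nontrivial (Metric.sphere (0 : EuclideanSpace ℝ (Fin 3)) 1) := by
        refine ⟨⟨EuclideanSpace.single 0 1, by simp⟩, ⟨EuclideanSpace.single 1 1, by simp⟩, ?_⟩
        intro h
        have h1 := congrArg (fun v => v.1 0) h
        simp at h1
      exact e.toEquiv.nontrivial
    exact infOrd_of_cocpt hGe hHy hC.isom hnt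
      ⟨K, hK, fun x => hco x fun B hB => (hemp B hB).elim⟩
  · obtain ⟨A, -, -, ⟨e⟩⟩ := hH i
    refine ⟨(e.symm (Multiplicative.ofAdd (1, 0)) : G), fun n hn h => ?_⟩
    have h1 : (e.symm (Multiplicative.ofAdd ((1 : ℤ), (0 : ℤ)))) ^ n = 1 := by
      apply Subtype.ext
      simpa using h
    rw [← map_pow] at h1
    have h2 := (MulEquiv.map_eq_one_iff e.symm).1 h1
    rw [← ofAdd_nsmul] at h2
    have h3 : n • ((1 : ℤ), (0 : ℤ)) = 0 := by
      simpa using h2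
    have h4 := congrArg Prod.fst h3
    simp at h4
    omega

end Kaz
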