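import Pool.Agent.W_04c03c_h58.PiB
import Pool.Agent.W_04c03c_h58k.XO

/-!
# Torsion isometries fixing a boundary point move far points of the ray by a bounded amount
-/

namespace Kaz

open RCan Filter Topology
open scoped NNReal

variable {X : Type*} [MetricSpace X] {δ : ℝ}

/-- Asymptotic rays are uniformly close after a shift.

Proof. All products at `o`. Let `r t = dist o (γ' t)`, `σ t = r t - t`; `σ` is non-increasing (triangle
inequality, `dist (γ' s) (γ' t) = |s - t|`) and bounded below by `-dist o (γ' 0)`, so it converges to some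
`τ`, `τ ≤ σ t` (`tendsto_atTop_ciInf`), and there is `t₀` with `σ t ≤ τ + 1 / 2` for `t ≥ t₀`; take `t₀` also so large
that `t + τ ≥ 0`. For `T ≥ t ≥ t₀`: `gp o (γ' t) (γ' T) = (r t + r T - (T - t)) / 2 = r t - (σ t - σ T) / 2
≥ r t - 1 / 4`. By `gp_of_asym` (`h`) `gp o (γ' T) (γ T) ≥ r t` for `T` large, and `gp o (γ T) (γ (r t)) = r t`
for `T ≥ r t` (`gp_ray`, `gp_comm`). Two uses of `gp_hyp'`: `gp o (γ' t) (γ (r t)) ≥ r t - 1 / 4 - 2 δ`, so by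
`dist_of_gp` `dist (γ' t) (γ (r t)) ≤ 2 (r t) - 2 (r t - 1 / 4 - 2 δ) = 4 δ + 1 / 2`. With `s = t + τ`,
`|s - r t| = σ t - τ ≤ 1 / 2`. -/
theorem shift_of_asym (hδ : Hyp4 X δ) {o : X} {γ γ' : GRay X} (h0 : γ.1 0 = o)
    (h : (asym X).r γ' γ) : ∃ (τ : ℝ) (t₀ : ℝ≥0), ∀ t ≥ t₀, ∃ s : ℝ≥0, (s : ℝ) = t + τ ∧
      dist (γ'.1 t) (γ.1 s) ≤ 4 * δ + 2 := by
  have hδ0 := hδ.1
  set σ : ℝ≥0 → ℝ := fun t => dist o (γ'.1 t) - t with hσ
  have hanti : ∀ s t : ℝ≥0, s ≤ t → σ t ≤ σ s := by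
    intro s t hst
    have h1 := dist_triangle o (γ'.1 s) (γ'.1 t)
    rw [RayB_dist2 γ' hst] at h1
    simp only [hσ]
    linarith
  have hbdd : ∀ t : ℝ≥0, -dist o (γ'.1 0) ≤ σ t := by
    intro t
    have h1 := dist_triangle (γ'.1 0) o (γ'.1 t)
    rw [RayB_dist0, dist_comm (γ'.1 0) o] at h1
    simp only [hσ]
    linarith
  have hbb : BddBelow (Set.range σ) := ⟨_, by rintro _ ⟨t, rfl⟩; exact hbdd t⟩
  set τ : ℝ := ⨅ t, σ t with hτ
  have hτle : ∀ t, τ ≤ σ t := fun t => ciInf_le hbb t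
  obtain ⟨t₁, ht₁⟩ := exists_lt_of_ciInf_lt (f := σ) (a := τ + 1 / 2) (by rw [← hτ]; linarith)
  refine ⟨τ, max t₁ (-τ).toNNReal, fun t ht => ?_⟩
  have ht1 : t₁ ≤ t := (le_max_left _ _).trans ht
  have ht2 : -τ ≤ (t : ℝ) := by
    refine (Real.le_coe_toNNReal _).trans ?_
    exact_mod_cast (le_max_right _ _).trans ht
  have hst : ((t + τ).toNNReal : ℝ) = t + τ := Real.coe_toNNReal _ (by linarith)
  refine ⟨(t + τ).toNNReal, hst, ?_⟩
  have hσt : σ t ≤ τ + 1 / 2 := (hanti t₁ t ht1).trans ht₁.le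
  obtain ⟨rt, hrt⟩ : ∃ rt : ℝ≥0, (rt : ℝ) = dist o (γ'.1 t) := ⟨⟨dist o (γ'.1 t), dist_nonneg⟩, rfl⟩
  obtain ⟨T₀, hT₀⟩ := gp_of_asym (o := o) h (dist o (γ'.1 t))
  set T : ℝ≥0 := max (max t T₀) rt with hT
  have hTt : t ≤ T := (le_max_left _ _).trans (le_max_left _ _)
  have hTT : T₀ ≤ T := (le_max_right _ _).trans (le_max_left _ _)
  have hTr : rt ≤ T := le_max_right _ _
  have e1 : dist o (γ'.1 t) - 1 / 4 ≤ gp o (γ'.1 t) (γ'.1 T) := by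
    unfold gp
    rw [RayB_dist2 γ' hTt]
    have h2 := hτle T
    simp only [hσ] at h2 hσt
    linarith
  have e2 : dist o (γ'.1 t) - 1 / 4 ≤ gp o (γ'.1 T) (γ.1 T) := by
    have := hT₀ T hTT
    linarith
  have e3 := gp_hyp' hδ e1 e2
  have e4 : dist o (γ'.1 t) - 1 / 4 - δ ≤ gp o (γ.1 T) (γ.1 rt) := by
    rw [gp_comm, gp_ray h0 hTr, hrt]
    linarith
  have e5 := dist_of_gp (gp_hyp' hδ e3 e4)
  rw [RayB_dist h0, hrt] at e5
  have e6 : dist (γ.1 rt) (γ.1 (t + τ).toNNReal) ≤ 1 / 2 := by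
    rw [γ.2.dist_eq, NNReal.dist_eq, hst, hrt, abs_le]
    have h2 := hτle t
    simp only [hσ] at h2 hσt
    constructor <;> linarith
  have e7 := dist_triangle (γ'.1 t) (γ.1 rt) (γ.1 (t + τ).toNNReal)
  linarith

/-- Proof. Let `γ' = sray hi g γ` and `τ`, `t₀` from `shift_of_asym`: for `t ≥ t₀` `g • γ t` is within
`4 δ + 2` of `γ (t + τ)`. By induction on `i`, for `t` large (`t, t + τ, ..., t + i τ ≥ t₀`),
`dist (g ^ i • γ t) (γ (t + i τ)) ≤ i (4 δ + 2)`: `g ^ (i+1) • γ t = g • (g ^ i • γ t)` is within `i (4 δ + 2)` of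
`g • γ (t + i τ)`. For `i = m`, `g ^ m = 1`: `m |τ| = dist (γ t) (γ (t + m τ)) ≤ m (4 δ + 2)`, so
`|τ| ≤ 4 δ + 2`. Then for `t ≥ t₀` `dist (g • γ t) (γ t) ≤ 4 δ + 2 + |τ| ≤ 8 δ + 4`. -/
theorem tors_shift {G : Type*} [Group G] [MulAction G X] (hδ : Hyp4 X δ)
    (hi : ∀ (g : G) (x y : X), dist (g • x) (g • y) = dist x y) {o : X} {γ : GRay X}
    (h0 : γ.1 0 = o) {g : G} {m : ℕ} (hm : 0 < m) (hg : g ^ m = 1)
    (h : (asym X).r (sray hi g γ) γ) :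
    ∃ t₀ : ℝ≥0, ∀ t ≥ t₀, dist (g • γ.1 t) (γ.1 t) ≤ 8 * δ + 4 := by
  have hδ0 := hδ.1
  obtain ⟨τ, t₀, hsh⟩ := shift_of_asym hδ h0 h
  have hsh' : ∀ t ≥ t₀, ∃ s : ℝ≥0, (s : ℝ) = t + τ ∧ dist (g • γ.1 t) (γ.1 s) ≤ 4 * δ + 2 := hsh
  have key : ∀ i : ℕ, ∃ T : ℝ≥0, ∀ t ≥ T, ∃ s : ℝ≥0, (s : ℝ) = t + i * τ ∧
      dist (g ^ i • γ.1 t) (γ.1 s) ≤ i * (4 * δ + 2) := by
    intro i
    induction i with
    | zero =>
      refine ⟨0, fun t _ => ⟨t, by simp, ?_⟩⟩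
      rw [pow_zero, one_smul, dist_self]
      simp
    | succ i ih =>
      obtain ⟨T, hT⟩ := ih
      refine ⟨max T (t₀ + (i * |τ|).toNNReal), fun t ht => ?_⟩
      obtain ⟨s, hs1, hs2⟩ := hT t ((le_max_left _ _).trans ht)
      have h2 : (t₀ : ℝ) + i * |τ| ≤ t := by
        have h3 : t₀ + (i * |τ|).toNNReal ≤ t := (le_max_right _ _).trans ht
        have h4 : ((t₀ + (i * |τ|).toNNReal : ℝ≥0) : ℝ) ≤ t := by exact_mod_cast h3
        rwa [NNReal.coe_add, Real.coe_toNNReal _ (by positivity)] at h4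
      have h3 : t₀ ≤ s := by
        have h4 : (t₀ : ℝ) ≤ s := by
          rw [hs1]
          have h5 : -(i * |τ|) ≤ i * τ := by
            have := mul_le_mul_of_nonneg_left (neg_abs_le τ) (Nat.cast_nonneg (α := ℝ) i)
            linarith
          linarith
        exact_mod_cast h4
      obtain ⟨s', hs'1, hs'2⟩ := hsh' s h3
      refine ⟨s', ?_, ?_⟩
      · rw [hs'1, hs1]
        push_cast
        ring
      · have h4 := dist_triangle (g ^ (i + 1) • γ.1 t) (g • γ.1 s) (γ.1 s')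
        rw [pow_succ', mul_smul, hi] at h4
        rw [pow_succ', mul_smul]
        push_cast
        linarith
  have hτ : |τ| ≤ 4 * δ + 2 := by
    obtain ⟨T, hT⟩ := key m
    obtain ⟨s, hs1, hs2⟩ := hT T le_rfl
    rw [hg, one_smul, γ.2.dist_eq, NNReal.dist_eq, hs1] at hs2
    have h2 : (T : ℝ) - (T + m * τ) = -(m * τ) := by ring
    rw [h2, abs_neg, abs_mul, Nat.abs_cast] at hs2
    have hm' : (0 : ℝ) < m := by exact_mod_cast hm
    exact le_of_mul_le_mul_left hs2 hm'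
  refine ⟨t₀, fun t ht => ?_⟩
  obtain ⟨s, hs1, hs2⟩ := hsh' t ht
  have h2 : dist (γ.1 s) (γ.1 t) = |τ| := by
    rw [γ.2.dist_eq, NNReal.dist_eq, hs1]
    congr 1
    ring
  have h3 := dist_triangle (g • γ.1 t) (γ.1 s) (γ.1 t)
  linarith

end Kaz
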