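import Pool.Agent.W_04c03c_h58k.XPA

/-!
# Torsion groups with unbounded orbits fix a boundary point
-/

namespace Kaz

open RCan Filter Topology
open scoped NNReal

variable {X : Type*} [MetricSpace X] {δ : ℝ}

/-- `exists_ray_gp` (in `RayB1.lean`) for tails.

Proof. `lim_seg` gives `γ'`. Let `a ≤ gp o v (x n)` for all `n ≥ n₀`; for `ε > 0` take `n ≥ n₀` and `y` with
`dist o y = t`, `dist y (x n) = dist o (x n) - t`, `dist y (γ' t) < ε` (so `gp o (x n) y = t`);
`gp o v y ≥ min a t - δ` (`gp_hyp`), and `gp o v (γ' t) ≥ gp o v y - ε` (`gp_point`, `gp_comm`). Let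
`ε → 0`. -/
theorem exists_ray_tail [ProperSpace X] (hδ : Hyp4 X δ) (hG : IsGeod X) (o : X) (x : ℕ → X)
    (h : Tendsto (fun n => dist o (x n)) atTop atTop) :
    ∃ γ' : GRay X, γ'.1 0 = o ∧ ∀ (v : X) (a : ℝ) (n₀ : ℕ), (∀ n ≥ n₀, a ≤ gp o v (x n)) →
      ∀ t : ℝ≥0, min a t - δ ≤ gp o v (γ'.1 t) := by
  obtain ⟨γ', h0, hγ⟩ := lim_seg hG o x h
  refine ⟨γ', h0, fun v a n₀ ha t => ?_⟩
  refine le_of_forall_pos_le_add fun ε hε => ?_
  obtain ⟨n, hn, y, hy1, hy2, hy3⟩ := hγ t ε hε n₀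
  have h1 : gp o (x n) y = t := by
    unfold gp
    rw [hy1, dist_comm (x n) y, hy2]
    ring
  have h2 := gp_hyp hδ o v (x n) y
  rw [h1] at h2
  have h3 := gp_point o y (γ'.1 t) v
  rw [gp_comm o y v, gp_comm o (γ'.1 t) v] at h3
  have h4 : min a (t : ℝ) ≤ min (gp o v (x n)) t := min_le_min_right _ (ha n hn)
  linarith

/-- Proof. Write `a k = dist o (k • o)`. By `infOrd_of_pair` and `ht`: for all `g, h : K`
`min (a g) (a h) < 2 gp o (g • o) (h • o) + 10 δ + 1`, i.e. with `c = 5 δ + 1 / 2`: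
(1) `gp o (g • o) (h • o) ≥ min (a g) (a h) / 2 - c`. Choose `g n : K` with `a (g n) ≥ n` (`hub`), `x n = g n • o`,
and `γ` from `exists_ray_tail`. (2) For all `k : K` and `t`: `gp o (k • o) (γ t) ≥ min (a k / 2 - c) t - δ`:
for `n ≥ a k` we have `gp o (k • o) (x n) ≥ a k / 2 - c` by (1). (3) For every `k`, the ray
`k • γ` (`sray hi k γ`) is asymptotic to `γ`: by `asym_of_gp` (for `γ := sray hi k γ`, `γ' := γ`) it is
enough to bound `gp o (k • γ s) (γ s)` from below by any `M` for some `s`. For `n` and `s` large: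
`gp o (k • x n) (k • γ s) ≥ gp (k • o) (k • x n) (k • γ s) - a k = gp o (x n) (γ s) - a k ≥
min (a (g n) / 2 - c) s - δ - a k` (`gp_base`, `gp_isom`, (2)), and `gp o (k • x n) (γ s) =
gp o ((k * g n) • o) (γ s) ≥ min (a (k * g n) / 2 - c) s - δ` by (2), `a (k * g n) ≥ a (g n) - a k`; so
`gp o (k • γ s) (γ s) ≥ min .. - 2 δ`, arbitrarily large. (4) `tors_shift`: every `k` has `k ^ m = 1` for
some `m > 0` (`ht`). -/
theorem tors_ray {K : Type*} [Group K] [ProperSpace X] [MulAction K X] (hδ : Hyp4 X δ)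
    (hG : IsGeod X) (hi : ∀ (g : K) (x y : X), dist (g • x) (g • y) = dist x y)
    (ht : ∀ g : K, ¬ InfOrd g) {o : X} (hub : ∀ D : ℝ, ∃ k : K, D ≤ dist o (k • o)) :
    ∃ γ : GRay X, γ.1 0 = o ∧
      ∀ k : K, ∃ t₀ : ℝ≥0, ∀ t ≥ t₀, dist (k • γ.1 t) (γ.1 t) ≤ 8 * δ + 4 := by
  have hδ0 := hδ.1
  have h1 : ∀ g h : K, min (dist o (g • o)) (dist o (h • o)) / 2 - (5 * δ + 1 / 2) ≤
      gp o (g • o) (h • o) := by
    intro g h
    by_contra hcon
    rw [not_le] at hcon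
    have e1 := min_le_left (dist o (g • o)) (dist o (h • o))
    have e2 := min_le_right (dist o (g • o)) (dist o (h • o))
    obtain ⟨k, hk⟩ := infOrd_of_pair hδ hi (g := g) (h := h) (o := o) (by linarith) (by linarith)
    exact ht k hk
  choose g hg using fun n : ℕ => hub (n : ℝ)
  have hx : Tendsto (fun n => dist o (g n • o)) atTop atTop :=
    tendsto_atTop_mono hg tendsto_natCast_atTop_atTop
  obtain ⟨γ, h0, hγ⟩ := exists_ray_tail hδ hG o (fun n => g n • o) hx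
  have h2 : ∀ (k : K) (t : ℝ≥0), min (dist o (k • o) / 2 - (5 * δ + 1 / 2)) t - δ ≤
      gp o (k • o) (γ.1 t) := by
    intro k t
    refine hγ (k • o) _ ⌈dist o (k • o)⌉₊ (fun n hn => ?_) t
    have e1 := h1 k (g n)
    have e2 : dist o (k • o) ≤ dist o (g n • o) :=
      (Nat.le_ceil _).trans ((by exact_mod_cast hn : ((⌈dist o (k • o)⌉₊ : ℕ) : ℝ) ≤ n).trans (hg n))
    rw [min_eq_left e2] at e1
    exact e1
  refine ⟨γ, h0, fun k => ?_⟩
  have h3 : (asym X).r (sray hi k γ) γ := by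
    refine asym_of_gp hδ hG (o := o) fun M => ?_
    obtain ⟨A, hA⟩ : ∃ A : ℝ, A = dist o (k • o) := ⟨_, rfl⟩
    have hA0 : 0 ≤ A := by rw [hA]; exact dist_nonneg
    obtain ⟨n, hn⟩ := exists_nat_ge (2 * (|M| + 2 * δ + A + (5 * δ + 1 / 2)))
    have hM := le_abs_self M
    have hM0 := abs_nonneg M
    have hgn := hg n
    refine ⟨(n : ℝ≥0), (n : ℝ≥0), ?_⟩
    have hs : (((n : ℝ≥0)) : ℝ) = n := by simp
    have e1 : M + δ ≤ gp o (k • γ.1 n) (k • g n • o) := by
      have f1 := gp_base (k • o) o (k • γ.1 n) (k • g n • o)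
      rw [gp_isom (f := fun x : X => k • x) (hi k), dist_comm (k • o) o, ← hA, gp_comm] at f1
      have f2 := h2 (g n) n
      rw [hs] at f2
      have f3 : M + 2 * δ + A ≤ min (dist o (g n • o) / 2 - (5 * δ + 1 / 2)) n :=
        le_min (by linarith) (by linarith)
      linarith
    have e2 : M + δ ≤ gp o (k • g n • o) (γ.1 n) := by
      have f2 := h2 (k * g n) n
      rw [mul_smul, hs] at f2
      have f3 := dist_triangle (k • o) o (k • g n • o)
      rw [hi, dist_comm (k • o) o, ← hA] at f3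
      have f4 : M + 2 * δ ≤ min (dist o (k • g n • o) / 2 - (5 * δ + 1 / 2)) n :=
        le_min (by linarith) (by linarith)
      linarith
    have e3 := gp_hyp' hδ e1 e2
    show M ≤ gp o (k • γ.1 n) (γ.1 n)
    linarith
  have h4 := ht k
  unfold InfOrd at h4
  push Not at h4
  obtain ⟨m, hm, hkm⟩ := h4
  exact tors_shift hδ hi h0 hm hkm h3

end Kaz
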