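import Pool.Agent.W_04c03c_h58.CuspB
import Pool.Agent.W_04c03c_h58.PiB
import Pool.Agent.W_04c03c_h58k.TDef

/-!
# A ray which is almost fixed by a finitely generated group with unbounded orbits ends in a horoball
-/

namespace Kaz

open RCan Filter Topology Set
open scoped NNReal Pointwise

variable {X : Type*} [MetricSpace X] {δ : ℝ}

/-- The ray stays in the horoballs from some time on.

Proof. Suppose not: for every `n : ℕ` there is `t n ≥ n` with `γ (t n)` in no horoball. Let `K₀` be the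
compact set of `hC.cocpt`, `K₀ ⊆ closedBall o D`, and `g n : G` with `g n • γ (t n) ∈ K₀`. Let `S` be a finite
generating set of `K`. For `n` large and `s ∈ S`, `dist (j s • γ (t n)) (γ (t n)) ≤ C₀`, so
`a = g n * j s * (g n)⁻¹` moves the point `g n • γ (t n) ∈ K₀` by at most `C₀`: `a` is in the finite set
`Φ = {g | ((g • closedBall o (D + C₀)) ∩ closedBall o (D + C₀)).Nonempty}` (`hC.pd`). So for large `n`
`n ↦ (s ↦ g n * j s * (g n)⁻¹)` takes values in the finite set `S → Φ`, and there are `n₁` and infinitely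
many `n` with the same value as at `n₁` (pigeonhole: `Finite.exists_infinite_fiber` or a statement with
`Filter.Frequently`). For these `n`, `c n = (g n₁)⁻¹ * g n` commutes with `j s` for `s ∈ S`, hence with
`j k` for all `k : K` (`Subgroup.closure_induction`). Let `D'` be such that `dist o ((g n₁)⁻¹ • x) ≤ D'`
for `x ∈ K₀`. For `k : K` take such an `n` with `t n ≥ n ≥ t₀(k)`:
`C₀ ≥ dist (j k • γ (t n)) (γ (t n)) = dist (c n • j k • γ (t n)) (c n • γ (t n)) =
dist (j k • c n • γ (t n)) (c n • γ (t n)) ≥ dist (j k • o) o - 2 D'`, since `c n • γ (t n) =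
(g n₁)⁻¹ • (g n • γ (t n))` is within `D'` of `o`. So all `dist (j k • o) o ≤ C₀ + 2 D'`, contradicting
`hub`. -/
theorem ray_in_cusps {G : Type*} [Group G] [ProperSpace X] [MulAction G X] {𝓗 : Set (Set X)}
    (hC : Cusped G 𝓗) {K : Type*} [Group K] (hfg : Group.FG K) (j : K →* G) {o : X}
    {γ : GRay X} {C₀ : ℝ}
    (hγ : ∀ k : K, ∃ t₀ : ℝ≥0, ∀ t ≥ t₀, dist (j k • γ.1 t) (γ.1 t) ≤ C₀)
    (hub : ∀ D : ℝ, ∃ k : K, D ≤ dist o (j k • o)) :
    ∃ t₀ : ℝ≥0, ∀ t ≥ t₀, ∃ B ∈ 𝓗, γ.1 t ∈ B := by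
  by_contra hcon
  push Not at hcon
  obtain ⟨K₀, hK₀, hcov⟩ := hC.cocpt
  obtain ⟨D, hD⟩ := hK₀.isBounded.subset_closedBall o
  choose t ht htB using fun n : ℕ => hcon (n : ℝ≥0)
  choose g hg using fun n : ℕ => hcov (γ.1 (t n)) (htB n)
  choose τ hτ using hγ
  obtain ⟨S, hS⟩ := hfg.out
  obtain ⟨N, hN⟩ : ∃ N : ℕ, ∀ s ∈ S, τ s ≤ N := by
    obtain ⟨N, hN⟩ := exists_nat_ge (S.sup τ)
    exact ⟨N, fun s hs => (Finset.le_sup hs).trans hN⟩
  set Φ : Set G := {g : G | ((g • Metric.closedBall o (D + C₀)) ∩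
    Metric.closedBall o (D + C₀)).Nonempty} with hΦ
  have hΦf : Φ.Finite := hC.pd _ (isCompact_closedBall o (D + C₀))
  have hC₀ : 0 ≤ C₀ := dist_nonneg.trans (hτ 1 (τ 1) le_rfl)
  have hmem : ∀ (m : ℕ) (s : S), g (N + m) * j s * (g (N + m))⁻¹ ∈ Φ := by
    intro m s
    have h1 : γ.1 (t (N + m)) = γ.1 (t (N + m)) := rfl
    have hx := hD (hg (N + m))
    rw [Metric.mem_closedBall] at hx
    have hle : τ s ≤ t (N + m) := by
      refine (hN s s.2).trans (le_trans ?_ (ht (N + m)))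
      exact_mod_cast Nat.le_add_right N m
    have h2 := hτ s (t (N + m)) hle
    have h3 : (g (N + m) * j s * (g (N + m))⁻¹) • (g (N + m) • γ.1 (t (N + m))) =
        g (N + m) • (j s • γ.1 (t (N + m))) := by
      rw [smul_smul, smul_smul, inv_mul_cancel_right]
    refine ⟨(g (N + m) * j s * (g (N + m))⁻¹) • (g (N + m) • γ.1 (t (N + m))),
      Set.smul_mem_smul_set ?_, ?_⟩
    · rw [Metric.mem_closedBall]
      linarith
    · rw [h3, Metric.mem_closedBall]
      have h4 := dist_triangle (g (N + m) • (j (s : K) • γ.1 (t (N + m))))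
        (g (N + m) • γ.1 (t (N + m))) o
      rw [hC.isom] at h4
      linarith
  have : Finite Φ := hΦf
  obtain ⟨y, hy⟩ := Finite.exists_infinite_fiber
    (fun (m : ℕ) (s : S) => (⟨g (N + m) * j s * (g (N + m))⁻¹, hmem m s⟩ : Φ))
  rw [Set.infinite_coe_iff] at hy
  obtain ⟨m₁, hm₁⟩ := hy.nonempty
  have hcomm : ∀ m ∈ (fun (m : ℕ) (s : S) =>
      (⟨g (N + m) * j s * (g (N + m))⁻¹, hmem m s⟩ : Φ)) ⁻¹' {y}, ∀ k : K,
      ((g (N + m₁))⁻¹ * g (N + m)) * j k = j k * ((g (N + m₁))⁻¹ * g (N + m)) := by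
    intro m hm k
    have hk : k ∈ Subgroup.closure (S : Set K) := by
      rw [hS]
      exact Subgroup.mem_top k
    induction hk using Subgroup.closure_induction with
    | mem s hs =>
      have h1 : (fun (s : S) => (⟨g (N + m) * j s * (g (N + m))⁻¹, hmem m s⟩ : Φ)) = y := hm
      have h2 : (fun (s : S) => (⟨g (N + m₁) * j s * (g (N + m₁))⁻¹, hmem m₁ s⟩ : Φ)) = y := hm₁
      have h3 := congrFun (h1.trans h2.symm) ⟨s, hs⟩
      have h4 : g (N + m) * j s * (g (N + m))⁻¹ = g (N + m₁) * j s * (g (N + m₁))⁻¹ :=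
        congrArg Subtype.val h3
      have h5 : g (N + m) * j s = g (N + m₁) * j s * (g (N + m₁))⁻¹ * g (N + m) := by
        rw [← h4]
        group
      calc ((g (N + m₁))⁻¹ * g (N + m)) * j s = (g (N + m₁))⁻¹ * (g (N + m) * j s) := by group
        _ = (g (N + m₁))⁻¹ * (g (N + m₁) * j s * (g (N + m₁))⁻¹ * g (N + m)) := by rw [h5]
        _ = j s * ((g (N + m₁))⁻¹ * g (N + m)) := by group
    | one => rw [map_one, mul_one, one_mul]
    | mul a b _ _ ha hb =>
      rw [map_mul, ← mul_assoc, ha, mul_assoc, hb, ← mul_assoc]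
    | inv a _ ha =>
      rw [map_inv]
      rw [eq_inv_mul_iff_mul_eq, ← mul_assoc, ← ha, mul_inv_cancel_right]
  set D' : ℝ := dist o ((g (N + m₁))⁻¹ • o) + D with hD'
  obtain ⟨k, hk⟩ := hub (C₀ + 2 * D' + 1)
  obtain ⟨M, hM⟩ := exists_nat_ge (τ k)
  obtain ⟨m, hm, hMm⟩ := hy.exists_gt M
  have hle : τ k ≤ t (N + m) := by
    refine hM.trans (le_trans ?_ (ht (N + m)))
    have : M ≤ N + m := by omega
    exact_mod_cast this
  have h1 := hτ k (t (N + m)) hle
  set x := γ.1 (t (N + m)) with hx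
  set c := (g (N + m₁))⁻¹ * g (N + m) with hc
  have h2 : dist o (c • x) ≤ D' := by
    have e1 : c • x = (g (N + m₁))⁻¹ • (g (N + m) • x) := by rw [hc, mul_smul]
    have e2 := hD (hg (N + m))
    rw [Metric.mem_closedBall, dist_comm] at e2
    have e3 := dist_triangle o ((g (N + m₁))⁻¹ • o) (c • x)
    rw [e1, hC.isom] at e3
    rw [e1]
    linarith
  have h3 : dist (j k • (c • x)) (c • x) ≤ C₀ := by
    have e1 : j k • (c • x) = c • (j k • x) := by
      rw [smul_smul, smul_smul, hcomm m hm k]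
    rw [e1, hC.isom]
    exact h1
  have h4 := dist_triangle4 o (c • x) (j k • (c • x)) (j k • o)
  rw [hC.isom, dist_comm (c • x) (j k • (c • x)), dist_comm (c • x) o] at h4
  linarith

/-- The horoball is fixed.

Proof. (1) There is a single `B ∈ 𝓗` with `γ t ∈ B` for all `t ≥ t₀`: the set `Ici t₀` is preconnected,
`γ` is continuous, the members of `𝓗` are open (`horo_HB`, `isOpen_HB`) and pairwise disjoint: let
`γ t₀ ∈ B` and let `W` be the union of the other members of `𝓗`; `Ici t₀` is covered by the two disjoint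
open preimages of `B` and `W` (compare `seg_exit`). (2) `B = HB γ₁ c` (`horo_HB`), `o ∉ B` (`ho`). `γ` is
asymptotic to `γ₁`: by `horo_gp` for `x = γ t`, `t ≥ t₀`: `gp o (γ t) (γ₁ s) ≥ dist o (γ t) / 2 = t / 2` for
`s` large; `asym_of_gp`. (3) For `k : K`: `j k • B = HB (sray _ (j k) γ₁) c` (`smul_HB`). The rays
`sray (j k) γ₁`, `sray (j k) γ` (`sray_asym`), `γ` (the distance `dist (j k • γ t) (γ t)` is bounded: by `C₀`
for `t ≥ t₀(k)`, and continuous on the compact rest, or use `dist (j k • γ t) (γ t) ≤ 2 t₀(k) + C₀` for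
`t ≤ t₀(k)`) and `γ₁` are asymptotic. So the horoballs `j k • B ∈ 𝓗` and `B` are not disjoint
(`horo_not_asym`), hence equal (`hC.disj`). -/
theorem cusp_fixed {G : Type*} [Group G] [ProperSpace X] [MulAction G X] {𝓗 : Set (Set X)}
    (hδ : Hyp4 X δ) (hG : IsGeod X) (hC : Cusped G 𝓗) {K : Type*} [Group K] (j : K →* G) {o : X}
    (ho : ∀ B ∈ 𝓗, o ∉ B) {γ : GRay X} (h0 : γ.1 0 = o) {C₀ : ℝ}
    (hγ : ∀ k : K, ∃ t₀ : ℝ≥0, ∀ t ≥ t₀, dist (j k • γ.1 t) (γ.1 t) ≤ C₀) {t₀ : ℝ≥0}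
    (hc : ∀ t ≥ t₀, ∃ B ∈ 𝓗, γ.1 t ∈ B) : ∃ B ∈ 𝓗, ∀ k : K, j k • B = B := by
  obtain ⟨B, hB, hBt₀⟩ := hc t₀ le_rfl
  have hop : ∀ B ∈ 𝓗, IsOpen B := by
    intro B' hB'
    obtain ⟨γ₁, c₁, rfl⟩ := horo_HB hC hB'
    exact isOpen_HB γ₁ c₁
  have hall : ∀ t ≥ t₀, γ.1 t ∈ B := by
    intro t ht
    by_contra hcon
    have hpre : IsPreconnected (γ.1 '' Set.Ici t₀) :=
      isPreconnected_Ici.image γ.1 γ.2.continuous.continuousOn
    obtain ⟨z, _, hz1, hz2⟩ := hpre B (⋃₀ (𝓗 \ {B})) (hop B hB)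
      (isOpen_sUnion fun B' hB' => hop B' hB'.1) (by
        rintro z ⟨u, hu, rfl⟩
        obtain ⟨B', hB', hzB'⟩ := hc u hu
        by_cases hBB : B' = B
        · exact Or.inl (hBB ▸ hzB')
        · exact Or.inr ⟨B', ⟨hB', hBB⟩, hzB'⟩)
      ⟨γ.1 t₀, ⟨t₀, Set.mem_Ici.2 le_rfl, rfl⟩, hBt₀⟩ (by
        obtain ⟨B', hB', hyB'⟩ := hc t ht
        refine ⟨γ.1 t, ⟨t, ht, rfl⟩, B', ⟨hB', ?_⟩, hyB'⟩
        intro hBB
        rw [Set.mem_singleton_iff] at hBB
        rw [hBB] at hyB'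
        exact hcon hyB')
    obtain ⟨B', ⟨hB', hne⟩, hzB'⟩ := hz2
    have h2 := hC.disj hB hB' (fun h => hne h.symm)
    exact Set.disjoint_left.1 h2 hz1 hzB'
  have hoB : o ∉ B := ho B hB
  obtain ⟨γ₁, c, hBe⟩ := horo_HB hC hB
  have hoB' : o ∉ HB γ₁ c := by rw [← hBe]; exact hoB
  have hd0 : ∀ t : ℝ≥0, dist o (γ.1 t) = t := by
    intro t
    rw [← h0, γ.2.dist_eq, NNReal.dist_eq]
    simp
  have has : (asym X).r γ γ₁ := by
    refine asym_of_gp hδ hG (o := o) fun M => ?_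
    set s : ℝ≥0 := Real.toNNReal (2 * |M|) + t₀ with hs
    have hs1 : 2 * |M| ≤ s := by
      have e1 := Real.le_coe_toNNReal (2 * |M|)
      have e2 : (0 : ℝ) ≤ t₀ := t₀.2
      rw [hs, NNReal.coe_add]
      linarith
    have hx : γ.1 s ∈ HB γ₁ c := by
      rw [← hBe]
      exact hall s (by rw [hs]; exact le_add_self)
    obtain ⟨u, hu⟩ := horo_gp hoB' hx
    refine ⟨s, u, ?_⟩
    have e1 := hu u le_rfl
    rw [hd0] at e1
    have e2 := le_abs_self M
    linarith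
  refine ⟨B, hB, fun k => ?_⟩
  by_contra hne
  have hdis := hC.disj (hC.inv (j k) B hB) hB hne
  have hdis' : Disjoint (HB (sray hC.isom (j k) γ₁) c) (HB γ₁ c) := by
    rw [← smul_HB, ← hBe]
    exact hdis
  refine horo_not_asym hdis' ?_
  have r1 : (asym X).r (sray hC.isom (j k) γ₁) (sray hC.isom (j k) γ) :=
    sray_asym hC.isom (j k) ((asym X).symm has)
  have r2 : (asym X).r (sray hC.isom (j k) γ) γ := by
    obtain ⟨u, hu⟩ := hγ k
    refine ⟨2 * u + C₀, fun t => ?_⟩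
    show dist (j k • γ.1 t) (γ.1 t) ≤ 2 * u + C₀
    have hu0 : (0 : ℝ) ≤ u := u.2
    rcases le_total u t with hut | hut
    · have := hu t hut
      linarith
    · have e1 := dist_triangle4 (j k • γ.1 t) (j k • γ.1 u) (γ.1 u) (γ.1 t)
      have e2 := hu u le_rfl
      have e3 : dist (γ.1 u) (γ.1 t) ≤ u := by
        rw [γ.2.dist_eq, NNReal.dist_eq]
        have e4 : (t : ℝ) ≤ u := by exact_mod_cast hut
        have e5 : (0 : ℝ) ≤ t := t.2
        rw [abs_of_nonneg (by linarith)]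
        linarith
      rw [hC.isom, dist_comm (γ.1 t) (γ.1 u)] at e1
      linarith
  exact (asym X).trans r1 ((asym X).trans r2 has)

end Kaz
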