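import Pool.Agent.W_04c03c_h58k.XPB
import Pool.Agent.W_04c03c_h58k.XPC

/-!
# Infinite finitely generated subgroups contain elements of infinite order
-/

namespace Kaz

open RCan Filter Topology Set
open scoped NNReal Pointwise

/-- Torsion subgroups of virtually `ℤ²` groups are finite.

Proof. Let `A ≤ H` be isomorphic to `ℤ²`, of finite index in `H`. `A` is torsion-free, so the preimage of
`A` under `j` (injective) consists of torsion elements mapping to torsion elements of `A`: it is
trivial. So `k ↦ coset of j k modulo A` is injective from `K` to the finite set `H ⧸ A`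
(`Subgroup.relIndex`, `A.subgroupOf H` has finite index). -/
theorem tors_virtZ2 {G : Type*} [Group G] {H : Subgroup G} (hH : VirtZ2 H) {K : Type*} [Group K]
    (j : K →* G) (hj : Function.Injective j) (hr : ∀ k, j k ∈ H) (ht : ∀ g : K, ¬ InfOrd g) :
    Finite K := by
  obtain ⟨A, hA1, hA2, ⟨e⟩⟩ := hH
  have key : ∀ k : K, j k ∈ A → k = 1 := by
    intro k hk
    have h1 := ht k
    unfold InfOrd at h1
    push Not at h1
    obtain ⟨n, hn, hkn⟩ := h1
    have h2 : (⟨j k, hk⟩ : A) ^ n = 1 := by
      apply Subtype.ext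
      rw [SubmonoidClass.coe_pow, OneMemClass.coe_one, ← map_pow, hkn, map_one]
    have h3 : (e ⟨j k, hk⟩) ^ n = 1 := by rw [← map_pow, h2, map_one]
    have h4 : n • (Multiplicative.toAdd (e ⟨j k, hk⟩)) = 0 := by
      rw [← toAdd_pow, h3, toAdd_one]
    have h5 : Multiplicative.toAdd (e ⟨j k, hk⟩) = 0 := by
      have h6 := congrArg Prod.fst h4
      have h7 := congrArg Prod.snd h4
      rw [Prod.smul_fst, Prod.fst_zero, nsmul_eq_mul] at h6
      rw [Prod.smul_snd, Prod.snd_zero, nsmul_eq_mul] at h7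
      have hn0 : (n : ℤ) ≠ 0 := by exact_mod_cast hn.ne'
      refine Prod.ext ?_ ?_
      · exact (mul_eq_zero.1 h6).resolve_left hn0
      · exact (mul_eq_zero.1 h7).resolve_left hn0
    have h6 : e ⟨j k, hk⟩ = 1 := by
      rw [← ofAdd_toAdd (e ⟨j k, hk⟩), h5, ofAdd_zero]
    have h7 : (⟨j k, hk⟩ : A) = 1 := by
      apply e.injective
      rw [h6, map_one]
    have h8 : j k = 1 := congrArg Subtype.val h7
    apply hj
    rw [h8, map_one]
  have hfi : (A.subgroupOf H).FiniteIndex := ⟨hA2⟩
  haveI : Finite (H ⧸ A.subgroupOf H) := Subgroup.finite_quotient_of_finiteIndex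
  refine Finite.of_injective
    (fun k : K => (QuotientGroup.mk (⟨j k, hr k⟩ : H) : H ⧸ A.subgroupOf H)) ?_
  intro k l hkl
  have h1 := QuotientGroup.eq.1 hkl
  rw [Subgroup.mem_subgroupOf] at h1
  have h2 : j (k⁻¹ * l) ∈ A := by
    rw [map_mul, map_inv]
    exact h1
  have h3 := key _ h2
  exact inv_mul_eq_one.1 h3

/-- Infinite finitely generated subgroups contain elements of infinite order.

Proof. Suppose not. Let `X, 𝓗` be as in `SphereRelHyp`, `δ` with `Hyp4 X δ` (`exists_hyp4`), `o` outside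
of all horoballs (`exists_base`; `Bdry X` is nontrivial as it is homeomorphic to the two-sphere, compare
the beginning of the proof of `exists_face` in `Asm.lean`). `K` acts on `X` through `j`
(`MulAction.compHom X j`). If the orbit of `o` under `K` is bounded, `K` is finite by `hC.pd` and
injectivity of `j`. Otherwise `tors_ray` (for the action of `K`), `ray_in_cusps` and `cusp_fixed` give
`B ∈ 𝓗` with `j k • B = B` for all `k`. The stabilizer of `B` is a conjugate of some `H i`, so it is
virtually `ℤ²` (conjugation is an isomorphism), and `tors_virtZ2` says that `K` is finite. -/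
theorem exists_infOrd_sub {G : Type*} [Group G] {ι : Type*} (H : ι → Subgroup G)
    (hH : ∀ i, VirtZ2 (H i)) (hG : SphereRelHyp G H) {K : Type*} [Group K] [Infinite K]
    (hfg : Group.FG K) (j : K →* G) (hj : Function.Injective j) : ∃ g : K, InfOrd g := by
  by_contra hcon
  push Not at hcon
  obtain ⟨X, _, _, _, 𝓗, h1, h2, h3, h4, ⟨h5⟩⟩ := hG
  obtain ⟨δ, hδ⟩ := exists_hyp4 h2
  haveI : Nontrivial (Metric.sphere (0 : EuclideanSpace ℝ (Fin 3)) 1) := by
    have h3 : (EuclideanSpace.single (0 : Fin 3) (1 : ℝ)) ∈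
        Metric.sphere (0 : EuclideanSpace ℝ (Fin 3)) 1 := by simp
    have h4 : -(EuclideanSpace.single (0 : Fin 3) (1 : ℝ)) ∈
        Metric.sphere (0 : EuclideanSpace ℝ (Fin 3)) 1 := by simp
    refine ⟨⟨⟨_, h3⟩, ⟨_, h4⟩, fun h5 => ?_⟩⟩
    have h6 := congrArg
      (fun z : Metric.sphere (0 : EuclideanSpace ℝ (Fin 3)) 1 => z.1.ofLp 0) h5
    simp at h6
    norm_num at h6
  have hnt : Nontrivial (Bdry X) := h5.toEquiv.nontrivial
  obtain ⟨o, ho⟩ := exists_base hδ h1 h3 hnt
  letI : MulAction K X := MulAction.compHom X j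
  have hsm : ∀ (k : K) (x : X), k • x = j k • x := fun k x => rfl
  have hi : ∀ (k : K) (x y : X), dist (k • x) (k • y) = dist x y := by
    intro k x y
    rw [hsm, hsm, h3.isom]
  by_cases hub : ∀ D : ℝ, ∃ k : K, D ≤ dist o (k • o)
  · obtain ⟨γ, hγ0, hγ⟩ := tors_ray hδ h1 hi hcon hub
    have hγ' : ∀ k : K, ∃ t₀ : ℝ≥0, ∀ t ≥ t₀, dist (j k • γ.1 t) (γ.1 t) ≤ 8 * δ + 4 := hγ
    obtain ⟨t₀, ht₀⟩ := ray_in_cusps h3 hfg j hγ' (o := o) hub
    obtain ⟨B, hB, hBk⟩ := cusp_fixed hδ h1 h3 j ho hγ0 hγ' ht₀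
    obtain ⟨i, g, hig⟩ := (h4 (MulAction.stabilizer G B)).1 ⟨B, hB, rfl⟩
    have hV : VirtZ2 (MulAction.stabilizer G B) := by
      rw [hig]
      obtain ⟨A, hA1, hA2, ⟨e⟩⟩ := hH i
      refine ⟨A.map (MulAut.conj g).toMonoidHom, Subgroup.map_mono hA1, ?_, ⟨?_⟩⟩
      · rw [Subgroup.relIndex_map_map_of_injective _ _ (MulAut.conj g).injective]
        exact hA2
      · exact (Subgroup.equivMapOfInjective A _ (MulAut.conj g).injective).symm.trans e
    have hfin := tors_virtZ2 hV j hj (fun k => MulAction.mem_stabilizer_iff.2 (hBk k)) hcon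
    exact not_finite K
  · push Not at hub
    obtain ⟨D, hD⟩ := hub
    have hfin := h3.pd (Metric.closedBall o D) (isCompact_closedBall o D)
    have hD0 : 0 ≤ D := (dist_nonneg.trans_lt (hD 1)).le
    have hsub : Set.range j ⊆ {g : G | ((g • Metric.closedBall o D) ∩
        Metric.closedBall o D).Nonempty} := by
      rintro _ ⟨k, rfl⟩
      refine ⟨j k • o, Set.smul_mem_smul_set (Metric.mem_closedBall_self hD0), ?_⟩
      rw [Metric.mem_closedBall, dist_comm]
      exact (hD k).le
    have h6 := hfin.subset hsub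
    have h7 : Finite K := by
      rw [← Set.finite_univ_iff]
      apply Set.Finite.of_finite_image (f := j)
      · rw [Set.image_univ]
        exact h6
      · exact hj.injOn
    exact not_finite K

end Kaz
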