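import Pool.Agent.W_04c03c_h58k.CA
import Pool.Agent.W_04c03c_h58k.CN
import Pool.Agent.W_04c03c_h58k.NF
import Pool.Agent.W_04c03c_h58k.XO
import Pool.Agent.W_04c03c_h58k.DC
import Pool.Agent.W_04c03c_h58k.DE

/-!
# The groups of Q1 do not have property (T)
-/

namespace Kaz

open RCan

universe u

/-- Proof. `SphereRelHyp` gives `X`, `𝓗` and the homeomorphism to the sphere; `exists_face_ne` (`N = G`, the
action on `𝓗` is `cuspAct`), `exists_orient`, `KFace.comap` for `j`, and `not_fixT`. -/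
theorem not_fixT_of {G : Type u} [Group G] {ι : Type*} (H : ι → Subgroup G)
    (hG : SphereRelHyp G H) {K : Type u} [Group K] (j : K →* G) (hj : Function.Injective j)
    (hfg : Group.FG K) {g : K} (hg : InfOrd g) : ¬ FixT K := by
  obtain ⟨X, i1, i2, i3, 𝓗, h1, h2, hC, -, ⟨h⟩⟩ := hG
  obtain ⟨V, iV, sm, cusp, hF, hne⟩ := exists_face_ne h1 h2 hC h
  let _ : MulAction G 𝓗 := cuspAct hC
  obtain ⟨z, w, e, hK⟩ := exists_orient hF hne
  have h3 := hK.comap j hj
  exact @not_fixT K 𝓗 V _ (MulAction.compHom 𝓗 j) (MulAction.compHom V j) sm cusp z _ _ h3 hfg g hg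

/-- Proof. `fg_of_hasT`, `not_fixT_of`, and `fix_of_hasT` (every cocycle of a group with property (T) is a
coboundary, so `FixT K`). -/
theorem not_hasT_of {G : Type u} [Group G] {ι : Type*} (H : ι → Subgroup G)
    (hG : SphereRelHyp G H) {K : Type u} [Group K] (j : K →* G) (hj : Function.Injective j)
    {g : K} (hg : InfOrd g) : ¬ HasT K := by
  intro hT
  exact not_fixT_of H hG j hj (fg_of_hasT hT) hg fun E _ _ _ π b _ hb => fix_of_hasT hT π b hb

end Kaz
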