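import Pool.Agent.W_04c03c_h58k.ZZ
import Pool.Agent.W_04c03c_h58k.XPF
import Pool.Agent.W_04c03c_h58k.RA

/-!
# Assembly of the theorem on Kazhdan subgroups
-/

namespace Kaz

open RCan

universe u

/-- Proof. By `exists_infOrd` there is an element of infinite order, whose powers are pairwise
different. -/
theorem infinite_of {G : Type u} [Group G] {ι : Type*} (H : ι → Subgroup G)
    (hH : ∀ i, VirtZ2 (H i)) (hG : SphereRelHyp G H) : Infinite G := by
  obtain ⟨g, hg⟩ := exists_infOrd H hH hG
  refine Infinite.of_injective (fun n : ℕ => g ^ n) ?_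
  intro m n hmn
  rcases lt_trichotomy m n with h | h | h
  · exfalso
    have h1 : g ^ (n - m) = 1 := by
      have h2 : g ^ m * g ^ (n - m) = g ^ m * 1 := by
        rw [← pow_add, Nat.add_sub_cancel' h.le, mul_one]
        exact hmn.symm
      exact mul_left_cancel h2
    exact hg (n - m) (by omega) h1
  · exact h
  · exfalso
    have h1 : g ^ (m - n) = 1 := by
      have h2 : g ^ n * g ^ (m - n) = g ^ n * 1 := by
        rw [← pow_add, Nat.add_sub_cancel' h.le, mul_one]
        exact hmn
      exact mul_left_cancel h2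
    exact hg (m - n) (by omega) h1

/-- Infinite finitely generated subgroups have a tempered representation with nonzero reduced first
cohomology. -/
theorem reduced_of {G : Type u} [Group G] {ι : Type*} (H : ι → Subgroup G)
    (hH : ∀ i, VirtZ2 (H i)) (hG : SphereRelHyp G H) {K : Type u} [Group K] [Infinite K]
    (j : K →* G) (hj : Function.Injective j) (hfg : Group.FG K) :
    ∃ (E : Type u) (_ : NormedAddCommGroup E) (_ : InnerProductSpace ℝ E) (_ : CompleteSpace E)
      (π : K →* (E ≃ₗᵢ[ℝ] E)) (b : K → E), Tempered π ∧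
      (∀ g h, b (g * h) = b g + π g (b h)) ∧
      ∃ (S : Finset K) (c : ℝ), 0 < c ∧ ∀ v, c ≤ ∑ s ∈ S, ‖π s v + b s - v‖ := by
  obtain ⟨g, hg⟩ := exists_infOrd_sub H hH hG hfg j hj
  exact exists_reduced hfg (not_fixT_of H hG j hj hfg hg)

/-- Infinite subgroups do not have property (T). -/
theorem not_hasT_sub {G : Type u} [Group G] {ι : Type*} (H : ι → Subgroup G)
    (hH : ∀ i, VirtZ2 (H i)) (hG : SphereRelHyp G H) {K : Type u} [Group K] [Infinite K]
    (j : K →* G) (hj : Function.Injective j) : ¬ HasT K := by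
  intro hT
  obtain ⟨g, hg⟩ := exists_infOrd_sub H hH hG (fg_of_hasT hT) j hj
  exact not_hasT_of H hG j hj hg hT

end Kaz
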